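import Pool.Agent.LibLPA74.Cyc

/-!
[LP R1] Vertices are nonzero.  Representation of `LU E` on `H = (E.V × ℕ) →₀ ℂ`
(use `LU.lift` with `B = Module.End ℂ H`).  For a vertex `a` which is not a sink the set
`{g // s g = a} × ℕ` is countably infinite (`Countable E.Ed`), so choose a bijection
`σ a : {g // s g = a} × ℕ ≃ ℕ` (`nonempty_equiv_of_countable` / `Denumerable`).  Put
`v a (single (b, n)) = single (b, n)` if `b = a`, `0` otherwise;
`e g (single (b, n)) = single (s g, σ (s g) (g, n))` if `b = r g`, `0` otherwise;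
`g* (single (a, m)) = single (r g, n)` if `a = s g` and `(σ a)⁻¹ m = (g, n)`, `0` otherwise
(`Finsupp.linearCombination` or `Finsupp.lift`; check the relations on `single`).
CK2: for `m`, `(σ a)⁻¹ m = (g, n)` for exactly one `g`.
Then `v a (single (a, 0)) ≠ 0`, so `LU.gen (.v a) ≠ 0`, and `LA.incl_vx`.
-/

namespace LPA74

private theorem r1_exists_enc (E : Gph) [Countable E.Ed] :
    ∃ enc : E.Ed → ℕ → ℕ,
      (∀ g g' n n', E.s g = E.s g' → enc g n = enc g' n' → g = g' ∧ n = n') ∧
      ∀ g m, ∃ g' n, E.s g' = E.s g ∧ enc g' n = m := by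
  classical
  have h1 : ∀ a : E.V, ∃ σ : {g : E.Ed // E.s g = a} × ℕ → ℕ, Function.Injective σ ∧
      (Nonempty {g : E.Ed // E.s g = a} → Function.Surjective σ) := by
    intro a
    by_cases h : Nonempty {g : E.Ed // E.s g = a}
    · have := h
      have : Infinite ({g : E.Ed // E.s g = a} × ℕ) := inferInstance
      obtain ⟨D⟩ := nonempty_denumerable ({g : E.Ed // E.s g = a} × ℕ)
      exact ⟨Denumerable.eqv _, (Denumerable.eqv _).injective, fun _ =>
        (Denumerable.eqv _).surjective⟩
    · refine ⟨fun _ => 0, fun x => absurd ⟨x.1⟩ h, fun h' => absurd h' h⟩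
  choose σ hσ hσ' using h1
  have key : ∀ (a : E.V) (g : E.Ed) (hg : E.s g = a) (n : ℕ),
      σ (E.s g) (⟨g, rfl⟩, n) = σ a (⟨g, hg⟩, n) := by
    intro a g hg n
    subst hg
    rfl
  refine ⟨fun g n => σ (E.s g) (⟨g, rfl⟩, n), ?_, ?_⟩
  · intro g g' n n' hs he
    simp only at he
    rw [key (E.s g') g hs n] at he
    have h2 := hσ _ he
    rw [Prod.mk.injEq, Subtype.mk.injEq] at h2
    exact h2
  · intro g m
    obtain ⟨⟨⟨g', hg'⟩, n⟩, hx⟩ := hσ' (E.s g) ⟨⟨g, rfl⟩⟩ m
    refine ⟨g', n, hg', ?_⟩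
    simp only
    rw [key (E.s g) g' hg' n, hx]

open Classical in
private noncomputable def r1_op {X : Type} (F : X → (X →₀ ℂ)) : Module.End ℂ (X →₀ ℂ) :=
  Finsupp.linearCombination ℂ F

private theorem r1_op_single {X : Type} (F : X → (X →₀ ℂ)) (x : X) :
    r1_op F (Finsupp.single x 1) = F x := by
  simp [r1_op, Finsupp.linearCombination_single]

private theorem r1_ext {X : Type} {f g : Module.End ℂ (X →₀ ℂ)}
    (h : ∀ x, f (Finsupp.single x 1) = g (Finsupp.single x 1)) : f = g := by
  refine Finsupp.lhom_ext' fun x => ?_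
  refine LinearMap.ext_ring ?_
  exact h x

theorem vx_ne_zero {E : Gph} [Countable E.Ed] (a : E.V) : (vx a : LA E) ≠ 0 := by
  classical
  obtain ⟨enc, henc, hsur⟩ := r1_exists_enc E
  let H := (E.V × ℕ) →₀ ℂ
  let Fv : E.V → (E.V × ℕ) → H := fun a x => if x.1 = a then Finsupp.single x 1 else 0
  let Fe : E.Ed → (E.V × ℕ) → H := fun g x =>
    if x.1 = E.r g then Finsupp.single (E.s g, enc g x.2) 1 else 0
  let Fg : E.Ed → (E.V × ℕ) → H := fun g x =>
    if h : x.1 = E.s g ∧ ∃ n, enc g n = x.2 then Finsupp.single (E.r g, h.2.choose) 1 else 0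
  have hg1 : ∀ (g : E.Ed) (n : ℕ), Fg g (E.s g, enc g n) = Finsupp.single (E.r g, n) 1 := by
    intro g n
    have h : (E.s g, enc g n).1 = E.s g ∧ ∃ n', enc g n' = (E.s g, enc g n).2 := ⟨rfl, n, rfl⟩
    show (if h : _ then _ else _) = _
    rw [dif_pos h]
    have h2 := h.2.choose_spec
    have h3 := (henc g g _ _ rfl h2).2
    rw [h3]
  have hg0 : ∀ (g : E.Ed) (x : E.V × ℕ), ¬(x.1 = E.s g ∧ ∃ n, enc g n = x.2) → Fg g x = 0 := by
    intro g x h
    exact dif_neg h
  have hgcases : ∀ (g : E.Ed) (x : E.V × ℕ), Fg g x = 0 ∨ ∃ n, x = (E.s g, enc g n) := by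
    intro g x
    by_cases h : x.1 = E.s g ∧ ∃ n, enc g n = x.2
    · right
      obtain ⟨h1, n, h2⟩ := h
      exact ⟨n, by rw [← h1, h2]⟩
    · exact Or.inl (hg0 g x h)
  have hv1 : ∀ (a : E.V) (n : ℕ), Fv a (a, n) = Finsupp.single (a, n) 1 := fun a n => if_pos rfl
  have hv0 : ∀ (a b : E.V) (n : ℕ), b ≠ a → Fv a (b, n) = 0 := fun a b n h => if_neg h
  have he1 : ∀ (g : E.Ed) (n : ℕ), Fe g (E.r g, n) = Finsupp.single (E.s g, enc g n) 1 :=
    fun g n => if_pos rfl
  have he0 : ∀ (g : E.Ed) (b : E.V) (n : ℕ), b ≠ E.r g → Fe g (b, n) = 0 :=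
    fun g b n h => if_neg h
  let φ : Gen E → Module.End ℂ H := fun x => match x with
    | .v a => r1_op (Fv a)
    | .e f => r1_op (Fe f)
    | .g f => r1_op (Fg f)
  obtain ⟨ψ, hψ⟩ := LU.lift (E := E) (B := Module.End ℂ H) φ
    (by
      intro a
      refine r1_ext fun x => ?_
      obtain ⟨b, n⟩ := x
      rw [Module.End.mul_apply]
      show r1_op (Fv a) (r1_op (Fv a) _) = r1_op (Fv a) _
      rw [r1_op_single]
      by_cases h : b = a
      · subst h
        rw [hv1, r1_op_single, hv1]
      · rw [hv0 _ _ _ h, map_zero])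
    (by
      intro a c hac
      refine r1_ext fun x => ?_
      obtain ⟨b, n⟩ := x
      rw [Module.End.mul_apply]
      show r1_op (Fv a) (r1_op (Fv c) _) = 0
      rw [r1_op_single]
      by_cases h : b = c
      · subst h
        rw [hv1, r1_op_single, hv0 _ _ _ hac.symm]
      · rw [hv0 _ _ _ h, map_zero])
    (by
      intro f
      refine r1_ext fun x => ?_
      obtain ⟨b, n⟩ := x
      rw [Module.End.mul_apply]
      show r1_op (Fv (E.s f)) (r1_op (Fe f) _) = r1_op (Fe f) _
      rw [r1_op_single]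
      by_cases h : b = E.r f
      · subst h
        rw [he1, r1_op_single, hv1]
      · rw [he0 _ _ _ h, map_zero])
    (by
      intro f
      refine r1_ext fun x => ?_
      obtain ⟨b, n⟩ := x
      rw [Module.End.mul_apply]
      show r1_op (Fe f) (r1_op (Fv (E.r f)) _) = r1_op (Fe f) _
      rw [r1_op_single, r1_op_single]
      by_cases h : b = E.r f
      · subst h
        rw [hv1, r1_op_single]
      · rw [hv0 _ _ _ h, map_zero, he0 _ _ _ h])
    (by
      intro f
      refine r1_ext fun x => ?_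
      rw [Module.End.mul_apply]
      show r1_op (Fv (E.r f)) (r1_op (Fg f) _) = r1_op (Fg f) _
      rw [r1_op_single]
      rcases hgcases f x with h | ⟨n, rfl⟩
      · rw [h, map_zero]
      · rw [hg1, r1_op_single, hv1])
    (by
      intro f
      refine r1_ext fun x => ?_
      obtain ⟨b, n⟩ := x
      rw [Module.End.mul_apply]
      show r1_op (Fg f) (r1_op (Fv (E.s f)) _) = r1_op (Fg f) _
      rw [r1_op_single, r1_op_single]
      by_cases h : b = E.s f
      · subst h
        rw [hv1, r1_op_single]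
      · rw [hv0 _ _ _ h, map_zero, hg0]
        rintro ⟨h1, _⟩
        exact h h1)
    (by
      intro f
      refine r1_ext fun x => ?_
      obtain ⟨b, n⟩ := x
      rw [Module.End.mul_apply]
      show r1_op (Fg f) (r1_op (Fe f) _) = r1_op (Fv (E.r f)) _
      rw [r1_op_single, r1_op_single]
      by_cases h : b = E.r f
      · subst h
        rw [he1, r1_op_single, hg1, hv1]
      · rw [he0 _ _ _ h, map_zero, hv0 _ _ _ h])
    (by
      intro f f' hff
      refine r1_ext fun x => ?_
      obtain ⟨b, n⟩ := x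
      rw [Module.End.mul_apply]
      show r1_op (Fg f) (r1_op (Fe f') _) = 0
      rw [r1_op_single]
      by_cases h : b = E.r f'
      · subst h
        rw [he1, r1_op_single, hg0]
        rintro ⟨h1, n', h2⟩
        exact hff (henc f f' _ _ h1.symm h2).1
      · rw [he0 _ _ _ h, map_zero])
    (by
      intro a S hS0 hS
      refine r1_ext fun x => ?_
      obtain ⟨b, m⟩ := x
      rw [LinearMap.sum_apply]
      show r1_op (Fv a) _ = ∑ f ∈ S, (r1_op (Fe f) * r1_op (Fg f)) _
      simp only [Module.End.mul_apply, r1_op_single]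
      by_cases h : b = a
      · subst h
        obtain ⟨g0, hg0S⟩ := hS0
        obtain ⟨g', n, hs', he'⟩ := hsur g0 m
        have hgb : E.s g' = b := hs'.trans ((hS g0).1 hg0S)
        have hgS : g' ∈ S := (hS g').2 hgb
        rw [hv1, Finset.sum_eq_single g']
        · rw [← he', ← hgb, hg1, r1_op_single, he1]
        · intro f hf hne
          rw [hg0, map_zero]
          rintro ⟨h1, n', h2⟩
          refine hne (henc f g' n' n ?_ ?_).1
          · rw [hgb]
            exact h1.symm
          · rw [h2, he']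
        · intro h
          exact absurd hgS h
      · rw [hv0 _ _ _ h]
        symm
        refine Finset.sum_eq_zero fun f hf => ?_
        rw [hg0, map_zero]
        rintro ⟨h1, _⟩
        exact h (h1.trans ((hS f).1 hf)))
  intro h0
  have h1 : LA.incl E (vx a) = 0 := by rw [h0, map_zero]
  rw [LA.incl_vx] at h1
  have h2 := hψ (.v a)
  rw [h1, map_zero] at h2
  have h3 := congrArg (fun f : Module.End ℂ H => f (Finsupp.single (a, 0) 1)) h2
  simp only [LinearMap.zero_apply] at h3
  have h4 : (r1_op (Fv a)) (Finsupp.single (a, 0) 1) = Finsupp.single (a, 0) 1 := by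
    rw [r1_op_single, hv1]
  have h5 : (0 : H) = Finsupp.single (a, 0) 1 := h3.trans h4
  exact Finsupp.single_ne_zero.2 one_ne_zero h5.symm

end LPA74
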