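import Pool.Agent.LibLPA74.Cyc

/-!
[LP B2] The projections `qq S a = a - ∑_{g ∈ S, s g = a} g g*` (relations of `Api.lean`).
`star_ed_mul_qq`: if `s g = a`: `g* a - g* g g* = g* - g* = 0` (the other terms `g* g' = 0`);
if `s g ≠ a`: `g* a = 0` and `g* g' = 0` for the `g'` of the sum.
-/

namespace LPA74

variable {E : Gph} {S : Finset E.Ed} {W : Finset E.V} {a b : E.V} {g : E.Ed}

open Classical in
theorem b2_vx_mul_sum (S : Finset E.Ed) (a : E.V) :
    vx a * ∑ g ∈ S.filter (fun g => E.s g = a), ed g * star (ed g) =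
      ∑ g ∈ S.filter (fun g => E.s g = a), ed g * star (ed g) := by
  rw [Finset.mul_sum]
  refine Finset.sum_congr rfl fun g hg => ?_
  have h1 := (Finset.mem_filter.1 hg).2
  rw [← h1, ← mul_assoc, vx_mul_ed]

open Classical in
theorem b2_sum_mul_vx (S : Finset E.Ed) (a : E.V) :
    (∑ g ∈ S.filter (fun g => E.s g = a), ed g * star (ed g)) * vx a =
      ∑ g ∈ S.filter (fun g => E.s g = a), ed g * star (ed g) := by
  rw [Finset.sum_mul]
  refine Finset.sum_congr rfl fun g hg => ?_
  have h1 := (Finset.mem_filter.1 hg).2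
  rw [← h1, mul_assoc, star_ed_mul_vx]

theorem vx_mul_qq : vx a * qq S a = qq S a := by
  unfold qq
  rw [mul_sub, vx_mul_self, b2_vx_mul_sum]

theorem qq_mul_vx : qq S a * vx a = qq S a := by
  unfold qq
  rw [sub_mul, vx_mul_self, b2_sum_mul_vx]

theorem b2_star_qq (S : Finset E.Ed) (a : E.V) : star (qq S a) = qq S a := by
  unfold qq
  rw [star_sub, star_vx, star_sum]
  congr 1
  refine Finset.sum_congr rfl fun g _ => ?_
  rw [star_mul, star_star]

theorem star_ed_mul_qq (hg : g ∈ S) : star (ed g) * qq S a = 0 := by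
  classical
  unfold qq
  rw [mul_sub, Finset.mul_sum]
  by_cases h : E.s g = a
  · rw [Finset.sum_eq_single g]
    · rw [← mul_assoc, star_ed_mul_ed, vx_mul_star_ed, ← h, star_ed_mul_vx, sub_self]
    · intro g' _ hne
      rw [← mul_assoc, star_ed_mul_ed_ne hne.symm, zero_mul]
    · intro hn
      exact absurd (Finset.mem_filter.2 ⟨hg, h⟩) hn
  · rw [star_ed_mul_vx_ne h, Finset.sum_eq_zero, sub_self]
    intro g' hg'
    have h1 := (Finset.mem_filter.1 hg').2
    have hne : g ≠ g' := fun e => h (by rw [e]; exact h1)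
    rw [← mul_assoc, star_ed_mul_ed_ne hne, zero_mul]

theorem qq_mul_ed (hg : g ∈ S) : qq S a * ed g = 0 := by
  have h := congrArg star (star_ed_mul_qq (a := a) hg)
  rwa [star_mul, star_star, b2_star_qq, star_zero] at h

theorem pj_qq (S : Finset E.Ed) (a : E.V) : Pj (qq S a) := by
  classical
  refine ⟨?_, b2_star_qq S a⟩
  have h0 : (∑ g ∈ S.filter (fun g => E.s g = a), ed g * star (ed g)) * qq S a = 0 := by
    rw [Finset.sum_mul]
    refine Finset.sum_eq_zero fun g hg => ?_
    rw [mul_assoc, star_ed_mul_qq (Finset.mem_filter.1 hg).1, mul_zero]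
  have h1 : qq S a = vx a - ∑ g ∈ S.filter (fun g => E.s g = a), ed g * star (ed g) := rfl
  calc qq S a * qq S a = (vx a - ∑ g ∈ S.filter (fun g => E.s g = a), ed g * star (ed g)) * qq S a := by
        rw [← h1]
    _ = qq S a := by rw [sub_mul, h0, sub_zero, vx_mul_qq]

theorem qq_eq_vx (h : ∀ g ∈ S, E.s g ≠ a) : qq S a = vx a := by
  classical
  unfold qq
  rw [Finset.filter_eq_empty_iff.2 fun g hg => h g hg, Finset.sum_empty, sub_zero]

open Classical in
theorem vx_eq_qq_add (S : Finset E.Ed) (a : E.V) : vx a = qq S a +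
    ∑ g ∈ S.filter (fun g => E.s g = a), ed g * vx (E.r g) * star (ed g) := by
  have h1 : ∑ g ∈ S.filter (fun g => E.s g = a), ed g * vx (E.r g) * star (ed g)
      = ∑ g ∈ S.filter (fun g => E.s g = a), ed g * star (ed g) :=
    Finset.sum_congr rfl fun g _ => by rw [ed_mul_vx]
  rw [h1]
  unfold qq
  rw [sub_add_cancel]

theorem qq_mem {C : NonUnitalStarSubalgebra ℂ (LA E)} (ha : vx a ∈ C) (hS : ∀ g ∈ S, ed g ∈ C) :
    qq S a ∈ C := by
  classical
  unfold qq
  refine sub_mem ha (sum_mem fun g hg => ?_)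
  have h1 := hS g (Finset.mem_filter.1 hg).1
  exact mul_mem h1 (star_mem h1)

end LPA74
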