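import Pool.Agent.LibLPA74.Cyc

/-!
[LP B1] Path products.  `pe [] u = vx u`, `pe (g :: l) u = ed g * pe l u`; inductions on the
list with the relations of `Api.lean`.
`pe_mul_star_pe`: `ed g * (pe l u * star (pe l u)) * star (ed g) = ed g * vx (r g) * star (ed g)
= ed g * star (ed g) = vx (s g)` by `vx_eq_sum` with `S = {g}`.
-/

namespace LPA74

variable {E : Gph}

theorem vx_mul_pe (l : List E.Ed) (u : E.V) : vx (E.st l u) * pe l u = pe l u := by
  cases l with
  | nil => exact vx_mul_self u
  | cons g l =>
    change vx (E.s g) * (ed g * pe l u) = ed g * pe l u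
    rw [← mul_assoc, vx_mul_ed]

theorem vx_mul_pe_ne {l : List E.Ed} {u a : E.V} (h : a ≠ E.st l u) : vx a * pe l u = 0 := by
  rw [← vx_mul_pe, ← mul_assoc, vx_mul_ne h, zero_mul]

theorem pe_mul_vx (l : List E.Ed) (u : E.V) : pe l u * vx u = pe l u := by
  induction l with
  | nil => exact vx_mul_self u
  | cons g l ih =>
    change ed g * pe l u * vx u = ed g * pe l u
    rw [mul_assoc, ih]

theorem pe_mul_vx_ne {l : List E.Ed} {u b : E.V} (h : u ≠ b) : pe l u * vx b = 0 := by
  rw [← pe_mul_vx, mul_assoc, vx_mul_ne h, mul_zero]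

theorem ed_mul_pe_ne {g : E.Ed} {l : List E.Ed} {u : E.V} (h : E.r g ≠ E.st l u) :
    ed g * pe l u = 0 := by
  rw [← ed_mul_vx, mul_assoc, vx_mul_pe_ne h, mul_zero]

theorem star_pe_mul_pe {l : List E.Ed} {u : E.V} (h : E.IsP l u) :
    star (pe l u) * pe l u = vx u := by
  induction l with
  | nil =>
    change star (vx u) * vx u = vx u
    rw [star_vx, vx_mul_self]
  | cons g l ih =>
    obtain ⟨h1, h2⟩ := h
    change star (ed g * pe l u) * (ed g * pe l u) = vx u
    calc star (ed g * pe l u) * (ed g * pe l u)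
        = star (pe l u) * ((star (ed g) * ed g) * pe l u) := by
          rw [star_mul]
          simp only [mul_assoc]
      _ = star (pe l u) * (vx (E.st l u) * pe l u) := by rw [star_ed_mul_ed, h1]
      _ = vx u := by rw [vx_mul_pe, ih h2]

theorem pe_mul_star_pe {l : List E.Ed} {u : E.V} (h : E.IsP l u)
    (hun : ∀ g ∈ l, ∀ g', E.s g' = E.s g → g' = g) :
    pe l u * star (pe l u) = vx (E.st l u) := by
  induction l with
  | nil =>
    change vx u * star (vx u) = vx u
    rw [star_vx, vx_mul_self]
  | cons g l ih =>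
    obtain ⟨h1, h2⟩ := h
    have h3 : (vx (E.s g) : LA E) = ed g * star (ed g) := by
      rw [vx_eq_sum (E.s g) {g} (Finset.singleton_nonempty g), Finset.sum_singleton]
      intro f
      rw [Finset.mem_singleton]
      exact ⟨fun h4 => by rw [h4], fun h4 => hun g List.mem_cons_self f h4⟩
    change ed g * pe l u * star (ed g * pe l u) = vx (E.s g)
    calc ed g * pe l u * star (ed g * pe l u)
        = ed g * (pe l u * star (pe l u)) * star (ed g) := by
          rw [star_mul]
          simp only [mul_assoc]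
      _ = ed g * vx (E.r g) * star (ed g) := by
          rw [ih h2 fun g' hg' => hun g' (List.mem_cons_of_mem _ hg'), h1]
      _ = vx (E.s g) := by rw [ed_mul_vx, h3]

theorem pe_mem {C : NonUnitalStarSubalgebra ℂ (LA E)} {l : List E.Ed} {u : E.V}
    (hl : ∀ g ∈ l, ed g ∈ C) (hu : vx u ∈ C) : pe l u ∈ C := by
  induction l with
  | nil => exact hu
  | cons g l ih =>
    exact mul_mem (hl g List.mem_cons_self) (ih fun g' hg' => hl g' (List.mem_cons_of_mem _ hg'))

end LPA74
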