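import Pool.Agent.LibLPA74.SEQ

/-!
[LP ADJ] Conjugation by a quasi-unitary.  In the unitization `Ad d x = (1+d) x (1+d)*` and
`1+d` is unitary; do the computations directly by expanding (`noncomm_ring`/`simp [mul_add,
add_mul, mul_assoc]`, using `d* d = -d - d*` and `d d* = -d - d*`).
* `seqvIn_Ad`: `w = p + d * p`, `w* = p + p d*`, `w w* = Ad d p`, `w* w = p`.
* `eqv_Ad`: `x = (p + d p)`, `y = (p + p d*)`.
-/

namespace LPA74

variable {A : Type} [NonUnitalRing A] [StarRing A] [Module ℂ A] [IsScalarTower ℂ A A]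
  [SMulCommClass ℂ A A] [StarModule ℂ A]

variable {C : NonUnitalStarSubalgebra ℂ A} {p d : A}

theorem QU.star (h : QU d) : QU (star d) := by
  obtain ⟨h1, h2⟩ := h
  refine ⟨?_, ?_⟩
  · rw [star_star, add_comm (Star.star d) d]
    exact h2
  · rw [star_star, add_comm (Star.star d) d]
    exact h1

theorem Ad_star_Ad (h : QU d) (x : A) : Ad (star d) (Ad d x) = x := by
  obtain ⟨h1, -⟩ := h
  have h3 : Ad (Star.star d) (Ad d x) = x + (d + Star.star d + Star.star d * d) * x +
      x * (d + Star.star d + Star.star d * d) +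
      (d + Star.star d + Star.star d * d) * x * (d + Star.star d + Star.star d * d) := by
    simp only [Ad, star_star, mul_add, add_mul, mul_assoc]
    abel
  rw [h3, h1]
  simp

theorem adj_mul (h : QU d) (x y : A) : Ad d (x * y) = Ad d x * Ad d y := by
  obtain ⟨h1, -⟩ := h
  have h3 : Ad d x * Ad d y = Ad d (x * y) + x * (d + Star.star d + Star.star d * d) * y +
      d * x * (d + Star.star d + Star.star d * d) * y +
      x * (d + Star.star d + Star.star d * d) * y * Star.star d +
      d * x * (d + Star.star d + Star.star d * d) * y * Star.star d := by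
    simp only [Ad, mul_add, add_mul, mul_assoc]
    abel
  rw [h3, h1]
  simp

theorem exists_AdH (h : QU d) : ∃ φ : A →⋆ₙₐ[ℂ] A, ∀ x, φ x = Ad d x :=
  ⟨{ toFun := Ad d
     map_smul' := fun c x => by
      simp only [Ad, MonoidHom.id_apply, smul_add, mul_smul_comm, smul_mul_assoc]
     map_zero' := by simp [Ad]
     map_add' := fun x y => by
      simp only [Ad, mul_add, add_mul]
      abel
     map_mul' := adj_mul h
     map_star' := fun x => by
      simp only [Ad, star_add, star_mul, star_star, mul_assoc]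
      abel }, fun _ => rfl⟩

theorem Ad_mem (hd : d ∈ C) {x : A} (hx : x ∈ C) : Ad d x ∈ C :=
  add_mem (add_mem (add_mem hx (mul_mem hd hx)) (mul_mem hx (star_mem hd)))
    (mul_mem (mul_mem hd hx) (star_mem hd))

theorem adj_aux (h : QU d) (hpp : p * p = p) :
    (p + d * p) * (p + p * Star.star d) = Ad d p ∧
      (p + p * Star.star d) * (p + d * p) = p ∧
      (p + d * p) * (p + p * Star.star d) * (p + d * p) = p + d * p ∧
      (p + p * Star.star d) * (p + d * p) * (p + p * Star.star d) = p + p * Star.star d := by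
  obtain ⟨h1, -⟩ := h
  have h2 : (p + d * p) * (p + p * Star.star d) = Ad d p := by
    have h3 : (p + d * p) * (p + p * Star.star d) =
        p * p + d * (p * p) + (p * p) * Star.star d + d * (p * p) * Star.star d := by
      simp only [mul_add, add_mul, mul_assoc]
      abel
    rw [h3, hpp]
    rfl
  have h4 : (p + p * Star.star d) * (p + d * p) = p := by
    have h5 : (p + p * Star.star d) * (p + d * p) =
        p * p + p * (d + Star.star d + Star.star d * d) * p := by
      simp only [mul_add, add_mul, mul_assoc]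
      abel
    rw [h5, h1, hpp]
    simp
  refine ⟨h2, h4, ?_, ?_⟩
  · rw [mul_assoc, h4, add_mul, mul_assoc, hpp]
  · rw [h4, mul_add, ← mul_assoc, hpp]

theorem seqvIn_Ad (h : QU d) (hd : d ∈ C) (hp : p ∈ C) (hpp : Pj p) : SEqvIn C (Ad d p) p := by
  obtain ⟨h1, h2, h3, -⟩ := adj_aux h hpp.1
  have h5 : star (p + d * p) = p + p * star d := by
    rw [star_add, star_mul, hpp.2]
  refine ⟨p + d * p, add_mem hp (mul_mem hd hp), ?_, ?_, ?_⟩
  · rw [h5, h1]
  · rw [h5, h2]
  · rw [h5, h3]

theorem eqv_Ad (h : QU d) (hpp : p * p = p) : Eqv (Ad d p) p := by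
  obtain ⟨h1, h2, h3, h4⟩ := adj_aux h hpp
  exact ⟨p + d * p, p + p * star d, h1, h2, h3, h4⟩

end LPA74
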