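import Pool.Agent.LibLPA74.EQ

/-!
[LP SEQ] Calculus of `SEqvIn C p q`: same as for `EqvIn`, with `x = w`, `y = w*`.
(`w w* w = w` gives `w* w w* = w*` by applying `star`.)
-/

namespace LPA74

variable {A : Type} [NonUnitalRing A] [StarRing A] [Module ℂ A] [IsScalarTower ℂ A A]
  [SMulCommClass ℂ A A] [StarModule ℂ A]

variable {B : Type} [NonUnitalRing B] [StarRing B] [Module ℂ B] [IsScalarTower ℂ B B]
  [SMulCommClass ℂ B B] [StarModule ℂ B]
variable {C C' : NonUnitalStarSubalgebra ℂ A} {p q r p' q' : A}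

omit [IsScalarTower ℂ A A] [SMulCommClass ℂ A A] [StarModule ℂ A] [Module ℂ A] in
theorem seq_star {w : A} (h : w * star w * w = w) : star w * w * star w = star w := by
  have h1 := congrArg star h
  rw [star_mul, star_mul, star_star] at h1
  rw [mul_assoc]
  exact h1

theorem SEqvIn.eqvIn (h : SEqvIn C p q) : EqvIn C p q := by
  obtain ⟨w, hw, h1, h2, h3⟩ := h
  exact ⟨w, hw, star w, star_mem hw, h1, h2, h3, seq_star h3⟩

theorem SEqvIn.refl (hp : p ∈ C) (h : Pj p) : SEqvIn C p p := by
  refine ⟨p, hp, ?_, ?_, ?_⟩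
  · rw [h.2, h.1]
  · rw [h.2, h.1]
  · rw [h.2, h.1, h.1]

theorem SEqvIn.symm (h : SEqvIn C p q) : SEqvIn C q p := by
  obtain ⟨w, hw, h1, h2, h3⟩ := h
  refine ⟨star w, star_mem hw, ?_, ?_, ?_⟩
  · rw [star_star, h2]
  · rw [star_star, h1]
  · rw [star_star]
    exact seq_star h3

theorem SEqvIn.trans (h : SEqvIn C p q) (h' : SEqvIn C q r) : SEqvIn C p r := by
  obtain ⟨w, hw, h1, h2, h3⟩ := h
  obtain ⟨v, hv, k1, k2, k3⟩ := h'
  have h4 : w * v * star (w * v) = p := by
    rw [star_mul]
    calc w * v * (star v * star w) = w * (v * star v) * star w := by simp only [mul_assoc]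
      _ = w * (star w * w) * star w := by rw [k1, h2]
      _ = (w * star w * w) * star w := by simp only [mul_assoc]
      _ = p := by rw [h3, h1]
  refine ⟨w * v, mul_mem hw hv, h4, ?_, ?_⟩
  · rw [star_mul]
    calc star v * star w * (w * v) = star v * (star w * w) * v := by simp only [mul_assoc]
      _ = star v * (v * star v) * v := by rw [k1, h2]
      _ = (star v * v * star v) * v := by simp only [mul_assoc]
      _ = r := by rw [seq_star k3, k2]
  · rw [h4, ← h1]
    calc w * star w * (w * v) = (w * star w * w) * v := by simp only [mul_assoc]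
      _ = w * v := by rw [h3]

theorem SEqvIn.mem_left (h : SEqvIn C p q) : p ∈ C := by
  obtain ⟨w, hw, h1, _, _⟩ := h
  rw [← h1]
  exact mul_mem hw (star_mem hw)

theorem SEqvIn.mem_right (h : SEqvIn C p q) : q ∈ C := h.symm.mem_left

theorem SEqvIn.pj_left (h : SEqvIn C p q) : Pj p := by
  obtain ⟨w, _, h1, _, h3⟩ := h
  constructor
  · rw [← h1, ← mul_assoc, h3]
  · rw [← h1, star_mul, star_star]

theorem SEqvIn.pj_right (h : SEqvIn C p q) : Pj q := h.symm.pj_left

theorem SEqvIn.mono (h : SEqvIn C p q) (hC : C ≤ C') : SEqvIn C' p q := by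
  obtain ⟨w, hw, h1, h2, h3⟩ := h
  exact ⟨w, hC hw, h1, h2, h3⟩

theorem SEqvIn.add (h : SEqvIn C p q) (h' : SEqvIn C p' q') (h1 : p * p' = 0)
    (h3 : q * q' = 0) : SEqvIn C (p + p') (q + q') := by
  have hp' : p' * p = 0 := by
    have h5 := congrArg star h1
    rw [star_mul, h.pj_left.2, h'.pj_left.2, star_zero] at h5
    exact h5
  obtain ⟨w, hw, a1, a2, a3⟩ := h
  obtain ⟨v, hv, b1, b2, b3⟩ := h'
  have a4 := seq_star a3
  have b4 := seq_star b3
  have c1 : w * star v = 0 := by
    calc w * star v = (w * star w * w) * (star v * v * star v) := by rw [a3, b4]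
      _ = w * ((star w * w) * (star v * v)) * star v := by simp only [mul_assoc]
      _ = 0 := by rw [a2, b2, h3, mul_zero, zero_mul]
  have c2 : v * star w = 0 := by
    have h5 := congrArg star c1
    rw [star_mul, star_star, star_zero] at h5
    exact h5
  have c3 : star w * v = 0 := by
    calc star w * v = (star w * w * star w) * (v * star v * v) := by rw [a4, b3]
      _ = star w * ((w * star w) * (v * star v)) * v := by simp only [mul_assoc]
      _ = 0 := by rw [a1, b1, h1, mul_zero, zero_mul]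
  have c4 : star v * w = 0 := by
    have h5 := congrArg star c3
    rw [star_mul, star_star, star_zero] at h5
    exact h5
  have c5 : p * v = 0 := by
    rw [← a1, mul_assoc, c3, mul_zero]
  have c6 : p' * w = 0 := by
    rw [← b1, mul_assoc, c4, mul_zero]
  have d1 : (w + v) * star (w + v) = p + p' := by
    rw [star_add, add_mul, mul_add, mul_add, a1, b1, c1, c2, add_zero, zero_add]
  refine ⟨w + v, add_mem hw hv, d1, ?_, ?_⟩
  · rw [star_add, add_mul, mul_add, mul_add, a2, b2, c3, c4, add_zero, zero_add]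
  · rw [d1, add_mul, mul_add, mul_add, c5, c6, add_zero, zero_add, ← a1, ← b1, a3, b3]

theorem SEqvIn.map {D : NonUnitalStarSubalgebra ℂ B} (φ : A →⋆ₙₐ[ℂ] B)
    (hC : ∀ x ∈ C, φ x ∈ D) (h : SEqvIn C p q) : SEqvIn D (φ p) (φ q) := by
  obtain ⟨w, hw, h1, h2, h3⟩ := h
  refine ⟨φ w, hC w hw, ?_, ?_, ?_⟩
  · rw [← map_star, ← map_mul, h1]
  · rw [← map_star, ← map_mul, h2]
  · rw [← map_star, ← map_mul, ← map_mul, h3]

theorem Pj.map (φ : A →⋆ₙₐ[ℂ] B) (h : Pj p) : Pj (φ p) := by
  constructor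
  · rw [← map_mul, h.1]
  · rw [← map_star, h.2]

end LPA74
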