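import Pool.Agent.LibLPA74.V2

/-!
[LP B9] Exhaustion.  `F` finite; every element is in the algebra generated by finitely many
generators.  For one element by `adjoin_induction` / `LA.induction` (take max of the `N`, union of
the `W`, `T`; the algebras are monotone in `N`, `W`, `T`: `NonUnitalStarAlgebra.adjoin_mono`), for
a finite set by `Finset.induction_on`.  For `ed f`, `f ∈ D`:
`ed f = x f * star (pe (y f) (s f))` (`Cyc.ed_eq`), the edges of `y f` are outside `D`: take `N`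
larger than their codes, `W ∋ s f`, `T = {f}`; `pe_mem`.
`exists_adm`: add to `W0` the sources and ranges of the edges of `SN N`.
-/

namespace LPA74

variable {E : Gph} (K : Cyc E) (c : E.Ed → ℕ) (hc : Function.Injective c)

theorem b9_Cs_mono {S S' : Finset E.Ed} {W W' : Finset E.V} (hS : S ⊆ S') (hW : W ⊆ W') :
    Cs S W ≤ Cs S' W' := by
  refine NonUnitalStarAlgebra.adjoin_mono ?_
  refine Set.union_subset_union ?_ ?_
  · exact Set.image_mono (Finset.coe_subset.2 hW)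
  · exact Set.image_mono (Finset.coe_subset.2 hS)

theorem b9_Bs_mono {S S' : Finset E.Ed} {W W' : Finset E.V} {T T' : Finset E.Ed}
    (hS : S ⊆ S') (hW : W ⊆ W') (hT : T ⊆ T') : K.Bs S W T ≤ K.Bs S' W' T' := by
  refine NonUnitalStarAlgebra.adjoin_mono ?_
  refine Set.union_subset_union (Set.union_subset_union ?_ ?_) ?_
  · exact Set.image_mono (Finset.coe_subset.2 hW)
  · exact Set.image_mono (Finset.coe_subset.2 hS)
  · exact Set.image_mono (Finset.coe_subset.2 hT)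

theorem b9_SN_mono {N N' : ℕ} (h : N ≤ N') : K.SN c hc N ⊆ K.SN c hc N' := by
  intro g hg
  rw [Cyc.mem_SN] at hg ⊢
  exact ⟨hg.1, lt_of_lt_of_le hg.2 h⟩

theorem b9_one0 {x : LA E} (hx : x ∈ K.A0) :
    ∃ (N0 : ℕ) (W0 : Finset E.V), x ∈ Cs (K.SN c hc N0) W0 := by
  classical
  unfold Cyc.A0 at hx
  induction hx using NonUnitalStarAlgebra.adjoin_induction with
  | mem x hx =>
    rcases hx with ⟨a, rfl⟩ | ⟨g, hg, rfl⟩
    · refine ⟨0, {a}, NonUnitalStarAlgebra.subset_adjoin ℂ _ (Or.inl ⟨a, ?_, rfl⟩)⟩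
      exact Finset.mem_coe.2 (Finset.mem_singleton_self a)
    · refine ⟨c g + 1, ∅, NonUnitalStarAlgebra.subset_adjoin ℂ _ (Or.inr ⟨g, ?_, rfl⟩)⟩
      exact Finset.mem_coe.2 (Cyc.mem_SN.2 ⟨hg, Nat.lt_succ_self _⟩)
  | zero => exact ⟨0, ∅, zero_mem _⟩
  | add x y _ _ h1 h2 =>
    obtain ⟨N, W, h1⟩ := h1
    obtain ⟨N', W', h2⟩ := h2
    exact ⟨max N N', W ∪ W', add_mem
      (b9_Cs_mono (b9_SN_mono K c hc (le_max_left _ _)) Finset.subset_union_left h1)
      (b9_Cs_mono (b9_SN_mono K c hc (le_max_right _ _)) Finset.subset_union_right h2)⟩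
  | mul x y _ _ h1 h2 =>
    obtain ⟨N, W, h1⟩ := h1
    obtain ⟨N', W', h2⟩ := h2
    exact ⟨max N N', W ∪ W', mul_mem
      (b9_Cs_mono (b9_SN_mono K c hc (le_max_left _ _)) Finset.subset_union_left h1)
      (b9_Cs_mono (b9_SN_mono K c hc (le_max_right _ _)) Finset.subset_union_right h2)⟩
  | smul z x _ h1 =>
    obtain ⟨N, W, h1⟩ := h1
    exact ⟨N, W, SMulMemClass.smul_mem z h1⟩
  | star x _ h1 =>
    obtain ⟨N, W, h1⟩ := h1
    exact ⟨N, W, star_mem h1⟩

theorem Cyc.exhaust0 (F : Finset (LA E)) (hF : ∀ x ∈ F, x ∈ K.A0) :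
    ∃ (N0 : ℕ) (W0 : Finset E.V), ∀ N, N0 ≤ N → ∀ W, W0 ⊆ W →
      ∀ x ∈ F, x ∈ Cs (K.SN c hc N) W := by
  classical
  induction F using Finset.induction_on with
  | empty => exact ⟨0, ∅, fun _ _ _ _ x hx => absurd hx (Finset.notMem_empty x)⟩
  | insert a F _ ih =>
    obtain ⟨N0, W0, h0⟩ := ih fun x hx => hF x (Finset.mem_insert_of_mem hx)
    obtain ⟨N1, W1, h1⟩ := b9_one0 K c hc (hF a (Finset.mem_insert_self a F))
    refine ⟨max N0 N1, W0 ∪ W1, fun N hN W hW x hx => ?_⟩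
    rcases Finset.mem_insert.1 hx with hx | hx
    · rw [hx]
      exact b9_Cs_mono (b9_SN_mono K c hc ((le_max_right _ _).trans hN))
        (Finset.subset_union_right.trans hW) h1
    · exact h0 N ((le_max_left _ _).trans hN) W (Finset.subset_union_left.trans hW) x hx

theorem b9_one (x : LA E) :
    ∃ (N0 : ℕ) (W0 : Finset E.V) (T : Finset E.Ed), (∀ f ∈ T, f ∈ K.D ∧ E.s f ∈ W0) ∧
      x ∈ K.Bs (K.SN c hc N0) W0 T := by
  classical
  refine LA.induction (p := fun x => ∃ (N0 : ℕ) (W0 : Finset E.V) (T : Finset E.Ed),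
    (∀ f ∈ T, f ∈ K.D ∧ E.s f ∈ W0) ∧ x ∈ K.Bs (K.SN c hc N0) W0 T) ?_ ?_ ?_ ?_ ?_ ?_ ?_ x
  · intro a
    refine ⟨0, {a}, ∅, fun f hf => absurd hf (Finset.notMem_empty f),
      NonUnitalStarAlgebra.subset_adjoin ℂ _ (Or.inl (Or.inl ⟨a, ?_, rfl⟩))⟩
    exact Finset.mem_coe.2 (Finset.mem_singleton_self a)
  · intro f
    by_cases hf : f ∈ K.D
    · set N := ((K.y f).map c).sum + 1 with hN
      have hle : ∀ g ∈ K.y f, c g < N := by
        intro g hg
        have h1 := List.le_sum_of_mem (List.mem_map_of_mem (f := c) hg)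
        omega
      refine ⟨N, {E.s f}, {f}, ?_, ?_⟩
      · intro g hg
        rw [Finset.mem_singleton.1 hg]
        exact ⟨hf, Finset.mem_singleton_self _⟩
      · rw [K.ed_eq hf]
        refine mul_mem ?_ (star_mem ?_)
        · refine NonUnitalStarAlgebra.subset_adjoin ℂ _ (Or.inr ⟨f, ?_, rfl⟩)
          exact Finset.mem_coe.2 (Finset.mem_singleton_self f)
        · refine pe_mem ?_ ?_
          · intro g hg
            refine NonUnitalStarAlgebra.subset_adjoin ℂ _ (Or.inl (Or.inr ⟨g, ?_, rfl⟩))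
            exact Finset.mem_coe.2 (Cyc.mem_SN.2 ⟨(K.hyn f hf g hg).1, hle g hg⟩)
          · refine NonUnitalStarAlgebra.subset_adjoin ℂ _ (Or.inl (Or.inl ⟨_, ?_, rfl⟩))
            exact Finset.mem_coe.2 (Finset.mem_singleton_self _)
    · refine ⟨c f + 1, ∅, ∅, fun f hf => absurd hf (Finset.notMem_empty f),
        NonUnitalStarAlgebra.subset_adjoin ℂ _ (Or.inl (Or.inr ⟨f, ?_, rfl⟩))⟩
      exact Finset.mem_coe.2 (Cyc.mem_SN.2 ⟨hf, Nat.lt_succ_self _⟩)
  · exact ⟨0, ∅, ∅, fun f hf => absurd hf (Finset.notMem_empty f), zero_mem _⟩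
  · rintro x y ⟨N, W, T, hT, h1⟩ ⟨N', W', T', hT', h2⟩
    refine ⟨max N N', W ∪ W', T ∪ T', ?_, add_mem
      (b9_Bs_mono K (b9_SN_mono K c hc (le_max_left _ _)) Finset.subset_union_left
        Finset.subset_union_left h1)
      (b9_Bs_mono K (b9_SN_mono K c hc (le_max_right _ _)) Finset.subset_union_right
        Finset.subset_union_right h2)⟩
    intro f hf
    rcases Finset.mem_union.1 hf with hf | hf
    · exact ⟨(hT f hf).1, Finset.mem_union_left _ (hT f hf).2⟩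
    · exact ⟨(hT' f hf).1, Finset.mem_union_right _ (hT' f hf).2⟩
  · rintro x y ⟨N, W, T, hT, h1⟩ ⟨N', W', T', hT', h2⟩
    refine ⟨max N N', W ∪ W', T ∪ T', ?_, mul_mem
      (b9_Bs_mono K (b9_SN_mono K c hc (le_max_left _ _)) Finset.subset_union_left
        Finset.subset_union_left h1)
      (b9_Bs_mono K (b9_SN_mono K c hc (le_max_right _ _)) Finset.subset_union_right
        Finset.subset_union_right h2)⟩
    intro f hf
    rcases Finset.mem_union.1 hf with hf | hf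
    · exact ⟨(hT f hf).1, Finset.mem_union_left _ (hT f hf).2⟩
    · exact ⟨(hT' f hf).1, Finset.mem_union_right _ (hT' f hf).2⟩
  · rintro z x ⟨N, W, T, hT, h1⟩
    exact ⟨N, W, T, hT, SMulMemClass.smul_mem z h1⟩
  · rintro x ⟨N, W, T, hT, h1⟩
    exact ⟨N, W, T, hT, star_mem h1⟩

theorem Cyc.exhaust (F : Finset (LA E)) :
    ∃ (N0 : ℕ) (W0 : Finset E.V) (T : Finset E.Ed), (∀ f ∈ T, f ∈ K.D ∧ E.s f ∈ W0) ∧
      ∀ N, N0 ≤ N → ∀ W, W0 ⊆ W → ∀ x ∈ F, x ∈ K.Bs (K.SN c hc N) W T := by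
  classical
  induction F using Finset.induction_on with
  | empty =>
    exact ⟨0, ∅, ∅, fun f hf => absurd hf (Finset.notMem_empty f),
      fun _ _ _ _ x hx => absurd hx (Finset.notMem_empty x)⟩
  | insert a F _ ih =>
    obtain ⟨N0, W0, T0, hT0, h0⟩ := ih
    obtain ⟨N1, W1, T1, hT1, h1⟩ := b9_one K c hc a
    refine ⟨max N0 N1, W0 ∪ W1, T0 ∪ T1, ?_, fun N hN W hW x hx => ?_⟩
    · intro f hf
      rcases Finset.mem_union.1 hf with hf | hf
      · exact ⟨(hT0 f hf).1, Finset.mem_union_left _ (hT0 f hf).2⟩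
      · exact ⟨(hT1 f hf).1, Finset.mem_union_right _ (hT1 f hf).2⟩
    · rcases Finset.mem_insert.1 hx with hx | hx
      · rw [hx]
        exact b9_Bs_mono K (b9_SN_mono K c hc ((le_max_right _ _).trans hN))
          (Finset.subset_union_right.trans hW) Finset.subset_union_right h1
      · exact b9_Bs_mono K (Finset.Subset.refl _) (Finset.Subset.refl _)
          Finset.subset_union_left
          (h0 N ((le_max_left _ _).trans hN) W (Finset.subset_union_left.trans hW) x hx)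

theorem Cyc.exists_adm (N : ℕ) (W0 : Finset E.V) :
    ∃ W, W0 ⊆ W ∧ K.Adm (K.SN c hc N) W := by
  classical
  refine ⟨W0 ∪ ((K.SN c hc N).image E.s ∪ (K.SN c hc N).image E.r),
    Finset.subset_union_left, ?_⟩
  intro g hg
  refine ⟨(Cyc.mem_SN.1 hg).1, ?_, ?_⟩
  · exact Finset.mem_union_right _ (Finset.mem_union_left _ (Finset.mem_image_of_mem _ hg))
  · exact Finset.mem_union_right _ (Finset.mem_union_right _ (Finset.mem_image_of_mem _ hg))

theorem Cs_le_Bs {S : Finset E.Ed} {W : Finset E.V} {T : Finset E.Ed} :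
    Cs S W ≤ K.Bs S W T := NonUnitalStarAlgebra.adjoin_mono Set.subset_union_left

theorem Cyc.Cs_le_A0 {N : ℕ} {W : Finset E.V} : Cs (K.SN c hc N) W ≤ K.A0 := by
  refine NonUnitalStarAlgebra.adjoin_le ?_
  rintro x (⟨a, -, rfl⟩ | ⟨g, hg, rfl⟩)
  · exact NonUnitalStarAlgebra.subset_adjoin ℂ _ (Or.inl ⟨a, rfl⟩)
  · exact NonUnitalStarAlgebra.subset_adjoin ℂ _
      (Or.inr ⟨g, (Cyc.mem_SN.1 (Finset.mem_coe.1 hg)).1, rfl⟩)

end LPA74
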