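import Pool.Agent.LibLPA74.V1
import Pool.Agent.LibLPA74.B2

/-!
[LP BE2] The intertwiners.  `h` = height function of `S` (`K.hac`).  Prove by induction on `n`:
there is `Z` with the stated properties for all `a ∈ W` with `h a < n`.  Step:
`Z' a = Z a` if `h a < n`, else `w a + ∑_{g ∈ S, s g = a} Θ (ed g) * Z (r g) * star (ed g)`
(`r g ∈ W`, `h (r g) < h a`, so `Z (r g)` is already good).  For such an `a`:
`star (Z a) * Z a = qq S a + ∑ ed g * star (Z (r g)) * Θ (vx (r g)) * Z (r g) * star (ed g)
= qq S a + ∑ ed g * vx (r g) * star (ed g) = vx a` (`vx_eq_qq_add`; cross terms vanish: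
`star (w a) * Θ (ed g) = star (w a) * Θ (qq S a * ed g) = 0` as `w a = w w* w = Θ(qq S a) w a`;
`star (Θ (ed g)) * Θ (ed g') = 0`);
`Z a * star (Z a) = Θ (qq S a) + ∑ Θ (ed g) * Z (r g) * vx (r g) * star (Z (r g)) * star (Θ (ed g))
= Θ (qq S a) + ∑ Θ (ed g * vx (r g) * star (ed g)) = Θ (vx a)` (cross terms: `w a * ed g =
w a * qq S a * ed g = 0`); `Z a * qq S a = w a` (`star (ed g) * qq S a = 0`,
`w a * qq S a = w a`); `Z a * ed g = Θ (ed g) * Z (r g) * vx (r g) = Θ (ed g) * Z (r g)`.
`Z a * star (Z a) * Z a = Z a`: `Z a * vx a = Z a`.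
-/

namespace LPA74

private theorem be2_star_sum {A I : Type} [NonUnitalRing A] [StarRing A] (F : Finset I)
    (T : I → A) : star (∑ g ∈ F, T g) = ∑ g ∈ F, star (T g) :=
  map_sum (starAddEquiv : A ≃+ A) T F

private theorem be2_mul {A I : Type} [NonUnitalRing A] [DecidableEq I] (F : Finset I) (w w' : A)
    (T T' : I → A) (h1 : ∀ g ∈ F, w' * T g = 0) (h2 : ∀ g ∈ F, T' g * w = 0)
    (h3 : ∀ g ∈ F, ∀ g' ∈ F, g ≠ g' → T' g * T g' = 0) :
    (w' + ∑ g ∈ F, T' g) * (w + ∑ g ∈ F, T g) = w' * w + ∑ g ∈ F, T' g * T g := by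
  rw [add_mul, mul_add, mul_add, Finset.mul_sum, Finset.sum_eq_zero h1, add_zero,
    Finset.sum_mul, Finset.sum_eq_zero h2, zero_add, Finset.sum_mul_sum]
  congr 1
  refine Finset.sum_congr rfl fun g hg => ?_
  refine Finset.sum_eq_single g (fun g' hg' hne => h3 g hg g' hg' hne.symm) ?_
  intro h
  exact absurd hg h

theorem exists_Z {E : Gph} (K : Cyc E) {S : Finset E.Ed} {W : Finset E.V} (hS : K.Adm S W)
    (Θ : LA E →⋆ₙₐ[ℂ] LA E) (h0 : ∀ x ∈ K.A0, Θ x ∈ K.A0) (w : E.V → LA E)
    (hw : ∀ a ∈ W, w a ∈ K.A0 ∧ w a * star (w a) = Θ (qq S a) ∧ star (w a) * w a = qq S a ∧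
      w a * star (w a) * w a = w a) :
    ∃ Z : E.V → LA E, ∀ a ∈ W, Z a ∈ K.A0 ∧ Z a * star (Z a) = Θ (vx a) ∧
      star (Z a) * Z a = vx a ∧ Z a * star (Z a) * Z a = Z a ∧ Z a * qq S a = w a ∧
      ∀ g ∈ S, E.s g = a → Z a * ed g = Θ (ed g) * Z (E.r g) := by
  classical
  obtain ⟨h, hh⟩ := K.hac S fun g hg => (hS g hg).1
  have main : ∀ n : ℕ, ∃ Z : E.V → LA E, ∀ a ∈ W, h a < n →
      Z a ∈ K.A0 ∧ Z a * star (Z a) = Θ (vx a) ∧
      star (Z a) * Z a = vx a ∧ Z a * star (Z a) * Z a = Z a ∧ Z a * qq S a = w a ∧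
      ∀ g ∈ S, E.s g = a → Z a * ed g = Θ (ed g) * Z (E.r g) := by
    intro n
    induction n with
    | zero => exact ⟨fun _ => 0, fun a _ ha => absurd ha (Nat.not_lt_zero _)⟩
    | succ n ih =>
      obtain ⟨Z, hZ⟩ := ih
      let T : E.Ed → LA E := fun g => Θ (ed g) * Z (E.r g) * star (ed g)
      let Z' : E.V → LA E := fun a => if h a < n then Z a else
        w a + ∑ g ∈ S.filter (fun g => E.s g = a), T g
      have hlow : ∀ a, h a < n → Z' a = Z a := fun a ha => if_pos ha
      refine ⟨Z', fun a ha hn => ?_⟩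
      by_cases hlt : h a < n
      · obtain ⟨p1, p2, p3, p4, p5, p6⟩ := hZ a ha hlt
        rw [hlow a hlt]
        refine ⟨p1, p2, p3, p4, p5, fun g hg hga => ?_⟩
        rw [p6 g hg hga, hlow]
        have := hh g hg
        rw [hga] at this
        omega
      · have hZa : Z' a = w a + ∑ g ∈ S.filter (fun g => E.s g = a), T g := if_neg hlt
        obtain ⟨w1, w2, w3, w4⟩ := hw a ha
        have hF : ∀ g ∈ S.filter (fun g => E.s g = a), g ∈ S ∧ E.s g = a := fun g hg =>
          Finset.mem_filter.1 hg
        have hr : ∀ g ∈ S, E.s g = a → h (E.r g) < n := by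
          intro g hg hga
          have := hh g hg
          rw [hga] at this
          omega
        have hZr : ∀ g ∈ S, E.s g = a → Z (E.r g) ∈ K.A0 ∧
            Z (E.r g) * star (Z (E.r g)) = Θ (vx (E.r g)) ∧
            star (Z (E.r g)) * Z (E.r g) = vx (E.r g) ∧
            Z (E.r g) * star (Z (E.r g)) * Z (E.r g) = Z (E.r g) := by
          intro g hg hga
          obtain ⟨p1, p2, p3, p4, _, _⟩ := hZ (E.r g) (hS g hg).2.2 (hr g hg hga)
          exact ⟨p1, p2, p3, p4⟩
        have hZvx : ∀ g ∈ S, E.s g = a → Z (E.r g) * vx (E.r g) = Z (E.r g) := by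
          intro g hg hga
          obtain ⟨p1, p2, p3, p4⟩ := hZr g hg hga
          rw [← p3, ← mul_assoc, p4]
        -- facts on `w a`
        have hwq : w a * qq S a = w a := by rw [← w3, ← mul_assoc, w4]
        have hws : star (w a) * Θ (qq S a) = star (w a) := by
          have := congrArg star w4
          rw [star_mul, star_mul, star_star] at this
          rw [← w2]
          exact this
        have hwe : ∀ g ∈ S, w a * ed g = 0 := by
          intro g hg
          rw [← hwq, mul_assoc, qq_mul_ed hg, mul_zero]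
        have hwse : ∀ g ∈ S, star (w a) * Θ (ed g) = 0 := by
          intro g hg
          rw [← hws, mul_assoc, ← map_mul, qq_mul_ed hg, map_zero, mul_zero]
        have hwvx : w a * vx a = w a := by
          rw [← hwq, mul_assoc, qq_mul_vx, hwq]
        -- facts on `T g`
        have hTvx : ∀ g ∈ S, E.s g = a → T g * vx a = T g := by
          intro g hg hga
          show Θ (ed g) * Z (E.r g) * star (ed g) * vx a = Θ (ed g) * Z (E.r g) * star (ed g)
          rw [← hga, mul_assoc _ (star (ed g)) (vx (E.s g)), star_ed_mul_vx]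
        have hsT : ∀ g, star (T g) = ed g * star (Z (E.r g)) * star (Θ (ed g)) := by
          intro g
          show star (Θ (ed g) * Z (E.r g) * star (ed g)) = _
          rw [star_mul, star_mul, star_star, ← mul_assoc]
        have c1 : ∀ g ∈ S.filter (fun g => E.s g = a), star (w a) * T g = 0 := by
          intro g hg
          show star (w a) * (Θ (ed g) * Z (E.r g) * star (ed g)) = 0
          rw [← mul_assoc, ← mul_assoc, hwse g (hF g hg).1, zero_mul, zero_mul]
        have c2 : ∀ g ∈ S.filter (fun g => E.s g = a), star (T g) * w a = 0 := by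
          intro g hg
          have := congrArg star (c1 g hg)
          rwa [star_mul, star_star, star_zero] at this
        have c3 : ∀ g ∈ S.filter (fun g => E.s g = a), w a * star (T g) = 0 := by
          intro g hg
          rw [hsT, ← mul_assoc, ← mul_assoc, hwe g (hF g hg).1, zero_mul, zero_mul]
        have c4 : ∀ g ∈ S.filter (fun g => E.s g = a), T g * star (w a) = 0 := by
          intro g hg
          have := congrArg star (c3 g hg)
          rwa [star_mul, star_star, star_zero] at this
        have d1 : ∀ g g', g ≠ g' → star (T g) * T g' = 0 := by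
          intro g g' hne
          rw [hsT]
          show ed g * star (Z (E.r g)) * star (Θ (ed g)) * (Θ (ed g') * Z (E.r g') * star (ed g'))
            = 0
          have : star (Θ (ed g)) * Θ (ed g') = 0 := by
            rw [← map_star, ← map_mul, star_ed_mul_ed_ne hne, map_zero]
          rw [← mul_assoc, ← mul_assoc, mul_assoc _ (star (Θ (ed g))) (Θ (ed g')), this, mul_zero,
            zero_mul, zero_mul]
        have d2 : ∀ g g', g ≠ g' → T g * star (T g') = 0 := by
          intro g g' hne
          rw [hsT]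
          show Θ (ed g) * Z (E.r g) * star (ed g) * (ed g' * star (Z (E.r g')) * star (Θ (ed g')))
            = 0
          rw [← mul_assoc, ← mul_assoc, mul_assoc _ (star (ed g)) (ed g'),
            star_ed_mul_ed_ne hne, mul_zero, zero_mul, zero_mul]
        have e1 : ∀ g ∈ S.filter (fun g => E.s g = a),
            star (T g) * T g = ed g * vx (E.r g) * star (ed g) := by
          intro g hg
          obtain ⟨p1, p2, p3, p4⟩ := hZr g (hF g hg).1 (hF g hg).2
          rw [hsT]
          show ed g * star (Z (E.r g)) * star (Θ (ed g)) * (Θ (ed g) * Z (E.r g) * star (ed g)) = _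
          have q1 : star (Θ (ed g)) * Θ (ed g) = Z (E.r g) * star (Z (E.r g)) := by
            rw [← map_star, ← map_mul, star_ed_mul_ed, p2]
          rw [← mul_assoc, ← mul_assoc, mul_assoc _ (star (Θ (ed g))) (Θ (ed g)), q1,
            mul_assoc (ed g * star (Z (E.r g))) _ (Z (E.r g)), p4,
            mul_assoc (ed g) (star (Z (E.r g))) (Z (E.r g)), p3]
        have e2 : ∀ g ∈ S.filter (fun g => E.s g = a),
            T g * star (T g) = Θ (ed g * vx (E.r g) * star (ed g)) := by
          intro g hg
          obtain ⟨p1, p2, p3, p4⟩ := hZr g (hF g hg).1 (hF g hg).2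
          rw [hsT]
          show Θ (ed g) * Z (E.r g) * star (ed g) * (ed g * star (Z (E.r g)) * star (Θ (ed g))) = _
          rw [← mul_assoc, ← mul_assoc, mul_assoc _ (star (ed g)) (ed g), star_ed_mul_ed,
            mul_assoc (Θ (ed g)) (Z (E.r g)) (vx (E.r g)), hZvx g (hF g hg).1 (hF g hg).2,
            mul_assoc (Θ (ed g)) (Z (E.r g)) (star (Z (E.r g))), p2, ← map_star, ← map_mul,
            ← map_mul]
        have r1 : Z' a * star (Z' a) = Θ (vx a) := by
          rw [hZa, star_add, be2_star_sum, be2_mul _ _ _ _ _ c3 c4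
            (fun g _ g' _ hne => d2 g g' hne), w2, Finset.sum_congr rfl e2, ← map_sum, ← map_add,
            ← vx_eq_qq_add]
        have r2 : star (Z' a) * Z' a = vx a := by
          rw [hZa, star_add, be2_star_sum, be2_mul _ _ _ _ _ c1 c2
            (fun g _ g' _ hne => d1 g g' hne), w3, Finset.sum_congr rfl e1, ← vx_eq_qq_add]
        have r3 : Z' a * vx a = Z' a := by
          rw [hZa, add_mul, hwvx, Finset.sum_mul,
            Finset.sum_congr rfl fun g hg => hTvx g (hF g hg).1 (hF g hg).2]
        refine ⟨?_, r1, r2, ?_, ?_, ?_⟩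
        · rw [hZa]
          refine add_mem w1 (sum_mem fun g hg => ?_)
          obtain ⟨p1, p2, p3, p4⟩ := hZr g (hF g hg).1 (hF g hg).2
          have hed : ed g ∈ K.A0 := K.ed_mem (hS g (hF g hg).1).1
          have hsed : star (ed g) ∈ K.A0 := star_mem hed
          exact mul_mem (mul_mem (h0 _ hed) p1) hsed
        · rw [mul_assoc, r2, r3]
        · rw [hZa, add_mul, hwq, Finset.sum_mul, Finset.sum_eq_zero, add_zero]
          intro g hg
          show Θ (ed g) * Z (E.r g) * star (ed g) * qq S a = 0
          rw [mul_assoc, star_ed_mul_qq (hF g hg).1, mul_zero]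
        · intro g hg hga
          rw [hlow _ (hr g hg hga), hZa, add_mul, hwe g hg, zero_add, Finset.sum_mul,
            Finset.sum_eq_single g]
          · show Θ (ed g) * Z (E.r g) * star (ed g) * ed g = _
            rw [mul_assoc, star_ed_mul_ed, mul_assoc, hZvx g hg hga]
          · intro g' _ hne
            show Θ (ed g') * Z (E.r g') * star (ed g') * ed g = 0
            rw [mul_assoc, star_ed_mul_ed_ne hne, mul_zero]
          · intro hcon
            exact absurd (Finset.mem_filter.2 ⟨hg, hga⟩) hcon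
  obtain ⟨Z, hZ⟩ := main ((W.sup h) + 1)
  exact ⟨Z, fun a ha => hZ a ha (Nat.lt_succ_of_le (Finset.le_sup ha))⟩

end LPA74
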