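import Pool.Agent.LibLPA74.B10
import Pool.Agent.LibLPA74.BE2

/-!
[LP BE3] From the `Z a` to a quasi-unitary: `z = ∑_{a ∈ W} Z a ∈ A0`; `Z a = Z a * vx a =
Θ (vx a) * Z a`, so `star (Z a) * Z b = 0`, `Z a * star (Z b) = 0` for `a ≠ b`;
`star z * z = ∑ vx a = e`, `z * star z * z = z`.  `LSpl.ext` (`Cyc.lspl`): `d ∈ A0`, `QU d`,
`d * e = z - e`; multiply by `vx a` on the right: `d * vx a = Z a - vx a`.
-/

namespace LPA74

theorem be3_sum_vx {E : Gph} {W : Finset E.V} {a : E.V} (ha : a ∈ W) :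
    (∑ b ∈ W, (vx b : LA E)) * vx a = vx a := by
  rw [Finset.sum_mul, Finset.sum_eq_single a]
  · exact vx_mul_self a
  · intro b _ hb
    exact vx_mul_ne hb
  · intro h
    exact absurd ha h

theorem exists_d {E : Gph} (K : Cyc E) [Countable E.Ed] {W : Finset E.V}
    (Θ : LA E →⋆ₙₐ[ℂ] LA E) (Z : E.V → LA E) (hZ : ∀ a ∈ W, Z a ∈ K.A0 ∧
      Z a * star (Z a) = Θ (vx a) ∧ star (Z a) * Z a = vx a ∧ Z a * star (Z a) * Z a = Z a) :
    ∃ d ∈ K.A0, QU d ∧ ∀ a ∈ W, d * vx a = Z a - vx a := by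
  have hr : ∀ a ∈ W, Z a * vx a = Z a := by
    intro a ha
    obtain ⟨_, _, h3, h4⟩ := hZ a ha
    rw [← h3, ← mul_assoc, h4]
  have hl : ∀ a ∈ W, Θ (vx a) * Z a = Z a := by
    intro a ha
    obtain ⟨_, h2, _, h4⟩ := hZ a ha
    rw [← h2, h4]
  have hΘs : ∀ a, star (Θ (vx a)) = Θ (vx a) := by
    intro a
    rw [← map_star, star_vx]
  have hsl : ∀ a ∈ W, star (Z a) * Θ (vx a) = star (Z a) := by
    intro a ha
    have h1 := congrArg star (hl a ha)
    rwa [star_mul, hΘs] at h1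
  have h0 : ∀ a ∈ W, ∀ b ∈ W, a ≠ b → star (Z a) * Z b = 0 := by
    intro a ha b hb hab
    rw [← hsl a ha, ← hl b hb, mul_assoc, ← mul_assoc (Θ (vx a)), ← map_mul, vx_mul_ne hab,
      map_zero, zero_mul, mul_zero]
  set z : LA E := ∑ a ∈ W, Z a with hz
  have hzA : z ∈ K.A0 := sum_mem fun a ha => (hZ a ha).1
  have hzv : ∀ a ∈ W, z * vx a = Z a := by
    intro a ha
    rw [hz, Finset.sum_mul, Finset.sum_eq_single a]
    · exact hr a ha
    · intro b hb hba
      rw [← hr b hb, mul_assoc, vx_mul_ne hba, mul_zero]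
    · intro h
      exact absurd ha h
  have hzz : star z * z = ∑ a ∈ W, vx a := by
    rw [hz, star_sum, Finset.sum_mul]
    refine Finset.sum_congr rfl fun a ha => ?_
    rw [Finset.mul_sum, Finset.sum_eq_single a]
    · exact (hZ a ha).2.2.1
    · intro b hb hba
      exact h0 a ha b hb (Ne.symm hba)
    · intro h
      exact absurd ha h
  have hzzz : z * star z * z = z := by
    rw [mul_assoc, hzz, Finset.mul_sum]
    exact Finset.sum_congr rfl fun a ha => hzv a ha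
  obtain ⟨d, hd, hq, hde⟩ := K.lspl.ext hzA hzzz
  refine ⟨d, hd, hq, fun a ha => ?_⟩
  rw [hzz] at hde
  have h1 := congrArg (fun t => t * vx a) hde
  rw [mul_assoc, be3_sum_vx ha, sub_mul, be3_sum_vx ha, hzv a ha] at h1
  exact h1

end LPA74
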