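import Pool.Agent.LibLPA74.BE1
import Pool.Agent.LibLPA74.BE3
import Pool.Agent.LibLPA74.ADJ
import Pool.Agent.LibLPA74.B9

/-!
[LP BE4] A good endomorphism `Θ` is on every finite set of the form `Ad d`.
Code the edges; `exhaust` for `F`, `exists_adm`: `N`, `W`, `T`, `S = SN N`.  For `a ∈ W`:
`w a` from `Good.qq_seqv`, but for `a = s f` with `f ∈ T` (then `qq S a = vx a`: `qq_eq_vx`,
`K.hu`; `f` is unique) take the `w` of `Good.x_conj`.  `exists_Z`, `exists_d`.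
`Ad d x = Θ x` for the generators of `Bs S W T`:
`vx a` (`a ∈ W`): `vx a + d * vx a = Z a`, so `Ad d (vx a) = Z a * star (Z a) = Θ (vx a)`
(`Ad d (vx a) = (vx a + d vx a) * star (vx a + d vx a)`);
`ed g` (`g ∈ S`): `Ad d (ed g) = (ed g + d * ed g) * (vx (r g) + vx (r g) * star d)` (as
`ed g = ed g * vx (r g)`) `= Z (s g) * ed g * star (Z (r g)) = Θ (ed g) * Z (r g) * star (Z (r g))
= Θ (ed g)`;
`x f` (`f ∈ T`): `Ad d (x f) = Z (s f) * x f * star (Z (s f)) = w * x f * star w = Θ (x f)`, since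
`Z (s f) = Z (s f) * vx (s f) = Z (s f) * qq S (s f) = w`.
Both `Θ` and `Ad d` (`exists_AdH`) are `*`-homomorphisms, so they agree on `Bs S W T ⊇ F`.
-/

namespace LPA74

theorem be4_ad {A : Type} [NonUnitalRing A] [StarRing A] {d va vb Za Zb x : A}
    (ha : d * va = Za - va) (hb : vb * star d = star Zb - vb) (h1 : va * x = x)
    (h2 : x * vb = x) : Ad d x = Za * x * star Zb := by
  have e1 : d * x = Za * x - x := by
    calc d * x = d * (va * x) := by rw [h1]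
      _ = (Za - va) * x := by rw [← mul_assoc, ha]
      _ = Za * x - x := by rw [sub_mul, h1]
  have e2 : x * star d = x * star Zb - x := by
    calc x * star d = x * vb * star d := by rw [h2]
      _ = x * (star Zb - vb) := by rw [mul_assoc, hb]
      _ = x * star Zb - x := by rw [mul_sub, h2]
  have e3 : d * x * star d = Za * x * star Zb - Za * x - (x * star Zb - x) := by
    rw [e1, sub_mul, e2, mul_assoc, e2, mul_sub, mul_assoc]
  unfold Ad
  rw [e3, e1, e2]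
  abel

theorem Good.inner {E : Gph} {K : Cyc E} [Countable E.Ed] {Θ : LA E →⋆ₙₐ[ℂ] LA E}
    (h : Good K K (RingEquiv.refl _) Θ) (F : Finset (LA E)) :
    ∃ d ∈ K.A0, QU d ∧ ∀ x ∈ F, Θ x = Ad d x := by
  classical
  obtain ⟨c, hc⟩ := exists_injective_nat E.Ed
  obtain ⟨N, W0, T, hT, hexh⟩ := K.exhaust c hc F
  obtain ⟨W, hW0, hAdm⟩ := K.exists_adm c hc N W0
  have hqq : ∀ f ∈ T, qq (K.SN c hc N) (E.s f) = vx (E.s f) := by
    intro f hf
    refine qq_eq_vx fun g hg hgs => ?_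
    have h1 := K.hu f (hT f hf).1 g hgs
    rw [h1] at hg
    exact (Cyc.mem_SN.1 hg).1 (hT f hf).1
  have hex : ∀ a, ∃ w ∈ K.A0, w * star w = Θ (qq (K.SN c hc N) a) ∧
      star w * w = qq (K.SN c hc N) a ∧ w * star w * w = w ∧
      ∀ f ∈ T, E.s f = a → Θ (K.x f) = w * K.x f * star w := by
    intro a
    by_cases hf : ∃ f ∈ T, E.s f = a
    · obtain ⟨f, hfT, rfl⟩ := hf
      obtain ⟨w, hw, h1, h2, h3, h4⟩ := h.x_conj (hT f hfT).1
      refine ⟨w, hw, ?_, ?_, h3, ?_⟩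
      · rw [hqq f hfT, h1]
      · rw [hqq f hfT, h2]
      · intro f' _ hf's
        rw [K.hu f (hT f hfT).1 f' hf's]
        exact h4
    · obtain ⟨w, hw, h1, h2, h3⟩ := h.qq_seqv c hc N a
      exact ⟨w, hw, h1, h2, h3, fun f hfT hfs => absurd ⟨f, hfT, hfs⟩ hf⟩
  choose w hwA hw1 hw2 hw3 hw4 using hex
  obtain ⟨Z, hZ⟩ := exists_Z K hAdm Θ h.h1 w (fun a _ => ⟨hwA a, hw1 a, hw2 a, hw3 a⟩)
  obtain ⟨d, hd, hQU, hdv⟩ := exists_d K Θ Z
    (fun a ha => ⟨(hZ a ha).1, (hZ a ha).2.1, (hZ a ha).2.2.1, (hZ a ha).2.2.2.1⟩)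
  obtain ⟨φ, hφ⟩ := exists_AdH hQU
  have hdv' : ∀ a ∈ W, vx a * star d = star (Z a) - vx a := by
    intro a ha
    have h1 := congrArg star (hdv a ha)
    rw [star_mul, star_sub, star_vx] at h1
    exact h1
  have hZv : ∀ a ∈ W, Z a * vx a = Z a := by
    intro a ha
    rw [← (hZ a ha).2.2.1, ← mul_assoc]
    exact (hZ a ha).2.2.2.1
  refine ⟨d, hd, hQU, fun x hx => ?_⟩
  rw [← hφ]
  refine NonUnitalStarAlgebra.adjoin_induction (R := ℂ)
    (p := fun z (_ : z ∈ K.Bs (K.SN c hc N) W T) => Θ z = φ z) ?_ ?_ ?_ ?_ ?_ ?_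
    (hexh N le_rfl W hW0 x hx)
  · rintro z ((⟨a, ha, rfl⟩ | ⟨g, hg, rfl⟩) | ⟨f, hf, rfl⟩)
    · have ha' : a ∈ W := ha
      rw [hφ, be4_ad (hdv a ha') (hdv' a ha') (vx_mul_self a) (vx_mul_self a), hZv a ha']
      exact (hZ a ha').2.1.symm
    · have hg' : g ∈ K.SN c hc N := hg
      obtain ⟨_, hs, hr⟩ := hAdm g hg'
      rw [hφ, be4_ad (hdv _ hs) (hdv' _ hr) (vx_mul_ed g) (ed_mul_vx g),
        (hZ _ hs).2.2.2.2.2 g hg' rfl, mul_assoc, (hZ _ hr).2.1, ← map_mul, ed_mul_vx]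
    · have hf' : f ∈ T := hf
      have hs : E.s f ∈ W := hW0 (hT f hf').2
      have h1 : Z (E.s f) = w (E.s f) := by
        rw [← (hZ _ hs).2.2.2.2.1, hqq f hf', hZv _ hs]
      rw [hφ, be4_ad (hdv _ hs) (hdv' _ hs) (K.vx_mul_x f) (K.x_mul_vx f), h1]
      exact hw4 _ f hf' rfl
  · intro x y _ _ hx hy
    rw [map_add, map_add, hx, hy]
  · rw [map_zero, map_zero]
  · intro x y _ _ hx hy
    rw [map_mul, map_mul, hx, hy]
  · intro r x _ hx
    rw [map_smul, map_smul, hx]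
  · intro x _ hx
    rw [map_star, map_star, hx]

end LPA74
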