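import Pool.Agent.LibLPA74.V1
import Pool.Agent.LibLPA74.SEQ
import Pool.Agent.LibLPA74.ADJ

/-!
[LP C1] Composition.  (2) `p ∈ A0` projection: `Φ p` is a projection of `A0'`;
`Eqv (θ p) (Φ p)`, apply `θ'`: `Eqv (θ' (θ p)) (θ' (Φ p))`, and `Eqv (θ' (Φ p)) (Ψ (Φ p))`.
(3) `Φ (x f) = w x' w*`, `Ψ (x f') = w' x'' w'*`: take `W = Ψ w * w'`:
`W* W = w'* Ψ(w* w) w' = w'* Ψ (vx (s f')) w' = w'* w' w'* w' = vx (s f'')`,
`W W* = Ψ w (w' w'*) Ψ w* = Ψ (w vx w*) = Ψ (w w*) = Ψ (Φ (vx (s f)))`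
(`w = w (w* w)`), `W W* W = W`, `Ψ (Φ (x f)) = Ψ w * (w' x'' w'*) * star (Ψ w)`.
`ad`: (1) `Ad_mem`; (2) `eqv_Ad` (`Φ p` idempotent); (3) `w ↦ w + d w`
(`Ad d (w x' w*) = (w + d w) x' (w + d w)*`, `(w + d w)* (w + d w) = w* w` as
`d + d* + d* d = 0`).
-/

namespace LPA74

variable {E F G : Gph} {K : Cyc E} {K' : Cyc F} {K'' : Cyc G}

theorem Good.comp {θ : LA E ≃+* LA F} {Φ : LA E →⋆ₙₐ[ℂ] LA F} {θ' : LA F ≃+* LA G}
    {Ψ : LA F →⋆ₙₐ[ℂ] LA G} (h : Good K K' θ Φ) (h' : Good K' K'' θ' Ψ) :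
    Good K K'' (θ.trans θ') (Ψ.comp Φ) := by
  refine ⟨fun a ha => h'.h1 _ (h.h1 a ha), fun p hp hpp => ?_, fun f hf => ?_⟩
  · have h3 : Eqv (θ' (θ p)) (θ' (Φ p)) := (h.h2 p hp hpp).map θ' (map_mul θ')
    have h4 : Eqv (θ' (Φ p)) (Ψ (Φ p)) := h'.h2 (Φ p) (h.h1 p hp) (hpp.map Φ)
    exact h3.trans h4
  · obtain ⟨f', hf', w, hw, w1, w2, w3, w4⟩ := h.h3 f hf
    obtain ⟨f'', hf'', v, hv, v1, v2, v3, v4⟩ := h'.h3 f' hf'
    have w5 : w * vx (F.s f') * star w = w * star w := by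
      rw [← w2, ← mul_assoc, w3]
    refine ⟨f'', hf'', Ψ w * v, mul_mem (h'.h1 w hw) hv, ?_, ?_, ?_, ?_⟩
    · change _ = Ψ (Φ (vx (E.s f)))
      rw [star_mul, mul_assoc, ← mul_assoc v, v1, ← map_star, ← map_mul, ← map_mul, ← mul_assoc, w5,
        w1]
    · rw [star_mul, mul_assoc, ← mul_assoc (star (Ψ w)), ← map_star, ← map_mul, w2, ← v1,
        ← mul_assoc, ← mul_assoc, v2, mul_assoc, v2, vx_mul_self]
    · have h5 : star (Ψ w * v) * (Ψ w * v) = vx (G.s f'') := by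
        rw [star_mul, mul_assoc, ← mul_assoc (star (Ψ w)), ← map_star, ← map_mul, w2, ← v1,
          ← mul_assoc, ← mul_assoc, v2, mul_assoc, v2, vx_mul_self]
      rw [mul_assoc, h5, mul_assoc, ← v2, ← mul_assoc v, v3]
    · change Ψ (Φ (K.x f)) = _
      rw [w4, map_mul, map_mul, v4, map_star, star_mul]
      simp only [mul_assoc]

theorem Good.ad {θ : LA E ≃+* LA F} {Φ Φ' : LA E →⋆ₙₐ[ℂ] LA F} (h : Good K K' θ Φ) {d : LA F}
    (hd : QU d) (hd0 : d ∈ K'.A0) (hΦ : ∀ x, Φ' x = Ad d (Φ x)) : Good K K' θ Φ' := by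
  refine ⟨fun a ha => ?_, fun p hp hpp => ?_, fun f hf => ?_⟩
  · rw [hΦ]
    exact Ad_mem hd0 (h.h1 a ha)
  · rw [hΦ]
    exact (h.h2 p hp hpp).trans (eqv_Ad hd (hpp.map Φ).1).symm
  · obtain ⟨f', hf', w, hw, w1, w2, w3, w4⟩ := h.h3 f hf
    have h5 : star (w + d * w) * (w + d * w) = vx (F.s f') := by
      have h6 : star (w + d * w) * (w + d * w) =
          star w * w + star w * (d + star d + star d * d) * w := by
        rw [star_add, star_mul]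
        simp only [mul_add, add_mul, mul_assoc]
        abel
      rw [h6, hd.1, mul_zero, zero_mul, add_zero, w2]
    refine ⟨f', hf', w + d * w, add_mem hw (mul_mem hd0 hw), ?_, h5, ?_, ?_⟩
    · rw [hΦ, ← w1]
      unfold Ad
      rw [star_add, star_mul]
      simp only [mul_add, add_mul, mul_assoc]
      abel
    · rw [mul_assoc, h5, ← w2, add_mul, mul_assoc d, ← mul_assoc w, w3]
    · rw [hΦ, w4]
      unfold Ad
      rw [star_add, star_mul]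
      simp only [mul_add, add_mul, mul_assoc]
      abel

end LPA74
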