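import Pool.Agent.LibLPA74.S4

/-!
[LP S5] Comparison of projections by dimensions.  `HM C a b` is the space `a C b`.
`seqv_of_finrank`: induction on `finrank ℂ (HM C p e)` (or on the `n` of `Spl.dec`), for all
`p, p'`.  If `p = 0`: if `p' ≠ 0` there is by `Spl.exists_sub` a nonzero `w'` in
`HM C p' (q u)`, but `HM C 0 (q u) = 0`, contradiction; so `p' = 0`.  If `p ≠ 0` take `u, w`
(nonzero, in `HM C p (q u)`, `w* w = q u`); so the dimension for `p'` and `u` is positive, there
is `b ≠ 0` in `HM C p' (q u)`, and by `Spl.pos` `w' = b/√l` satisfies `w'* w' = q u`.  Put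
`p1 = w w*`, `p1' = w' w'*`.  `HM C p (q v) = HM C (p - p1) (q v) ⊕ HM C p1 (q v)` for every `v`
(`x = (p - p1) x + p1 x`), the same for `p'`, and `HM C p1 (q v) ≃ HM C (q u) (q v) ≃ HM C p1' (q v)`
(multiplication by `w*`, `w'`).  So the induction applies to `p - p1`, `p' - p1'` and
`SEqvIn.add` with `SEqvIn C p1 p1'` (`w w'*`) gives the result.
`seqv_of_eqvIn`: multiplication by `y` is a linear isomorphism `HM C p (q u) ≃ HM C p' (q u)`.
`ext`: `p = w* w`, `p' = w w*`; `finrank HM C (e - p) (q u) = finrank HM C e (q u) -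
finrank HM C p (q u)`, and `HM C p (q u) ≃ HM C p' (q u)` (multiplication by `w`), so
`SEqvIn C (e - p') (e - p)` by some `w1`; `d = w + w1 - e`: `1 + d` is `w + w1` plus `1 - e`.
-/

namespace LPA74

variable {A : Type} [NonUnitalRing A] [StarRing A] [Module ℂ A] [IsScalarTower ℂ A A]
  [SMulCommClass ℂ A A] [StarModule ℂ A]

variable {C : NonUnitalStarSubalgebra ℂ A} {e : A} {U : Type} {W : Finset U} {q : U → A}

/-- the space `a C b` for idempotents `a, b` -/
def HM (C : NonUnitalStarSubalgebra ℂ A) (a b : A) : Submodule ℂ A where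
  carrier := {x | x ∈ C ∧ a * x = x ∧ x * b = x}
  add_mem' := by
    rintro x y ⟨h1, h2, h3⟩ ⟨h4, h5, h6⟩
    exact ⟨add_mem h1 h4, by rw [mul_add, h2, h5], by rw [add_mul, h3, h6]⟩
  zero_mem' := ⟨zero_mem _, mul_zero _, zero_mul _⟩
  smul_mem' := by
    rintro z x ⟨h1, h2, h3⟩
    exact ⟨SMulMemClass.smul_mem z h1, by rw [mul_smul_comm, h2], by rw [smul_mul_assoc, h3]⟩

theorem s5_mem_HM {a b x : A} : x ∈ HM C a b ↔ x ∈ C ∧ a * x = x ∧ x * b = x := Iff.rfl

theorem s5_fd (h : Spl C e W q) (a b : A) : FiniteDimensional ℂ (HM C a b) := by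
  have := h.fd
  let f : HM C a b →ₗ[ℂ] C :=
    { toFun := fun x => ⟨x.1, x.2.1⟩
      map_add' := fun _ _ => rfl
      map_smul' := fun _ _ => rfl }
  refine Module.Finite.of_injective f ?_
  intro x y hxy
  have h1 : (f x).1 = (f y).1 := by rw [hxy]
  exact Subtype.ext h1

theorem s5_add (h : Spl C e W q) {p p1 b : A} (hp : p ∈ C) (hp1 : p1 ∈ C) (hpp : p * p = p)
    (hpp1 : p1 * p1 = p1) (h1 : p * p1 = p1) (h2 : p1 * p = p1) :
    Module.finrank ℂ (HM C p b) = Module.finrank ℂ (HM C (p - p1) b) +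
      Module.finrank ℂ (HM C p1 b) := by
  have := s5_fd h (p - p1) b
  have := s5_fd h p1 b
  rw [← Module.finrank_prod]
  refine LinearEquiv.finrank_eq
    { toFun := fun x => (⟨(p - p1) * x.1, ?_⟩, ⟨p1 * x.1, ?_⟩)
      map_add' := ?_
      map_smul' := ?_
      invFun := fun y => ⟨y.1.1 + y.2.1, ?_⟩
      left_inv := ?_
      right_inv := ?_ }
  · refine ⟨mul_mem (sub_mem hp hp1) x.2.1, ?_, ?_⟩
    · rw [← mul_assoc, sub_mul, mul_sub, mul_sub, hpp, h1, h2, hpp1, sub_self, sub_zero]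
    · rw [mul_assoc, x.2.2.2]
  · refine ⟨mul_mem hp1 x.2.1, ?_, ?_⟩
    · rw [← mul_assoc, hpp1]
    · rw [mul_assoc, x.2.2.2]
  · intro x y
    refine Prod.ext (Subtype.ext ?_) (Subtype.ext ?_)
    · exact mul_add _ _ _
    · exact mul_add _ _ _
  · intro z x
    refine Prod.ext (Subtype.ext ?_) (Subtype.ext ?_)
    · exact mul_smul_comm _ _ _
    · exact mul_smul_comm _ _ _
  · have h3 := y.1.2.2.1
    have h4 := y.2.2.2.1
    refine ⟨add_mem y.1.2.1 y.2.2.1, ?_, ?_⟩
    · have h5 : p * y.1.1 = y.1.1 := by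
        rw [← h3, ← mul_assoc, mul_sub, hpp, h1]
      have h6 : p * y.2.1 = y.2.1 := by
        rw [← h4, ← mul_assoc, h1]
      rw [mul_add, h5, h6]
    · rw [add_mul, y.1.2.2.2, y.2.2.2.2]
  · intro x
    refine Subtype.ext ?_
    change (p - p1) * x.1 + p1 * x.1 = x.1
    rw [sub_mul, sub_add_cancel, x.2.2.1]
  · intro y
    have h3 := y.1.2.2.1
    have h4 := y.2.2.2.1
    have h5 : p1 * y.1.1 = 0 := by
      rw [← h3, ← mul_assoc, mul_sub, h2, hpp1, sub_self, zero_mul]
    have h6 : (p - p1) * y.2.1 = 0 := by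
      rw [← h4, ← mul_assoc, sub_mul, h1, hpp1, sub_self, zero_mul]
    refine Prod.ext (Subtype.ext ?_) (Subtype.ext ?_)
    · change (p - p1) * (y.1.1 + y.2.1) = y.1.1
      rw [mul_add, h3, h6, add_zero]
    · change p1 * (y.1.1 + y.2.1) = y.2.1
      rw [mul_add, h5, h4, zero_add]

theorem s5_eqv {p p' b : A} (hE : EqvIn C p p') :
    Module.finrank ℂ (HM C p b) = Module.finrank ℂ (HM C p' b) := by
  obtain ⟨x, hx, y, hy, h1, h2, h3, h4⟩ := hE
  refine LinearEquiv.finrank_eq
    { toFun := fun z => ⟨y * z.1, ?_⟩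
      map_add' := ?_
      map_smul' := ?_
      invFun := fun z => ⟨x * z.1, ?_⟩
      left_inv := ?_
      right_inv := ?_ }
  · refine ⟨mul_mem hy z.2.1, ?_, ?_⟩
    · rw [← h2, ← mul_assoc, h4]
    · rw [mul_assoc, z.2.2.2]
  · intro z z'
    exact Subtype.ext (mul_add _ _ _)
  · intro c z
    exact Subtype.ext (mul_smul_comm _ _ _)
  · refine ⟨mul_mem hx z.2.1, ?_, ?_⟩
    · rw [← h1, ← mul_assoc, h3]
    · rw [mul_assoc, z.2.2.2]
  · intro z
    refine Subtype.ext ?_
    change x * (y * z.1) = z.1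
    rw [← mul_assoc, h1, z.2.2.1]
  · intro z
    refine Subtype.ext ?_
    change y * (x * z.1) = z.1
    rw [← mul_assoc, h2, z.2.2.1]

theorem s5_pos (h : Spl C e W q) {a b x : A} (hx : x ∈ HM C a b) (hx0 : x ≠ 0) :
    0 < Module.finrank ℂ (HM C a b) := by
  have := s5_fd h a b
  rw [Module.finrank_pos_iff_exists_ne_zero]
  exact ⟨⟨x, hx⟩, fun h1 => hx0 (congrArg Subtype.val h1)⟩

theorem s5_exists (h : Spl C e W q) {a b : A} (hx : 0 < Module.finrank ℂ (HM C a b)) :
    ∃ x ∈ HM C a b, x ≠ 0 := by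
  have := s5_fd h a b
  rw [Module.finrank_pos_iff_exists_ne_zero] at hx
  obtain ⟨x, hx⟩ := hx
  exact ⟨x.1, x.2, fun h1 => hx (Subtype.ext h1)⟩

/-- data of a minimal subprojection. -/
theorem s5_sub (h : Spl C e W q) {p w : A} (hp : p ∈ C) (hpp : Pj p) {u : U} (hw : w ∈ C)
    (h1 : star w * w = q u) (h2 : w * q u = w) (h3 : p * w = w) :
    SEqvIn C (w * star w) (q u) ∧ w * star w ∈ C ∧ (w * star w) * (w * star w) = w * star w ∧
      p * (w * star w) = w * star w ∧ (w * star w) * p = w * star w ∧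
      p - w * star w ∈ C ∧ Pj (p - w * star w) := by
  have h4 : w * star w * w = w := by rw [mul_assoc, h1, h2]
  have h5 : (w * star w) * (w * star w) = w * star w := by rw [← mul_assoc, h4]
  have h6 : p * (w * star w) = w * star w := by rw [← mul_assoc, h3]
  have h7 : star w * p = star w := by
    have h8 := congrArg star h3
    rwa [star_mul, hpp.2] at h8
  have h8 : (w * star w) * p = w * star w := by rw [mul_assoc, h7]
  have h9 : w * star w ∈ C := mul_mem hw (star_mem hw)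
  refine ⟨⟨w, hw, rfl, h1, h4⟩, h9, h5, h6, h8, sub_mem hp h9, ?_, ?_⟩
  · rw [sub_mul, mul_sub, mul_sub, hpp.1, h6, h8, h5, sub_self, sub_zero]
  · rw [star_sub, hpp.2, star_mul, star_star]

theorem s5_main (h : Spl C e W q) (n : ℕ) : ∀ p p' : A, p ∈ C → Pj p → p' ∈ C → Pj p' →
    (∀ u ∈ W, Module.finrank ℂ (HM C p (q u)) = Module.finrank ℂ (HM C p' (q u))) →
    Module.finrank ℂ (HM C p e) = n → SEqvIn C p p' := by
  induction n using Nat.strong_induction_on with
  | _ n ih =>
    intro p p' hp hpp hp' hpp' hd hn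
    by_cases h0 : p = 0
    · have h0' : p' = 0 := by
        by_contra hne
        obtain ⟨u, hu, w, hw, hw0, -, h2, h3⟩ := h.exists_sub hp' hpp' hne
        have h4 := s5_pos h (a := p') (b := q u) ⟨hw, h3, h2⟩ hw0
        rw [← hd u hu] at h4
        obtain ⟨x, hx, hx0⟩ := s5_exists h h4
        apply hx0
        rw [← hx.2.1, h0, zero_mul]
      rw [h0']
      rw [h0] at hp hpp ⊢
      exact SEqvIn.refl hp hpp
    · obtain ⟨u, hu, w, hw, hw0, h1, h2, h3⟩ := h.exists_sub hp hpp h0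
      have h4 := s5_pos h (a := p) (b := q u) ⟨hw, h3, h2⟩ hw0
      rw [hd u hu] at h4
      obtain ⟨b, ⟨hb, hb1, hb2⟩, hb0⟩ := s5_exists h h4
      obtain ⟨l, hl, hl1, hl2⟩ := h.pos hu hb
      rw [hb2] at hl1 hl2
      have hl0 : 0 < l := lt_of_le_of_ne hl fun h5 => hb0 (hl2 h5.symm)
      obtain ⟨w', hw', h1', h2', h3'⟩ : ∃ w' ∈ C, star w' * w' = q u ∧ w' * q u = w' ∧
          p' * w' = w' := by
        refine ⟨(((Real.sqrt l)⁻¹ : ℝ) : ℂ) • b, SMulMemClass.smul_mem _ hb, ?_, ?_, ?_⟩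
        · rw [star_smul, smul_mul_smul_comm, hl1, smul_smul]
          have h5 : star ((((Real.sqrt l)⁻¹ : ℝ) : ℂ)) = (((Real.sqrt l)⁻¹ : ℝ) : ℂ) :=
            Complex.conj_ofReal _
          rw [h5, ← Complex.ofReal_mul, ← Complex.ofReal_mul]
          have h6 : (Real.sqrt l)⁻¹ * (Real.sqrt l)⁻¹ * l = 1 := by
            rw [← mul_inv, Real.mul_self_sqrt hl, inv_mul_cancel₀ hl0.ne']
          rw [h6, Complex.ofReal_one, one_smul]
        · rw [smul_mul_assoc, hb2]
        · rw [mul_smul_comm, hb1]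
      obtain ⟨a1, a2, a3, a4, a5, a6, a7⟩ := s5_sub h hp hpp hw h1 h2 h3
      obtain ⟨b1, b2, b3, b4, b5, b6, b7⟩ := s5_sub h hp' hpp' hw' h1' h2' h3'
      have hpos : 0 < Module.finrank ℂ (HM C (w * star w) e) := by
        refine s5_pos h (x := w * star w) ⟨a2, a3, h.mul_e a2⟩ ?_
        intro h5
        apply hw0
        rw [← h2, ← h1, ← mul_assoc, h5, zero_mul]
      have hlt : Module.finrank ℂ (HM C (p - w * star w) e) < n := by
        have h5 := s5_add h (b := e) hp a2 hpp.1 a3 a4 a5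
        omega
      have hd' : ∀ v ∈ W, Module.finrank ℂ (HM C (p - w * star w) (q v)) =
          Module.finrank ℂ (HM C (p' - w' * star w') (q v)) := by
        intro v hv
        have h5 := s5_add h (b := q v) hp a2 hpp.1 a3 a4 a5
        have h6 := s5_add h (b := q v) hp' b2 hpp'.1 b3 b4 b5
        have h7 := s5_eqv (b := q v) a1.eqvIn
        have h8 := s5_eqv (b := q v) b1.eqvIn
        have h9 := hd v hv
        omega
      have h10 := ih _ hlt _ _ a6 a7 b6 b7 hd' rfl
      have h11 := h10.add (a1.trans b1.symm) (by rw [sub_mul, a4, a3, sub_self])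
        (by rw [sub_mul, b4, b3, sub_self])
      rwa [sub_add_cancel, sub_add_cancel] at h11

theorem Spl.seqv_of_finrank (h : Spl C e W q) {p p' : A} (hp : p ∈ C) (hpp : Pj p)
    (hp' : p' ∈ C) (hpp' : Pj p')
    (hd : ∀ u ∈ W, Module.finrank ℂ (HM C p (q u)) = Module.finrank ℂ (HM C p' (q u))) :
    SEqvIn C p p' :=
  s5_main h _ p p' hp hpp hp' hpp' hd rfl

theorem Spl.seqv_of_eqvIn (h : Spl C e W q) {p p' : A} (hpp : Pj p) (hpp' : Pj p')
    (hE : EqvIn C p p') : SEqvIn C p p' :=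
  h.seqv_of_finrank hE.mem_left hpp hE.mem_right hpp' fun _ _ => s5_eqv hE

theorem Spl.ext (h : Spl C e W q) {w : A} (hw : w ∈ C) (hww : w * star w * w = w) :
    ∃ d ∈ C, QU d ∧ d * (star w * w) = w - star w * w := by
  have hw' : star w ∈ C := star_mem hw
  have hww' : star w * w * star w = star w := by
    have h1 := congrArg star hww
    rwa [star_mul, star_mul, star_star, ← mul_assoc] at h1
  have he := h.e_mem
  have hee := h.e_idem
  have hse := h.star_e
  have c1 : star w * w ∈ C := mul_mem hw' hw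
  have c2 : w * star w ∈ C := mul_mem hw hw'
  have d1 : star w * w * (star w * w) = star w * w := by rw [← mul_assoc, hww']
  have d2 : w * star w * (w * star w) = w * star w := by rw [← mul_assoc, hww]
  have e1 : Pj (e - star w * w) := by
    refine ⟨?_, ?_⟩
    · rw [sub_mul, mul_sub, mul_sub, hee, h.e_mul _ c1, h.mul_e c1, d1, sub_self, sub_zero]
    · rw [star_sub, hse, star_mul, star_star]
  have e2 : Pj (e - w * star w) := by
    refine ⟨?_, ?_⟩
    · rw [sub_mul, mul_sub, mul_sub, hee, h.e_mul _ c2, h.mul_e c2, d2, sub_self, sub_zero]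
    · rw [star_sub, hse, star_mul, star_star]
  have hS : SEqvIn C (w * star w) (star w * w) := ⟨w, hw, rfl, rfl, hww⟩
  obtain ⟨w1, hw1, f1, f2, f3⟩ := h.seqv_of_finrank (sub_mem he c2) e2 (sub_mem he c1) e1
    (fun u _ => by
      have h5 := s5_add h (b := q u) he c2 hee d2 (h.e_mul _ c2) (h.mul_e c2)
      have h6 := s5_add h (b := q u) he c1 hee d1 (h.e_mul _ c1) (h.mul_e c1)
      have h7 := s5_eqv (b := q u) hS.eqvIn
      omega)
  have hw1' : star w1 ∈ C := star_mem hw1
  -- the cross terms vanish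
  have g1 : w1 * (star w * w) = 0 := by
    rw [← f3, mul_assoc w1 (star w1) w1, f2, mul_assoc w1, sub_mul, h.e_mul _ c1, d1, sub_self,
      mul_zero]
  have g2 : (w * star w) * w1 = 0 := by
    rw [← f3, f1, ← mul_assoc, mul_sub, h.mul_e c2, d2, sub_self, zero_mul]
  have g3 : star w * w1 = 0 := by
    calc star w * w1 = star w * w * star w * w1 := by rw [hww']
      _ = star w * (w * star w * w1) := by simp only [mul_assoc]
      _ = 0 := by rw [g2, mul_zero]
  have g4 : w1 * star w = 0 := by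
    rw [← hww', ← mul_assoc, g1, zero_mul]
  have g5 : star w1 * w = 0 := by
    have h5 := congrArg star g3
    rwa [star_mul, star_star, star_zero] at h5
  have g6 : w * star w1 = 0 := by
    have h5 := congrArg star g4
    rwa [star_mul, star_star, star_zero] at h5
  refine ⟨w + w1 - e, sub_mem (add_mem hw hw1) he, ⟨?_, ?_⟩, ?_⟩
  · rw [star_sub, star_add, hse, sub_mul, mul_sub, mul_sub, add_mul, mul_add, mul_add, f2, g3, g5,
      h.e_mul _ (add_mem hw hw1), add_mul, h.mul_e hw', h.mul_e hw1', hee]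
    abel
  · rw [star_sub, star_add, hse, sub_mul, mul_sub, mul_sub, add_mul, mul_add, mul_add, f1, g4, g6,
      h.e_mul _ (add_mem hw' hw1'), add_mul, h.mul_e hw, h.mul_e hw1, hee]
    abel
  · rw [sub_mul, add_mul, g1, h.e_mul _ c1, ← mul_assoc, hww, add_zero]

end LPA74
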