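import Pool.Agent.LibLPA74.S3
import Pool.Agent.LibLPA74.S5

/-!
[LP LS] Transfer to locally split subalgebras: put the finitely many elements in a split
subalgebra `C ≤ A0` (`LSpl`) and use the rows S2, S3, S4, S5.
-/

namespace LPA74

variable {A : Type} [NonUnitalRing A] [StarRing A] [Module ℂ A] [IsScalarTower ℂ A A]
  [SMulCommClass ℂ A A] [StarModule ℂ A]

variable {A0 : NonUnitalStarSubalgebra ℂ A}

theorem LSpl.proper (h : LSpl A0) {a : A} (ha : a ∈ A0) (haa : star a * a = 0) : a = 0 := by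
  classical
  obtain ⟨C, e, U, W, q, hS, hC, hF⟩ := h {a} (by simpa using ha)
  refine hS.proper (hF a (by simp)) (zero_mem C) (b := 0) ?_
  rw [haa, mul_zero, add_zero]

theorem LSpl.range (h : LSpl A0) {f : A} (hf : f ∈ A0) (hff : f * f = f) :
    ∃ p ∈ A0, Pj p ∧ f * p = p ∧ p * f = f := by
  classical
  obtain ⟨C, e, U, W, q, hS, hC, hF⟩ := h {f} (by simpa using hf)
  obtain ⟨p, hp, h1, h2, h3⟩ := hS.range (hF f (by simp)) hff
  exact ⟨p, hC hp, h1, h2, h3⟩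

omit [IsScalarTower ℂ A A] [SMulCommClass ℂ A A] [StarModule ℂ A] in
/-- an equivalence by means of elements of `A0` takes place in a split subalgebra -/
theorem ls_eqv (h : LSpl A0) {p p' : A} (hE : EqvIn A0 p p') :
    ∃ (C : NonUnitalStarSubalgebra ℂ A) (e : A) (U : Type) (W : Finset U) (q : U → A),
      Spl C e W q ∧ C ≤ A0 ∧ EqvIn C p p' := by
  classical
  obtain ⟨x, hx, y, hy, h1, h2, h3, h4⟩ := hE
  obtain ⟨C, e, U, W, q, hS, hC, hF⟩ := h {x, y} (by
    intro z hz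
    rcases Finset.mem_insert.1 hz with rfl | hz
    · exact hx
    · rw [Finset.mem_singleton.1 hz]
      exact hy)
  exact ⟨C, e, U, W, q, hS, hC, x, hF x (by simp), y, hF y (by simp), h1, h2, h3, h4⟩

theorem LSpl.seqv (h : LSpl A0) {p p' : A} (hp : Pj p) (hp' : Pj p') (hE : EqvIn A0 p p') :
    SEqvIn A0 p p' := by
  obtain ⟨C, e, U, W, q, hS, hC, hE'⟩ := ls_eqv h hE
  obtain ⟨w, hw, h1, h2, h3⟩ := hS.seqv_of_eqvIn hp hp' hE'
  exact ⟨w, hC hw, h1, h2, h3⟩

theorem LSpl.ext (h : LSpl A0) {w : A} (hw : w ∈ A0) (hww : w * star w * w = w) :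
    ∃ d ∈ A0, QU d ∧ d * (star w * w) = w - star w * w := by
  classical
  obtain ⟨C, e, U, W, q, hS, hC, hF⟩ := h {w} (by simpa using hw)
  obtain ⟨d, hd, h1, h2⟩ := hS.ext (hF w (by simp)) hww
  exact ⟨d, hC hd, h1, h2⟩

theorem LSpl.df (h : LSpl A0) {e1 f : A} (hef : EqvIn A0 e1 f) (h1 : e1 * f = f)
    (h2 : f * e1 = f) : f = e1 := by
  obtain ⟨C, e, U, W, q, hS, hC, hE'⟩ := ls_eqv h hef
  exact hS.df hE' h1 h2

end LPA74
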