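import Pool.Agent.LibLPA74.B8
import Pool.Agent.LibLPA74.B9
import Pool.Agent.LibLPA74.LS

/-!
[LP B10] `A0` is locally split: code the edges (`Countable.exists_injective_nat`), `exhaust0`,
`exists_adm`, `Cyc.spl`, `Cs_le_A0`.  `seqv`: `eqvIn_of_eqv` and `LSpl.seqv`.
-/

namespace LPA74

variable {E : Gph} (K : Cyc E) [Countable E.Ed]

theorem Cyc.lspl : LSpl K.A0 := by
  obtain ⟨c, hc⟩ := exists_injective_nat E.Ed
  intro F hF
  obtain ⟨N, W0, h0⟩ := K.exhaust0 c hc F hF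
  obtain ⟨W, hW, hadm⟩ := K.exists_adm c hc N W0
  exact ⟨Cs (K.SN c hc N) W, _, E.V, W, qq (K.SN c hc N), K.spl hadm, K.Cs_le_A0 c hc,
    h0 N le_rfl W hW⟩

theorem Cyc.seqv {p q : LA E} (hp : p ∈ K.A0) (hq : q ∈ K.A0) (hpp : Pj p) (hqq : Pj q)
    (h : Eqv p q) : SEqvIn K.A0 p q :=
  K.lspl.seqv hpp hqq (K.eqvIn_of_eqv hp hq h)

end LPA74
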