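import Pool.Agent.LibLPA74.P3
import Pool.Agent.LibLPA74.B10

/-!
[LP D1] Direct finiteness: `x y = e`, `f = y x` (idempotent, `e f = f = f e`), `Eqv e f`.
`ev`: `EqvIn A0 (ev e) (ev f)` (`Cyc.eqvIn_ev`), `ev e * ev f = ev f` etc., so
`ev f = ev e` by `LSpl.df` (`Cyc.lspl`).  `g = e - f` is idempotent, so `Eqv g (ev g)` by
`Cyc.pid`, and `ev g = 0`, so `g = 0` (`Eqv.eq_zero`).
-/

namespace LPA74

theorem Cyc.df {E : Gph} (K : Cyc E) [Countable E.Ed] : DF (LA E) := by
  intro e x y he ex xe ey ye hxy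
  have hE : Eqv e (y * x) := ⟨x, y, hxy, rfl, by rw [hxy, ex], by rw [mul_assoc, hxy, ye]⟩
  have hef : e * (y * x) = y * x := by rw [← mul_assoc, ey]
  have hfe : (y * x) * e = y * x := by rw [mul_assoc, xe]
  have hff : (y * x) * (y * x) = y * x := hE.idem_right
  have h1 := K.eqvIn_ev hE
  have h2 : K.ev (y * x) = K.ev e := LSpl.df K.lspl h1 (by rw [← map_mul, hef]) (by rw [← map_mul, hfe])
  have h3 : (e - y * x) * (e - y * x) = e - y * x := by
    rw [mul_sub, sub_mul, sub_mul, he, hfe, hef, hff]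
    abel
  have h4 := K.pid h3
  rw [map_sub, h2, sub_self] at h4
  have h5 := h4.eq_zero
  exact (sub_eq_zero.1 h5).symm

end LPA74
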