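import Pool.Agent.LibLPA74.B1
import Pool.Agent.LibLPA74.R1

/-!
[LP D2] A cycle with an exit.  `¬ NoExit`: `c : Fin (n+1) → Ed` cyclic, `i0` and `f` with
`s f = s (c i0)`, `f ≠ c i0`.  The list `l = [c i0, c (i0+1), …, c (i0+n)]`
(`List.ofFn fun k => c (i0 + k)`) is a path ending at `v = s (c i0)` and starting at `v`
(`r (c (i0+n)) = s (c (i0+n+1)) = s (c i0)`).  `y = pe l v`, `x = star y`, `e = vx v`:
`x y = vx v` (`star_pe_mul_pe`), `e y = y = y e`.  If `y x = vx v`: multiply by `star (ed f)` on the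
left: `star (ed f) * y = 0` (`y = ed (c i0) * _`, `f ≠ c i0`), so `0 = star (ed f) * vx v =
star (ed f)`, so `vx (r f) = star (ed f) * ed f = 0`, contradiction with `vx_ne_zero`.
-/

namespace LPA74

/-- the list `[c i, c (i+1), …]` of length `m`. -/
def d2_l {E : Gph} {n : ℕ} (c : Fin (n + 1) → E.Ed) : ℕ → Fin (n + 1) → List E.Ed
  | 0, _ => []
  | m + 1, i => c i :: d2_l c m (i + 1)

theorem d2_isP {E : Gph} {n : ℕ} (c : Fin (n + 1) → E.Ed)
    (hc : ∀ i, E.r (c i) = E.s (c (i + 1))) (m : ℕ) : ∀ i : Fin (n + 1),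
      E.IsP (d2_l c m i) (E.s (c (i + m • (1 : Fin (n + 1))))) ∧
        E.st (d2_l c m i) (E.s (c (i + m • (1 : Fin (n + 1))))) = E.s (c i) := by
  induction m with
  | zero =>
    intro i
    refine ⟨trivial, ?_⟩
    change E.s (c (i + (0 : ℕ) • (1 : Fin (n + 1)))) = E.s (c i)
    rw [zero_smul, add_zero]
  | succ m ih =>
    intro i
    have h1 : i + (m + 1) • (1 : Fin (n + 1)) = (i + 1) + m • (1 : Fin (n + 1)) := by
      rw [add_smul, one_smul, add_assoc, add_comm (m • (1 : Fin (n + 1)))]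
    obtain ⟨h2, h3⟩ := ih (i + 1)
    refine ⟨⟨?_, ?_⟩, rfl⟩
    · rw [h1, h3]
      exact hc i
    · rw [h1]
      exact h2

theorem not_DF_of_exit {E : Gph} [Countable E.Ed] (h : ¬ E.NoExit) : ¬ DF (LA E) := by
  intro hDF
  apply h
  intro n c hc _ i0 f hf
  by_contra hne
  obtain ⟨h1, h2⟩ := d2_isP c hc n (i0 + 1)
  have h3 : (i0 + 1) + n • (1 : Fin (n + 1)) = i0 := by
    have h4 : Fintype.card (Fin (n + 1)) • (1 : Fin (n + 1)) = 0 := card_nsmul_eq_zero
    rw [Fintype.card_fin, add_smul, one_smul] at h4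
    rw [add_assoc, add_comm (1 : Fin (n + 1)), h4, add_zero]
  rw [h3] at h1 h2
  have h5 : E.IsP (c i0 :: d2_l c n (i0 + 1)) (E.s (c i0)) := by
    refine ⟨?_, h1⟩
    rw [h2]
    exact hc i0
  have hxy : star (pe (c i0 :: d2_l c n (i0 + 1)) (E.s (c i0))) *
      pe (c i0 :: d2_l c n (i0 + 1)) (E.s (c i0)) = (vx (E.s (c i0)) : LA E) :=
    star_pe_mul_pe h5
  have hey : (vx (E.s (c i0)) : LA E) * pe (c i0 :: d2_l c n (i0 + 1)) (E.s (c i0)) =
      pe (c i0 :: d2_l c n (i0 + 1)) (E.s (c i0)) :=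
    vx_mul_pe (c i0 :: d2_l c n (i0 + 1)) (E.s (c i0))
  have hye : pe (c i0 :: d2_l c n (i0 + 1)) (E.s (c i0)) * (vx (E.s (c i0)) : LA E) =
      pe (c i0 :: d2_l c n (i0 + 1)) (E.s (c i0)) :=
    pe_mul_vx (c i0 :: d2_l c n (i0 + 1)) (E.s (c i0))
  have hex : (vx (E.s (c i0)) : LA E) * star (pe (c i0 :: d2_l c n (i0 + 1)) (E.s (c i0))) =
      star (pe (c i0 :: d2_l c n (i0 + 1)) (E.s (c i0))) := by
    have := congrArg star hye
    rwa [star_mul, star_vx] at this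
  have hxe : star (pe (c i0 :: d2_l c n (i0 + 1)) (E.s (c i0))) * (vx (E.s (c i0)) : LA E) =
      star (pe (c i0 :: d2_l c n (i0 + 1)) (E.s (c i0))) := by
    have := congrArg star hey
    rwa [star_mul, star_vx] at this
  have hyx := hDF _ _ _ (vx_mul_self (E.s (c i0))) hex hxe hey hye hxy
  have h6 : star (ed f : LA E) * pe (c i0 :: d2_l c n (i0 + 1)) (E.s (c i0)) = 0 := by
    change star (ed f : LA E) * (ed (c i0) * pe (d2_l c n (i0 + 1)) (E.s (c i0))) = 0
    rw [← mul_assoc, star_ed_mul_ed_ne hne, zero_mul]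
  have h7 : star (ed f : LA E) = 0 := by
    have h8 := star_ed_mul_vx (E := E) f
    rw [hf, ← hyx, ← mul_assoc, h6, zero_mul] at h8
    exact h8.symm
  have h9 := star_ed_mul_ed (E := E) f
  rw [h7, zero_mul] at h9
  exact vx_ne_zero (E.r f) h9.symm

end LPA74
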