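import Pool.Agent.LibLPA74.Pj

/-!
[LP DL] The intertwining lemma.  `A`, `B` are generated by sequences `gA`, `gB`.
Construct `Φ n ∈ G`, `Ψ n ∈ G'` and finite sets `F n ⊆ A`, `F' n ⊆ B` with
`Ψ n (Φ n x) = x` on `F n`,  `Φ (n+1) (Ψ n y) = y` on `F' n`, where
`F' n ⊇ Φ n '' F n ∪ {gB 0, …, gB n}` and `F (n+1) ⊇ F n ∪ Ψ n '' F' n ∪ {gA 0, …, gA (n+1)}`.
(Recursion on the state `(Φ, F)` with `Φ ∈ G`, `F : Finset A`: given `(Φ, F)` and `n`, choose `Ψ`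
by `h1 Φ F`, set `F' = F.image Φ ∪ {gB i | i ≤ n}`, choose `Φ'` by `h2 Ψ F'`, set
`Fnext = F ∪ F'.image Ψ ∪ {gA i | i ≤ n+1}`.)
For `x ∈ F n`: `Φ n x ∈ F' n`, so `Φ (n+1) x = Φ (n+1) (Ψ n (Φ n x)) = Φ n x`, and `x ∈ F (n+1)`:
so `Φ m x = Φ n x` for `m ≥ n`.  Similarly for `y ∈ F' n`: `Ψ n y ∈ F (n+1)`,
`Φ (n+1) (Ψ n y) = y ∈ Φ (n+1) '' F (n+1) ⊆ F' (n+1)`, so
`Ψ (n+1) y = Ψ (n+1) (Φ (n+1) (Ψ n y)) = Ψ n y`, and `y ∈ F' (n+1)`.
So every element `x` of `A` (generated by the `gA i ∈ ⋃ F n`: `NonUnitalStarAlgebra.adjoin_induction`)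
has `Φ n x` eventually constant; the same for `Ψ n`.  The limits are `*`-homomorphisms
(`Φ∞ x = Φ N x` for large `N`).  `Ψ∞ (Φ∞ x) = x` for `x ∈ F n` (any `n`), hence for all `x`
(both sides are `*`-homomorphisms); similarly on the other side.  So `Φ∞` is a `*`-isomorphism.
-/

namespace LPA74

variable {A : Type} [NonUnitalRing A] [StarRing A] [Module ℂ A] [IsScalarTower ℂ A A]
  [SMulCommClass ℂ A A] [StarModule ℂ A]

variable {B : Type} [NonUnitalRing B] [StarRing B] [Module ℂ B] [IsScalarTower ℂ B B]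
  [SMulCommClass ℂ B B] [StarModule ℂ B]

/-- the limit of a sequence of `*`-homomorphisms which is eventually constant on generators. -/
theorem dl_lim (gA : ℕ → A) (hA : NonUnitalStarAlgebra.adjoin ℂ (Set.range gA) = ⊤)
    (Φ : ℕ → (A →⋆ₙₐ[ℂ] B)) (h : ∀ i, ∃ N, ∀ m, N ≤ m → Φ m (gA i) = Φ N (gA i)) :
    ∃ Ψ : A →⋆ₙₐ[ℂ] B, ∀ x, ∃ N, ∀ m, N ≤ m → Φ m x = Ψ x := by
  have h1 : ∀ x : A, ∃ (y : B) (N : ℕ), ∀ m, N ≤ m → Φ m x = y := by
    intro x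
    have hx : x ∈ NonUnitalStarAlgebra.adjoin ℂ (Set.range gA) := by
      rw [hA]
      exact NonUnitalStarAlgebra.mem_top
    induction hx using NonUnitalStarAlgebra.adjoin_induction with
    | mem x hx =>
      obtain ⟨i, rfl⟩ := hx
      obtain ⟨N, hN⟩ := h i
      exact ⟨_, N, hN⟩
    | zero => exact ⟨0, 0, fun m _ => map_zero _⟩
    | add x y _ _ hx hy =>
      obtain ⟨a, N, hN⟩ := hx
      obtain ⟨b, M, hM⟩ := hy
      exact ⟨a + b, max N M, fun m hm => by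
        rw [map_add, hN m (le_trans (le_max_left _ _) hm), hM m (le_trans (le_max_right _ _) hm)]⟩
    | mul x y _ _ hx hy =>
      obtain ⟨a, N, hN⟩ := hx
      obtain ⟨b, M, hM⟩ := hy
      exact ⟨a * b, max N M, fun m hm => by
        rw [map_mul, hN m (le_trans (le_max_left _ _) hm), hM m (le_trans (le_max_right _ _) hm)]⟩
    | smul c x _ hx =>
      obtain ⟨a, N, hN⟩ := hx
      exact ⟨c • a, N, fun m hm => by rw [map_smul, hN m hm]⟩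
    | star x _ hx =>
      obtain ⟨a, N, hN⟩ := hx
      exact ⟨star a, N, fun m hm => by rw [map_star, hN m hm]⟩
  choose f hf using h1
  have huniq : ∀ (x : A) (y : B) (N : ℕ), (∀ m, N ≤ m → Φ m x = y) → f x = y := by
    intro x y N hN
    obtain ⟨M, hM⟩ := hf x
    rw [← hM (max N M) (le_max_right _ _), hN (max N M) (le_max_left _ _)]
  refine ⟨{ toFun := f
            map_smul' := ?_
            map_zero' := ?_
            map_add' := ?_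
            map_mul' := ?_
            map_star' := ?_ }, fun x => hf x⟩
  · intro c x
    obtain ⟨N, hN⟩ := hf x
    exact huniq _ _ N fun m hm => by rw [map_smul, hN m hm]; rfl
  · exact huniq _ _ 0 fun m _ => map_zero _
  · intro x y
    obtain ⟨N, hN⟩ := hf x
    obtain ⟨M, hM⟩ := hf y
    exact huniq _ _ (max N M) fun m hm => by
      rw [map_add, hN m (le_trans (le_max_left _ _) hm), hM m (le_trans (le_max_right _ _) hm)]
  · intro x y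
    obtain ⟨N, hN⟩ := hf x
    obtain ⟨M, hM⟩ := hf y
    exact huniq _ _ (max N M) fun m hm => by
      rw [map_mul, hN m (le_trans (le_max_left _ _) hm), hM m (le_trans (le_max_right _ _) hm)]
  · intro x
    obtain ⟨N, hN⟩ := hf x
    exact huniq _ _ N fun m hm => by rw [map_star, hN m hm]

/-- two `*`-homomorphisms with the composition the identity on generators. -/
theorem dl_id (gA : ℕ → A) (hA : NonUnitalStarAlgebra.adjoin ℂ (Set.range gA) = ⊤)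
    (Φ : A →⋆ₙₐ[ℂ] B) (Ψ : B →⋆ₙₐ[ℂ] A) (h : ∀ i, Ψ (Φ (gA i)) = gA i) (x : A) :
    Ψ (Φ x) = x := by
  have hx : x ∈ NonUnitalStarAlgebra.adjoin ℂ (Set.range gA) := by
    rw [hA]
    exact NonUnitalStarAlgebra.mem_top
  induction hx using NonUnitalStarAlgebra.adjoin_induction with
  | mem x hx =>
    obtain ⟨i, rfl⟩ := hx
    exact h i
  | zero => rw [map_zero, map_zero]
  | add x y _ _ hx hy => rw [map_add, map_add, hx, hy]
  | mul x y _ _ hx hy => rw [map_mul, map_mul, hx, hy]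
  | smul c x _ hx => rw [map_smul, map_smul, hx]
  | star x _ hx => rw [map_star, map_star, hx]

theorem intertwine (gA : ℕ → A) (hA : NonUnitalStarAlgebra.adjoin ℂ (Set.range gA) = ⊤)
    (gB : ℕ → B) (hB : NonUnitalStarAlgebra.adjoin ℂ (Set.range gB) = ⊤)
    (G : Set (A →⋆ₙₐ[ℂ] B)) (G' : Set (B →⋆ₙₐ[ℂ] A)) (hne : G.Nonempty)
    (h1 : ∀ Φ ∈ G, ∀ F : Finset A, ∃ Ψ ∈ G', ∀ x ∈ F, Ψ (Φ x) = x)
    (h2 : ∀ Ψ ∈ G', ∀ F : Finset B, ∃ Φ ∈ G, ∀ x ∈ F, Φ (Ψ x) = x) :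
    Nonempty (A ≃⋆ₐ[ℂ] B) := by
  classical
  have h1' : ∀ s : {Φ : A →⋆ₙₐ[ℂ] B // Φ ∈ G} × Finset A, ∃ Ψ : {Ψ : B →⋆ₙₐ[ℂ] A // Ψ ∈ G'},
      ∀ x ∈ s.2, Ψ.1 (s.1.1 x) = x := by
    rintro ⟨⟨Φ, hΦ⟩, F⟩
    obtain ⟨Ψ, hΨ, h⟩ := h1 Φ hΦ F
    exact ⟨⟨Ψ, hΨ⟩, h⟩
  have h2' : ∀ s : {Ψ : B →⋆ₙₐ[ℂ] A // Ψ ∈ G'} × Finset B, ∃ Φ : {Φ : A →⋆ₙₐ[ℂ] B // Φ ∈ G},
      ∀ x ∈ s.2, Φ.1 (s.1.1 x) = x := by
    rintro ⟨⟨Φ, hΦ⟩, F⟩
    obtain ⟨Ψ, hΨ, h⟩ := h2 Φ hΦ F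
    exact ⟨⟨Ψ, hΨ⟩, h⟩
  choose f1 hf1 using h1'
  choose f2 hf2 using h2'
  obtain ⟨Φ0, hΦ0⟩ := hne
  -- the second finite set of a state
  let F2 : ℕ → {Φ : A →⋆ₙₐ[ℂ] B // Φ ∈ G} × Finset A → Finset B := fun n s =>
    s.2.image s.1.1 ∪ (Finset.range (n + 1)).image gB
  let step : ℕ → {Φ : A →⋆ₙₐ[ℂ] B // Φ ∈ G} × Finset A → {Φ : A →⋆ₙₐ[ℂ] B // Φ ∈ G} × Finset A :=
    fun n s => (f2 (f1 s, F2 n s),
      s.2 ∪ (F2 n s).image (f1 s).1 ∪ (Finset.range (n + 2)).image gA)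
  let st : ℕ → {Φ : A →⋆ₙₐ[ℂ] B // Φ ∈ G} × Finset A :=
    fun n => Nat.rec (⟨Φ0, hΦ0⟩, (Finset.range 1).image gA) step n
  have hst : ∀ n, st (n + 1) = step n (st n) := fun n => rfl
  have hst1 : ∀ n, (st (n + 1)).1 = f2 (f1 (st n), F2 n (st n)) := fun n => rfl
  have hst2 : ∀ n, (st (n + 1)).2 = (st n).2 ∪ (F2 n (st n)).image (f1 (st n)).1 ∪
    (Finset.range (n + 2)).image gA := fun n => rfl
  -- the basic facts
  have ha : ∀ n, ∀ x ∈ (st n).2, (f1 (st n)).1 ((st n).1.1 x) = x := fun n x hx => hf1 (st n) x hx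
  have hb : ∀ n, ∀ y ∈ F2 n (st n), (st (n + 1)).1.1 ((f1 (st n)).1 y) = y := by
    intro n y hy
    rw [hst1]
    exact hf2 (f1 (st n), F2 n (st n)) y hy
  have hc1 : ∀ n, ∀ x ∈ (st n).2, x ∈ (st (n + 1)).2 := by
    intro n x hx
    rw [hst2]
    exact Finset.mem_union_left _ (Finset.mem_union_left _ hx)
  have hc2 : ∀ n, ∀ y ∈ F2 n (st n), (f1 (st n)).1 y ∈ (st (n + 1)).2 := by
    intro n y hy
    rw [hst2]
    exact Finset.mem_union_left _ (Finset.mem_union_right _ (Finset.mem_image_of_mem _ hy))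
  have hc3 : ∀ n, gA n ∈ (st n).2 := by
    intro n
    cases n with
    | zero => exact Finset.mem_image_of_mem _ (Finset.mem_range.2 Nat.zero_lt_one)
    | succ n =>
      rw [hst2]
      exact Finset.mem_union_right _ (Finset.mem_image_of_mem _ (Finset.mem_range.2 (by omega)))
  have hd1 : ∀ n, ∀ x ∈ (st n).2, (st n).1.1 x ∈ F2 n (st n) := fun n x hx =>
    Finset.mem_union_left _ (Finset.mem_image_of_mem _ hx)
  have hd2 : ∀ n, gB n ∈ F2 n (st n) := fun n =>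
    Finset.mem_union_right _ (Finset.mem_image_of_mem _ (Finset.mem_range.2 (Nat.lt_succ_self n)))
  have he : ∀ n, ∀ x ∈ (st n).2, (st (n + 1)).1.1 x = (st n).1.1 x := by
    intro n x hx
    have h3 := hb n _ (hd1 n x hx)
    rwa [ha n x hx] at h3
  have hf : ∀ n, ∀ x ∈ (st n).2, ∀ m, n ≤ m → x ∈ (st m).2 ∧ (st m).1.1 x = (st n).1.1 x := by
    intro n x hx m hm
    induction m, hm using Nat.le_induction with
    | base => exact ⟨hx, rfl⟩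
    | succ m _ ih => exact ⟨hc1 m x ih.1, (he m x ih.1).trans ih.2⟩
  have hg : ∀ n, ∀ y ∈ F2 n (st n), y ∈ F2 (n + 1) (st (n + 1)) ∧
      (f1 (st (n + 1))).1 y = (f1 (st n)).1 y := by
    intro n y hy
    have h3 := hc2 n y hy
    have h4 := hb n y hy
    constructor
    · have h5 := hd1 (n + 1) _ h3
      rwa [h4] at h5
    · have h5 := ha (n + 1) _ h3
      rwa [h4] at h5
  have hh : ∀ n, ∀ y ∈ F2 n (st n), ∀ m, n ≤ m → y ∈ F2 m (st m) ∧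
      (f1 (st m)).1 y = (f1 (st n)).1 y := by
    intro n y hy m hm
    induction m, hm using Nat.le_induction with
    | base => exact ⟨hy, rfl⟩
    | succ m _ ih => exact ⟨(hg m y ih.1).1, (hg m y ih.1).2.trans ih.2⟩
  obtain ⟨Φ, hΦ⟩ := dl_lim gA hA (fun n => (st n).1.1)
    (fun i => ⟨i, fun m hm => (hf i _ (hc3 i) m hm).2⟩)
  obtain ⟨Ψ, hΨ⟩ := dl_lim gB hB (fun n => (f1 (st n)).1)
    (fun i => ⟨i, fun m hm => (hh i _ (hd2 i) m hm).2⟩)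
  have hΦ' : ∀ n, ∀ x ∈ (st n).2, Φ x = (st n).1.1 x := by
    intro n x hx
    obtain ⟨N, hN⟩ := hΦ x
    rw [← hN (max n N) (le_max_right _ _)]
    exact (hf n x hx _ (le_max_left _ _)).2
  have hΨ' : ∀ n, ∀ y ∈ F2 n (st n), Ψ y = (f1 (st n)).1 y := by
    intro n y hy
    obtain ⟨N, hN⟩ := hΨ y
    rw [← hN (max n N) (le_max_right _ _)]
    exact (hh n y hy _ (le_max_left _ _)).2
  have hl : ∀ x, Ψ (Φ x) = x := by
    refine dl_id gA hA Φ Ψ fun i => ?_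
    rw [hΦ' i _ (hc3 i), hΨ' i _ (hd1 i _ (hc3 i))]
    exact ha i _ (hc3 i)
  have hr : ∀ y, Φ (Ψ y) = y := by
    refine dl_id gB hB Ψ Φ fun i => ?_
    rw [hΨ' i _ (hd2 i), hΦ' (i + 1) _ (hc2 i _ (hd2 i))]
    exact hb i _ (hd2 i)
  exact ⟨StarAlgEquiv.ofBijective Φ ⟨fun x y hxy => by rw [← hl x, hxy, hl y],
    fun y => ⟨Ψ y, hr y⟩⟩⟩

end LPA74
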