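import Pool.Agent.LibLPA74.Cyc

/-!
[LP G1] In a graph in which no cycle has an exit, a vertex on a closed walk emits exactly one
edge.
-/

namespace LPA74

theorem g1_walk {E : Gph} {a b : E.V} (h : Relation.TransGen E.Step a b) :
    ∃ (n : ℕ) (w : ℕ → E.Ed), (∀ i < n, E.r (w i) = E.s (w (i + 1))) ∧ E.s (w 0) = a ∧
      E.r (w n) = b := by
  induction h with
  | single h =>
    obtain ⟨g, hg1, hg2⟩ := h
    exact ⟨0, fun _ => g, fun i hi => absurd hi (Nat.not_lt_zero i), hg1, hg2⟩
  | tail _ h ih =>
    obtain ⟨g, hg1, hg2⟩ := h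
    obtain ⟨n, w, h1, h2, h3⟩ := ih
    refine ⟨n + 1, fun i => if i ≤ n then w i else g, ?_, ?_, ?_⟩
    · intro i hi
      have hi' : i ≤ n := Nat.lt_succ_iff.mp hi
      rcases Nat.lt_or_ge i n with h4 | h4
      · have h5 : i + 1 ≤ n := h4
        simp only [hi', h5, if_true]
        exact h1 i h4
      · have h5 : i = n := le_antisymm hi' h4
        subst h5
        have h6 : ¬ (i + 1 ≤ i) := by omega
        simp only [le_refl, if_true, h6, if_false]
        rw [h3, hg1]
    · simp only [Nat.zero_le, if_true]
      exact h2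
    · have h6 : ¬ (n + 1 ≤ n) := by omega
      simp only [h6, if_false]
      exact hg2

theorem Gph.NoExit.unique {E : Gph} (h : E.NoExit) {v : E.V} (hv : Relation.TransGen E.Step v v)
    {g g' : E.Ed} (hg : E.s g = v) (hg' : E.s g' = v) : g = g' := by
  classical
  have hex : ∃ n : ℕ, ∃ w : ℕ → E.Ed, (∀ i < n, E.r (w i) = E.s (w (i + 1))) ∧ E.s (w 0) = v ∧
      E.r (w n) = v := g1_walk hv
  obtain ⟨w, h1, h2, h3⟩ := Nat.find_spec hex
  have hmin := fun m (hm : m < Nat.find hex) => Nat.find_min hex hm
  set n := Nat.find hex with hn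
  have key : ∀ i j : ℕ, i < j → j ≤ n → E.s (w i) ≠ E.s (w j) := by
    intro i j hij hjn he
    refine hmin (n - (j - i)) (by omega)
      ⟨fun k => if k < i then w k else w (k + (j - i)), ?_, ?_, ?_⟩
    · intro k hk
      rcases Nat.lt_trichotomy (k + 1) i with h4 | h4 | h4
      · have h5 : k < i := by omega
        simp only [h4, h5, if_true]
        exact h1 k (by omega)
      · have h5 : k < i := by omega
        have h6 : ¬ (k + 1 < i) := by omega
        simp only [h5, h6, if_true, if_false]
        rw [h1 k (by omega), h4, he]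
        congr 2
        omega
      · have h5 : ¬ (k < i) := by omega
        have h6 : ¬ (k + 1 < i) := by omega
        simp only [h5, h6, if_false]
        rw [h1 (k + (j - i)) (by omega)]
        congr 2
        omega
    · by_cases h4 : 0 < i
      · simp only [h4, if_true]
        exact h2
      · have h5 : i = 0 := by omega
        subst h5
        simp only [lt_irrefl, if_false, Nat.zero_add, Nat.sub_zero]
        rw [← he, h2]
    · have h4 : ¬ (n - (j - i) < i) := by omega
      simp only [h4, if_false]
      have h5 : n - (j - i) + (j - i) = n := by omega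
      rw [h5, h3]
  have hinj : Function.Injective fun i : Fin (n + 1) => E.s (w i) := by
    intro i j hij
    by_contra hne
    have hne' : (i : ℕ) ≠ (j : ℕ) := fun h => hne (Fin.ext h)
    rcases Nat.lt_or_gt_of_ne hne' with h4 | h4
    · exact key i j h4 (by have := j.isLt; omega) hij
    · exact key j i h4 (by have := i.isLt; omega) hij.symm
  have hcyc : ∀ i : Fin (n + 1), E.r (w i) = E.s (w ((i + 1 : Fin (n + 1)) : ℕ)) := by
    intro i
    rcases Nat.lt_or_ge (i : ℕ) n with h4 | h4
    · have h5 : ((i + 1 : Fin (n + 1)) : ℕ) = (i : ℕ) + 1 := by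
        have : i ≠ Fin.last n := by
          intro hc
          rw [hc] at h4
          simp at h4
        rw [Fin.val_add_one_of_lt (Fin.lt_last_iff_ne_last.mpr this)]
      rw [h5]
      exact h1 i h4
    · have h5 : i = Fin.last n := by
        apply Fin.ext
        have := i.isLt
        simp only [Fin.val_last]
        omega
      rw [h5, Fin.last_add_one]
      simp only [Fin.val_last, Fin.val_zero]
      rw [h3, h2]
  have hfin := h n (fun i => w i) hcyc hinj 0
  have e1 : g = w 0 := hfin g (by rw [hg]; exact h2.symm)
  have e2 : g' = w 0 := hfin g' (by rw [hg']; exact h2.symm)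
  rw [e1, e2]

end LPA74
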