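import Pool.Agent.LibLPA74.Cyc
import Pool.Agent.LibLPA74.G1

/-!
[LP G3] A path back.  `v` lies on a closed walk, `g` is the edge out of `v`.  By
`NoExit.unique`, `TransGen Step v v` gives `ReflTransGen Step (r g) v`, hence a list `l` with
`IsP l v`, `st l v = r g`.  Take such an `l` of minimal length.  If `g ∈ l`, `l = l1 ++ g :: l2`,
then `l1` is a shorter one (its end is `s g = v`); so `g ∉ l`.  For `g' ∈ l`: `s g'` is reachable
from `r g`, hence from `v`, and `v` is reachable from `s g'` by at least one step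
(`TransGen Step (s g') v`).
-/

namespace LPA74

theorem g3_st_append {E : Gph} (l1 l2 : List E.Ed) (u : E.V) :
    E.st (l1 ++ l2) u = E.st l1 (E.st l2 u) := by
  cases l1 with
  | nil => rfl
  | cons g l => rfl

theorem g3_isP_append {E : Gph} (l1 l2 : List E.Ed) (u : E.V) :
    E.IsP (l1 ++ l2) u ↔ E.IsP l1 (E.st l2 u) ∧ E.IsP l2 u := by
  induction l1 with
  | nil => exact ⟨fun h => ⟨trivial, h⟩, fun h => h.2⟩
  | cons g l ih =>
    change (E.r g = E.st (l ++ l2) u ∧ E.IsP (l ++ l2) u) ↔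
      ((E.r g = E.st l (E.st l2 u) ∧ E.IsP l (E.st l2 u)) ∧ E.IsP l2 u)
    rw [g3_st_append, ih, and_assoc]

theorem g3_reach {E : Gph} (l : List E.Ed) (u : E.V) (h : E.IsP l u) :
    Relation.ReflTransGen E.Step (E.st l u) u := by
  induction l with
  | nil => exact Relation.ReflTransGen.refl
  | cons g l ih => exact Relation.ReflTransGen.head ⟨g, rfl, h.1⟩ (ih h.2)

theorem g3_exists {E : Gph} {a u : E.V} (h : Relation.ReflTransGen E.Step a u) :
    ∃ l : List E.Ed, E.IsP l u ∧ E.st l u = a := by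
  induction h using Relation.ReflTransGen.head_induction_on with
  | refl => exact ⟨[], trivial, rfl⟩
  | head h1 _ ih =>
    obtain ⟨g, hg1, hg2⟩ := h1
    obtain ⟨l, hl1, hl2⟩ := ih
    exact ⟨g :: l, ⟨hg2.trans hl2.symm, hl1⟩, hg1⟩

theorem Gph.NoExit.exists_path {E : Gph} (h : E.NoExit) {v : E.V}
    (hv : Relation.TransGen E.Step v v) {g : E.Ed} (hg : E.s g = v) :
    ∃ l : List E.Ed, E.IsP l v ∧ E.st l v = E.r g ∧ ∀ g' ∈ l, g' ≠ g ∧
      Relation.ReflTransGen E.Step v (E.s g') ∧ Relation.TransGen E.Step (E.s g') v := by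
  classical
  have hex : ∃ n : ℕ, ∃ l : List E.Ed, l.length = n ∧ E.IsP l v ∧ E.st l v = E.r g := by
    obtain ⟨b, ⟨g1, hg1, hg2⟩, hb⟩ := Relation.TransGen.head'_iff.1 hv
    obtain ⟨l, hl1, hl2⟩ := g3_exists hb
    refine ⟨l.length, l, rfl, hl1, ?_⟩
    rw [hl2, ← hg2, h.unique hv hg hg1]
  obtain ⟨l, hl, hP, hst⟩ := Nat.find_spec hex
  refine ⟨l, hP, hst, ?_⟩
  intro g' hg'
  obtain ⟨l1, l2, rfl⟩ := List.append_of_mem hg'
  obtain ⟨hP1, hP2, hP3⟩ := (g3_isP_append l1 (g' :: l2) v).1 hP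
  rw [g3_st_append] at hst
  refine ⟨?_, ?_, ?_⟩
  · rintro rfl
    have hlt : l1.length < Nat.find hex := by
      rw [← hl, List.length_append, List.length_cons]
      omega
    refine Nat.find_min hex hlt ⟨l1, rfl, ?_, ?_⟩
    · have h1 := hP1
      change E.IsP l1 (E.s g') at h1
      rwa [hg] at h1
    · have h1 := hst
      change E.st l1 (E.s g') = _ at h1
      rwa [hg] at h1
  · have h1 := g3_reach l1 _ hP1
    rw [hst] at h1
    exact Relation.ReflTransGen.head ⟨g, hg, rfl⟩ h1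
  · exact Relation.TransGen.head' ⟨g', rfl, hP2⟩ (g3_reach l2 v hP3)

end LPA74
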