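import Pool.Agent.LibLPA74.Cyc
import Pool.Agent.LibLPA74.G1

/-!
[LP G4] Suppose every vertex on a closed walk can be joined to the source of an edge of
`D`.  Then a set `S` of edges outside `D` has no cycle.  Let `R a b ↔ ∃ g ∈ S, s g = a ∧ r g = b`
and suppose `TransGen R v v`.  Claim: if `TransGen R a a` and `Step a b` then `TransGen R b b`:
`TransGen Step a a`, the first step of the `R`-walk from `a` is an edge `g ∈ S`, which by
`NoExit.unique` is the only edge out of `a`, so `r g = b`, and one can rotate the walk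
(`TransGen.head'_iff` or so: `R a b`, `ReflTransGen R b a`).  So `TransGen R w w` for every `w`
with `ReflTransGen Step v w`.  Take `w = s g`, `g ∈ D`: the first edge of the `R`-walk from `w` is
in `S` and equals `g` by uniqueness, contradiction.
-/

namespace LPA74

theorem Gph.NoExit.acyclic {E : Gph} (h : E.NoExit) (D : Set E.Ed)
    (hD : ∀ v, Relation.TransGen E.Step v v → ∃ g ∈ D, Relation.ReflTransGen E.Step v (E.s g))
    (S : Finset E.Ed) (hS : ∀ g ∈ S, g ∉ D) (v : E.V) :
    ¬ Relation.TransGen (fun a b => ∃ g ∈ S, E.s g = a ∧ E.r g = b) v v := by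
  intro hv
  have hstep : ∀ a b, Relation.TransGen (fun a b => ∃ g ∈ S, E.s g = a ∧ E.r g = b) a b →
      Relation.TransGen E.Step a b := fun a b hab => by
    induction hab with
    | single h1 =>
      obtain ⟨g, _, h2, h3⟩ := h1
      exact Relation.TransGen.single ⟨g, h2, h3⟩
    | tail _ h1 ih =>
      obtain ⟨g, _, h2, h3⟩ := h1
      exact ih.tail ⟨g, h2, h3⟩
  have hclaim : ∀ w, Relation.ReflTransGen E.Step v w →
      Relation.TransGen (fun a b => ∃ g ∈ S, E.s g = a ∧ E.r g = b) w w := by
    intro w hw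
    induction hw with
    | refl => exact hv
    | tail _ hab ih =>
      obtain ⟨g', hg'1, hg'2⟩ := hab
      obtain ⟨c, ⟨g, hg, hg1, hg2⟩, hc⟩ := Relation.TransGen.head'_iff.1 ih
      have h1 : g = g' := h.unique (hstep _ _ ih) hg1 hg'1
      have h2 := hg2
      rw [h1, hg'2] at h2
      subst h2
      exact Relation.TransGen.tail' hc ⟨g, hg, hg1, hg2⟩
  obtain ⟨g, hg, hvg⟩ := hD v (hstep _ _ hv)
  have h1 := hclaim _ hvg
  obtain ⟨c, ⟨g', hg', hg1, _⟩, _⟩ := Relation.TransGen.head'_iff.1 h1
  have h2 : g' = g := h.unique (hstep _ _ h1) hg1 rfl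
  exact hS g' hg' (h2 ▸ hg)

end LPA74
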