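import Pool.Agent.LibLPA74.G2
import Pool.Agent.LibLPA74.G3
import Pool.Agent.LibLPA74.G4

/-!
[LP G5] Construction of `Cyc E`.  Let `C = {v // TransGen Step v v}`.  For `v ∈ C` and
`ReflTransGen Step v w` also `w ∈ C` and `ReflTransGen Step w v` (induction on the path from `v`;
the edge out of `v` is unique and is the first edge of the closed walk).  So
`v ~ w ↔ ReflTransGen Step v w` is an equivalence relation on `C`; let `rep v` be the chosen
representative (`Quotient.out`) of the class of `v`, and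
`D = {g | ∃ v : C, s g = rep v}`.  `hu`: `NoExit.unique`.  `y f`: from `exists_path` (choice) for
`f ∈ D`, `[]` otherwise.  `hyn`: for `g ∈ y f`, `s g ∈ C` is in the class of `s f`; if `g ∈ D`
then `s g` is a representative, so `s g = s f`, `g = f`, contradiction with `g' ≠ g` in
`exists_path`; uniqueness from `NoExit.unique`.  `hac`: `NoExit.acyclic` and `exists_height`.
-/

namespace LPA74

theorem g5_step_back {E : Gph} (h : E.NoExit) {v w : E.V} (hv : Relation.TransGen E.Step v v)
    (hs : E.Step v w) : Relation.ReflTransGen E.Step w v := by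
  obtain ⟨b, ⟨g, hg1, hg2⟩, hb⟩ := Relation.TransGen.head'_iff.1 hv
  obtain ⟨g', hg1', hg2'⟩ := hs
  have h1 : g = g' := h.unique hv hg1 hg1'
  rw [← hg2', ← h1, hg2]
  exact hb

theorem g5_reach {E : Gph} (h : E.NoExit) {v w : E.V} (hv : Relation.TransGen E.Step v v)
    (hr : Relation.ReflTransGen E.Step v w) :
    Relation.TransGen E.Step w w ∧ Relation.ReflTransGen E.Step w v := by
  induction hr with
  | refl => exact ⟨hv, Relation.ReflTransGen.refl⟩
  | tail _ hbc ih =>
    have h1 := g5_step_back h ih.1 hbc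
    exact ⟨Relation.TransGen.tail' h1 hbc, h1.trans ih.2⟩

/-- the equivalence relation on the vertices of the cycles. -/
def g5_setoid {E : Gph} (h : E.NoExit) : Setoid {v : E.V // Relation.TransGen E.Step v v} where
  r a b := Relation.ReflTransGen E.Step a.1 b.1
  iseqv := ⟨fun _ => Relation.ReflTransGen.refl, fun {a _} hab => (g5_reach h a.2 hab).2,
    fun hab hbc => hab.trans hbc⟩

theorem g5_rep {E : Gph} (h : E.NoExit) :
    ∃ rep : {v : E.V // Relation.TransGen E.Step v v} → {v : E.V // Relation.TransGen E.Step v v},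
      (∀ v, Relation.ReflTransGen E.Step v.1 (rep v).1) ∧
      ∀ v w, Relation.ReflTransGen E.Step v.1 w.1 → rep v = rep w := by
  refine ⟨fun v => (Quotient.mk (g5_setoid h) v).out, fun v => ?_, fun v w hvw => ?_⟩
  · have h1 : (g5_setoid h).r (Quotient.mk (g5_setoid h) v).out v := Quotient.mk_out v
    exact (g5_reach h (Quotient.mk (g5_setoid h) v).out.2 h1).2
  · have h1 : Quotient.mk (g5_setoid h) v = Quotient.mk (g5_setoid h) w := Quotient.sound hvw
    simp only [h1]

theorem Gph.NoExit.cyc {E : Gph} (h : E.NoExit) : Nonempty (Cyc E) := by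
  classical
  obtain ⟨rep, hrep1, hrep2⟩ := g5_rep h
  have hC : ∀ f : E.Ed, (∃ v, E.s f = (rep v).1) → Relation.TransGen E.Step (E.s f) (E.s f) := by
    rintro f ⟨v, hv⟩
    rw [hv]
    exact (rep v).2
  refine ⟨{
    D := {g | ∃ v, E.s g = (rep v).1}
    y := fun f => if hf : ∃ v, E.s f = (rep v).1 then
      (h.exists_path (hC f hf) (rfl : E.s f = E.s f)).choose else []
    hu := fun f hf g hg => h.unique (hC f hf) hg rfl
    hy := ?_
    hyn := ?_
    hac := ?_ }⟩
  · intro f hf
    have hf' : ∃ v, E.s f = (rep v).1 := hf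
    have h1 := (h.exists_path (hC f hf') (rfl : E.s f = E.s f)).choose_spec
    simp only [dif_pos hf']
    exact ⟨h1.1, h1.2.1⟩
  · intro f hf g hg
    have hf' : ∃ v, E.s f = (rep v).1 := hf
    have h1 := (h.exists_path (hC f hf') (rfl : E.s f = E.s f)).choose_spec
    simp only [dif_pos hf'] at hg
    obtain ⟨h2, h3, h4⟩ := h1.2.2 g hg
    have h5 := g5_reach h (hC f hf') h3
    refine ⟨?_, fun g' hg' => h.unique h5.1 hg' rfl⟩
    rintro ⟨w, hw⟩
    obtain ⟨v, hv⟩ := hf'
    apply h2
    refine h.unique (hC f ⟨v, hv⟩) ?_ rfl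
    rw [hv, hw]
    have h6 : rep v = rep (rep v) := hrep2 _ _ (hrep1 v)
    have h7 : rep w = rep (rep w) := hrep2 _ _ (hrep1 w)
    have h8 : rep (rep v) = rep (rep w) := hrep2 _ _ (by
      rw [← hv, ← hw]
      exact h3)
    rw [h6, h8, ← h7]
  · intro S hS
    refine exists_height E.s E.r S fun v => ?_
    refine h.acyclic {g | ∃ v, E.s g = (rep v).1} ?_ S hS v
    intro v hv
    obtain ⟨b, ⟨g, hg1, hg2⟩, hb⟩ := Relation.TransGen.head'_iff.1 (rep ⟨v, hv⟩).2
    refine ⟨g, ⟨⟨v, hv⟩, hg1⟩, ?_⟩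
    rw [hg1]
    exact hrep1 ⟨v, hv⟩

end LPA74
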