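import Pool.Agent.LibLPA74.A7
import Pool.Agent.LibLPA74.BE4
import Pool.Agent.LibLPA74.C1
import Pool.Agent.LibLPA74.D1
import Pool.Agent.LibLPA74.D2
import Pool.Agent.LibLPA74.DL
import Pool.Agent.LibLPA74.G5

/-!
[LP FIN] Assembly.  `K` from `hE.cyc`.  `DF (LA E)` (`Cyc.df`), so `DF (LA F)` (`DF.map`), so
`F.NoExit` (`not_DF_of_exit`), `K'`.  `G = {Φ | Good K K' θ Φ}`, `G' = {Ψ | Good K' K θ.symm Ψ}`
nonempty by `exists_good`.  `h1`: `Φ ∈ G`, `F` finite: take `Ψ0 ∈ G'`; `Ψ0 ∘ Φ` is good for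
`θ.trans θ.symm = refl` (`Good.comp`); `Good.inner`: `Ψ0 (Φ x) = Ad d x` on `F`; let `Ψ = Ad (star d) ∘
Ψ0` (`exists_AdH`, `QU.star`): `Ψ ∈ G'` (`Good.ad`) and `Ψ (Φ x) = Ad (star d) (Ad d x) = x`.
Generators: `LA.adjoin_eq_top` and an enumeration of the countable set
`range vx ∪ range ed` (if it is empty use the constant sequence `0`).  `intertwine`.
-/

namespace LPA74

theorem fin_gen (E : Gph) [Countable E.V] [Countable E.Ed] :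
    ∃ g : ℕ → LA E, NonUnitalStarAlgebra.adjoin ℂ (Set.range g) = ⊤ := by
  have hs : (Set.range (vx : E.V → LA E) ∪ Set.range (ed : E.Ed → LA E)).Countable :=
    (Set.countable_range _).union (Set.countable_range _)
  rcases Set.eq_empty_or_nonempty
    (Set.range (vx : E.V → LA E) ∪ Set.range (ed : E.Ed → LA E)) with h0 | h0
  · refine ⟨fun _ => 0, top_unique ?_⟩
    rw [← LA.adjoin_eq_top (E := E), h0]
    exact NonUnitalStarAlgebra.adjoin_mono (Set.empty_subset _)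
  · obtain ⟨g, hg⟩ := hs.exists_eq_range h0
    refine ⟨g, ?_⟩
    rw [← hg]
    exact LA.adjoin_eq_top

theorem fin_back {E F : Gph} (K : Cyc E) (K' : Cyc F) [Countable E.V] [Countable E.Ed]
    [Countable F.V] [Countable F.Ed] (θ : LA E ≃+* LA F) {Φ : LA E →⋆ₙₐ[ℂ] LA F}
    (hΦ : Good K K' θ Φ) (S : Finset (LA E)) :
    ∃ Ψ : LA F →⋆ₙₐ[ℂ] LA E, Good K' K θ.symm Ψ ∧ ∀ x ∈ S, Ψ (Φ x) = x := by
  obtain ⟨Ψ0, h0⟩ := exists_good K' K θ.symm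
  have hc : Good K K (θ.trans θ.symm) (Ψ0.comp Φ) := Good.comp hΦ h0
  rw [RingEquiv.self_trans_symm] at hc
  obtain ⟨d, hd, hq, hx⟩ := Good.inner hc S
  obtain ⟨φ, hφ⟩ := exists_AdH hq.star
  refine ⟨φ.comp Ψ0, Good.ad h0 hq.star (star_mem hd) (fun x => hφ _), ?_⟩
  intro x hxS
  have h1 : Ψ0 (Φ x) = Ad d x := hx x hxS
  change φ (Ψ0 (Φ x)) = x
  rw [h1, hφ, Ad_star_Ad hq]

theorem main {E F : Gph} [Countable E.V] [Countable E.Ed] [Countable F.V] [Countable F.Ed]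
    (hE : E.NoExit) (θ : LA E ≃+* LA F) : Nonempty (LA E ≃⋆ₐ[ℂ] LA F) := by
  obtain ⟨K⟩ := hE.cyc
  have hF : F.NoExit := by
    by_contra hF
    exact not_DF_of_exit hF (DF.map K.df θ)
  obtain ⟨K'⟩ := hF.cyc
  obtain ⟨gA, hA⟩ := fin_gen E
  obtain ⟨gB, hB⟩ := fin_gen F
  refine intertwine gA hA gB hB {Φ | Good K K' θ Φ} {Ψ | Good K' K θ.symm Ψ} ?_ ?_ ?_
  · obtain ⟨Φ, hΦ⟩ := exists_good K K' θ
    exact ⟨Φ, hΦ⟩
  · intro Φ hΦ S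
    obtain ⟨Ψ, h1, h2⟩ := fin_back K K' θ hΦ S
    exact ⟨Ψ, h1, h2⟩
  · intro Ψ hΨ S
    obtain ⟨Φ, h1, h2⟩ := fin_back K' K θ.symm hΨ S
    exact ⟨Φ, h1, h2⟩

end LPA74
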