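import Pool.Agent.LibLPA74.Pj

/-!
[LP PI] `ℂ[T;T⁻¹]` is a principal ideal domain.  Domain: Mathlib instance
(`AddMonoidAlgebra` of `ℤ` over a domain).  It is a localization of `ℂ[X]`
(`LaurentPolynomial.isLocalization`), and every ideal of a localization is the image of its
preimage (`IsLocalization.map_comap`), which is principal.  (Search Mathlib first, e.g.
`IsLocalization.isPrincipalIdealRing`.)
-/

namespace LPA74

theorem laurent_domain : IsDomain (LaurentPolynomial ℂ) := inferInstance

theorem laurent_pid : IsPrincipalIdealRing (LaurentPolynomial ℂ) := by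
  refine ⟨fun J => ?_⟩
  have h1 : Ideal.map (algebraMap (Polynomial ℂ) (LaurentPolynomial ℂ))
      (Ideal.comap (algebraMap (Polynomial ℂ) (LaurentPolynomial ℂ)) J) = J :=
    IsLocalization.map_under (Submonoid.powers (Polynomial.X : Polynomial ℂ))
      (LaurentPolynomial ℂ) J
  obtain ⟨p, hp⟩ := (IsPrincipalIdealRing.principal
    (Ideal.comap (algebraMap (Polynomial ℂ) (LaurentPolynomial ℂ)) J)).principal
  refine ⟨⟨algebraMap (Polynomial ℂ) (LaurentPolynomial ℂ) p, ?_⟩⟩
  rw [← h1, hp]
  change Ideal.map _ (Ideal.span {p}) = Ideal.span _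
  rw [Ideal.map_span, Set.image_singleton]

end LPA74
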