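import Pool.Agent.LibLPA74.Pj

/-!
[LP EQ] Calculus of `EqvIn C p q` (C a `*`-subalgebra) and `Eqv p q`.  All elementary:
from `x y = p, y x = q, x y x = x, y x y = y` one gets `p x = x = x q`, `q y = y = y p`.
* `mk'`: replace `x, y` by `x y x`, `y x y` (in `C`).
* `trans`: `x x'`, `y' y`:  `x x' y' y = x q y = x y = p` ...
* `add`: `x + x'`, `y + y'`: cross terms vanish since `x y' = x q q' y' = 0` etc.
* `sum`: induction on the finset, with `add` (`∑ p i * p j = 0`).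
-/

namespace LPA74

variable {A : Type} [NonUnitalRing A] [StarRing A] [Module ℂ A] [IsScalarTower ℂ A A]
  [SMulCommClass ℂ A A] [StarModule ℂ A]

variable {B : Type} [NonUnitalRing B] [StarRing B] [Module ℂ B] [IsScalarTower ℂ B B]
  [SMulCommClass ℂ B B] [StarModule ℂ B]
variable {C C' : NonUnitalStarSubalgebra ℂ A} {p q r p' q' : A}

theorem eq_core {x y : A} (h1 : x * y = p) (h2 : y * x = q) (h3 : x * y * x = x) (h4 : y * x * y = y) :
    p * p = p ∧ q * q = q ∧ p * x = x ∧ x * q = x ∧ q * y = y ∧ y * p = y := by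
  refine ⟨?_, ?_, ?_, ?_, ?_, ?_⟩
  · rw [← h1, ← mul_assoc, h3]
  · rw [← h2, ← mul_assoc, h4]
  · rw [← h1, h3]
  · rw [← h2, ← mul_assoc, h3]
  · rw [← h2, h4]
  · rw [← h1, ← mul_assoc, h4]

theorem EqvIn.refl (hp : p ∈ C) (h : p * p = p) : EqvIn C p p :=
  ⟨p, hp, p, hp, h, h, by rw [h, h], by rw [h, h]⟩

theorem EqvIn.symm (h : EqvIn C p q) : EqvIn C q p := by
  obtain ⟨x, hx, y, hy, h1, h2, h3, h4⟩ := h
  exact ⟨y, hy, x, hx, h2, h1, h4, h3⟩

theorem EqvIn.trans (h : EqvIn C p q) (h' : EqvIn C q r) : EqvIn C p r := by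
  obtain ⟨x, hx, y, hy, h1, h2, h3, h4⟩ := h
  obtain ⟨x', hx', y', hy', h1', h2', h3', h4'⟩ := h'
  obtain ⟨-, -, a3, a4, a5, a6⟩ := eq_core h1 h2 h3 h4
  obtain ⟨-, -, b3, b4, b5, b6⟩ := eq_core h1' h2' h3' h4'
  have e1 : x * x' * (y' * y) = p := by
    calc x * x' * (y' * y) = x * (x' * y') * y := by simp only [mul_assoc]
      _ = p := by rw [h1', a4, h1]
  have e2 : y' * y * (x * x') = r := by
    calc y' * y * (x * x') = y' * (y * x) * x' := by simp only [mul_assoc]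
      _ = r := by rw [h2, b6, h2']
  refine ⟨x * x', mul_mem hx hx', y' * y, mul_mem hy' hy, e1, e2, ?_, ?_⟩
  · rw [e1, ← mul_assoc, a3]
  · rw [e2, ← mul_assoc, b5]

theorem EqvIn.mk' {x y : A} (hx : x ∈ C) (hy : y ∈ C) (h1 : x * y = p) (h2 : y * x = q)
    (hp : p * p = p) (hq : q * q = q) : EqvIn C p q := by
  have e1 : x * y * x * (y * x * y) = p := by
    calc x * y * x * (y * x * y) = (x * y) * (x * y) * (x * y) := by simp only [mul_assoc]
      _ = p := by rw [h1, hp, hp]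
  have e2 : y * x * y * (x * y * x) = q := by
    calc y * x * y * (x * y * x) = (y * x) * (y * x) * (y * x) := by simp only [mul_assoc]
      _ = q := by rw [h2, hq, hq]
  refine ⟨x * y * x, mul_mem (mul_mem hx hy) hx, y * x * y, mul_mem (mul_mem hy hx) hy, e1, e2, ?_, ?_⟩
  · rw [e1, h1, ← mul_assoc, hp]
  · rw [e2, h2, ← mul_assoc, hq]

theorem EqvIn.mem_left (h : EqvIn C p q) : p ∈ C := by
  obtain ⟨x, hx, y, hy, h1, h2, h3, h4⟩ := h
  rw [← h1]
  exact mul_mem hx hy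

theorem EqvIn.mem_right (h : EqvIn C p q) : q ∈ C := h.symm.mem_left

theorem EqvIn.idem_left (h : EqvIn C p q) : p * p = p := by
  obtain ⟨x, hx, y, hy, h1, h2, h3, h4⟩ := h
  exact (eq_core h1 h2 h3 h4).1

theorem EqvIn.idem_right (h : EqvIn C p q) : q * q = q := h.symm.idem_left

theorem EqvIn.mono (h : EqvIn C p q) (hC : C ≤ C') : EqvIn C' p q := by
  obtain ⟨x, hx, y, hy, h1, h2, h3, h4⟩ := h
  exact ⟨x, hC hx, y, hC hy, h1, h2, h3, h4⟩

theorem EqvIn.eq_zero (h : EqvIn C p 0) : p = 0 := by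
  obtain ⟨x, hx, y, hy, h1, h2, h3, h4⟩ := h
  rw [mul_assoc, h2, mul_zero] at h3
  rw [← h1, ← h3, zero_mul]

theorem EqvIn.zero : EqvIn C (0 : A) 0 :=
  EqvIn.refl (zero_mem C) (mul_zero 0)

theorem EqvIn.add (h : EqvIn C p q) (h' : EqvIn C p' q') (h1 : p * p' = 0) (h2 : p' * p = 0)
    (h3 : q * q' = 0) (h4 : q' * q = 0) : EqvIn C (p + p') (q + q') := by
  obtain ⟨x, hx, y, hy, e1, e2, e3, e4⟩ := h
  obtain ⟨x', hx', y', hy', f1, f2, f3, f4⟩ := h'
  obtain ⟨-, -, a3, a4, a5, a6⟩ := eq_core e1 e2 e3 e4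
  obtain ⟨-, -, b3, b4, b5, b6⟩ := eq_core f1 f2 f3 f4
  have c1 : x * y' = 0 := by
    calc x * y' = (x * q) * (q' * y') := by rw [a4, b5]
      _ = x * (q * q') * y' := by simp only [mul_assoc]
      _ = 0 := by rw [h3, mul_zero, zero_mul]
  have c2 : x' * y = 0 := by
    calc x' * y = (x' * q') * (q * y) := by rw [b4, a5]
      _ = x' * (q' * q) * y := by simp only [mul_assoc]
      _ = 0 := by rw [h4, mul_zero, zero_mul]
  have c3 : y * x' = 0 := by
    calc y * x' = (y * p) * (p' * x') := by rw [a6, b3]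
      _ = y * (p * p') * x' := by simp only [mul_assoc]
      _ = 0 := by rw [h1, mul_zero, zero_mul]
  have c4 : y' * x = 0 := by
    calc y' * x = (y' * p') * (p * x) := by rw [b6, a3]
      _ = y' * (p' * p) * x := by simp only [mul_assoc]
      _ = 0 := by rw [h2, mul_zero, zero_mul]
  have d1 : p * x' = 0 := by rw [← b3, ← mul_assoc, h1, zero_mul]
  have d2 : p' * x = 0 := by rw [← a3, ← mul_assoc, h2, zero_mul]
  have d3 : q * y' = 0 := by rw [← b5, ← mul_assoc, h3, zero_mul]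
  have d4 : q' * y = 0 := by rw [← a5, ← mul_assoc, h4, zero_mul]
  have g1 : (x + x') * (y + y') = p + p' := by
    rw [mul_add, add_mul, add_mul, e1, c2, c1, f1, add_zero, zero_add]
  have g2 : (y + y') * (x + x') = q + q' := by
    rw [mul_add, add_mul, add_mul, e2, c4, c3, f2, add_zero, zero_add]
  refine ⟨x + x', add_mem hx hx', y + y', add_mem hy hy', g1, g2, ?_, ?_⟩
  · rw [g1, mul_add, add_mul, add_mul, a3, d2, d1, b3, add_zero, zero_add]
  · rw [g2, mul_add, add_mul, add_mul, a5, d4, d3, b5, add_zero, zero_add]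

theorem EqvIn.sum {I : Type} (s : Finset I) (f g : I → A) (h : ∀ i ∈ s, EqvIn C (f i) (g i))
    (hf : ∀ i ∈ s, ∀ j ∈ s, i ≠ j → f i * f j = 0)
    (hg : ∀ i ∈ s, ∀ j ∈ s, i ≠ j → g i * g j = 0) :
    EqvIn C (∑ i ∈ s, f i) (∑ i ∈ s, g i) := by
  classical
  induction s using Finset.induction_on with
  | empty =>
    rw [Finset.sum_empty, Finset.sum_empty]
    exact EqvIn.zero
  | insert a s ha ih =>
    rw [Finset.sum_insert ha, Finset.sum_insert ha]
    have hm : ∀ i ∈ s, i ∈ insert a s := fun i hi => Finset.mem_insert_of_mem hi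
    have hne : ∀ i ∈ s, a ≠ i := fun i hi e => ha (by rw [e]; exact hi)
    have haa := Finset.mem_insert_self a s
    refine EqvIn.add (h a haa) (ih (fun i hi => h i (hm i hi))
      (fun i hi j hj => hf i (hm i hi) j (hm j hj)) (fun i hi j hj => hg i (hm i hi) j (hm j hj))) ?_ ?_ ?_ ?_
    · rw [Finset.mul_sum]
      exact Finset.sum_eq_zero fun i hi => hf a haa i (hm i hi) (hne i hi)
    · rw [Finset.sum_mul]
      exact Finset.sum_eq_zero fun i hi => hf i (hm i hi) a haa (hne i hi).symm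
    · rw [Finset.mul_sum]
      exact Finset.sum_eq_zero fun i hi => hg a haa i (hm i hi) (hne i hi)
    · rw [Finset.sum_mul]
      exact Finset.sum_eq_zero fun i hi => hg i (hm i hi) a haa (hne i hi).symm

/-- image under a ring homomorphism mapping `C` into `D`. -/
theorem EqvIn.map {D : NonUnitalStarSubalgebra ℂ B} (φ : A → B) (hm : ∀ x y, φ (x * y) = φ x * φ y)
    (hC : ∀ x ∈ C, φ x ∈ D) (h : EqvIn C p q) : EqvIn D (φ p) (φ q) := by
  obtain ⟨x, hx, y, hy, h1, h2, h3, h4⟩ := h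
  refine ⟨φ x, hC x hx, φ y, hC y hy, ?_, ?_, ?_, ?_⟩
  · rw [← hm, h1]
  · rw [← hm, h2]
  · rw [← hm, ← hm, h3]
  · rw [← hm, ← hm, h4]

theorem EqvIn.eqv (h : EqvIn C p q) : Eqv p q := by
  obtain ⟨x, hx, y, hy, h1, h2, h3, h4⟩ := h
  exact ⟨x, y, h1, h2, h3, h4⟩

theorem Eqv.eqvIn_top (h : Eqv p q) : EqvIn (⊤ : NonUnitalStarSubalgebra ℂ A) p q := by
  obtain ⟨x, y, h1, h2, h3, h4⟩ := h
  exact ⟨x, trivial, y, trivial, h1, h2, h3, h4⟩

theorem Eqv.refl (h : p * p = p) : Eqv p p :=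
  ⟨p, p, h, h, by rw [h, h], by rw [h, h]⟩

theorem Eqv.symm (h : Eqv p q) : Eqv q p := by
  obtain ⟨x, y, h1, h2, h3, h4⟩ := h
  exact ⟨y, x, h2, h1, h4, h3⟩

theorem Eqv.trans (h : Eqv p q) (h' : Eqv q r) : Eqv p r :=
  (h.eqvIn_top.trans h'.eqvIn_top).eqv

theorem Eqv.mk' {x y : A} (h1 : x * y = p) (h2 : y * x = q)
    (hp : p * p = p) (hq : q * q = q) : Eqv p q :=
  (EqvIn.mk' (C := (⊤ : NonUnitalStarSubalgebra ℂ A)) trivial trivial h1 h2 hp hq).eqv

theorem Eqv.idem_left (h : Eqv p q) : p * p = p := h.eqvIn_top.idem_left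

theorem Eqv.idem_right (h : Eqv p q) : q * q = q := h.eqvIn_top.idem_right

theorem Eqv.eq_zero (h : Eqv p (0 : A)) : p = 0 := h.eqvIn_top.eq_zero

theorem Eqv.add (h : Eqv p q) (h' : Eqv p' q') (h1 : p * p' = 0) (h2 : p' * p = 0)
    (h3 : q * q' = 0) (h4 : q' * q = 0) : Eqv (p + p') (q + q') :=
  (h.eqvIn_top.add h'.eqvIn_top h1 h2 h3 h4).eqv

theorem Eqv.sum {I : Type} (s : Finset I) (f g : I → A) (h : ∀ i ∈ s, Eqv (f i) (g i))
    (hf : ∀ i ∈ s, ∀ j ∈ s, i ≠ j → f i * f j = 0)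
    (hg : ∀ i ∈ s, ∀ j ∈ s, i ≠ j → g i * g j = 0) :
    Eqv (∑ i ∈ s, f i) (∑ i ∈ s, g i) :=
  (EqvIn.sum (C := (⊤ : NonUnitalStarSubalgebra ℂ A)) s f g (fun i hi => (h i hi).eqvIn_top) hf hg).eqv

/-- image under a multiplicative map. -/
theorem Eqv.map (φ : A → B) (hm : ∀ x y, φ (x * y) = φ x * φ y) (h : Eqv p q) :
    Eqv (φ p) (φ q) := by
  obtain ⟨x, y, h1, h2, h3, h4⟩ := h
  refine ⟨φ x, φ y, ?_, ?_, ?_, ?_⟩
  · rw [← hm, h1]
  · rw [← hm, h2]
  · rw [← hm, ← hm, h3]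
  · rw [← hm, ← hm, h4]

end LPA74
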