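import Pool.Agent.LibLPA74.GS

/-!
[LP GSC] Gram–Schmidt for a family indexed by a type `I` with an injective code
`c : I → ℕ`, in the corner of a projection `p`.
Apply `LSpl.gs` to `f' n = f i` if `c i = n`, `f' n = 0` if `n` is not a code; `P i = P' (c i)`.
If `f' n = 0` then `P' n = 0` (`EqvIn.eq_zero`).  For a finite set `S` which is lower
(`∀ i ∈ S, ∀ j, c j < c i → j ∈ S`), with `N = (max of the codes of S) + 1`,
`∑_{i ∈ S} f i = ∑_{n<N} f' n` and `∑_{i ∈ S} P i = ∑_{n<N} P' n` (the codes `< N` in the range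
of `c` are those of `S`).  Call these sums `F`, `R`: `F R = R`, `R F = F`.  `p F = F = F p`, so
`p R = p F R = R`, `R p = R` (star).
`EqvIn A0 (p - R) (p - F)`: `x = p - R`, `y = p - F`: `x y = p - F - R + R F = p - R`,
`y x = p - R - F + F R = p - F`.
If `F = p` then `R = R p = R F = F = p`.
`p * P i = P i`: let `S` be the lower set of the `j` with `c j ≤ c i`; `P i = R P i`.
For the first statement (`gsI`, no corner) same proof without `p`.
-/

namespace LPA74

variable {A : Type} [NonUnitalRing A] [StarRing A] [Module ℂ A] [IsScalarTower ℂ A A]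
  [SMulCommClass ℂ A A] [StarModule ℂ A]

variable {A0 : NonUnitalStarSubalgebra ℂ A}

/-- sums over a lower set of indices are sums over an initial segment of the codes. -/
theorem gsc_sum {M : Type} [AddCommMonoid M] {I : Type} (c : I → ℕ) (hc : Function.Injective c)
    (S : Finset I) (hS : ∀ i ∈ S, ∀ j, c j < c i → j ∈ S) :
    ∃ N : ℕ, ∀ (g : I → M) (g' : ℕ → M), (∀ i, g' (c i) = g i) → (∀ n, (∀ i, c i ≠ n) → g' n = 0) →
      ∑ n ∈ Finset.range N, g' n = ∑ i ∈ S, g i := by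
  classical
  refine ⟨S.sup fun i => c i + 1, fun g g' h1 h2 => ?_⟩
  have e1 : ∑ i ∈ S, g i = ∑ n ∈ S.image c, g' n := by
    rw [Finset.sum_image fun i _ j _ hij => hc hij]
    exact Finset.sum_congr rfl fun i _ => (h1 i).symm
  rw [e1]
  symm
  apply Finset.sum_subset
  · intro n hn
    obtain ⟨i, hi, rfl⟩ := Finset.mem_image.1 hn
    rw [Finset.mem_range]
    exact lt_of_lt_of_le (Nat.lt_succ_self (c i)) (Finset.le_sup (f := fun i => c i + 1) hi)
  · intro n hn hn'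
    rw [Finset.mem_range, Finset.lt_sup_iff] at hn
    obtain ⟨i, hi, hni⟩ := hn
    apply h2
    intro j hj
    apply hn'
    rw [Finset.mem_image]
    refine ⟨j, ?_, hj⟩
    rcases Nat.lt_or_ge (c j) (c i) with h3 | h3
    · exact hS i hi j h3
    · have h4 : c j = c i := by omega
      rw [hc h4]
      exact hi

/-- common part of the two statements. -/
theorem gsc_core (h : LSpl A0) {I : Type} (c : I → ℕ) (hc : Function.Injective c) (f : I → A)
    (hf : ∀ i, f i ∈ A0) (hff : ∀ i, f i * f i = f i) (ho : ∀ i j, i ≠ j → f i * f j = 0) :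
    ∃ P : I → A, (∀ i, P i ∈ A0 ∧ Pj (P i) ∧ EqvIn A0 (P i) (f i)) ∧
      (∀ i j, i ≠ j → P i * P j = 0) ∧
      ∀ S : Finset I, (∀ i ∈ S, ∀ j, c j < c i → j ∈ S) →
        (∑ i ∈ S, f i) * (∑ i ∈ S, P i) = ∑ i ∈ S, P i ∧
        (∑ i ∈ S, P i) * (∑ i ∈ S, f i) = ∑ i ∈ S, f i := by
  classical
  obtain ⟨f', hf1, hf2⟩ : ∃ f' : ℕ → A, (∀ i, f' (c i) = f i) ∧ (∀ n, (∀ i, c i ≠ n) → f' n = 0) := by
    refine ⟨fun n => if h : ∃ i, c i = n then f h.choose else 0, fun i => ?_, fun n hn => ?_⟩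
    · have hex : ∃ j, c j = c i := ⟨i, rfl⟩
      have e : (if h : ∃ j, c j = c i then f h.choose else 0) = f hex.choose := dif_pos hex
      exact e.trans (congrArg f (hc hex.choose_spec))
    · have hex : ¬ ∃ i, c i = n := by
        rintro ⟨i, hi⟩
        exact hn i hi
      exact dif_neg hex
  have hcase : ∀ n, (∃ i, c i = n) ∨ (∀ i, c i ≠ n) := fun n => by
    by_cases h1 : ∃ i, c i = n
    · exact Or.inl h1
    · exact Or.inr fun i hi => h1 ⟨i, hi⟩
  obtain ⟨P', hP1, hP2, hP3⟩ := h.gs f'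
    (fun n => by
      rcases hcase n with ⟨i, rfl⟩ | h1
      · rw [hf1]; exact hf i
      · rw [hf2 n h1]; exact zero_mem A0)
    (fun n => by
      rcases hcase n with ⟨i, rfl⟩ | h1
      · rw [hf1]; exact hff i
      · rw [hf2 n h1]; exact mul_zero 0)
    (fun m n hmn => by
      rcases hcase m with ⟨i, rfl⟩ | h1
      · rcases hcase n with ⟨j, rfl⟩ | h2
        · rw [hf1, hf1]
          exact ho i j fun e => hmn (by rw [e])
        · rw [hf2 n h2]; exact mul_zero _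
      · rw [hf2 m h1]; exact zero_mul _)
  have hP0 : ∀ n, (∀ i, c i ≠ n) → P' n = 0 := fun n hn => by
    have h1 := (hP1 n).2.2
    rw [hf2 n hn] at h1
    exact h1.eq_zero
  refine ⟨fun i => P' (c i), fun i => ⟨(hP1 (c i)).1, (hP1 (c i)).2.1, ?_⟩, fun i j hij => ?_, fun S hS => ?_⟩
  · have h1 := (hP1 (c i)).2.2
    rw [hf1] at h1
    exact h1
  · exact hP2 _ _ fun e => hij (hc e)
  · obtain ⟨N, hN⟩ := gsc_sum (M := A) c hc S hS
    have e1 := hN f f' hf1 hf2
    have e2 := hN (fun i => P' (c i)) P' (fun _ => rfl) hP0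
    have h3 := hP3 N
    rw [e1, e2] at h3
    exact h3

theorem LSpl.gsI (h : LSpl A0) {I : Type} (c : I → ℕ) (hc : Function.Injective c) (f : I → A)
    (hf : ∀ i, f i ∈ A0) (hff : ∀ i, f i * f i = f i) (ho : ∀ i j, i ≠ j → f i * f j = 0) :
    ∃ P : I → A, (∀ i, P i ∈ A0 ∧ Pj (P i) ∧ EqvIn A0 (P i) (f i)) ∧
      (∀ i j, i ≠ j → P i * P j = 0) := by
  obtain ⟨P, h1, h2, -⟩ := gsc_core h c hc f hf hff ho
  exact ⟨P, h1, h2⟩

theorem LSpl.gsC (h : LSpl A0) {I : Type} (c : I → ℕ) (hc : Function.Injective c) {p : A}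
    (hp : p ∈ A0) (hpp : Pj p) (f : I → A) (hf : ∀ i, f i ∈ A0) (hff : ∀ i, f i * f i = f i)
    (ho : ∀ i j, i ≠ j → f i * f j = 0) (h1 : ∀ i, p * f i = f i) (h2 : ∀ i, f i * p = f i) :
    ∃ P : I → A, (∀ i, P i ∈ A0 ∧ Pj (P i) ∧ p * P i = P i ∧ EqvIn A0 (P i) (f i)) ∧
      (∀ i j, i ≠ j → P i * P j = 0) ∧
      (∀ S : Finset I, (∀ i ∈ S, ∀ j, c j < c i → j ∈ S) →
        EqvIn A0 (p - ∑ i ∈ S, P i) (p - ∑ i ∈ S, f i)) ∧
      (∀ S : Finset I, (∀ i ∈ S, ∀ j, c j < c i → j ∈ S) → ∑ i ∈ S, f i = p →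
        ∑ i ∈ S, P i = p) := by
  classical
  obtain ⟨P, k1, k2, k3⟩ := gsc_core h c hc f hf hff ho
  have hpF : ∀ S : Finset I, p * ∑ i ∈ S, f i = ∑ i ∈ S, f i := fun S => by
    rw [Finset.mul_sum]
    exact Finset.sum_congr rfl fun i _ => h1 i
  have hFp : ∀ S : Finset I, (∑ i ∈ S, f i) * p = ∑ i ∈ S, f i := fun S => by
    rw [Finset.sum_mul]
    exact Finset.sum_congr rfl fun i _ => h2 i
  have hRstar : ∀ S : Finset I, star (∑ i ∈ S, P i) = ∑ i ∈ S, P i := fun S => by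
    rw [star_sum]
    exact Finset.sum_congr rfl fun i _ => (k1 i).2.1.2
  have hpR : ∀ S : Finset I, (∀ i ∈ S, ∀ j, c j < c i → j ∈ S) → p * ∑ i ∈ S, P i = ∑ i ∈ S, P i :=
    fun S hS => by
      calc p * ∑ i ∈ S, P i = p * ((∑ i ∈ S, f i) * ∑ i ∈ S, P i) := by rw [(k3 S hS).1]
        _ = (p * ∑ i ∈ S, f i) * ∑ i ∈ S, P i := (mul_assoc _ _ _).symm
        _ = ∑ i ∈ S, P i := by rw [hpF, (k3 S hS).1]
  have hRp : ∀ S : Finset I, (∀ i ∈ S, ∀ j, c j < c i → j ∈ S) → (∑ i ∈ S, P i) * p = ∑ i ∈ S, P i :=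
    fun S hS => by
      have e := congrArg star (hpR S hS)
      rwa [star_mul, hpp.2, hRstar] at e
  refine ⟨P, fun i => ⟨(k1 i).1, (k1 i).2.1, ?_, (k1 i).2.2⟩, k2, fun S hS => ?_, fun S hS hSp => ?_⟩
  · have hfin : {j : I | c j ≤ c i}.Finite := (Set.finite_Iic (c i)).preimage hc.injOn
    have hmem : ∀ j, j ∈ hfin.toFinset ↔ c j ≤ c i := fun j => by
      rw [Set.Finite.mem_toFinset]
      exact Iff.rfl
    have hlow : ∀ k ∈ hfin.toFinset, ∀ j, c j < c k → j ∈ hfin.toFinset := fun k hk j hj =>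
      (hmem j).2 (hj.le.trans ((hmem k).1 hk))
    have e1 : (∑ j ∈ hfin.toFinset, P j) * P i = P i := by
      rw [Finset.sum_mul, Finset.sum_eq_single i]
      · exact (k1 i).2.1.1
      · intro j _ hj
        exact k2 j i hj
      · intro hi
        exact absurd ((hmem i).2 le_rfl) hi
    calc p * P i = p * ((∑ j ∈ hfin.toFinset, P j) * P i) := by rw [e1]
      _ = (p * ∑ j ∈ hfin.toFinset, P j) * P i := (mul_assoc _ _ _).symm
      _ = P i := by rw [hpR _ hlow, e1]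
  · obtain ⟨a1, a2⟩ := k3 S hS
    have b1 := hpR S hS
    have b2 := hRp S hS
    have b3 := hpF S
    have b4 := hFp S
    have b0 := hpp.1
    have hRm : ∑ i ∈ S, P i ∈ A0 := sum_mem fun i _ => (k1 i).1
    have hFm : ∑ i ∈ S, f i ∈ A0 := sum_mem fun i _ => hf i
    generalize (∑ i ∈ S, P i) = R at *
    generalize (∑ i ∈ S, f i) = F at *
    have cR : R * R = R := by
      calc R * R = R * (F * R) := by rw [a1]
        _ = R * F * R := (mul_assoc _ _ _).symm
        _ = R := by rw [a2, a1]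
    have cF : F * F = F := by
      calc F * F = F * (R * F) := by rw [a2]
        _ = F * R * F := (mul_assoc _ _ _).symm
        _ = F := by rw [a1, a2]
    have d1 : (p - R) * (p - F) = p - R := by
      rw [sub_mul, mul_sub, mul_sub, b0, b3, b2, a2]
      abel
    have d2 : (p - F) * (p - R) = p - F := by
      rw [sub_mul, mul_sub, mul_sub, b0, b1, b4, a1]
      abel
    refine ⟨p - R, sub_mem hp hRm, p - F, sub_mem hp hFm, d1, d2, ?_, ?_⟩
    · rw [d1, sub_mul, mul_sub, mul_sub, b0, b1, b2, cR]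
      abel
    · rw [d2, sub_mul, mul_sub, mul_sub, b0, b3, b4, cF]
      abel
  · have b2 := hRp S hS
    have a2 := (k3 S hS).2
    rw [hSp] at a2
    rw [← b2, a2]

end LPA74
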