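import Pool.Agent.LibLPA74.P3
import Pool.Agent.LibLPA74.B10
import Pool.Agent.LibLPA74.GSC

/-!
[LP A2] The vertices: the `ρ (vx a) = ev (θ (vx a))` are orthogonal idempotents of `A0'`;
`LSpl.gsI` (index type `E.V`, `Countable.exists_injective_nat`).  `Eqv (θ (vx a)) (P a)`: by
`Cyc.pid` `Eqv (θ (vx a)) (ev (θ (vx a)))`.
-/

namespace LPA74

theorem exists_P {E F : Gph} (K' : Cyc F) [Countable E.V] [Countable F.Ed]
    (θ : LA E ≃+* LA F) : ∃ P : E.V → LA F,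
      (∀ a, P a ∈ K'.A0 ∧ Pj (P a) ∧ EqvIn K'.A0 (P a) (K'.ev (θ (vx a)))) ∧
      ∀ a b, a ≠ b → P a * P b = 0 := by
  obtain ⟨c, hc⟩ := Countable.exists_injective_nat E.V
  obtain ⟨P, h1, h2⟩ := LSpl.gsI K'.lspl c hc (fun a => K'.ev (θ (vx a))) (fun a => K'.ev_mem _)
    (fun a => by rw [← map_mul, ← map_mul, vx_mul_self])
    (fun a b h => by rw [← map_mul, ← map_mul, vx_mul_ne h, map_zero, map_zero])
  exact ⟨P, h1, h2⟩

end LPA74
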