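import Pool.Agent.LibLPA74.P3
import Pool.Agent.LibLPA74.B10
import Pool.Agent.LibLPA74.GSC

/-!
[LP A3] The edges out of a fixed vertex `a`.  `ρ = ev ∘ θ`.  Let `x y = Pa`, `y x = ρ (vx a)`
(`x = x ρ(vx a) = Pa x`, ..).  For `g` with `s g = a` put `f g = x * ρ (ed g * star (ed g)) * y`:
orthogonal idempotents of `A0'` in the corner of `Pa`, `EqvIn A0' (f g) (ρ (g g*))` (by
`x ρ(gg*)`, `ρ(gg*) y`).  Apply `LSpl.gsC` with `I = {g // s g = a}`, code `c`, `p = Pa`.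
`Q g` = the result, extended by `0`.
For `S = (SN N).filter (s g = a)`, seen in `I`: it is a lower set (`SN N` is
`{g ∉ D | c g < N}`; if some edge at `a` is in `D` it is the only edge at `a` (`K.hu`) and `S = ∅`).
`Pa - ∑_S f = x * ρ (vx a - ∑_S g g*) * y = x * ρ (qq (SN N) a) * y`, equivalent to
`ρ (qq (SN N) a)` (`qq = vx a * qq * vx a`).
Last statement: `∑_{g ∈ S} f g = x ρ(∑ g g*) y = x ρ(vx a) y = Pa` (`vx_eq_sum`).
-/

namespace LPA74

private lemma a3_F {B : Type} [NonUnitalRing B] [StarRing B] [Module ℂ B] [IsScalarTower ℂ B B]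
    [SMulCommClass ℂ B B] [StarModule ℂ B] {C : NonUnitalStarSubalgebra ℂ B} {x y p q t : B}
    (hx : x ∈ C) (hy : y ∈ C) (hxy : x * y = p) (hyx : y * x = q) (h1 : x * y * x = x)
    (h2 : y * x * y = y) (ht : t ∈ C) (hqt : q * t = t) (htq : t * q = t) (htt : t * t = t) :
    x * t * y ∈ C ∧ (x * t * y) * (x * t * y) = x * t * y ∧ p * (x * t * y) = x * t * y ∧
      (x * t * y) * p = x * t * y ∧ EqvIn C (x * t * y) t := by
  have h3 : (x * t * y) * (x * t * y) = x * t * y := by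
    calc (x * t * y) * (x * t * y) = x * (t * (y * x)) * t * y := by simp only [mul_assoc]
      _ = x * (t * t) * y := by rw [hyx, htq]; simp only [mul_assoc]
      _ = x * t * y := by rw [htt]
  refine ⟨mul_mem (mul_mem hx ht) hy, h3, ?_, ?_, ?_⟩
  · rw [← hxy]
    calc x * y * (x * t * y) = (x * y * x) * t * y := by simp only [mul_assoc]
      _ = x * t * y := by rw [h1]
  · rw [← hxy]
    calc (x * t * y) * (x * y) = x * t * (y * x * y) := by simp only [mul_assoc]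
      _ = x * t * y := by rw [h2]
  · refine EqvIn.mk' (mul_mem hx ht) (mul_mem ht hy) ?_ ?_ h3 htt
    · calc x * t * (t * y) = x * (t * t) * y := by simp only [mul_assoc]
        _ = x * t * y := by rw [htt]
    · calc t * y * (x * t) = t * (y * x) * t := by simp only [mul_assoc]
        _ = t := by rw [hyx, htq, htt]

private lemma a3_ed {E : Gph} {a : E.V} {g : E.Ed} (hg : E.s g = a) :
    (vx a : LA E) * (ed g * star (ed g)) = ed g * star (ed g) ∧
    (ed g * star (ed g)) * vx a = ed g * star (ed g) ∧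
    (ed g * star (ed g)) * (ed g * star (ed g)) = ed g * star (ed g) := by
  subst hg
  refine ⟨?_, ?_, ?_⟩
  · rw [← mul_assoc, vx_mul_ed]
  · rw [mul_assoc, star_ed_mul_vx]
  · calc (ed g * star (ed g)) * (ed g * star (ed g))
        = ed g * (star (ed g) * ed g) * star (ed g) := by simp only [mul_assoc]
      _ = ed g * star (ed g) := by rw [star_ed_mul_ed, ed_mul_vx]

private lemma a3_ed_ne {E : Gph} {g g' : E.Ed} (hg : g ≠ g') :
    (ed g * star (ed g) : LA E) * (ed g' * star (ed g')) = 0 := by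
  calc (ed g * star (ed g)) * (ed g' * star (ed g'))
      = ed g * (star (ed g) * ed g') * star (ed g') := by simp only [mul_assoc]
    _ = 0 := by rw [star_ed_mul_ed_ne hg, mul_zero, zero_mul]

open Classical in
theorem exists_Q {E F : Gph} (K : Cyc E) (K' : Cyc F) [Countable F.Ed] (c : E.Ed → ℕ)
    (hc : Function.Injective c) (θ : LA E ≃+* LA F) (a : E.V) {Pa : LA F} (hPa : Pj Pa)
    (hE : EqvIn K'.A0 Pa (K'.ev (θ (vx a)))) : ∃ Q : E.Ed → LA F,
      (∀ g, E.s g = a → Q g ∈ K'.A0 ∧ Pj (Q g) ∧ Pa * Q g = Q g ∧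
        EqvIn K'.A0 (Q g) (K'.ev (θ (ed g * star (ed g))))) ∧
      (∀ g g', E.s g = a → E.s g' = a → g ≠ g' → Q g * Q g' = 0) ∧
      (∀ N, EqvIn K'.A0 (Pa - ∑ g ∈ (K.SN c hc N).filter (fun g => E.s g = a), Q g)
        (K'.ev (θ (qq (K.SN c hc N) a)))) ∧
      (∀ S : Finset E.Ed, S.Nonempty → (∀ g, g ∈ S ↔ E.s g = a) → ∑ g ∈ S, Q g = Pa) := by
  obtain ⟨ρ, hρ⟩ : ∃ ρ : LA E → LA F, ∀ z, ρ z = K'.ev (θ z) := ⟨_, fun _ => rfl⟩
  have hρmem : ∀ z, ρ z ∈ K'.A0 := fun z => by rw [hρ]; exact K'.ev_mem _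
  have hρm : ∀ z w, ρ (z * w) = ρ z * ρ w := fun z w => by rw [hρ, hρ, hρ, map_mul, map_mul]
  have hρ0 : ρ 0 = 0 := by rw [hρ, map_zero, map_zero]
  have hρsub : ∀ z w, ρ (z - w) = ρ z - ρ w := fun z w => by rw [hρ, hρ, hρ, map_sub, map_sub]
  have hρsum : ∀ {I : Type} (S : Finset I) (u : I → LA E),
      ρ (∑ i ∈ S, u i) = ∑ i ∈ S, ρ (u i) := fun S u => by
    rw [hρ, map_sum, map_sum]
    exact Finset.sum_congr rfl fun i _ => (hρ _).symm
  have hPaA : Pa ∈ K'.A0 := hE.mem_left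
  obtain ⟨x, hx, y, hy, hxy, hyx, hxyx, hyxy⟩ := hE
  rw [← hρ] at hyx
  have hkey : ∀ t : LA E, vx a * t = t → t * vx a = t → t * t = t →
      x * ρ t * y ∈ K'.A0 ∧ (x * ρ t * y) * (x * ρ t * y) = x * ρ t * y ∧
      Pa * (x * ρ t * y) = x * ρ t * y ∧ (x * ρ t * y) * Pa = x * ρ t * y ∧
      EqvIn K'.A0 (x * ρ t * y) (ρ t) := fun t h1 h2 h3 =>
    a3_F hx hy hxy hyx hxyx hyxy (hρmem t) (by rw [← hρm, h1]) (by rw [← hρm, h2])
      (by rw [← hρm, h3])
  have hPax : x * ρ (vx a) * y = Pa := by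
    calc x * ρ (vx a) * y = (x * y * x) * y := by rw [← hyx]; simp only [mul_assoc]
      _ = Pa := by rw [hxyx, hxy]
  obtain ⟨P, hP1, hP2, hP3, hP4⟩ := K'.lspl.gsC (I := {g : E.Ed // E.s g = a}) (fun i => c i.1)
    (fun i j hij => Subtype.ext (hc hij)) hPaA hPa
    (fun i => x * ρ (ed i.1 * star (ed i.1)) * y)
    (fun i => (hkey _ (a3_ed i.2).1 (a3_ed i.2).2.1 (a3_ed i.2).2.2).1)
    (fun i => (hkey _ (a3_ed i.2).1 (a3_ed i.2).2.1 (a3_ed i.2).2.2).2.1)
    (fun i j hij => by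
      have hne : i.1 ≠ j.1 := fun h => hij (Subtype.ext h)
      calc x * ρ (ed i.1 * star (ed i.1)) * y * (x * ρ (ed j.1 * star (ed j.1)) * y)
          = x * (ρ (ed i.1 * star (ed i.1)) * (y * x)) * ρ (ed j.1 * star (ed j.1)) * y := by
            simp only [mul_assoc]
        _ = x * (ρ (ed i.1 * star (ed i.1)) * ρ (ed j.1 * star (ed j.1))) * y := by
            rw [hyx, ← hρm, (a3_ed i.2).2.1]
            simp only [mul_assoc]
        _ = 0 := by rw [← hρm, a3_ed_ne hne, hρ0, mul_zero, zero_mul])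
    (fun i => (hkey _ (a3_ed i.2).1 (a3_ed i.2).2.1 (a3_ed i.2).2.2).2.2.1)
    (fun i => (hkey _ (a3_ed i.2).1 (a3_ed i.2).2.1 (a3_ed i.2).2.2).2.2.2.1)
  have hQ : ∀ g (h : E.s g = a), (if h : E.s g = a then P ⟨g, h⟩ else 0) = P ⟨g, h⟩ :=
    fun g h => dif_pos h
  have hsumQ : ∀ S : Finset E.Ed, (∀ g ∈ S, E.s g = a) →
      ∑ g ∈ S, (if h : E.s g = a then P ⟨g, h⟩ else 0)
        = ∑ i ∈ S.subtype (fun g => E.s g = a), P i := by
    intro S hS
    rw [← Finset.sum_subtype_of_mem (fun g => if h : E.s g = a then P ⟨g, h⟩ else 0) hS]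
    exact Finset.sum_congr rfl fun i _ => hQ i.1 i.2
  have hsumf : ∀ S : Finset E.Ed, (∀ g ∈ S, E.s g = a) →
      ∑ i ∈ S.subtype (fun g => E.s g = a), x * ρ (ed i.1 * star (ed i.1)) * y
        = x * ρ (∑ g ∈ S, ed g * star (ed g)) * y := by
    intro S hS
    rw [Finset.sum_subtype_of_mem (fun g => x * ρ (ed g * star (ed g)) * y) hS, hρsum,
      Finset.mul_sum, Finset.sum_mul]
  refine ⟨fun g => if h : E.s g = a then P ⟨g, h⟩ else 0, ?_, ?_, ?_, ?_⟩
  · intro g hg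
    beta_reduce
    rw [hQ g hg, ← hρ]
    obtain ⟨h1, h2, h3, h4⟩ := hP1 ⟨g, hg⟩
    exact ⟨h1, h2, h3, h4.trans (hkey _ (a3_ed hg).1 (a3_ed hg).2.1 (a3_ed hg).2.2).2.2.2.2⟩
  · intro g g' hg hg' hne
    beta_reduce
    rw [hQ g hg, hQ g' hg']
    exact hP2 _ _ fun h => hne (congrArg Subtype.val h)
  · intro N
    have hS : ∀ g ∈ (K.SN c hc N).filter (fun g => E.s g = a), E.s g = a :=
      fun g hg => (Finset.mem_filter.1 hg).2
    beta_reduce
    rw [hsumQ _ hS, ← hρ]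
    have h1 := hP3 (((K.SN c hc N).filter (fun g => E.s g = a)).subtype (fun g => E.s g = a)) (by
      intro i hi j hij
      rw [Finset.mem_subtype, Finset.mem_filter, Cyc.mem_SN] at hi ⊢
      refine ⟨⟨?_, lt_trans hij hi.1.2⟩, j.2⟩
      intro hj
      have h2 := K.hu j.1 hj i.1 (i.2.trans j.2.symm)
      rw [h2] at hij
      exact lt_irrefl _ hij)
    rw [hsumf _ hS] at h1
    have h2 : Pa - x * ρ (∑ g ∈ (K.SN c hc N).filter (fun g => E.s g = a), ed g * star (ed g)) * y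
        = x * ρ (qq (K.SN c hc N) a) * y := by
      unfold qq
      rw [hρsub, mul_sub, sub_mul, hPax]
    rw [h2] at h1
    exact h1.trans (hkey _ vx_mul_qq qq_mul_vx (pj_qq _ a).1).2.2.2.2
  · intro S h0 hS
    have hS' : ∀ g ∈ S, E.s g = a := fun g hg => (hS g).1 hg
    beta_reduce
    rw [hsumQ S hS']
    refine hP4 _ ?_ ?_
    · intro i _ j _
      rw [Finset.mem_subtype]
      exact (hS j.1).2 j.2
    · rw [hsumf S hS', ← vx_eq_sum a S h0 hS, hPax]

end LPA74
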