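import Pool.Agent.LibLPA74.A2
import Pool.Agent.LibLPA74.A3

/-!
[LP A4] The homomorphism `Φ0 : L(E) → A0'`.  Take `P` from `exists_P` and for each vertex `a` the
`Q` from `exists_Q` with `Pa = P a`; so `Q g` (for `g` at `a = s g`).  For each edge
`EqvIn A0' (Q g) (ρ (g g*))`, `EqvIn A0' (ρ (g g*)) (ρ (vx (r g)))` (by `ρ g`, `ρ g*`; write
`ρ x = ev (θ x)`, note `ρ` is multiplicative; `θ (star (ed g))` is NOT `star (θ (ed g))`, just use
`y = ρ (star (ed g))`), `EqvIn A0' (P (r g)) (ρ (vx (r g)))`; so by `LSpl.seqv` there is `w g ∈ A0'`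
with `w w* = Q g`, `w* w = P (r g)`, `w w* w = w`.  `(P, w)` is a Cuntz–Krieger family:
`ck1'`: `w_g* w_g' = w_g* Q_g Q_g' w_g'`, and `Q_g Q_g' = 0` (same vertex: orthogonality of `Q`;
different vertices: `Q_g = Q_g P(s g)`, `P(s g) P(s g') = 0`); `ck2`: last part of `exists_Q`.
`LA.lift`.  Values in `A0'`: `LA.induction`.
`Φ0 (qq (SN N) a) = P a - ∑ Q g`, equivalent in `A0'` to `ρ (qq (SN N) a)`, which is equivalent
to `θ (qq (SN N) a)` (`Cyc.pid`, `pj_qq`).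
-/

namespace LPA74

theorem a4_ed_eqv {E : Gph} (g : E.Ed) :
    Eqv (ed g * star (ed g) : LA E) (vx (E.r g)) := by
  refine ⟨ed g, star (ed g), rfl, star_ed_mul_ed g, ?_, ?_⟩
  · rw [mul_assoc, star_ed_mul_ed, ed_mul_vx]
  · rw [star_ed_mul_ed, vx_mul_star_ed]

theorem exists_Phi0 {E F : Gph} (K : Cyc E) (K' : Cyc F) [Countable E.V] [Countable F.Ed]
    (c : E.Ed → ℕ) (hc : Function.Injective c) (θ : LA E ≃+* LA F) :
    ∃ Φ : LA E →⋆ₙₐ[ℂ] LA F, (∀ x, Φ x ∈ K'.A0) ∧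
      ∀ a N, Eqv (θ (qq (K.SN c hc N) a)) (Φ (qq (K.SN c hc N) a)) := by
  classical
  obtain ⟨P, hP1, hP2⟩ := exists_P (E := E) K' θ
  have hQ := fun a => exists_Q K K' c hc θ a (hP1 a).2.1 (hP1 a).2.2
  choose QQ hQ1 hQ2 hQ3 hQ4 using hQ
  obtain ⟨Q, hQdef⟩ : ∃ Q : E.Ed → LA F, ∀ g, Q g = QQ (E.s g) g := ⟨_, fun _ => rfl⟩
  have hQmem : ∀ g, Q g ∈ K'.A0 := fun g => by rw [hQdef]; exact (hQ1 _ g rfl).1
  have hQpj : ∀ g, Pj (Q g) := fun g => by rw [hQdef]; exact (hQ1 _ g rfl).2.1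
  have hPQ : ∀ g, P (E.s g) * Q g = Q g := fun g => by rw [hQdef]; exact (hQ1 _ g rfl).2.2.1
  have hQP : ∀ g, Q g * P (E.s g) = Q g := fun g => by
    have h1 := congrArg star (hPQ g)
    rwa [star_mul, (hQpj g).2, (hP1 (E.s g)).2.1.2] at h1
  have hQeq : ∀ g, EqvIn K'.A0 (Q g) (P (E.r g)) := by
    intro g
    have h1 : EqvIn K'.A0 (Q g) (K'.ev (θ (ed g * star (ed g)))) := by
      rw [hQdef]; exact (hQ1 _ g rfl).2.2.2
    have h2 : EqvIn K'.A0 (K'.ev (θ (ed g * star (ed g)))) (K'.ev (θ (vx (E.r g)))) :=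
      K'.eqvIn_ev ((a4_ed_eqv g).map θ (map_mul θ))
    exact (h1.trans h2).trans (hP1 (E.r g)).2.2.symm
  have hw : ∀ g, ∃ w ∈ K'.A0, w * star w = Q g ∧ star w * w = P (E.r g) ∧ w * star w * w = w :=
    fun g => K'.lspl.seqv (hQpj g) (hP1 (E.r g)).2.1 (hQeq g)
  choose w hwm hw1 hw2 hw3 using hw
  have hQQ : ∀ f f', f ≠ f' → Q f * Q f' = 0 := by
    intro f f' hne
    by_cases hs : E.s f = E.s f'
    · rw [hQdef f, hQdef f', hs]
      exact hQ2 _ f f' hs rfl hne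
    · rw [← hQP f, ← hPQ f', mul_assoc, ← mul_assoc (P (E.s f)), hP2 _ _ hs, zero_mul, mul_zero]
  have hQw : ∀ f, Q f * w f = w f := fun f => by rw [← hw1, hw3]
  have hwQ : ∀ f, star (w f) * Q f = star (w f) := fun f => by
    have h1 := congrArg star (hQw f)
    rwa [star_mul, (hQpj f).2] at h1
  have hck : CK E P w := by
    refine ⟨fun a => (hP1 a).2.1.1, fun a => (hP1 a).2.1.2, hP2, ?_, ?_, hw2, ?_, ?_⟩
    · intro f
      rw [← hQw f, ← mul_assoc, hPQ]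
    · intro f
      rw [← hw2, ← mul_assoc, hw3]
    · intro f f' hne
      rw [← hwQ f, ← hQw f', mul_assoc, ← mul_assoc (Q f), hQQ f f' hne, zero_mul, mul_zero]
    · intro a S hS0 hS
      rw [← hQ4 a S hS0 hS]
      refine Finset.sum_congr rfl fun f hf => ?_
      rw [hw1, hQdef, (hS f).1 hf]
  obtain ⟨Φ, hΦv, hΦe⟩ := LA.lift hck
  refine ⟨Φ, ?_, ?_⟩
  · refine LA.induction ?_ ?_ ?_ ?_ ?_ ?_ ?_
    · intro a; rw [hΦv]; exact (hP1 a).1
    · intro f; rw [hΦe]; exact hwm f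
    · rw [map_zero]; exact zero_mem _
    · intro x y hx hy; rw [map_add]; exact add_mem hx hy
    · intro x y hx hy; rw [map_mul]; exact mul_mem hx hy
    · intro z x hx; rw [map_smul]; exact SMulMemClass.smul_mem z hx
    · intro x hx; rw [map_star]; exact star_mem hx
  · intro a N
    have h1 : Φ (qq (K.SN c hc N) a) =
        P a - ∑ g ∈ (K.SN c hc N).filter (fun g => E.s g = a), QQ a g := by
      unfold qq
      rw [map_sub, hΦv, map_sum]
      congr 1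
      refine Finset.sum_congr rfl fun g hg => ?_
      rw [map_mul, map_star, hΦe, hw1, hQdef, (Finset.mem_filter.1 hg).2]
    have h2 : θ (qq (K.SN c hc N) a) * θ (qq (K.SN c hc N) a) = θ (qq (K.SN c hc N) a) := by
      rw [← map_mul, (pj_qq _ a).1]
    rw [h1]
    exact (K'.pid h2).trans (hQ3 a N).eqv.symm

end LPA74
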