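import Pool.Agent.LibLPA74.S2

/-!
[LP S4] `exists_sub`: `p = p e = ∑ p η_i η_i*` (resolution of `e`) is not `0`, so
`b = p η_i = p η_i q (c i) ≠ 0` for some `i`; by `Spl.pos` `b* b = l • q u`, `u = c i`, `l > 0`
(`l = 0` would give `b = 0`).  `w = (1/√l) • b`.
`dec`: strong induction on `finrank ℂ {c ∈ C | p c = c}` (finite dimensional by `Spl.fd`; all `p`).
If `p = 0` take `n = 0`.  Otherwise take `w` from `exists_sub`; `p' = p - w w*` is a projection in
`C` with `p' w = 0`, `p p' = p' = p' p`, and `{c | p' c = c}` is contained in `{c | p c = c}` and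
misses `w ≠ 0`, so the dimension drops; `p' = ∑ w'_i w'_i*`; `w* w'_i = w* p' w'_i = 0`
(`w'_i = w'_i q (u i) = (w'_i w'_i*) w'_i = p' w'_i`).  Use `Fin.cons`.
(One may use any `Fintype` index instead: `ι = Option ι'`; the statement is with `Fin n`.)
-/

namespace LPA74

variable {A : Type} [NonUnitalRing A] [StarRing A] [Module ℂ A] [IsScalarTower ℂ A A]
  [SMulCommClass ℂ A A] [StarModule ℂ A]

variable {C : NonUnitalStarSubalgebra ℂ A} {e : A} {U : Type} {W : Finset U} {q : U → A}

theorem Spl.exists_sub (h : Spl C e W q) {p : A} (hp : p ∈ C) (hpp : Pj p) (h0 : p ≠ 0) :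
    ∃ u ∈ W, ∃ w ∈ C, w ≠ 0 ∧ star w * w = q u ∧ w * q u = w ∧ p * w = w := by
  obtain ⟨ι, _, _, η, c, hη, _, hsum⟩ := h.res
  have h1 : p = ∑ i, p * η i * star (η i) := by
    conv_lhs => rw [← h.mul_e hp, hsum, Finset.mul_sum]
    exact Finset.sum_congr rfl fun i _ => (mul_assoc _ _ _).symm
  have h2 : ∃ i, p * η i ≠ 0 := by
    by_contra hcon
    push Not at hcon
    apply h0
    rw [h1]
    refine Finset.sum_eq_zero fun i _ => ?_
    rw [hcon i, zero_mul]
  obtain ⟨i, hi⟩ := h2
  obtain ⟨hW, hC, hq⟩ := hη i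
  have hb : p * η i * q (c i) = p * η i := by rw [mul_assoc, hq]
  obtain ⟨l, hl0, hl, hlz⟩ := h.pos hW (C.mul_mem hp hC)
  rw [hb] at hl hlz
  have hlne : l ≠ 0 := fun hz => hi (hlz hz)
  have hlpos : 0 < l := lt_of_le_of_ne hl0 (Ne.symm hlne)
  have hsq : (0 : ℝ) < Real.sqrt l := Real.sqrt_pos.2 hlpos
  have hsqc : ((Real.sqrt l : ℝ) : ℂ) ≠ 0 := by
    exact_mod_cast hsq.ne'
  refine ⟨c i, hW, (((Real.sqrt l : ℝ) : ℂ)⁻¹) • (p * η i), C.smul_mem _ (C.mul_mem hp hC), ?_, ?_,
    ?_, ?_⟩
  · exact smul_ne_zero (inv_ne_zero hsqc) hi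
  · rw [star_smul, smul_mul_smul_comm, hl, smul_smul]
    have h3 : star ((((Real.sqrt l : ℝ) : ℂ)⁻¹)) * (((Real.sqrt l : ℝ) : ℂ)⁻¹) * (l : ℂ) = 1 := by
      have h4 : star ((((Real.sqrt l : ℝ) : ℂ)⁻¹)) = (((Real.sqrt l : ℝ) : ℂ)⁻¹) := by
        rw [star_inv₀]
        congr 1
        exact Complex.conj_ofReal _
      have h5 : (l : ℂ) = ((Real.sqrt l : ℝ) : ℂ) * ((Real.sqrt l : ℝ) : ℂ) := by
        rw [← Complex.ofReal_mul, Real.mul_self_sqrt hl0]
      rw [h4, h5]
      field_simp
    rw [h3, one_smul]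
  · rw [smul_mul_assoc, hb]
  · rw [mul_smul_comm, ← mul_assoc, hpp.1]

/-- the subspace of `C` fixed by left multiplication with `p`. -/
private def s4Fix (C : NonUnitalStarSubalgebra ℂ A) (p : A) : Submodule ℂ C where
  carrier := {x | p * (x : A) = x}
  zero_mem' := by
    show p * ((0 : C) : A) = ((0 : C) : A)
    rw [ZeroMemClass.coe_zero, mul_zero]
  add_mem' := by
    intro a b ha hb
    show p * ((a + b : C) : A) = ((a + b : C) : A)
    rw [AddMemClass.coe_add, mul_add]
    exact congrArg₂ (· + ·) ha hb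
  smul_mem' := by
    intro z a ha
    show p * ((z • a : C) : A) = ((z • a : C) : A)
    rw [SetLike.val_smul, mul_smul_comm]
    exact congrArg (z • ·) ha

private theorem mem_s4Fix {p : A} {x : C} : x ∈ s4Fix C p ↔ p * (x : A) = x := Iff.rfl

theorem Spl.dec (h : Spl C e W q) {p : A} (hp : p ∈ C) (hpp : Pj p) :
    ∃ (n : ℕ) (w : Fin n → A) (u : Fin n → U),
      (∀ i, u i ∈ W ∧ w i ∈ C ∧ w i ≠ 0 ∧ w i * q (u i) = w i) ∧
      (∀ i j, star (w i) * w j = if i = j then q (u i) else 0) ∧
      p = ∑ i, w i * star (w i) := by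
  classical
  have := h.fd
  induction hN : Module.finrank ℂ (s4Fix C p) using Nat.strong_induction_on generalizing p with
  | _ N ih =>
    by_cases h0 : p = 0
    · exact ⟨0, Fin.elim0, Fin.elim0, fun i => i.elim0, fun i => i.elim0, by simp [h0]⟩
    obtain ⟨u, hu, w, hw, hw0, hww, hwq, hpw⟩ := h.exists_sub hp hpp h0
    have hsw : star w * p = star w := by
      have := congrArg star hpw
      rwa [star_mul, hpp.2] at this
    have hwws : w * star w * w = w := by rw [mul_assoc, hww, hwq]
    have hw2 : w * star w * (w * star w) = w * star w := by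
      rw [← mul_assoc, hwws]
    have hpww : p * (w * star w) = w * star w := by rw [← mul_assoc, hpw]
    have hwwp : w * star w * p = w * star w := by rw [mul_assoc, hsw]
    have hsC : star w ∈ C := star_mem hw
    have hp'C : p - w * star w ∈ C := sub_mem hp (mul_mem hw hsC)
    have hp'p : Pj (p - w * star w) := by
      constructor
      · rw [sub_mul, mul_sub, mul_sub, hpp.1, hpww, hwwp, hw2, sub_self, sub_zero]
      · rw [star_sub, star_mul, star_star, hpp.2]
    have hp'w : (p - w * star w) * w = 0 := by rw [sub_mul, hpw, hwws, sub_self]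
    have hpp' : p * (p - w * star w) = p - w * star w := by rw [mul_sub, hpp.1, hpww]
    have hle : s4Fix C (p - w * star w) ≤ s4Fix C p := by
      intro x hx
      rw [mem_s4Fix] at hx ⊢
      rw [← hx, ← mul_assoc, hpp']
    have hlt : s4Fix C (p - w * star w) < s4Fix C p := by
      refine lt_of_le_of_ne hle fun heq => ?_
      have h1 : (⟨w, hw⟩ : C) ∈ s4Fix C p := hpw
      rw [← heq, mem_s4Fix] at h1
      exact hw0 (h1.symm.trans hp'w)
    have hfr := Submodule.finrank_lt_finrank_of_lt hlt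
    obtain ⟨n, w', u', h1, h2, h3⟩ := ih _ (hN ▸ hfr) hp'C hp'p rfl
    have h4 : ∀ i, (p - w * star w) * w' i = w' i := by
      intro i
      rw [h3, Finset.sum_mul]
      rw [Finset.sum_eq_single i]
      · rw [mul_assoc, h2, if_pos rfl, (h1 i).2.2.2]
      · intro j _ hj
        rw [mul_assoc, h2, if_neg hj, mul_zero]
      · intro hi
        exact absurd (Finset.mem_univ i) hi
    have h5 : ∀ i, star w * w' i = 0 := by
      intro i
      have h6 : star w * (p - w * star w) = 0 := by
        have := congrArg star hp'w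
        rwa [star_mul, star_zero, hp'p.2] at this
      rw [← h4 i, ← mul_assoc, h6, zero_mul]
    have h6 : ∀ i, star (w' i) * w = 0 := by
      intro i
      have := congrArg star (h5 i)
      rwa [star_mul, star_zero, star_star] at this
    refine ⟨n + 1, Fin.cons w w', Fin.cons u u', ?_, ?_, ?_⟩
    · intro i
      refine Fin.cases ?_ (fun i => ?_) i
      · simp only [Fin.cons_zero]
        exact ⟨hu, hw, hw0, hwq⟩
      · simp only [Fin.cons_succ]
        exact h1 i
    · intro i j
      refine Fin.cases ?_ (fun i => ?_) i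
      · refine Fin.cases ?_ (fun j => ?_) j
        · simp only [Fin.cons_zero, if_true]
          exact hww
        · simp only [Fin.cons_zero, Fin.cons_succ]
          rw [h5, if_neg (Fin.succ_ne_zero j).symm]
      · refine Fin.cases ?_ (fun j => ?_) j
        · simp only [Fin.cons_zero, Fin.cons_succ]
          rw [h6, if_neg (Fin.succ_ne_zero i)]
        · simp only [Fin.cons_succ]
          rw [h2]
          simp only [Fin.succ_inj]
    · rw [Fin.sum_univ_succ]
      simp only [Fin.cons_zero, Fin.cons_succ]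
      rw [← h3]
      abel

end LPA74
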