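import Pool.Agent.LibLPA74.B8
import Pool.Agent.LibLPA74.B9
import Pool.Agent.LibLPA74.S4

/-!
[LP A5] From the `qq`'s to all projections of `A0`.  `p ∈ Cs (SN N) W`, admissible (`exhaust0`,
`exists_adm`), `Spl.dec`: `p = ∑ w_i w_i*`, `w_i* w_j = δ_ij qq (u i)`.
`Eqv (θ (w_i w_i*)) (θ (qq (u i)))` (by `θ w_i`, `θ (w_i*)`), `Eqv (θ qq) (Φ qq)`,
`Eqv (Φ qq) (Φ (w_i w_i*))`; then `Eqv.sum` (orthogonality: `w_i* w_j = 0`).
-/

namespace LPA74

theorem eqv_of_qq {E F : Gph} (K : Cyc E) (c : E.Ed → ℕ) (hc : Function.Injective c)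
    (θ : LA E ≃+* LA F) (Φ : LA E →⋆ₙₐ[ℂ] LA F)
    (h : ∀ a N, Eqv (θ (qq (K.SN c hc N) a)) (Φ (qq (K.SN c hc N) a)))
    {p : LA E} (hp : p ∈ K.A0) (hpp : Pj p) : Eqv (θ p) (Φ p) := by
  obtain ⟨N0, W0, hN⟩ := K.exhaust0 c hc {p} (by
    intro x hx
    rw [Finset.mem_singleton.1 hx]
    exact hp)
  obtain ⟨W, hW, hA⟩ := K.exists_adm c hc N0 W0
  have hpC := hN N0 le_rfl W hW p (Finset.mem_singleton_self p)
  obtain ⟨n, w, u, h1, h2, h3⟩ := (K.spl hA).dec hpC hpp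
  have h4 : ∀ i, star (w i) * w i = qq (K.SN c hc N0) (u i) := by
    intro i
    rw [h2 i i, if_pos rfl]
  have h5 : ∀ i, Eqv (w i * star (w i)) (qq (K.SN c hc N0) (u i)) := by
    intro i
    have h6 := (h1 i).2.2.2
    have h7 : star (qq (K.SN c hc N0) (u i)) = qq (K.SN c hc N0) (u i) := by
      rw [← h4 i, star_mul, star_star]
    refine ⟨w i, star (w i), rfl, h4 i, ?_, ?_⟩
    · rw [mul_assoc, h4 i, h6]
    · rw [h4 i]
      have h8 := congrArg star h6
      rw [star_mul, h7] at h8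
      exact h8
  have horth : ∀ i j, i ≠ j → w i * star (w i) * (w j * star (w j)) = 0 := by
    intro i j hij
    have h6 : w i * star (w i) * (w j * star (w j)) = w i * (star (w i) * w j) * star (w j) := by
      simp only [mul_assoc]
    rw [h6, h2 i j, if_neg hij, mul_zero, zero_mul]
  rw [h3, map_sum, map_sum]
  apply Eqv.sum
  · intro i _
    have h6 : Eqv (θ (w i * star (w i))) (θ (qq (K.SN c hc N0) (u i))) :=
      Eqv.map (fun x => θ x) (fun x y => map_mul θ x y) (h5 i)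
    have h7 : Eqv (Φ (w i * star (w i))) (Φ (qq (K.SN c hc N0) (u i))) :=
      Eqv.map (fun x => Φ x) (fun x y => map_mul Φ x y) (h5 i)
    exact (h6.trans (h (u i) N0)).trans h7.symm
  · intro i _ j _ hij
    rw [← map_mul, horth i j hij, map_zero]
  · intro i _ j _ hij
    rw [← map_mul, horth i j hij, map_zero]

end LPA74
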