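import Pool.Agent.LibLPA74.V1
import Pool.Agent.LibLPA74.SEQ

/-!
[LP A6] Changing the value of `Φ0` on the distinguished edges.  By `LA.lift` for `P = Φ0 ∘ vx`,
`Sg g = Φ0 (ed g)` if `g ∉ D`, `Sg f = X f * star (Φ0 (pe (y f) (s f)))` if `f ∈ D`, where
`X f X f* = X f* X f = Φ0 (vx (s f))`.  CK relations: `V1` (`py_star`, `star_py`, `vx_py`), and for
`f ∈ D` no other edge starts at `s f` (`K.hu`): `ck1` `star (Sg f) * Sg f = Φ0 (pe) X* X Φ0(pe)* =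
Φ0 (pe pe*) = Φ0 (vx (r f))`; `ck2` at `a = s f`: `S = {f}`,
`Sg f * star (Sg f) = X Φ0(pe* pe) X* = Φ0 (vx (s f))`.
`Φ = Φ0` on `A0` (`adjoin_induction`), `Φ (x f) = X f * Φ0 (pe* pe) = X f * Φ0 (vx (s f)) = X f`
(`X f = X f X f* X f`).
-/

namespace LPA74

section a6
variable {E F : Gph} (K : Cyc E) (Φ0 : LA E →⋆ₙₐ[ℂ] LA F) (X : E.Ed → LA F)

open Classical in
/-- the new values on the edges. -/
noncomputable def a6_Sg (g : E.Ed) : LA F :=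
  if g ∈ K.D then X g * star (Φ0 (pe (K.y g) (E.s g))) else Φ0 (ed g)

theorem a6_pos {g : E.Ed} (hg : g ∈ K.D) :
    a6_Sg K Φ0 X g = X g * star (Φ0 (pe (K.y g) (E.s g))) := if_pos hg

theorem a6_neg {g : E.Ed} (hg : g ∉ K.D) : a6_Sg K Φ0 X g = Φ0 (ed g) := if_neg hg

theorem a6_ck (h1 : ∀ f ∈ K.D, X f * star (X f) = Φ0 (vx (E.s f)))
    (h2 : ∀ f ∈ K.D, star (X f) * X f = Φ0 (vx (E.s f)))
    (h3 : ∀ f ∈ K.D, X f * star (X f) * X f = X f) :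
    CK E (fun a => Φ0 (vx a)) (a6_Sg K Φ0 X) := by
  classical
  -- facts for `f ∈ D`
  have t1 : ∀ f ∈ K.D, Φ0 (pe (K.y f) (E.s f)) * star (Φ0 (pe (K.y f) (E.s f))) =
      Φ0 (vx (E.r f)) := by
    intro f hf
    rw [← map_star, ← map_mul, K.py_star hf]
  have t2 : ∀ f ∈ K.D, star (Φ0 (pe (K.y f) (E.s f))) * Φ0 (pe (K.y f) (E.s f)) =
      Φ0 (vx (E.s f)) := by
    intro f hf
    rw [← map_star, ← map_mul, K.star_py hf]
  have t3 : ∀ f ∈ K.D, Φ0 (vx (E.r f)) * Φ0 (pe (K.y f) (E.s f)) = Φ0 (pe (K.y f) (E.s f)) := by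
    intro f hf
    rw [← map_mul, K.vx_py hf]
  have t4 : ∀ f ∈ K.D, star (Φ0 (pe (K.y f) (E.s f))) * Φ0 (vx (E.r f)) =
      star (Φ0 (pe (K.y f) (E.s f))) := by
    intro f hf
    have h4 := congrArg star (t3 f hf)
    have h5 : star (Φ0 (vx (E.r f))) = Φ0 (vx (E.r f)) := by rw [← map_star, star_vx]
    rwa [star_mul, h5] at h4
  have t5 : ∀ f ∈ K.D, Φ0 (pe (K.y f) (E.s f)) * Φ0 (vx (E.s f)) = Φ0 (pe (K.y f) (E.s f)) := by
    intro f hf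
    rw [← t2 f hf, ← mul_assoc, t1 f hf, t3 f hf]
  have q1 : ∀ f ∈ K.D, Φ0 (vx (E.s f)) * X f = X f := by
    intro f hf
    rw [← h1 f hf, h3 f hf]
  have q2 : ∀ f ∈ K.D, X f * Φ0 (vx (E.s f)) = X f := by
    intro f hf
    rw [← h2 f hf, ← mul_assoc, h3 f hf]
  have hsa : ∀ a : E.V, star (Φ0 (vx a)) = Φ0 (vx a) := by
    intro a
    rw [← map_star, star_vx]
  have hse : ∀ f, Φ0 (vx (E.s f)) * a6_Sg K Φ0 X f = a6_Sg K Φ0 X f := by
    intro f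
    by_cases hf : f ∈ K.D
    · rw [a6_pos K Φ0 X hf, ← mul_assoc, q1 f hf]
    · rw [a6_neg K Φ0 X hf, ← map_mul, vx_mul_ed]
  have horth : ∀ a b : E.V, a ≠ b → Φ0 (vx a) * Φ0 (vx b) = 0 := by
    intro a b hab
    rw [← map_mul, vx_mul_ne hab, map_zero]
  refine ⟨?_, hsa, horth, hse, ?_, ?_, ?_, ?_⟩
  · intro a
    rw [← map_mul, vx_mul_self]
  · intro f
    by_cases hf : f ∈ K.D
    · rw [a6_pos K Φ0 X hf, mul_assoc, t4 f hf]
    · rw [a6_neg K Φ0 X hf, ← map_mul, ed_mul_vx]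
  · intro f
    by_cases hf : f ∈ K.D
    · rw [a6_pos K Φ0 X hf, star_mul, star_star, mul_assoc, ← mul_assoc (star (X f)), h2 f hf,
        ← mul_assoc, t5 f hf, t1 f hf]
    · rw [a6_neg K Φ0 X hf, ← map_star, ← map_mul, star_ed_mul_ed]
  · intro f f' hff
    by_cases hs : E.s f = E.s f'
    · have hf : f ∉ K.D := fun hf => hff (K.hu f hf f' hs.symm).symm
      have hf' : f' ∉ K.D := fun hf' => hff (K.hu f' hf' f hs)
      rw [a6_neg K Φ0 X hf, a6_neg K Φ0 X hf', ← map_star, ← map_mul, star_ed_mul_ed_ne hff,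
        map_zero]
    · have h5 : star (a6_Sg K Φ0 X f) * Φ0 (vx (E.s f)) = star (a6_Sg K Φ0 X f) := by
        have h6 := congrArg star (hse f)
        rwa [star_mul, hsa] at h6
      rw [← h5, ← hse f', mul_assoc, ← mul_assoc (Φ0 (vx (E.s f))), horth _ _ hs, zero_mul,
        mul_zero]
  · intro a S hS hSa
    by_cases hex : ∃ f ∈ S, f ∈ K.D
    · obtain ⟨f, hfS, hf⟩ := hex
      have hfa := (hSa f).1 hfS
      have hS1 : S = {f} := by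
        refine Finset.eq_singleton_iff_unique_mem.2 ⟨hfS, fun g hg => ?_⟩
        exact K.hu f hf g (by rw [(hSa g).1 hg, hfa])
      rw [hS1, Finset.sum_singleton, a6_pos K Φ0 X hf, star_mul, star_star, mul_assoc,
        ← mul_assoc (star (Φ0 (pe (K.y f) (E.s f)))), t2 f hf, ← mul_assoc, q2 f hf, h1 f hf, hfa]
    · push Not at hex
      rw [Finset.sum_congr rfl fun f hf => by
        rw [a6_neg K Φ0 X (hex f hf), ← map_star, ← map_mul], ← map_sum, ← vx_eq_sum a S hS hSa]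

end a6

theorem change_Phi {E F : Gph} (K : Cyc E) (Φ0 : LA E →⋆ₙₐ[ℂ] LA F) (X : E.Ed → LA F)
    (h1 : ∀ f ∈ K.D, X f * star (X f) = Φ0 (vx (E.s f)))
    (h2 : ∀ f ∈ K.D, star (X f) * X f = Φ0 (vx (E.s f)))
    (h3 : ∀ f ∈ K.D, X f * star (X f) * X f = X f) :
    ∃ Φ : LA E →⋆ₙₐ[ℂ] LA F, (∀ x ∈ K.A0, Φ x = Φ0 x) ∧ ∀ f ∈ K.D, Φ (K.x f) = X f := by
  obtain ⟨Φ, hv, he⟩ := LA.lift (a6_ck K Φ0 X h1 h2 h3)
  have hA0 : ∀ x ∈ K.A0, Φ x = Φ0 x := by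
    intro x hx
    refine NonUnitalStarAlgebra.adjoin_induction (R := ℂ)
      (p := fun z _ => Φ z = Φ0 z) ?_ ?_ ?_ ?_ ?_ ?_ hx
    · rintro z (⟨a, rfl⟩ | ⟨g, hg, rfl⟩)
      · exact hv a
      · rw [he, a6_neg K Φ0 X hg]
    · intro x y _ _ hx hy
      rw [map_add, map_add, hx, hy]
    · rw [map_zero, map_zero]
    · intro x y _ _ hx hy
      rw [map_mul, map_mul, hx, hy]
    · intro c x _ hx
      rw [map_smul, map_smul, hx]
    · intro x _ hx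
      rw [map_star, map_star, hx]
  refine ⟨Φ, hA0, fun f hf => ?_⟩
  have h4 : star (Φ0 (pe (K.y f) (E.s f))) * Φ0 (pe (K.y f) (E.s f)) = Φ0 (vx (E.s f)) := by
    rw [← map_star, ← map_mul, K.star_py hf]
  unfold Cyc.x
  rw [map_mul, he, a6_pos K Φ0 X hf, hA0 _ (K.py_mem hf), mul_assoc, h4, ← h2 f hf, ← mul_assoc,
    h3 f hf]

end LPA74
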