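import Pool.Agent.LibLPA74.EQ

/-!
[LP CG] Invariance of `CorGood`.
`eqv`: `x y = p`, `y x = q` (with `x = p x = x q`, `y = q y = y p`).  The corner of `q` is
isomorphic to that of `p` by `b ↦ x b y`, inverse `a ↦ y a x`: for `a` put `a' = x a y`;
`p a' p = x (q a q) y`, and `q a q = y (p a' p) x`; products go to products.  `q ≠ 0` since
`p = x q y`.
`map`: apply the ring isomorphism.
-/

namespace LPA74

variable {A : Type} [NonUnitalRing A] [StarRing A] [Module ℂ A] [IsScalarTower ℂ A A]
  [SMulCommClass ℂ A A] [StarModule ℂ A]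

variable {B : Type} [NonUnitalRing B] [StarRing B] [Module ℂ B] [IsScalarTower ℂ B B]
  [SMulCommClass ℂ B B] [StarModule ℂ B]

theorem CorGood.eqv {p q : A} (h : CorGood p) (hE : Eqv p q) : CorGood q := by
  obtain ⟨x, y, rfl, rfl, h3, h4⟩ := hE
  obtain ⟨c1, c2, c3, c4, c5⟩ := h
  have r1 : x * (y * x) = x := by rw [← mul_assoc]; exact h3
  have r3 : y * (x * y) = y := by rw [← mul_assoc]; exact h4
  have r2 : ∀ z, x * (y * (x * z)) = x * z := fun z => by
    rw [← mul_assoc y, ← mul_assoc x, ← mul_assoc x, h3]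
  have r4 : ∀ z, y * (x * (y * z)) = y * z := fun z => by
    rw [← mul_assoc x, ← mul_assoc y, ← mul_assoc y, h4]
  refine ⟨?_, ?_, ?_, ?_, ?_⟩
  · simp only [mul_assoc, r1]
  · intro h0
    apply c2
    have h5 : x * y = x * (y * x) * y := by rw [r1]
    rw [h5, h0, mul_zero, zero_mul]
  · intro a b
    have h5 := congrArg (fun t => y * t * x) (c3 (x * a * y) (x * b * y))
    simp only [mul_assoc, r1, r2, r3, r4] at h5 ⊢
    exact h5
  · intro a b hab
    have h5 := congrArg (fun t => x * t * y) hab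
    have h6 : (x * y * (x * a * y) * (x * y)) * (x * y * (x * b * y) * (x * y)) = 0 := by
      simp only [mul_assoc, r1, r2, r3, r4, mul_zero, zero_mul] at h5 ⊢
      exact h5
    rcases c4 _ _ h6 with h7 | h7
    · left
      have h8 := congrArg (fun t => y * t * x) h7
      simp only [mul_assoc, r1, r2, r3, r4, mul_zero, zero_mul] at h8 ⊢
      exact h8
    · right
      have h8 := congrArg (fun t => y * t * x) h7
      simp only [mul_assoc, r1, r2, r3, r4, mul_zero, zero_mul] at h8 ⊢
      exact h8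
  · obtain ⟨a, ha, hb⟩ := c5
    refine ⟨y * a * x, fun h5 => ha ?_, fun b h5 => hb (x * b * y) ?_⟩
    · have h8 := congrArg (fun t => x * t * y) h5
      simp only [mul_assoc, r1, r2, r3, r4, mul_zero, zero_mul] at h8 ⊢
      exact h8
    · have h8 := congrArg (fun t => x * t * y) h5
      simp only [mul_assoc, r1, r2, r3, r4, mul_zero, zero_mul] at h8 ⊢
      exact h8

theorem CorGood.map {p : A} (h : CorGood p) (θ : A ≃+* B) : CorGood (θ p) := by
  obtain ⟨c1, c2, c3, c4, c5⟩ := h
  have hz : ∀ a : A, θ a = 0 → a = 0 := fun a ha => by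
    rw [← map_zero θ] at ha
    exact θ.injective ha
  refine ⟨?_, fun h0 => c2 (hz p h0), ?_, ?_, ?_⟩
  · rw [← map_mul, c1]
  · intro a b
    obtain ⟨a, rfl⟩ := θ.surjective a
    obtain ⟨b, rfl⟩ := θ.surjective b
    simp only [← map_mul]
    rw [c3]
  · intro a b hab
    obtain ⟨a, rfl⟩ := θ.surjective a
    obtain ⟨b, rfl⟩ := θ.surjective b
    simp only [← map_mul] at hab ⊢
    rcases c4 a b (hz _ hab) with h1 | h1
    · left
      rw [h1, map_zero]
    · right
      rw [h1, map_zero]
  · obtain ⟨a, ha, hb⟩ := c5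
    refine ⟨θ a, fun h0 => ha ?_, fun b h0 => ?_⟩
    · simp only [← map_mul] at h0
      exact hz _ h0
    · obtain ⟨b, rfl⟩ := θ.surjective b
      simp only [← map_mul] at h0
      exact hb b (θ.injective h0)

theorem DF.map (h : DF A) (θ : A ≃+* B) : DF B := by
  intro e x y h1 h2 h3 h4 h5 h6
  obtain ⟨e, rfl⟩ := θ.surjective e
  obtain ⟨x, rfl⟩ := θ.surjective x
  obtain ⟨y, rfl⟩ := θ.surjective y
  simp only [← map_mul] at h1 h2 h3 h4 h5 h6 ⊢
  rw [h e x y (θ.injective h1) (θ.injective h2) (θ.injective h3) (θ.injective h4)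
    (θ.injective h5) (θ.injective h6)]

end LPA74
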