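import Pool.Agent.LibLPA74.B7
import Pool.Agent.LibLPA74.B9
import Pool.Agent.LibLPA74.PI

/-!
[LP V5] The corner of `vx (s f)`, `f ∈ D`, is `ℂ[T;T⁻¹]`: every
`vx (s f) * a * vx (s f)` is `lm f p` (`exhaust` for `{a}`; enlarge `T` by `f` and `W` by `s f`:
choose `N = N0`, `W` from `exists_adm` with `W0 ∪ {s f}`, `Bs` is monotone in `T`; `sand_lm`).
So commutative, a domain (`lm_inj`, `lm_mul`, `laurent_domain`).  Not a field: `a = lm f (1 + T 1)`
is not `0` and not invertible: the `φ` of `exists_ev (-1)` kills `vx + x f`, so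
`a * b = vx (s f)` would give `0 = vx (s f)`.
-/

namespace LPA74

variable {E : Gph} (K : Cyc E) [Countable E.Ed] {f : E.Ed}

theorem Cyc.corner_lm (hf : f ∈ K.D) (a : LA E) :
    ∃ p : LaurentPolynomial ℂ, vx (E.s f) * a * vx (E.s f) = K.lm f p := by
  classical
  obtain ⟨c, hc⟩ := Countable.exists_injective_nat E.Ed
  obtain ⟨N0, W0, T, hT, hex⟩ := K.exhaust c hc {a}
  obtain ⟨W, hW, hadm⟩ := K.exists_adm c hc N0 (insert (E.s f) W0)
  have hb : a ∈ K.Bs (K.SN c hc N0) W T :=
    hex N0 le_rfl W ((Finset.subset_insert _ _).trans hW) a (Finset.mem_singleton_self a)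
  have hmono : K.Bs (K.SN c hc N0) W T ≤ K.Bs (K.SN c hc N0) W (insert f T) := by
    unfold Cyc.Bs
    refine NonUnitalStarAlgebra.adjoin_mono ?_
    refine Set.union_subset_union_right _ (Set.image_mono ?_)
    rw [Finset.coe_insert]
    exact Set.subset_insert _ _
  refine K.sand_lm hadm (T := insert f T) ?_ (hmono hb) (Finset.mem_insert_self f T)
  intro g hg
  rcases Finset.mem_insert.1 hg with rfl | hg
  · exact ⟨hf, hW (Finset.mem_insert_self _ _)⟩
  · exact ⟨(hT g hg).1, hW (Finset.mem_insert_of_mem (hT g hg).2)⟩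

theorem Cyc.corGood (hf : f ∈ K.D) : CorGood (vx (E.s f) : LA E) := by
  have hdom := laurent_domain
  have hinj : ∀ p q : LaurentPolynomial ℂ, K.lm f p = K.lm f q → p = q := by
    intro p q h
    have h1 : K.lm f (p - q) = 0 := by
      have h2 : p = (p - q) + q := by ring
      have h3 := K.lm_add (f := f) (p - q) q
      rw [← h2, h] at h3
      exact left_eq_add.1 (by rw [add_comm]; exact h3)
    exact sub_eq_zero.1 (K.lm_inj hf h1)
  have hne : (vx (E.s f) : LA E) ≠ 0 := by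
    intro h
    rw [← K.lm_one (f := f), ← K.lm_zero (f := f)] at h
    exact one_ne_zero (hinj _ _ h)
  refine ⟨vx_mul_self _, hne, ?_, ?_, ?_⟩
  · intro a b
    obtain ⟨p, hp⟩ := K.corner_lm hf a
    obtain ⟨q, hq⟩ := K.corner_lm hf b
    rw [hp, hq, ← K.lm_mul hf, ← K.lm_mul hf, mul_comm]
  · intro a b hab
    obtain ⟨p, hp⟩ := K.corner_lm hf a
    obtain ⟨q, hq⟩ := K.corner_lm hf b
    rw [hp, hq, ← K.lm_mul hf] at hab
    rcases mul_eq_zero.1 (K.lm_inj hf hab) with h | h
    · left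
      rw [hp, h, K.lm_zero]
    · right
      rw [hq, h, K.lm_zero]
  · obtain ⟨φ, h1, h2, h3⟩ := K.exists_ev (-1) (by simp)
    have hφ : φ (K.lm f (1 + LaurentPolynomial.T 1)) = 0 := by
      rw [K.lm_add, K.lm_one, K.lm_T, K.xp_one, map_add, h2 _ (K.vx_mem _), h3 f hf]
      simp
    refine ⟨K.lm f (1 + LaurentPolynomial.T 1), ?_, ?_⟩
    · rw [K.vx_mul_lm, K.lm_mul_vx]
      intro h
      obtain ⟨ψ, g1, g2, g3⟩ := K.exists_ev 1 norm_one
      have h4 := congrArg ψ h
      rw [K.lm_add, K.lm_one, K.lm_T, K.xp_one, map_add, g2 _ (K.vx_mem _), g3 f hf, map_zero,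
        one_smul, ← two_smul ℂ] at h4
      rcases smul_eq_zero.1 h4 with h5 | h5
      · exact two_ne_zero h5
      · exact hne h5
    · intro b h
      obtain ⟨q, hq⟩ := K.corner_lm hf b
      rw [K.vx_mul_lm, K.lm_mul_vx] at h
      have h4 := congrArg φ h
      rw [map_mul, hφ, zero_mul, h2 _ (K.vx_mem _)] at h4
      exact hne h4.symm

end LPA74
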