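import Pool.Agent.LibLPA74.B10
import Pool.Agent.LibLPA74.V5

/-!
[LP T1] A projection `P ∈ A0` whose corner in `A` is a commutative domain, not a field, is
`*`-equivalent in `A0` to `vx (s f)` for some `f ∈ D`.
Let `z = P a P` be a nonzero non invertible element of the corner (`CorGood`); `z` is not a
multiple of `P`.  `exhaust0` for `{P}`, `exhaust` for `{z}`, with common `N`, `W` (`exists_adm`),
`S = SN N`: `P ∈ Cs S W`, `z ∈ Bs S W T`.  `Spl.dec` for `P`: `P = ∑ w_i w_i*`, `w_i ≠ 0`.  The
`w_i w_i*` are nonzero (`w_i w_i* w_i = w_i`) elements of the corner of `P` with product `0`, so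
there is exactly one: `P = w w*`, `w* w = qq S u`, `w qq S u = w`, `u ∈ W`.
If `u ≠ s f` for all `f ∈ T`: `w* z w = qq S u * (w* z w) * qq S u` is a multiple of `qq S u`
(`sand_scalar`; `w ∈ Cs S W ≤ Bs S W T`), so `z = P z P = w (w* z w) w*` is a multiple of
`w w* = P`: contradiction.  So `u = s f` with `f ∈ T`, and `qq S u = vx u` (`qq_eq_vx`, `K.hu`).
-/

namespace LPA74

theorem Cyc.t1 {E : Gph} (K : Cyc E) [Countable E.Ed] {P : LA E} (hP : P ∈ K.A0) (hPP : Pj P)
    (hc : CorGood P) : ∃ f ∈ K.D, SEqvIn K.A0 P (vx (E.s f)) := by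
  classical
  obtain ⟨hP1, hP0, -, hdom, a, ha0, hainv⟩ := hc
  obtain ⟨c, hcc⟩ := Countable.exists_injective_nat E.Ed
  obtain ⟨N1, W1, h1⟩ := K.exhaust0 c hcc {P} (fun x hx => by
    rw [Finset.mem_singleton] at hx
    rw [hx]
    exact hP)
  obtain ⟨N2, W2, T, hT, h2⟩ := K.exhaust c hcc {P * a * P}
  obtain ⟨W, hW, hadm⟩ := K.exists_adm c hcc (max N1 N2) (W1 ∪ W2)
  have hW1 : W1 ⊆ W := Finset.subset_union_left.trans hW
  have hW2 : W2 ⊆ W := Finset.subset_union_right.trans hW
  have hPC := h1 _ (le_max_left N1 N2) W hW1 P (Finset.mem_singleton_self _)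
  have hzB := h2 _ (le_max_right N1 N2) W hW2 _ (Finset.mem_singleton_self _)
  have hT' : ∀ g ∈ T, g ∈ K.D ∧ E.s g ∈ W := fun g hg => ⟨(hT g hg).1, hW2 (hT g hg).2⟩
  have hspl := K.spl hadm
  obtain ⟨u, hu, w, hw, hw0, hww, hwq, hPw⟩ := hspl.exists_sub hPC hPP hP0
  have hwP : star w * P = star w := by
    have h3 := congrArg star hPw
    rw [star_mul, hPP.2] at h3
    exact h3
  -- `P = w w*`
  have hPe : w * star w = P := by
    have e1 : P * (w * star w) * P = w * star w := by
      rw [← mul_assoc P, hPw, mul_assoc, hwP]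
    have e2 : P * (P - w * star w) * P = P - w * star w := by
      rw [mul_sub, sub_mul, e1, hP1, hP1]
    have e3 : (w * star w) * (w * star w) = w * star w := by
      rw [← mul_assoc, mul_assoc w, hww, hwq]
    have e4 : (P * (w * star w) * P) * (P * (P - w * star w) * P) = 0 := by
      rw [e1, e2, mul_sub, e3, mul_assoc, hwP, sub_self]
    rcases hdom _ _ e4 with h3 | h3
    · exfalso
      rw [e1] at h3
      apply hw0
      have h4 : w * star w * w = 0 := by rw [h3, zero_mul]
      rw [mul_assoc, hww, hwq] at h4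
      exact h4
    · rw [e2] at h3
      exact (sub_eq_zero.1 h3).symm
  have hqs : star (qq (K.SN c hcc (max N1 N2)) u) = qq (K.SN c hcc (max N1 N2)) u := (hspl.q_pj u hu).2
  have hqw : qq (K.SN c hcc (max N1 N2)) u * star w = star w := by
    have h3 := congrArg star hwq
    rw [star_mul, hqs] at h3
    exact h3
  have hex : ∃ f ∈ T, E.s f = u := by
    by_contra hno
    push Not at hno
    have hwB := Cs_le_Bs K (T := T) hw
    have hbB : star w * (P * a * P) * w ∈ K.Bs (K.SN c hcc (max N1 N2)) W T :=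
      mul_mem (mul_mem (star_mem hwB) hzB) hwB
    obtain ⟨l, hl⟩ := K.sand_scalar hadm hT' hbB hno
    have e1 : qq (K.SN c hcc (max N1 N2)) u * (star w * (P * a * P) * w) * qq (K.SN c hcc (max N1 N2)) u =
        star w * (P * a * P) * w := by
      rw [mul_assoc (star w), ← mul_assoc (qq (K.SN c hcc (max N1 N2)) u), hqw, mul_assoc (star w),
        mul_assoc (P * a * P), hwq]
    rw [e1] at hl
    have e2 : P * a * P = l • P := by
      calc P * a * P = P * (P * a * P) * P := by
            rw [mul_assoc P a P, ← mul_assoc P P, hP1, mul_assoc P (a * P) P, mul_assoc a P P, hP1]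
        _ = (w * star w) * (P * a * P) * (w * star w) := by rw [hPe]
        _ = w * (star w * (P * a * P) * w) * star w := by simp only [mul_assoc]
        _ = w * (l • qq (K.SN c hcc (max N1 N2)) u) * star w := by rw [hl]
        _ = l • (w * star w) := by rw [mul_smul_comm, hwq, smul_mul_assoc]
        _ = l • P := by rw [hPe]
    have hl0 : l ≠ 0 := by
      rintro rfl
      rw [zero_smul] at e2
      exact ha0 e2
    apply hainv (l⁻¹ • P)
    rw [e2]
    simp only [mul_smul_comm, smul_mul_assoc, hP1]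
    rw [smul_smul, inv_mul_cancel₀ hl0, one_smul]
  obtain ⟨f, hf, hfu⟩ := hex
  refine ⟨f, (hT f hf).1, w, K.Cs_le_A0 c hcc hw, hPe, ?_, ?_⟩
  · rw [hww, ← hfu]
    refine qq_eq_vx fun g' hg' hss => ?_
    have h3 := K.hu f (hT f hf).1 g' hss
    rw [h3] at hg'
    exact (Cyc.mem_SN.1 hg').1 (hT f hf).1
  · rw [hPe, hPw]

end LPA74
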