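import Pool.Agent.LibLPA74.A4
import Pool.Agent.LibLPA74.A5
import Pool.Agent.LibLPA74.A6
import Pool.Agent.LibLPA74.T1
import Pool.Agent.LibLPA74.CG

/-!
[LP A7] Existence of a good homomorphism.  Code the edges of `E`; `Φ0` from `exists_Phi0`;
`eqv_of_qq`.  For `f ∈ D`: `P = Φ0 (vx (s f))` is a projection of `A0'`, `CorGood (vx (s f))`
(`Cyc.corGood`), so `CorGood (θ (vx (s f)))`, so `CorGood P` (`CorGood.eqv` with
`Eqv (θ (vx (s f))) P`); `Cyc.t1`: `f' ∈ D'` and `w ∈ A0'` with `w w* = P`, `w* w = vx (s f')`.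
`X f = w * x f' * w*` (choice; `0` for `f ∉ D`): `X X* = w x' w* w x'* w* = w x' x'* w* = w w* = P`
etc. (`Cyc.x_mul_star`, `star_mul_x`, `x' = vx x' vx`).  `change_Phi`.
-/

namespace LPA74

/-- a partial isometry transports the unitary `x f'` of the corner. -/
theorem a7_conj {A : Type} [NonUnitalRing A] [StarRing A] {w x v P : A} (h1 : w * star w = P)
    (h2 : star w * w = v) (h3 : w * star w * w = w) (hx1 : x * star x = v) (hx2 : star x * x = v)
    (hx3 : v * x = x) (hx4 : x * v = x) :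
    (w * x * star w) * star (w * x * star w) = P ∧ star (w * x * star w) * (w * x * star w) = P ∧
      (w * x * star w) * star (w * x * star w) * (w * x * star w) = w * x * star w := by
  have hs : star (w * x * star w) = w * (star x * star w) := by
    rw [star_mul, star_mul, star_star]
  have hwv : w * v = w := by rw [← h2, ← mul_assoc, h3]
  have e1 : (w * x * star w) * star (w * x * star w) = P := by
    rw [hs]
    calc w * x * star w * (w * (star x * star w)) = w * (x * (star w * w)) * (star x * star w) := by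
          simp only [mul_assoc]
      _ = w * (x * star x) * star w := by rw [h2, hx4]; simp only [mul_assoc]
      _ = P := by rw [hx1, hwv, h1]
  have e2 : star (w * x * star w) * (w * x * star w) = P := by
    rw [hs]
    calc w * (star x * star w) * (w * x * star w) = w * star x * ((star w * w) * x) * star w := by
          simp only [mul_assoc]
      _ = w * (star x * x) * star w := by rw [h2, hx3]; simp only [mul_assoc]
      _ = P := by rw [hx2, hwv, h1]
  refine ⟨e1, e2, ?_⟩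
  rw [e1, ← h1]
  calc w * star w * (w * x * star w) = (w * star w * w) * x * star w := by simp only [mul_assoc]
    _ = w * x * star w := by rw [h3]

theorem exists_good {E F : Gph} (K : Cyc E) (K' : Cyc F) [Countable E.V] [Countable E.Ed]
    [Countable F.Ed] (θ : LA E ≃+* LA F) : ∃ Φ : LA E →⋆ₙₐ[ℂ] LA F, Good K K' θ Φ := by
  classical
  obtain ⟨c, hc⟩ := exists_injective_nat E.Ed
  obtain ⟨Φ0, hA0, hqq⟩ := exists_Phi0 K K' c hc θ
  have hE : ∀ p ∈ K.A0, Pj p → Eqv (θ p) (Φ0 p) := fun p hp hpp => eqv_of_qq K c hc θ Φ0 hqq hp hpp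
  have hX : ∀ f, ∃ Y : LA F, f ∈ K.D → ∃ f' ∈ K'.D, ∃ w ∈ K'.A0, w * star w = Φ0 (vx (E.s f)) ∧
      star w * w = vx (F.s f') ∧ w * star w * w = w ∧ Y = w * K'.x f' * star w := by
    intro f
    by_cases hf : f ∈ K.D
    · have hvP : Pj (vx (E.s f) : LA E) := ⟨vx_mul_self _, star_vx _⟩
      have hP : Pj (Φ0 (vx (E.s f))) :=
        ⟨by rw [← map_mul, vx_mul_self], by rw [← map_star, star_vx]⟩
      have hcor : CorGood (Φ0 (vx (E.s f))) :=
        ((K.corGood hf).map θ).eqv (hE _ (K.vx_mem _) hvP)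
      obtain ⟨f', hf', w, hw, w1, w2, w3⟩ := K'.t1 (hA0 _) hP hcor
      exact ⟨w * K'.x f' * star w, fun _ => ⟨f', hf', w, hw, w1, w2, w3, rfl⟩⟩
    · exact ⟨0, fun h => absurd h hf⟩
  choose X hX' using hX
  have hXX : ∀ f ∈ K.D, X f * star (X f) = Φ0 (vx (E.s f)) ∧ star (X f) * X f = Φ0 (vx (E.s f)) ∧
      X f * star (X f) * X f = X f := by
    intro f hf
    obtain ⟨f', hf', w, hw, w1, w2, w3, w4⟩ := hX' f hf
    rw [w4]
    exact a7_conj w1 w2 w3 (K'.x_mul_star hf') (K'.star_mul_x hf') (K'.vx_mul_x f') (K'.x_mul_vx f')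
  obtain ⟨Φ, hΦ1, hΦ2⟩ := change_Phi K Φ0 X (fun f hf => (hXX f hf).1) (fun f hf => (hXX f hf).2.1)
    (fun f hf => (hXX f hf).2.2)
  refine ⟨Φ, ?_, ?_, ?_⟩
  · intro a ha
    rw [hΦ1 a ha]
    exact hA0 a
  · intro p hp hpp
    rw [hΦ1 p hp]
    exact hE p hp hpp
  · intro f hf
    obtain ⟨f', hf', w, hw, w1, w2, w3, w4⟩ := hX' f hf
    refine ⟨f', hf', w, hw, ?_, w2, w3, ?_⟩
    · rw [hΦ1 _ (K.vx_mem _)]
      exact w1
    · rw [hΦ2 f hf]
      exact w4

end LPA74
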