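import Pool.Agent.LibLPA74.Defs

/-! # First properties of the Leavitt path algebra -/

namespace LPA74

section rels
variable {E : Gph}

theorem vx_mul_self (a : E.V) : (vx a : LA E) * vx a = vx a := Subtype.ext (LU.vv a)

theorem vx_mul_ne {a b : E.V} (h : a ≠ b) : (vx a : LA E) * vx b = 0 := Subtype.ext (LU.vw a b h)

theorem star_vx (a : E.V) : star (vx a : LA E) = vx a := Subtype.ext (LU.star_gen (.v a))

theorem coe_star_ed (f : E.Ed) : ((show ↥(lpa E) from star (ed f : LA E)) : LU E)
    = LU.gen (.g f) := LU.star_gen (.e f)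

theorem vx_mul_ed (f : E.Ed) : (vx (E.s f) : LA E) * ed f = ed f := Subtype.ext (LU.se f)

theorem ed_mul_vx (f : E.Ed) : (ed f : LA E) * vx (E.r f) = ed f := Subtype.ext (LU.er f)

theorem star_ed_mul_vx (f : E.Ed) : star (ed f : LA E) * vx (E.s f) = star (ed f) := by
  have := congrArg star (vx_mul_ed f)
  rwa [star_mul, star_vx] at this

theorem vx_mul_star_ed (f : E.Ed) : (vx (E.r f) : LA E) * star (ed f) = star (ed f) := by
  have := congrArg star (ed_mul_vx f)
  rwa [star_mul, star_vx] at this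

theorem vx_mul_ed_ne {a : E.V} {f : E.Ed} (h : a ≠ E.s f) : (vx a : LA E) * ed f = 0 := by
  rw [← vx_mul_ed, ← mul_assoc, vx_mul_ne h, zero_mul]

theorem ed_mul_vx_ne {a : E.V} {f : E.Ed} (h : E.r f ≠ a) : (ed f : LA E) * vx a = 0 := by
  rw [← ed_mul_vx, mul_assoc, vx_mul_ne h, mul_zero]

theorem star_ed_mul_vx_ne {a : E.V} {f : E.Ed} (h : E.s f ≠ a) :
    star (ed f : LA E) * vx a = 0 := by
  rw [← star_ed_mul_vx, mul_assoc, vx_mul_ne h, mul_zero]

theorem vx_mul_star_ed_ne {a : E.V} {f : E.Ed} (h : a ≠ E.r f) :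
    (vx a : LA E) * star (ed f) = 0 := by
  rw [← vx_mul_star_ed, ← mul_assoc, vx_mul_ne h, zero_mul]

theorem star_ed_mul_ed (f : E.Ed) : star (ed f : LA E) * ed f = vx (E.r f) := by
  refine Subtype.ext ?_
  change (star (LU.gen (.e f)) : LU E) * LU.gen (.e f) = _
  rw [LU.star_gen]
  exact LU.ck1 f

theorem star_ed_mul_ed_ne {f g : E.Ed} (h : f ≠ g) : star (ed f : LA E) * ed g = 0 := by
  refine Subtype.ext ?_
  change (star (LU.gen (.e f)) : LU E) * LU.gen (.e g) = _
  rw [LU.star_gen]
  exact LU.ck1' f g h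

/-- The inclusion of the Leavitt path algebra in `LU E`. -/
noncomputable def LA.incl (E : Gph) : LA E →⋆ₙₐ[ℂ] LU E :=
  NonUnitalStarSubalgebraClass.subtype (lpa E)

theorem LA.incl_inj : Function.Injective (LA.incl E) := Subtype.val_injective

theorem LA.incl_vx (a : E.V) : LA.incl E (vx a) = LU.gen (.v a) := rfl

theorem LA.incl_ed (f : E.Ed) : LA.incl E (ed f) = LU.gen (.e f) := rfl

theorem LA.incl_mem (x : LA E) : LA.incl E x ∈ lpa E := x.2

theorem vx_eq_sum (a : E.V) (S : Finset E.Ed) (h0 : S.Nonempty) (h : ∀ f, f ∈ S ↔ E.s f = a) :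
    (vx a : LA E) = ∑ f ∈ S, ed f * star (ed f) := by
  refine LA.incl_inj ?_
  rw [map_sum, LA.incl_vx, LU.ck2 a S h0 h]
  refine Finset.sum_congr rfl fun f _ => ?_
  rw [map_mul, map_star, LA.incl_ed, LU.star_gen]
  rfl

/-- induction on the elements of the Leavitt path algebra. -/
theorem LA.induction {p : LA E → Prop} (hv : ∀ a, p (vx a)) (he : ∀ f, p (ed f))
    (h0 : p 0) (hadd : ∀ x y, p x → p y → p (x + y)) (hmul : ∀ x y, p x → p y → p (x * y))
    (hsmul : ∀ (c : ℂ) x, p x → p (c • x)) (hstar : ∀ x, p x → p (star x)) (x : LA E) : p x := by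
  have key : ∀ (y : LU E) (hy : y ∈ lpa E), p (⟨y, hy⟩ : ↥(lpa E)) := by
    intro y hy
    refine NonUnitalStarAlgebra.adjoin_induction (R := ℂ)
      (p := fun z (hz : z ∈ lpa E) => p (⟨z, hz⟩ : ↥(lpa E))) ?_ ?_ ?_ ?_ ?_ ?_ hy
    · rintro z (⟨a, rfl⟩ | ⟨f, rfl⟩)
      · exact hv a
      · exact he f
    · intro x y hx hy h1 h2
      exact hadd _ _ h1 h2
    · exact h0
    · intro x y hx hy h1 h2
      exact hmul _ _ h1 h2
    · intro c x hx h1
      exact hsmul c _ h1
    · intro x hx h1
      exact hstar _ h1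
  exact key x.1 x.2

/-- the vertices and the edges generate. -/
theorem LA.adjoin_eq_top :
    NonUnitalStarAlgebra.adjoin ℂ (Set.range (vx : E.V → LA E) ∪ Set.range (ed : E.Ed → LA E))
      = ⊤ := by
  refine top_unique fun x _ => ?_
  refine LA.induction (p := fun x => x ∈ NonUnitalStarAlgebra.adjoin ℂ
    (Set.range (vx : E.V → LA E) ∪ Set.range (ed : E.Ed → LA E))) ?_ ?_ ?_ ?_ ?_ ?_ ?_ x
  · exact fun a => NonUnitalStarAlgebra.subset_adjoin ℂ _ (Or.inl ⟨a, rfl⟩)
  · exact fun f => NonUnitalStarAlgebra.subset_adjoin ℂ _ (Or.inr ⟨f, rfl⟩)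
  · exact zero_mem _
  · exact fun x y hx hy => add_mem hx hy
  · exact fun x y hx hy => mul_mem hx hy
  · exact fun c x hx => SMulMemClass.smul_mem c hx
  · exact fun x hx => star_mem hx

/-- two `*`-homomorphisms agreeing on vertices and edges are equal. -/
theorem LA.ext {B : Type} [NonUnitalRing B] [StarRing B] [Module ℂ B]
    [IsScalarTower ℂ B B] [SMulCommClass ℂ B B] [StarModule ℂ B]
    {φ ψ : LA E →⋆ₙₐ[ℂ] B} (hv : ∀ a, φ (vx a) = ψ (vx a)) (he : ∀ f, φ (ed f) = ψ (ed f)) :
    φ = ψ := by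
  refine NonUnitalStarAlgHom.ext fun x => ?_
  refine LA.induction (p := fun x => φ x = ψ x) hv he (by simp) ?_ ?_ ?_ ?_ x
  · intro x y hx hy; rw [map_add, map_add, hx, hy]
  · intro x y hx hy; rw [map_mul, map_mul, hx, hy]
  · intro c x hx; rw [map_smul, map_smul, hx]
  · intro x hx; rw [map_star, map_star, hx]

end rels

/-- A Cuntz–Krieger `E`-family in a `*`-algebra. -/
structure CK (E : Gph) {B : Type} [NonUnitalRing B] [StarRing B] (P : E.V → B) (Sg : E.Ed → B) :
    Prop where
  proj : ∀ a, P a * P a = P a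
  sa : ∀ a, star (P a) = P a
  orth : ∀ a b, a ≠ b → P a * P b = 0
  se : ∀ f, P (E.s f) * Sg f = Sg f
  er : ∀ f, Sg f * P (E.r f) = Sg f
  ck1 : ∀ f, star (Sg f) * Sg f = P (E.r f)
  ck1' : ∀ f f', f ≠ f' → star (Sg f) * Sg f' = 0
  ck2 : ∀ (a : E.V) (S : Finset E.Ed), S.Nonempty → (∀ f, f ∈ S ↔ E.s f = a) →
    P a = ∑ f ∈ S, Sg f * star (Sg f)

theorem LA.ck (E : Gph) : CK E (vx : E.V → LA E) (ed : E.Ed → LA E) where
  proj := vx_mul_self
  sa := star_vx
  orth := fun _ _ h => vx_mul_ne h
  se := vx_mul_ed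
  er := ed_mul_vx
  ck1 := star_ed_mul_ed
  ck1' := fun _ _ h => star_ed_mul_ed_ne h
  ck2 := vx_eq_sum

/-- universal property of the Leavitt path algebra among `*`-algebras. -/
theorem LA.lift {E : Gph} {B : Type} [NonUnitalRing B] [StarRing B] [Module ℂ B]
    [IsScalarTower ℂ B B] [SMulCommClass ℂ B B] [StarModule ℂ B] {P : E.V → B} {Sg : E.Ed → B}
    (h : CK E P Sg) :
    ∃ φ : LA E →⋆ₙₐ[ℂ] B, (∀ a, φ (vx a) = P a) ∧ ∀ f, φ (ed f) = Sg f := by
  classical
  let φ0 : Gen E → Unitization ℂ B := fun x => match x with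
    | .v a => (P a : Unitization ℂ B)
    | .e f => (Sg f : Unitization ℂ B)
    | .g f => ((star (Sg f) : B) : Unitization ℂ B)
  have hrg : ∀ f, P (E.r f) * star (Sg f) = star (Sg f) := by
    intro f
    have := congrArg star (h.er f)
    rwa [star_mul, h.sa] at this
  have hgs : ∀ f, star (Sg f) * P (E.s f) = star (Sg f) := by
    intro f
    have := congrArg star (h.se f)
    rwa [star_mul, h.sa] at this
  obtain ⟨ψ, hψ⟩ := LU.lift (B := Unitization ℂ B) φ0
    (fun a => by rw [← Unitization.inr_mul, h.proj])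
    (fun a b hab => by rw [← Unitization.inr_mul, h.orth a b hab, Unitization.inr_zero])
    (fun f => by rw [← Unitization.inr_mul, h.se])
    (fun f => by rw [← Unitization.inr_mul, h.er])
    (fun f => by rw [← Unitization.inr_mul, hrg])
    (fun f => by rw [← Unitization.inr_mul, hgs])
    (fun f => by rw [← Unitization.inr_mul, h.ck1])
    (fun f f' hf => by rw [← Unitization.inr_mul, h.ck1' f f' hf, Unitization.inr_zero])
    (fun a S h0 hS => by
      change ((P a : B) : Unitization ℂ B) = ∑ f ∈ S, ((Sg f : B) : Unitization ℂ B) *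
        ((star (Sg f) : B) : Unitization ℂ B)
      rw [h.ck2 a S h0 hS]
      simp only [← Unitization.inr_mul]
      exact map_sum (Unitization.inrNonUnitalAlgHom ℂ B) _ _)
  -- `ψ` commutes with the involutions
  have hstar : ∀ x : LA E, ψ (star (LA.incl E x)) = star (ψ (LA.incl E x)) := by
    refine LA.induction ?_ ?_ ?_ ?_ ?_ ?_ ?_
    · intro a
      rw [LA.incl_vx, LU.star_gen]
      change ψ (LU.gen (.v a)) = _
      rw [hψ]
      change ((P a : B) : Unitization ℂ B) = star ((P a : B) : Unitization ℂ B)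
      rw [← Unitization.inr_star, h.sa]
    · intro f
      rw [LA.incl_ed, LU.star_gen]
      change ψ (LU.gen (.g f)) = _
      rw [hψ, hψ]
      change ((star (Sg f) : B) : Unitization ℂ B) = star ((Sg f : B) : Unitization ℂ B)
      rw [← Unitization.inr_star]
    · rw [map_zero, star_zero, map_zero, star_zero]
    · intro x y hx hy
      rw [map_add, star_add, map_add, hx, hy, map_add, star_add]
    · intro x y hx hy
      rw [map_mul, star_mul, map_mul, hx, hy, map_mul, star_mul]
    · intro c x hx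
      rw [map_smul, star_smul, map_smul, hx, map_smul, star_smul]
    · intro x hx
      rw [map_star (LA.incl E), star_star, hx, star_star]
  have hfst : ∀ x : LA E, (ψ (LA.incl E x)).fst = 0 := by
    refine LA.induction ?_ ?_ ?_ ?_ ?_ ?_ ?_
    · intro a
      rw [LA.incl_vx, hψ]
      exact Unitization.fst_inr _ _
    · intro f
      rw [LA.incl_ed, hψ]
      exact Unitization.fst_inr _ _
    · simp
    · intro x y hx hy
      rw [map_add, map_add, Unitization.fst_add, hx, hy, add_zero]
    · intro x y hx hy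
      rw [map_mul, map_mul, Unitization.fst_mul, hx, hy, mul_zero]
    · intro c x hx
      rw [map_smul, map_smul, Unitization.fst_smul, hx, smul_zero]
    · intro x hx
      rw [map_star, hstar, Unitization.fst_star, hx, star_zero]
  have hval : ∀ x : LA E, ψ (LA.incl E x) = ((ψ (LA.incl E x)).snd : Unitization ℂ B) := by
    intro x
    refine Unitization.ext ?_ ?_
    · rw [hfst, Unitization.fst_inr]
    · rw [Unitization.snd_inr]
  refine ⟨{ toFun := fun x => (ψ (LA.incl E x)).snd
            map_smul' := ?_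
            map_zero' := ?_
            map_add' := ?_
            map_mul' := ?_
            map_star' := ?_ }, ?_, ?_⟩
  · intro c x
    rw [map_smul, map_smul, Unitization.snd_smul]
    rfl
  · change (ψ (LA.incl E 0)).snd = 0
    rw [map_zero, map_zero, Unitization.snd_zero]
  · intro x y
    change (ψ (LA.incl E (x + y))).snd = (ψ (LA.incl E x)).snd + (ψ (LA.incl E y)).snd
    rw [map_add, map_add, Unitization.snd_add]
  · intro x y
    change (ψ (LA.incl E (x * y))).snd = (ψ (LA.incl E x)).snd * (ψ (LA.incl E y)).snd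
    rw [map_mul, map_mul, Unitization.snd_mul, hfst, hfst, zero_smul, zero_smul, zero_add,
      zero_add]
  · intro x
    change (ψ (LA.incl E (star x))).snd = star (ψ (LA.incl E x)).snd
    rw [map_star, hstar, Unitization.snd_star]
  · intro a
    change (ψ (LA.incl E (vx a))).snd = P a
    rw [LA.incl_vx, hψ]
    exact Unitization.snd_inr _ _
  · intro f
    change (ψ (LA.incl E (ed f))).snd = Sg f
    rw [LA.incl_ed, hψ]
    exact Unitization.snd_inr _ _

end LPA74
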