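import Pool.Agent.LibLPA74.B1
import Pool.Agent.LibLPA74.B2

/-!
[LP B3] Orthogonality of the `η (l, u) = pe l u * qq S u`, `l` a path with edges in `S` ending
at `u`.
-/

namespace LPA74

variable {E : Gph} {S : Finset E.Ed}

theorem eta_self {l : List E.Ed} {u : E.V} (hl : E.IsP l u) :
    star (pe l u * qq S u) * (pe l u * qq S u) = qq S u := by
  obtain ⟨h1, h2⟩ := pj_qq S u
  rw [star_mul, h2, mul_assoc, ← mul_assoc (star (pe l u)), star_pe_mul_pe hl, vx_mul_qq, h1]

theorem b3_nil_cons {g : E.Ed} {l' : List E.Ed} {u u' : E.V} (hg : g ∈ S) :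
    star (pe [] u * qq S u) * (pe (g :: l') u' * qq S u') = 0 := by
  change star (vx u * qq S u) * ((ed g * pe l' u') * qq S u') = 0
  rw [vx_mul_qq, (pj_qq S u).2, ← mul_assoc, ← mul_assoc, qq_mul_ed hg, zero_mul, zero_mul]

theorem eta_ne {l l' : List E.Ed} {u u' : E.V} (hS : ∀ g ∈ l, g ∈ S) (hS' : ∀ g ∈ l', g ∈ S)
    (hl : E.IsP l u) (hl' : E.IsP l' u') (h : ¬ (l = l' ∧ u = u')) :
    star (pe l u * qq S u) * (pe l' u' * qq S u') = 0 := by
  induction l generalizing l' with
  | nil =>
    cases l' with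
    | nil =>
      have hu : u ≠ u' := fun he => h ⟨rfl, he⟩
      change star (vx u * qq S u) * (vx u' * qq S u') = 0
      rw [vx_mul_qq, (pj_qq S u).2, ← qq_mul_vx, mul_assoc, ← mul_assoc (vx u), vx_mul_ne hu,
        zero_mul, mul_zero]
    | cons g' l' => exact b3_nil_cons (hS' g' List.mem_cons_self)
  | cons g l ih =>
    cases l' with
    | nil =>
      have h1 : star (pe [] u' * qq S u') * (pe (g :: l) u * qq S u) = 0 :=
        b3_nil_cons (hS g List.mem_cons_self)
      have h2 := congrArg star h1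
      rwa [star_mul, star_star, star_zero] at h2
    | cons g' l' =>
      change star ((ed g * pe l u) * qq S u) * ((ed g' * pe l' u') * qq S u') = 0
      have e1 : star ((ed g * pe l u) * qq S u) * ((ed g' * pe l' u') * qq S u') =
          star (pe l u * qq S u) * ((star (ed g) * ed g') * (pe l' u' * qq S u')) := by
        rw [mul_assoc (ed g), star_mul]
        simp only [mul_assoc]
      rw [e1]
      by_cases hgg : g = g'
      · subst hgg
        rw [star_ed_mul_ed, ← mul_assoc (vx (E.r g)), hl'.1, vx_mul_pe]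
        refine ih (fun x hx => hS x (List.mem_cons_of_mem _ hx))
          (fun x hx => hS' x (List.mem_cons_of_mem _ hx)) hl.2 hl'.2 ?_
        rintro ⟨rfl, rfl⟩
        exact h ⟨rfl, rfl⟩
      · rw [star_ed_mul_ed_ne hgg, zero_mul, mul_zero]

end LPA74
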