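import Pool.Agent.LibLPA74.Cyc

/-!
[LP B4] There are finitely many paths with edges in the finite set `S` (without cycles) ending in
the finite set `W`: by induction on the list, `IsP l u` with edges in `S` gives
`l.length ≤ h (st l u)` (each edge decreases the height `h`), and the starting point is in `W` or
a source of an edge of `S`, so the length is at most `N = sup of h on W ∪ s '' S`; lists over a
finite set of length `≤ N` are finitely many (`List.finite_length_le`, for the subtype `S`).
-/

namespace LPA74

theorem finite_paths {E : Gph} (S : Finset E.Ed) (W : Finset E.V)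
    (h : ∃ h : E.V → ℕ, ∀ g ∈ S, h (E.r g) < h (E.s g)) :
    {x : List E.Ed × E.V | x.2 ∈ W ∧ (∀ g ∈ x.1, g ∈ S) ∧ E.IsP x.1 x.2}.Finite := by
  classical
  obtain ⟨h, hh⟩ := h
  have hlen : ∀ (l : List E.Ed) (u : E.V), (∀ g ∈ l, g ∈ S) → E.IsP l u →
      l.length ≤ h (E.st l u) := by
    intro l u
    induction l with
    | nil => intro _ _; exact Nat.zero_le _
    | cons g l ih =>
      intro hl hp
      obtain ⟨hp1, hp2⟩ := hp
      have h1 := ih (fun x hx => hl x (List.mem_cons_of_mem _ hx)) hp2
      have h2 := hh g (hl g List.mem_cons_self)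
      rw [hp1] at h2
      change l.length + 1 ≤ h (E.s g)
      omega
  have hbd : ∀ (l : List E.Ed) (u : E.V), (∀ g ∈ l, g ∈ S) → E.IsP l u →
      l.length ≤ S.sup (fun g => h (E.s g)) := by
    intro l u hl hp
    have h1 := hlen l u hl hp
    cases l with
    | nil => exact Nat.zero_le _
    | cons g l => exact h1.trans (Finset.le_sup (f := fun g => h (E.s g)) (hl g List.mem_cons_self))
  have hfin : {l : List E.Ed | (∀ g ∈ l, g ∈ S) ∧ l.length ≤ S.sup (fun g => h (E.s g))}.Finite := by
    have h1 : {l : List S | l.length ≤ S.sup (fun g => h (E.s g))}.Finite :=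
      List.finite_length_le S _
    refine (h1.image (List.map Subtype.val)).subset ?_
    rintro l ⟨hl, hlen⟩
    refine ⟨l.attachWith (· ∈ S) hl, ?_, ?_⟩
    · simpa using hlen
    · simp
  refine (hfin.prod W.finite_toSet).subset ?_
  rintro ⟨l, u⟩ ⟨hu, hl, hp⟩
  exact ⟨⟨hl, hbd l u hl hp⟩, hu⟩

end LPA74
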