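import Pool.Agent.LibLPA74.V2
import Pool.Agent.LibLPA74.B2

/-!
[LP B5] `MT S W T` is stable under left multiplication by the generators of `Bs S W T` and
their adjoints, and under `star`.  Check on the spanning elements
`pe l u * d * star (pe l' u)` (`Submodule.span_induction`).
* `vx a`: `vx a * pe l u` is `pe l u` or `0` (`a = st l u` or not).
* `ed g`, `g ∈ S`: `ed g * pe l u = pe (g :: l) u`, a path if `r g = st l u`, `0` otherwise.
* `star (ed g)`: `l = []`: `star (ed g) * vx u * d`, where `d = qq S u`: `0` (`star_ed_mul_qq`,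
  `vx_mul_qq`), `d = xp f n`, `u = s f`: `star (ed g) * vx (s f) = 0` as `s g ≠ s f` (else
  `g = f ∈ D` by `K.hu`, but `g ∉ D`).  `l = h :: l1`: `star (ed g) * ed h * pe l1 u` is `0` or
  `vx (r g) * pe l1 u = pe l1 u`.
* `x f`, `star (x f)`, `f ∈ T`: `l = h :: l1`: `x f * ed h = x f * vx (s f) * ed h = 0`
  (`s h ≠ s f`); `star (x f) = star (x f) * vx (s f)` too.  `l = []`: `x f * vx u * d = 0` unless
  `u = s f`; then `d = qq S u = vx u = xp f 0` (`qq_eq_vx`: no edge of `S` starts at `s f`), or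
  `d = xp f' n` with `s f' = s f`, so `f' = f` (`K.hu`), and `x f * xp f n = xp f (n+1)`.
* `star`: `star d` is `d` or `xp f (-n)`.
-/

namespace LPA74

variable {E : Gph} (K : Cyc E) {S : Finset E.Ed} {W : Finset E.V} {T : Finset E.Ed}

private theorem b5_gen {u : E.V} (hu : u ∈ W) {l l' : List E.Ed} (hl : ∀ g ∈ l, g ∈ S)
    (hl' : ∀ g ∈ l', g ∈ S) (hP : E.IsP l u) (hP' : E.IsP l' u) {d : LA E}
    (hd : d = qq S u ∨ ∃ f ∈ T, u = E.s f ∧ ∃ n : ℤ, d = K.xp f n) :
    pe l u * d * star (pe l' u) ∈ K.MT S W T :=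
  Submodule.subset_span ⟨u, hu, l, l', hl, hl', hP, hP', d, hd, rfl⟩

/-- left multiplication by `z` preserves `MT` if it does so on the generators. -/
private theorem b5_left (z : LA E)
    (h : ∀ u ∈ W, ∀ l l' : List E.Ed, (∀ g ∈ l, g ∈ S) → (∀ g ∈ l', g ∈ S) → E.IsP l u →
      E.IsP l' u → ∀ d : LA E, (d = qq S u ∨ ∃ f ∈ T, u = E.s f ∧ ∃ n : ℤ, d = K.xp f n) →
      z * (pe l u * d * star (pe l' u)) ∈ K.MT S W T) {x : LA E} (hx : x ∈ K.MT S W T) :
    z * x ∈ K.MT S W T := by
  refine Submodule.span_induction (p := fun x _ => z * x ∈ K.MT S W T) ?_ ?_ ?_ ?_ hx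
  · rintro x ⟨u, hu, l, l', hl, hl', hP, hP', d, hd, rfl⟩
    exact h u hu l l' hl hl' hP hP' d hd
  · rw [mul_zero]
    exact Submodule.zero_mem _
  · intro x y _ _ hx hy
    rw [mul_add]
    exact Submodule.add_mem _ hx hy
  · intro c x _ hx
    rw [mul_smul_comm]
    exact Submodule.smul_mem _ _ hx

private theorem b5_vx_mul_d {u : E.V} {d : LA E}
    (hd : d = qq S u ∨ ∃ f ∈ T, u = E.s f ∧ ∃ n : ℤ, d = K.xp f n) : vx u * d = d := by
  rcases hd with rfl | ⟨f, _, rfl, n, rfl⟩
  · exact vx_mul_qq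
  · exact K.vx_mul_xp n

private theorem b5_ne (hS : K.Adm S W) (hT : ∀ f ∈ T, f ∈ K.D ∧ E.s f ∈ W) {f g : E.Ed}
    (hf : f ∈ T) (hg : g ∈ S) : E.s g ≠ E.s f := by
  intro h
  have h1 := K.hu f (hT f hf).1 g h
  exact (hS g hg).1 (h1 ▸ (hT f hf).1)

theorem Cyc.MT_star (hT : ∀ f ∈ T, f ∈ K.D ∧ E.s f ∈ W) {x : LA E}
    (hx : x ∈ K.MT S W T) : star x ∈ K.MT S W T := by
  refine Submodule.span_induction (p := fun x _ => star x ∈ K.MT S W T) ?_ ?_ ?_ ?_ hx
  · rintro x ⟨u, hu, l, l', hl, hl', hP, hP', d, hd, rfl⟩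
    rw [star_mul, star_mul, star_star, ← mul_assoc]
    refine b5_gen K hu hl' hl hP' hP ?_
    rcases hd with rfl | ⟨f, hf, huf, n, rfl⟩
    · exact Or.inl (pj_qq S u).2
    · exact Or.inr ⟨f, hf, huf, -n, K.star_xp (hT f hf).1 n⟩
  · rw [star_zero]
    exact Submodule.zero_mem _
  · intro x y _ _ hx hy
    rw [star_add]
    exact Submodule.add_mem _ hx hy
  · intro c x _ hx
    rw [star_smul]
    exact Submodule.smul_mem _ _ hx

theorem Cyc.MT_vx (a : E.V) {x : LA E} (hx : x ∈ K.MT S W T) : vx a * x ∈ K.MT S W T := by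
  refine b5_left K (vx a) ?_ hx
  intro u hu l l' hl hl' hP hP' d hd
  by_cases ha : a = E.st l u
  · have h1 : vx a * (pe l u * d * star (pe l' u)) = pe l u * d * star (pe l' u) := by
      rw [← mul_assoc, ← mul_assoc, ha, vx_mul_pe]
    rw [h1]
    exact b5_gen K hu hl hl' hP hP' hd
  · have h1 : vx a * (pe l u * d * star (pe l' u)) = 0 := by
      rw [← mul_assoc, ← mul_assoc, vx_mul_pe_ne ha, zero_mul, zero_mul]
    rw [h1]
    exact Submodule.zero_mem _

theorem Cyc.MT_ed (hS : K.Adm S W) (hT : ∀ f ∈ T, f ∈ K.D ∧ E.s f ∈ W) {g : E.Ed} (hg : g ∈ S)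
    {x : LA E} (hx : x ∈ K.MT S W T) :
    ed g * x ∈ K.MT S W T ∧ star (ed g) * x ∈ K.MT S W T := by
  constructor
  · refine b5_left K (ed g) ?_ hx
    intro u hu l l' hl hl' hP hP' d hd
    by_cases hr : E.r g = E.st l u
    · have h1 : ed g * (pe l u * d * star (pe l' u)) = pe (g :: l) u * d * star (pe l' u) := by
        rw [← mul_assoc, ← mul_assoc]
        rfl
      rw [h1]
      refine b5_gen K (l := g :: l) hu ?_ hl' ⟨hr, hP⟩ hP' hd
      intro h hh
      rcases List.mem_cons.mp hh with rfl | hh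
      · exact hg
      · exact hl h hh
    · have h1 : ed g * (pe l u * d * star (pe l' u)) = 0 := by
        rw [← mul_assoc, ← mul_assoc, ed_mul_pe_ne hr, zero_mul, zero_mul]
      rw [h1]
      exact Submodule.zero_mem _
  · refine b5_left K (star (ed g)) ?_ hx
    intro u hu l l' hl hl' hP hP' d hd
    cases l with
    | nil =>
      have h1 : star (ed g) * (pe [] u * d * star (pe l' u)) = 0 := by
        have h2 : (pe [] u : LA E) * d = d := b5_vx_mul_d K hd
        have h3 : star (ed g) * d = 0 := by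
          rcases hd with rfl | ⟨f, hf, rfl, n, rfl⟩
          · exact star_ed_mul_qq hg
          · rw [← K.vx_mul_xp n, ← mul_assoc, star_ed_mul_vx_ne (b5_ne K hS hT hf hg), zero_mul]
        rw [h2, ← mul_assoc, h3, zero_mul]
      rw [h1]
      exact Submodule.zero_mem _
    | cons h l1 =>
      by_cases hgh : g = h
      · subst hgh
        have h1 : star (ed g) * (pe (g :: l1) u * d * star (pe l' u)) =
            pe l1 u * d * star (pe l' u) := by
          change star (ed g) * (ed g * pe l1 u * d * star (pe l' u)) = _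
          rw [← mul_assoc, ← mul_assoc, ← mul_assoc, star_ed_mul_ed, hP.1, vx_mul_pe]
        rw [h1]
        exact b5_gen K hu (fun k hk => hl k (List.mem_cons_of_mem _ hk)) hl' hP.2 hP' hd
      · have h1 : star (ed g) * (pe (h :: l1) u * d * star (pe l' u)) = 0 := by
          change star (ed g) * (ed h * pe l1 u * d * star (pe l' u)) = _
          rw [← mul_assoc, ← mul_assoc, ← mul_assoc, star_ed_mul_ed_ne hgh, zero_mul, zero_mul,
            zero_mul]
        rw [h1]
        exact Submodule.zero_mem _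

theorem Cyc.MT_x (hS : K.Adm S W) (hT : ∀ f ∈ T, f ∈ K.D ∧ E.s f ∈ W) {f : E.Ed} (hf : f ∈ T)
    {x : LA E} (hx : x ∈ K.MT S W T) :
    K.x f * x ∈ K.MT S W T ∧ star (K.x f) * x ∈ K.MT S W T := by
  have hfD : f ∈ K.D := (hT f hf).1
  -- the two cases have the same proof
  have key : ∀ (z : LA E) (m : ℤ), z * vx (E.s f) = z → (∀ n, z * K.xp f n = K.xp f (n + m)) →
      z * x ∈ K.MT S W T := by
    intro z m hz hzn
    refine b5_left K z ?_ hx
    intro u hu l l' hl hl' hP hP' d hd
    cases l with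
    | nil =>
      have h2 : (pe [] u : LA E) * d = d := b5_vx_mul_d K hd
      by_cases huf : u = E.s f
      · obtain ⟨n, hn⟩ : ∃ n, d = K.xp f n := by
          rcases hd with rfl | ⟨f', hf', huf', n, rfl⟩
          · refine ⟨0, ?_⟩
            rw [K.xp_zero, huf]
            exact qq_eq_vx fun g hg => b5_ne K hS hT hf hg
          · have h3 : f' = f := K.hu f hfD f' (huf'.symm.trans huf)
            exact ⟨n, by rw [h3]⟩
        have h1 : z * (pe [] u * d * star (pe l' u)) =
            pe [] u * K.xp f (n + m) * star (pe l' u) := by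
          have h4 : (pe [] u : LA E) * K.xp f (n + m) = K.xp f (n + m) := by
            rw [huf]
            exact K.vx_mul_xp _
          rw [h2, h4, ← mul_assoc, hn, hzn]
        rw [h1]
        exact b5_gen K hu hl hl' hP hP' (Or.inr ⟨f, hf, huf, n + m, rfl⟩)
      · have h1 : z * (pe [] u * d * star (pe l' u)) = 0 := by
          change z * (vx u * d * star (pe l' u)) = 0
          rw [← hz, mul_assoc, ← mul_assoc (vx (E.s f)), ← mul_assoc (vx (E.s f)),
            vx_mul_ne (fun h => huf h.symm), zero_mul, zero_mul, mul_zero]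
        rw [h1]
        exact Submodule.zero_mem _
    | cons h l1 =>
      have h1 : z * (pe (h :: l1) u * d * star (pe l' u)) = 0 := by
        change z * (ed h * pe l1 u * d * star (pe l' u)) = _
        rw [← hz, mul_assoc, ← mul_assoc (vx (E.s f)), ← mul_assoc (vx (E.s f)),
          ← mul_assoc (vx (E.s f)), vx_mul_ed_ne
          (fun h5 => b5_ne K hS hT hf (hl h (List.mem_cons_self ..)) h5.symm), zero_mul, zero_mul,
          zero_mul, mul_zero]
      rw [h1]
      exact Submodule.zero_mem _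
  constructor
  · exact key (K.x f) 1 (K.x_mul_vx f) (fun n => K.x_mul_xp hfD n)
  · refine key (star (K.x f)) (-1) ?_ (fun n => K.star_x_mul_xp hfD n)
    have h1 := congrArg star (K.vx_mul_x f)
    rwa [star_mul, star_vx] at h1

end LPA74
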