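import Pool.Agent.LibLPA74.B5

/-!
[LP B6] `Bs S W T ⊆ MT S W T`.  (a) `vx a ∈ MT` for `a ∈ W`, by strong induction on `h a`
(`h` from `K.hac S`): `vx a = qq S a + ∑_{g ∈ S, s g = a} ed g * vx (r g) * star (ed g)`
(`vx_eq_qq_add`); `qq S a = pe [] a * qq S a * star (pe [] a) ∈ MT`; `r g ∈ W` and
`h (r g) < h a`, so `vx (r g) ∈ MT`, `ed g * vx (r g) ∈ MT`, and
`ed g * vx (r g) * star (ed g) = star (ed g * star (ed g * vx (r g)))`, use `MT_star`, `MT_ed`.
(b) Let `e = ∑_{a ∈ W} vx a ∈ MT`.  `b * e = b` for `b ∈ Bs` (generators and their adjoints are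
fixed by `e` on both sides: `s g, r g ∈ W`, `s f ∈ W`; `adjoin_induction`), `e * b = b`.
(c) The elements `b` with `b * MT ⊆ MT` and `star b * MT ⊆ MT` contain the generators
(`MT_vx`, `MT_ed`, `MT_x`) and are stable under the operations; so `b = b * e ∈ MT`.
-/

namespace LPA74

variable {E : Gph} (K : Cyc E) {S : Finset E.Ed} {W : Finset E.V} {T : Finset E.Ed}

theorem Cyc.sum_mul (hS : K.Adm S W) (hT : ∀ f ∈ T, f ∈ K.D ∧ E.s f ∈ W) {b : LA E}
    (hb : b ∈ K.Bs S W T) : (∑ a ∈ W, vx a) * b = b ∧ b * (∑ a ∈ W, vx a) = b := by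
  have hl : ∀ a ∈ W, (∑ a ∈ W, vx a : LA E) * vx a = vx a := by
    intro a ha
    rw [Finset.sum_mul, Finset.sum_eq_single a]
    · exact vx_mul_self a
    · intro c _ hc
      exact vx_mul_ne hc
    · intro h
      exact absurd ha h
  have hr : ∀ a ∈ W, vx a * (∑ a ∈ W, vx a : LA E) = vx a := by
    intro a ha
    rw [Finset.mul_sum, Finset.sum_eq_single a]
    · exact vx_mul_self a
    · intro c _ hc
      exact vx_mul_ne hc.symm
    · intro h
      exact absurd ha h
  have key : ∀ (z : LA E) (a c : E.V), a ∈ W → c ∈ W → vx a * z = z → z * vx c = z →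
      (∑ a ∈ W, vx a) * z = z ∧ z * (∑ a ∈ W, vx a) = z := by
    intro z a c ha hc h1 h2
    constructor
    · rw [← h1, ← mul_assoc, hl a ha]
    · rw [← h2, mul_assoc, hr c hc]
  refine NonUnitalStarAlgebra.adjoin_induction (R := ℂ)
    (p := fun z (_ : z ∈ K.Bs S W T) => (∑ a ∈ W, vx a) * z = z ∧ z * (∑ a ∈ W, vx a) = z)
    ?_ ?_ ?_ ?_ ?_ ?_ hb
  · rintro z ((⟨a, ha, rfl⟩ | ⟨g, hg, rfl⟩) | ⟨f, hf, rfl⟩)
    · exact ⟨hl a ha, hr a ha⟩
    · exact key _ _ _ (hS g hg).2.1 (hS g hg).2.2 (vx_mul_ed g) (ed_mul_vx g)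
    · exact key _ _ _ (hT f hf).2 (hT f hf).2 (K.vx_mul_x f) (K.x_mul_vx f)
  · intro x y _ _ hx hy
    exact ⟨by rw [mul_add, hx.1, hy.1], by rw [add_mul, hx.2, hy.2]⟩
  · exact ⟨mul_zero _, zero_mul _⟩
  · intro x y _ _ hx hy
    exact ⟨by rw [← mul_assoc, hx.1], by rw [mul_assoc, hy.2]⟩
  · intro c x _ hx
    exact ⟨by rw [mul_smul_comm, hx.1], by rw [smul_mul_assoc, hx.2]⟩
  · intro x _ hx
    have he : star (∑ a ∈ W, vx a : LA E) = ∑ a ∈ W, vx a := by
      rw [star_sum]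
      exact Finset.sum_congr rfl fun a _ => star_vx a
    constructor
    · have h1 := congrArg star hx.2
      rwa [star_mul, he] at h1
    · have h1 := congrArg star hx.1
      rwa [star_mul, he] at h1

theorem Cyc.Bs_le_MT (hS : K.Adm S W) (hT : ∀ f ∈ T, f ∈ K.D ∧ E.s f ∈ W) {b : LA E}
    (hb : b ∈ K.Bs S W T) : b ∈ K.MT S W T := by
  classical
  obtain ⟨h, hh⟩ := K.hac S fun g hg => (hS g hg).1
  have hv : ∀ (n : ℕ) (a : E.V), h a = n → a ∈ W → (vx a : LA E) ∈ K.MT S W T := by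
    intro n
    induction n using Nat.strong_induction_on with
    | _ n ih =>
      intro a hn ha
      rw [vx_eq_qq_add S a]
      refine Submodule.add_mem _ ?_ (Submodule.sum_mem _ fun g hg => ?_)
      · have h1 : (qq S a : LA E) = pe [] a * qq S a * star (pe [] a) := by
          change _ = vx a * qq S a * star (vx a)
          rw [star_vx, vx_mul_qq, qq_mul_vx]
        rw [h1]
        refine Submodule.subset_span ⟨a, ha, [], [], ?_, ?_, trivial, trivial, _, Or.inl rfl, rfl⟩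
        · intro g hg
          simp at hg
        · intro g hg
          simp at hg
      · rw [Finset.mem_filter] at hg
        have h1 : (vx (E.r g) : LA E) ∈ K.MT S W T := by
          refine ih (h (E.r g)) ?_ _ rfl (hS g hg.1).2.2
          have h2 := hh g hg.1
          rw [hg.2, hn] at h2
          exact h2
        have h2 := (K.MT_ed hS hT hg.1 h1).1
        have h3 := K.MT_star hT (K.MT_ed hS hT hg.1 (K.MT_star hT h2)).1
        rwa [star_mul, star_star] at h3
  have he : (∑ a ∈ W, vx a : LA E) ∈ K.MT S W T :=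
    Submodule.sum_mem _ fun a ha => hv _ a rfl ha
  have key : ∀ x ∈ K.MT S W T, b * x ∈ K.MT S W T ∧ star b * x ∈ K.MT S W T := by
    refine NonUnitalStarAlgebra.adjoin_induction (R := ℂ)
      (p := fun z (_ : z ∈ K.Bs S W T) =>
        ∀ x ∈ K.MT S W T, z * x ∈ K.MT S W T ∧ star z * x ∈ K.MT S W T) ?_ ?_ ?_ ?_ ?_ ?_ hb
    · rintro z ((⟨a, ha, rfl⟩ | ⟨g, hg, rfl⟩) | ⟨f, hf, rfl⟩) x hx
      · rw [star_vx]
        exact ⟨K.MT_vx a hx, K.MT_vx a hx⟩
      · exact K.MT_ed hS hT hg hx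
      · exact K.MT_x hS hT hf hx
    · intro y z _ _ hy hz x hx
      rw [add_mul, star_add, add_mul]
      exact ⟨Submodule.add_mem _ (hy x hx).1 (hz x hx).1,
        Submodule.add_mem _ (hy x hx).2 (hz x hx).2⟩
    · intro x _
      rw [star_zero, zero_mul]
      exact ⟨Submodule.zero_mem _, Submodule.zero_mem _⟩
    · intro y z _ _ hy hz x hx
      rw [star_mul, mul_assoc, mul_assoc]
      exact ⟨(hy _ (hz x hx).1).1, (hz _ (hy x hx).2).2⟩
    · intro c z _ hz x hx
      rw [star_smul, smul_mul_assoc, smul_mul_assoc]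
      exact ⟨Submodule.smul_mem _ _ (hz x hx).1, Submodule.smul_mem _ _ (hz x hx).2⟩
    · intro z _ hz x hx
      rw [star_star]
      exact ⟨(hz x hx).2, (hz x hx).1⟩
  have h1 := (key _ he).1
  rwa [(K.sum_mul hS hT hb).2] at h1

end LPA74
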