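import Pool.Agent.LibLPA74.V3
import Pool.Agent.LibLPA74.R1

/-!
[LP V4] Evaluation of Laurent polynomials at the cycle `x f` (`f ∈ D`):
`lm f p = ∑ c_n • xp f n` is a ring homomorphism `ℂ[T;T⁻¹] → (vx (s f)) A (vx (s f))`
(`lm_mul`: bilinear, check on `T m`, `T n` by `xp_add`: `AddMonoidAlgebra.induction_linear` or
`LaurentPolynomial.induction_on`).
`lm_inj`: if `lm f p = 0`, apply the `φ` of `exists_ev z`: `(∑ c_n z^n) • vx (s f) = 0`, and
`vx (s f) ≠ 0`, so `∑ c_n z^n = 0` for all `z` of modulus `1`; multiply by a power of `z` to get a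
polynomial with infinitely many roots, so all `c_n = 0`.
`ev_lm`: `ε = C ∘ eval₂ (RingHom.id ℂ) 1`, i.e. `ε p = C (∑ c_n)`.
-/

namespace LPA74

variable {E : Gph} (K : Cyc E) {f : E.Ed}

private theorem v4_lm (f : E.Ed) (p : LaurentPolynomial ℂ) :
    K.lm f p = Finsupp.linearCombination ℂ (K.xp f) p.coeff := rfl

theorem Cyc.lm_add (p q : LaurentPolynomial ℂ) : K.lm f (p + q) = K.lm f p + K.lm f q := by
  rw [v4_lm, v4_lm, v4_lm, AddMonoidAlgebra.coeff_add, map_add]

theorem Cyc.lm_zero : K.lm f 0 = 0 := by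
  rw [v4_lm, AddMonoidAlgebra.coeff_zero, map_zero]

theorem Cyc.lm_smul (z : ℂ) (p : LaurentPolynomial ℂ) : K.lm f (z • p) = z • K.lm f p := by
  rw [v4_lm, v4_lm, AddMonoidAlgebra.coeff_smul, map_smul]

theorem Cyc.lm_sum {I : Type} (s : Finset I) (p : I → LaurentPolynomial ℂ) :
    K.lm f (∑ i ∈ s, p i) = ∑ i ∈ s, K.lm f (p i) := by
  rw [v4_lm, AddMonoidAlgebra.coeff_sum, map_sum]
  rfl

theorem Cyc.lm_T (n : ℤ) : K.lm f (LaurentPolynomial.T n) = K.xp f n := by
  rw [v4_lm, LaurentPolynomial.T, AddMonoidAlgebra.coeff_single,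
    Finsupp.linearCombination_single, one_smul]

theorem Cyc.lm_one : K.lm f 1 = vx (E.s f) := by
  rw [← LaurentPolynomial.T_zero, K.lm_T, K.xp_zero]

private theorem v4_lm_C_mul_T (n : ℤ) (a : ℂ) :
    K.lm f (LaurentPolynomial.C a * LaurentPolynomial.T n) = a • K.xp f n := by
  rw [← LaurentPolynomial.smul_eq_C_mul, K.lm_smul, K.lm_T]

private theorem v4_lm_C (a : ℂ) : K.lm f (LaurentPolynomial.C a) = a • vx (E.s f) := by
  have h := v4_lm_C_mul_T K (f := f) 0 a
  rwa [LaurentPolynomial.T_zero, mul_one, K.xp_zero] at h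

theorem Cyc.lm_mul (hf : f ∈ K.D) (p q : LaurentPolynomial ℂ) :
    K.lm f (p * q) = K.lm f p * K.lm f q := by
  induction p using LaurentPolynomial.induction_on' with
  | add p p' h1 h2 => rw [add_mul, K.lm_add, h1, h2, K.lm_add, add_mul]
  | C_mul_T n a =>
    induction q using LaurentPolynomial.induction_on' with
    | add q q' h1 h2 => rw [mul_add, K.lm_add, h1, h2, K.lm_add, mul_add]
    | C_mul_T m b =>
      have h1 : LaurentPolynomial.C a * LaurentPolynomial.T n *
          (LaurentPolynomial.C b * LaurentPolynomial.T m) =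
          LaurentPolynomial.C (a * b) * LaurentPolynomial.T (n + m) := by
        rw [map_mul, LaurentPolynomial.T_add]
        ring
      rw [h1, v4_lm_C_mul_T, v4_lm_C_mul_T, v4_lm_C_mul_T, K.xp_add hf, smul_mul_smul_comm]

theorem Cyc.vx_mul_lm (p : LaurentPolynomial ℂ) : vx (E.s f) * K.lm f p = K.lm f p := by
  induction p using LaurentPolynomial.induction_on' with
  | add p p' h1 h2 => rw [K.lm_add, mul_add, h1, h2]
  | C_mul_T n a => rw [v4_lm_C_mul_T, mul_smul_comm, K.vx_mul_xp]

theorem Cyc.lm_mul_vx (p : LaurentPolynomial ℂ) : K.lm f p * vx (E.s f) = K.lm f p := by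
  induction p using LaurentPolynomial.induction_on' with
  | add p p' h1 h2 => rw [K.lm_add, add_mul, h1, h2]
  | C_mul_T n a => rw [v4_lm_C_mul_T, smul_mul_assoc, K.xp_mul_vx]

theorem Cyc.lm_inj [Countable E.Ed] (hf : f ∈ K.D) {p : LaurentPolynomial ℂ}
    (h : K.lm f p = 0) : p = 0 := by
  obtain ⟨n, P, hP⟩ := p.exists_T_pow
  have key : ∀ u : ℂˣ, ‖(u : ℂ)‖ = 1 → P.eval (u : ℂ) = 0 := by
    intro u hu
    obtain ⟨φ, -, h2, h3⟩ := K.exists_ev (u : ℂ) hu
    have h4 : ∀ q : LaurentPolynomial ℂ,
        φ (K.lm f q) = (LaurentPolynomial.eval₂ (RingHom.id ℂ) u q) • vx (E.s f) := by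
      intro q
      induction q using LaurentPolynomial.induction_on' with
      | add p p' h1 h2 => rw [K.lm_add, map_add, h1, h2, map_add, add_smul]
      | C_mul_T m a =>
        rw [v4_lm_C_mul_T, map_smul, K.ev_xp_of hu h2 h3 hf, smul_smul,
          LaurentPolynomial.eval₂_C_mul_T, RingHom.id_apply, Units.val_zpow_eq_zpow_val]
    have h5 := h4 p
    rw [h, map_zero] at h5
    have h6 : LaurentPolynomial.eval₂ (RingHom.id ℂ) u p = 0 := by
      rcases smul_eq_zero.1 h5.symm with h7 | h7
      · exact h7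
      · exact absurd h7 (vx_ne_zero _)
    have h8 := congrArg (LaurentPolynomial.eval₂ (RingHom.id ℂ) u) hP
    rw [LaurentPolynomial.eval₂_toLaurent, map_mul, h6, zero_mul] at h8
    rw [Polynomial.eval₂_id] at h8
    exact h8
  have hP0 : P = 0 := by
    apply Polynomial.eq_zero_of_infinite_isRoot
    have hinf : (Metric.sphere (0 : ℂ) 1).Infinite := by
      have h1 : (Set.range fun t : ℝ => Complex.exp (t * Complex.I)) ⊆
          Metric.sphere (0 : ℂ) 1 := by
        rintro _ ⟨t, rfl⟩
        rw [mem_sphere_zero_iff_norm]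
        exact Complex.norm_exp_ofReal_mul_I t
      refine Set.Infinite.mono (s := (fun t : ℝ => Complex.exp (t * Complex.I)) '' Set.Ioo 0 1)
        ((Set.image_subset_range _ _).trans h1) ?_
      apply Set.Infinite.image
      · intro s hs t ht hst
        have h2 := Complex.exp_eq_exp_iff_exists_int.1 hst
        obtain ⟨m, hm⟩ := h2
        have h3 : (s : ℂ) = t + m * (2 * Real.pi) := by
          have h4 : ((s : ℂ) - (t + m * (2 * Real.pi))) * Complex.I = 0 := by
            linear_combination hm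
          rcases mul_eq_zero.1 h4 with h5 | h5
          · linear_combination h5
          · exact absurd h5 Complex.I_ne_zero
        have h6 : s = t + m * (2 * Real.pi) := by exact_mod_cast h3
        have hm0 : m = 0 := by
          have hs' := hs.1
          have hs2 := hs.2
          have ht' := ht.1
          have ht2 := ht.2
          have hpi := Real.pi_gt_three
          by_contra hne
          rcases lt_or_gt_of_ne hne with h7 | h7
          · have h8 : (m : ℝ) ≤ -1 := by exact_mod_cast Int.le_sub_one_of_lt h7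
            nlinarith
          · have h8 : (1 : ℝ) ≤ m := by exact_mod_cast h7
            nlinarith
        rw [hm0] at h6
        simpa using h6
      · exact Set.Ioo_infinite one_pos
    refine hinf.mono ?_
    intro z hz
    rw [mem_sphere_zero_iff_norm] at hz
    have hz0 : z ≠ 0 := by
      rintro rfl
      rw [norm_zero] at hz
      exact zero_ne_one hz
    exact key (Units.mk0 z hz0) hz
  rw [hP0, map_zero] at hP
  have h9 := congrArg (fun q => q * LaurentPolynomial.T (-(n : ℤ))) hP
  simp only [zero_mul, LaurentPolynomial.mul_T_assoc, add_neg_cancel, LaurentPolynomial.T_zero,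
    mul_one] at h9
  exact h9.symm

theorem Cyc.ev_lm : ∃ ε : LaurentPolynomial ℂ →+* LaurentPolynomial ℂ,
    ∀ f ∈ K.D, ∀ p, K.ev (K.lm f p) = K.lm f (ε p) := by
  refine ⟨(LaurentPolynomial.C).comp (LaurentPolynomial.eval₂ (RingHom.id ℂ) 1), ?_⟩
  intro f hf p
  induction p using LaurentPolynomial.induction_on' with
  | add p p' h1 h2 => rw [K.lm_add, map_add, h1, h2, map_add, K.lm_add]
  | C_mul_T m a =>
    rw [v4_lm_C_mul_T, map_smul, K.ev_xp hf, RingHom.comp_apply,
      LaurentPolynomial.eval₂_C_mul_T, v4_lm_C]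
    simp

end LPA74
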