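import Pool.Agent.LibLPA74.B6
import Pool.Agent.LibLPA74.V4

/-!
[LP B7] Sandwiches.  By `Bs_le_MT` and linearity take `b = pe l w * d * star (pe l' w)`.
`qq S u * pe l w = 0` unless `l = []` (`qq_mul_ed`) and `u = w` (`qq S u = qq S u * vx u`), and
similarly on the right; so `qq S u * b * qq S v = 0` unless `l = l' = []` and `u = w = v`, when it
is `qq S u * d * qq S u`, which is `qq S u` if `d = qq S u`.  If `d = xp f n`, `u = s f`, `f ∈ T`:
`qq S u = vx u` (`qq_eq_vx`) and it is `xp f n = lm f (T n)`; also `vx (s f) = lm f 1`.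
-/

namespace LPA74

variable {E : Gph} (K : Cyc E) {S : Finset E.Ed} {W : Finset E.V} {T : Finset E.Ed}

private theorem b7_left {l : List E.Ed} (hl : ∀ g ∈ l, g ∈ S) {u w : E.V}
    (h : ¬ (l = [] ∧ u = w)) : (qq S u : LA E) * pe l w = 0 := by
  cases l with
  | nil =>
    have huw : u ≠ w := fun h1 => h ⟨rfl, h1⟩
    change qq S u * vx w = 0
    rw [← qq_mul_vx, mul_assoc, vx_mul_ne huw, mul_zero]
  | cons g l1 =>
    change qq S u * (ed g * pe l1 w) = 0
    rw [← mul_assoc, qq_mul_ed (hl g (List.mem_cons_self ..)), zero_mul]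

private theorem b7_right {l : List E.Ed} (hl : ∀ g ∈ l, g ∈ S) {u w : E.V}
    (h : ¬ (l = [] ∧ u = w)) : star (pe l w : LA E) * qq S u = 0 := by
  have h1 := congrArg star (b7_left (S := S) hl h)
  rwa [star_mul, (pj_qq S u).2, star_zero] at h1

/-- a linear condition on sandwiches can be checked on the generators. -/
private theorem b7_ind (hS : K.Adm S W) (hT : ∀ f ∈ T, f ∈ K.D ∧ E.s f ∈ W)
    (u v : E.V) (M : Submodule ℂ (LA E))
    (h : u = v → u ∈ W → ∀ d : LA E, (d = qq S u ∨ ∃ f ∈ T, u = E.s f ∧ ∃ n : ℤ, d = K.xp f n) →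
      qq S u * d * qq S v ∈ M) {b : LA E} (hb : b ∈ K.Bs S W T) : qq S u * b * qq S v ∈ M := by
  have hb' := K.Bs_le_MT hS hT hb
  refine Submodule.span_induction (p := fun x _ => qq S u * x * qq S v ∈ M) ?_ ?_ ?_ ?_ hb'
  · rintro x ⟨w, hw, l, l', hl, hl', hP, hP', d, hd, rfl⟩
    by_cases h1 : l = [] ∧ u = w
    · by_cases h2 : l' = [] ∧ v = w
      · obtain ⟨rfl, rfl⟩ := h1
        obtain ⟨rfl, rfl⟩ := h2
        have h3 : (qq S v : LA E) * (pe [] v * d * star (pe [] v)) * qq S v =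
            qq S v * d * qq S v := by
          change qq S v * (vx v * d * star (vx v)) * qq S v = _
          rw [star_vx]
          calc qq S v * (vx v * d * vx v) * qq S v
              = (qq S v * vx v) * d * (vx v * qq S v) := by simp only [mul_assoc]
            _ = _ := by rw [qq_mul_vx, vx_mul_qq]
        rw [h3]
        exact h rfl hw d hd
      · have h3 : (qq S u : LA E) * (pe l w * d * star (pe l' w)) * qq S v = 0 := by
          calc qq S u * (pe l w * d * star (pe l' w)) * qq S v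
              = qq S u * (pe l w * d) * (star (pe l' w) * qq S v) := by simp only [mul_assoc]
            _ = 0 := by rw [b7_right hl' h2, mul_zero]
        rw [h3]
        exact M.zero_mem
    · have h3 : (qq S u : LA E) * (pe l w * d * star (pe l' w)) * qq S v = 0 := by
        calc qq S u * (pe l w * d * star (pe l' w)) * qq S v
            = (qq S u * pe l w) * (d * star (pe l' w) * qq S v) := by simp only [mul_assoc]
          _ = 0 := by rw [b7_left hl h1, zero_mul]
      rw [h3]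
      exact M.zero_mem
  · rw [mul_zero, zero_mul]
    exact M.zero_mem
  · intro x y _ _ hx hy
    rw [mul_add, add_mul]
    exact M.add_mem hx hy
  · intro c x _ hx
    rw [mul_smul_comm, smul_mul_assoc]
    exact M.smul_mem c hx

theorem Cyc.sand_ne (hS : K.Adm S W) (hT : ∀ f ∈ T, f ∈ K.D ∧ E.s f ∈ W) {b : LA E}
    (hb : b ∈ K.Bs S W T) {u v : E.V} (huv : u ≠ v) : qq S u * b * qq S v = 0 :=
  (Submodule.mem_bot ℂ).mp (b7_ind K hS hT u v ⊥ (fun h => absurd h huv) hb)

theorem Cyc.sand_scalar (hS : K.Adm S W) (hT : ∀ f ∈ T, f ∈ K.D ∧ E.s f ∈ W) {b : LA E}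
    (hb : b ∈ K.Bs S W T) {u : E.V} (hu : ∀ f ∈ T, E.s f ≠ u) :
    ∃ z : ℂ, qq S u * b * qq S u = z • qq S u := by
  have h1 := b7_ind K hS hT u u (Submodule.span ℂ {qq S u}) (fun _ _ d hd => by
    rcases hd with rfl | ⟨f, hf, huf, _⟩
    · rw [(pj_qq S u).1, (pj_qq S u).1]
      exact Submodule.mem_span_singleton_self _
    · exact absurd huf.symm (hu f hf)) hb
  obtain ⟨z, hz⟩ := Submodule.mem_span_singleton.mp h1
  exact ⟨z, hz.symm⟩

theorem Cyc.sand_lm (hS : K.Adm S W) (hT : ∀ f ∈ T, f ∈ K.D ∧ E.s f ∈ W) {b : LA E}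
    (hb : b ∈ K.Bs S W T) {f : E.Ed} (hf : f ∈ T) :
    ∃ p : LaurentPolynomial ℂ, vx (E.s f) * b * vx (E.s f) = K.lm f p := by
  have hfD := (hT f hf).1
  have hq : (qq S (E.s f) : LA E) = vx (E.s f) := by
    refine qq_eq_vx fun g hg h => ?_
    have h1 := K.hu f hfD g h
    exact (hS g hg).1 (h1 ▸ hfD)
  let M : Submodule ℂ (LA E) :=
    { carrier := {x | ∃ p : LaurentPolynomial ℂ, x = K.lm f p}
      zero_mem' := ⟨0, K.lm_zero.symm⟩
      add_mem' := by
        rintro x y ⟨p, rfl⟩ ⟨q, rfl⟩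
        exact ⟨p + q, (K.lm_add p q).symm⟩
      smul_mem' := by
        rintro c x ⟨p, rfl⟩
        exact ⟨c • p, (K.lm_smul c p).symm⟩ }
  have h1 := b7_ind K hS hT (E.s f) (E.s f) M (fun _ _ d hd => by
    rw [hq]
    rcases hd with rfl | ⟨f', hf', huf, n, rfl⟩
    · rw [hq, vx_mul_self, vx_mul_self]
      exact ⟨1, K.lm_one.symm⟩
    · have h2 : f' = f := K.hu f hfD f' huf.symm
      rw [h2, K.vx_mul_xp, K.xp_mul_vx]
      exact ⟨LaurentPolynomial.T n, (K.lm_T n).symm⟩) hb
  rw [hq] at h1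
  exact h1

end LPA74
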