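import Pool.Agent.LibLPA74.B7
import Pool.Agent.LibLPA74.B3
import Pool.Agent.LibLPA74.B4

/-!
[LP B8] `Cs S W` is split by the `qq S u`, `u ∈ W`.  `Cs S W = Bs S W ∅` (`Set.image_empty`).
`q_sand`, `q_orth`, `e_mul`: rows `B7`, `B6` with `T = ∅`.
`res`: index set `ι = {x // x.2 ∈ W ∧ (∀ g ∈ x.1, g ∈ S) ∧ IsP x.1 x.2}` (finite: `finite_paths`),
`η (l, u) = pe l u * qq S u`, `c (l, u) = u`; orthogonality: row `B3`.  For `z = ∑ η η*`:
`z * η_i = η_i * q_{c i} = η_i`; by `Bs_le_MT` with `T = ∅` every `m ∈ Cs` is a combination of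
`pe l u * qq S u * star (pe l' u) = η_i * star η_j`, so `z * m = m`; in particular
`z * e = e` for `e = ∑_{a ∈ W} vx a`; and `e * z = z` (`e * η_i = η_i`), so
`z = star z = star (e * z) = z * e = e`.
-/

namespace LPA74

variable {E : Gph} (K : Cyc E) {S : Finset E.Ed} {W : Finset E.V}

theorem Cyc.Cs_eq_Bs : Cs S W = K.Bs S W ∅ := by
  unfold Cs Cyc.Bs
  rw [Finset.coe_empty, Set.image_empty, Set.union_empty]

theorem Cyc.spl (hS : K.Adm S W) : Spl (Cs S W) (∑ a ∈ W, vx a) W (qq S) := by
  classical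
  have hT : ∀ f ∈ (∅ : Finset E.Ed), f ∈ K.D ∧ E.s f ∈ W := fun f hf => by simp at hf
  have hvx : ∀ u ∈ W, vx u ∈ Cs S W := fun u hu =>
    NonUnitalStarAlgebra.subset_adjoin ℂ _ (Or.inl ⟨u, hu, rfl⟩)
  have hed : ∀ g ∈ S, ed g ∈ Cs S W := fun g hg =>
    NonUnitalStarAlgebra.subset_adjoin ℂ _ (Or.inr ⟨g, hg, rfl⟩)
  have hq : ∀ u ∈ W, qq S u ∈ Cs S W := fun u hu => qq_mem (hvx u hu) hed
  have hfin := finite_paths S W (K.hac S fun g hg => (hS g hg).1)
  let ι : Type := {x : List E.Ed × E.V // x.2 ∈ W ∧ (∀ g ∈ x.1, g ∈ S) ∧ E.IsP x.1 x.2}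
  have hft : Fintype ι := hfin.fintype
  let η : ι → LA E := fun i => pe i.1.1 i.1.2 * qq S i.1.2
  have hη : ∀ i, η i ∈ Cs S W := fun i =>
    mul_mem (pe_mem (fun g hg => hed g (i.2.2.1 g hg)) (hvx _ i.2.1)) (hq _ i.2.1)
  have hηq : ∀ i, η i * qq S i.1.2 = η i := fun i => by
    change pe i.1.1 i.1.2 * qq S i.1.2 * qq S i.1.2 = pe i.1.1 i.1.2 * qq S i.1.2
    rw [mul_assoc, (pj_qq S i.1.2).1]
  have horth : ∀ i j, star (η i) * η j = if i = j then qq S i.1.2 else 0 := by
    intro i j
    by_cases hij : i = j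
    · subst hij
      rw [if_pos rfl]
      exact eta_self i.2.2.2
    · rw [if_neg hij]
      refine eta_ne i.2.2.1 j.2.2.1 i.2.2.2 j.2.2.2 fun h => hij ?_
      exact Subtype.ext (Prod.ext h.1 h.2)
  have hz : ∑ a ∈ W, vx a = ∑ i, η i * star (η i) := by
    set e : LA E := ∑ a ∈ W, vx a with he
    set z : LA E := ∑ i, η i * star (η i) with hz
    have hzη : ∀ i, z * η i = η i := by
      intro i
      rw [hz, Finset.sum_mul]
      have h1 : ∀ j, η j * star (η j) * η i = if j = i then η i else 0 := by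
        intro j
        rw [mul_assoc, horth]
        by_cases hji : j = i
        · subst hji
          rw [if_pos rfl, if_pos rfl, hηq]
        · rw [if_neg hji, if_neg hji, mul_zero]
      refine (Finset.sum_congr rfl fun j _ => h1 j).trans ?_
      exact (Finset.sum_ite_eq' Finset.univ i fun _ => η i).trans (if_pos (Finset.mem_univ i))
    have hzm : ∀ m ∈ Cs S W, z * m = m := by
      intro m hm
      rw [K.Cs_eq_Bs] at hm
      have h1 := K.Bs_le_MT hS hT hm
      unfold Cyc.MT at h1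
      refine Submodule.span_induction (p := fun m _ => z * m = m) ?_ ?_ ?_ ?_ h1
      · rintro x ⟨u, hu, l, l', hl, hl', hp, hp', d, hd, rfl⟩
        have hd' : d = qq S u := by
          rcases hd with hd | ⟨f, hf, -⟩
          · exact hd
          · simp at hf
        subst hd'
        have h2 : pe l u * qq S u * star (pe l' u) =
            η ⟨(l, u), hu, hl, hp⟩ * star (η ⟨(l', u), hu, hl', hp'⟩) := by
          change _ = pe l u * qq S u * star (pe l' u * qq S u)
          rw [star_mul, (pj_qq S u).2, ← mul_assoc, mul_assoc (pe l u) (qq S u) (qq S u),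
            (pj_qq S u).1]
        rw [h2, ← mul_assoc, hzη]
      · exact mul_zero _
      · intro x y _ _ hx hy
        rw [mul_add, hx, hy]
      · intro c x _ hx
        rw [mul_smul_comm, hx]
    have hzmem : z ∈ Cs S W := sum_mem fun i _ => mul_mem (hη i) (star_mem (hη i))
    have hemem : e ∈ Cs S W := sum_mem fun a ha => hvx a ha
    have h3 : z * e = e := hzm e hemem
    have h4 : e * z = z := (K.sum_mul hS hT (by rw [← K.Cs_eq_Bs]; exact hzmem)).1
    have h5 : star z = z := by
      rw [hz, star_sum]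
      refine Finset.sum_congr rfl fun i _ => ?_
      rw [star_mul, star_star]
    have h6 : star e = e := by
      rw [he, star_sum]
      exact Finset.sum_congr rfl fun a _ => star_vx a
    have h7 : z * e = z := by
      have := congrArg star h4
      rw [star_mul, h5, h6] at this
      exact this
    rw [← h3, h7]
  refine ⟨hq, fun u _ => pj_qq S u, ?_, ?_, ?_, ι, hft, inferInstance, η, fun i => i.1.2, ?_,
    horth, hz⟩
  · intro u hu c hc
    rw [K.Cs_eq_Bs] at hc
    exact K.sand_scalar hS hT hc fun f hf => by simp at hf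
  · intro u hu v hv huv c hc
    rw [K.Cs_eq_Bs] at hc
    exact K.sand_ne hS hT hc huv
  · intro c hc
    rw [K.Cs_eq_Bs] at hc
    exact (K.sum_mul hS hT hc).1
  · exact fun i => ⟨i.2.1, hη i, hηq i⟩

end LPA74
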