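import Pool.Agent.LibLPA74.V5
import Pool.Agent.LibLPA74.R1

/-!
[LP T2] `vx (s f)` and `vx (s f')`, `f, f' ∈ D`, are equivalent only if `f = f'`:
`x y = vx (s f)`, `y x = vx (s f')`, so `x = vx (s f) * x * vx (s f')`.  `exhaust` for `{x}`,
`exists_adm` with `W0 ∪ {s f, s f'}`, `S = SN N`: `qq S (s f) = vx (s f)` (`qq_eq_vx`), the same
for `f'`; if `s f ≠ s f'` then `x = 0` by `sand_ne`, so `vx (s f) = 0`, contradiction with
`vx_ne_zero`.  So `s f = s f'` and `f = f'` by `K.hu`.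
-/

namespace LPA74

theorem Cyc.t2 {E : Gph} (K : Cyc E) [Countable E.Ed] {f f' : E.Ed} (hf : f ∈ K.D)
    (hf' : f' ∈ K.D) (h : Eqv (vx (E.s f) : LA E) (vx (E.s f'))) : f = f' := by
  classical
  have hs : E.s f = E.s f' := by
    by_contra hne
    obtain ⟨x, y, hxy, hyx, hxyx, hyxy⟩ := h
    obtain ⟨c, hc⟩ := Countable.exists_injective_nat E.Ed
    obtain ⟨N, W0, T, hT, hmem⟩ := K.exhaust c hc {x}
    obtain ⟨W, hW, hadm⟩ := K.exists_adm c hc N (W0 ∪ {E.s f, E.s f'})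
    have hW0 : W0 ⊆ W := Finset.subset_union_left.trans hW
    have hb := hmem N le_rfl W hW0 x (Finset.mem_singleton_self x)
    have hT' : ∀ g ∈ T, g ∈ K.D ∧ E.s g ∈ W := fun g hg => ⟨(hT g hg).1, hW0 (hT g hg).2⟩
    have hq : ∀ g ∈ K.D, qq (K.SN c hc N) (E.s g) = vx (E.s g) := by
      intro g hg
      refine qq_eq_vx fun g' hg' hss => ?_
      have h1 := K.hu g hg g' hss
      rw [h1] at hg'
      exact (Cyc.mem_SN.1 hg').1 hg
    have h0 := K.sand_ne hadm hT' hb hne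
    rw [hq f hf, hq f' hf'] at h0
    have h1 : vx (E.s f) * x = x := by rw [← hxy, hxyx]
    have h2 : x * vx (E.s f') = x := by rw [← hyx, ← mul_assoc, hxyx]
    rw [h1, h2] at h0
    rw [h0, zero_mul] at hxy
    exact vx_ne_zero (E.s f) hxy.symm
  exact (K.hu f hf f' hs.symm).symm

end LPA74
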