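import Pool.Agent.LibLPA74.B10
import Pool.Agent.LibLPA74.T2
import Pool.Agent.LibLPA74.B2

/-!
[LP BE1] Consequences of `Good K K (RingEquiv.refl _) Θ`.
(a) `qq S a ∈ A0` for `S = SN N` is a projection, `Eqv (qq S a) (Θ (qq S a))`, both in `A0`:
`Cyc.seqv`.
(b) For `f ∈ D`: `f'`, `w` from `h3`; `Eqv (vx (s f)) (Θ (vx (s f)))` (`h2`) and
`Eqv (Θ (vx (s f))) (vx (s f'))` (by `w`, `w*`), so `f' = f` by `Cyc.t2`.
-/

namespace LPA74

variable {E : Gph} {K : Cyc E} [Countable E.Ed] {Θ : LA E →⋆ₙₐ[ℂ] LA E}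

theorem Good.qq_seqv (h : Good K K (RingEquiv.refl _) Θ) (c : E.Ed → ℕ)
    (hc : Function.Injective c) (N : ℕ) (a : E.V) :
    SEqvIn K.A0 (Θ (qq (K.SN c hc N) a)) (qq (K.SN c hc N) a) := by
  have hq : qq (K.SN c hc N) a ∈ K.A0 :=
    qq_mem (K.vx_mem a) fun g hg => K.ed_mem (Cyc.mem_SN.1 hg).1
  have hpj : Pj (qq (K.SN c hc N) a) := pj_qq _ a
  exact K.seqv (h.h1 _ hq) hq (hpj.map Θ) hpj (h.h2 _ hq hpj).symm

theorem Good.x_conj (h : Good K K (RingEquiv.refl _) Θ) {f : E.Ed} (hf : f ∈ K.D) :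
    ∃ w ∈ K.A0, w * star w = Θ (vx (E.s f)) ∧ star w * w = vx (E.s f) ∧ w * star w * w = w ∧
      Θ (K.x f) = w * K.x f * star w := by
  obtain ⟨f', hf', w, hw, h1, h2, h3, h4⟩ := h.h3 f hf
  have hpj : Pj (vx (E.s f) : LA E) := ⟨vx_mul_self _, star_vx _⟩
  have e1 : Eqv (vx (E.s f) : LA E) (Θ (vx (E.s f))) := h.h2 _ (K.vx_mem _) hpj
  have h5 : star w * w * star w = star w := by
    have h6 := congrArg star h3
    rw [star_mul, star_mul, star_star, ← mul_assoc] at h6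
    exact h6
  have e2 : Eqv (Θ (vx (E.s f))) (vx (E.s f')) := ⟨w, star w, h1, h2, h3, h5⟩
  have h6 : f = f' := K.t2 hf hf' (e1.trans e2)
  subst h6
  exact ⟨w, hw, h1, h2, h3, h4⟩

end LPA74
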