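import Mathlib

/-! # Projections, equivalence of idempotents, quasi-unitaries, split subalgebras

Everything takes place in a non-unital complex `*`-algebra `A`. -/

namespace LPA74

section defs
variable {A : Type} [NonUnitalRing A] [StarRing A]

/-- `p` is a projection. -/
def Pj (p : A) : Prop := p * p = p ∧ star p = p

/-- `d` is a quasi-unitary: `1 + d` is a unitary of the unitization. -/
def QU (d : A) : Prop := d + star d + star d * d = 0 ∧ d + star d + d * star d = 0

/-- conjugation by `1 + d`. -/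
def Ad (d x : A) : A := x + d * x + x * star d + d * x * star d

/-- The corner of `p` in `A` is a commutative domain which is not a field (the corner `p A p` is
the set of the elements `p * a * p`). -/
def CorGood (p : A) : Prop :=
  p * p = p ∧ p ≠ 0 ∧
  (∀ a b : A, (p * a * p) * (p * b * p) = (p * b * p) * (p * a * p)) ∧
  (∀ a b : A, (p * a * p) * (p * b * p) = 0 → p * a * p = 0 ∨ p * b * p = 0) ∧
  (∃ a : A, p * a * p ≠ 0 ∧ ∀ b : A, (p * a * p) * (p * b * p) ≠ p)

/-- `A` is directly finite (also called Dedekind finite). -/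
def DF (A : Type) [NonUnitalRing A] : Prop :=
  ∀ e x y : A, e * e = e → e * x = x → x * e = x → e * y = y → y * e = y → x * y = e → y * x = e

variable [Module ℂ A]

/-- `p` and `q` are equivalent by means of elements of `C`: there are `x, y ∈ C` with
`x y = p`, `y x = q`, `x y x = x`, `y x y = y`  (so `p`, `q` are idempotents). -/
def EqvIn (C : NonUnitalStarSubalgebra ℂ A) (p q : A) : Prop :=
  ∃ x ∈ C, ∃ y ∈ C, x * y = p ∧ y * x = q ∧ x * y * x = x ∧ y * x * y = y

/-- `p` and `q` are equivalent idempotents of `A`. -/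
def Eqv (p q : A) : Prop := ∃ x y : A, x * y = p ∧ y * x = q ∧ x * y * x = x ∧ y * x * y = y

/-- `p` and `q` are `*`-equivalent by means of a partial isometry in `C`:
`w w* = p`, `w* w = q`, `w w* w = w`  (so `p`, `q` are projections). -/
def SEqvIn (C : NonUnitalStarSubalgebra ℂ A) (p q : A) : Prop :=
  ∃ w ∈ C, w * star w = p ∧ star w * w = q ∧ w * star w * w = w

/-- `C` is a `*`-subalgebra with unit `e`, split by the projections `q u`, `u ∈ W`:
`q u C q v = δ_{uv} ℂ q u`, and `e = ∑ η_i η_i*` with `η_i ∈ C q (c i)`, `η_i* η_j = δ_ij q (c i)`.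
So `C` is isomorphic to the product of the matrix algebras `M_{n_u}(ℂ)` over the `u ∈ W` with
`q u ≠ 0`, `n_u` being the number of `i` with `c i = u`. -/
structure Spl (C : NonUnitalStarSubalgebra ℂ A) (e : A) {U : Type} (W : Finset U) (q : U → A) :
    Prop where
  q_mem : ∀ u ∈ W, q u ∈ C
  q_pj : ∀ u ∈ W, Pj (q u)
  q_sand : ∀ u ∈ W, ∀ c ∈ C, ∃ z : ℂ, q u * c * q u = z • q u
  q_orth : ∀ u ∈ W, ∀ v ∈ W, u ≠ v → ∀ c ∈ C, q u * c * q v = 0
  e_mul : ∀ c ∈ C, e * c = c
  res : ∃ (ι : Type) (_ : Fintype ι) (_ : DecidableEq ι) (η : ι → A) (c : ι → U),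
    (∀ i, c i ∈ W ∧ η i ∈ C ∧ η i * q (c i) = η i) ∧
    (∀ i j, star (η i) * η j = if i = j then q (c i) else 0) ∧ e = ∑ i, η i * star (η i)

/-- Locally split: every finite subset lies in a split subalgebra. -/
def LSpl (A0 : NonUnitalStarSubalgebra ℂ A) : Prop :=
  ∀ F : Finset A, (∀ x ∈ F, x ∈ A0) → ∃ (C : NonUnitalStarSubalgebra ℂ A) (e : A) (U : Type)
    (W : Finset U) (q : U → A), Spl C e W q ∧ C ≤ A0 ∧ ∀ x ∈ F, x ∈ C

end defs

end LPA74
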