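import Pool.Agent.LibLPA74.Api
import Pool.Agent.LibLPA74.Pj

/-! # The graph theoretic data attached to a graph in which no cycle has an exit -/

namespace LPA74

/-- the starting vertex of a path (list of edges) ending at `u`. -/
def Gph.st (E : Gph) : List E.Ed → E.V → E.V
  | [], u => u
  | g :: _, _ => E.s g

/-- the list of edges is a path ending at `u`. -/
def Gph.IsP (E : Gph) : List E.Ed → E.V → Prop
  | [], _ => True
  | g :: l, u => E.r g = E.st l u ∧ E.IsP l u

/-- there is an edge from `a` to `b`. -/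
def Gph.Step (E : Gph) (a b : E.V) : Prop := ∃ g, E.s g = a ∧ E.r g = b

/-- the product of the edges of a list, times the vertex `u`. -/
noncomputable def pe {E : Gph} : List E.Ed → E.V → LA E
  | [], u => vx u
  | g :: l, u => ed g * pe l u

/-- A set `D` of distinguished edges, one on each cycle: the source of `f ∈ D` emits only `f`,
and `y f` is a path from the range of `f` to the source of `f`, with edges outside `D` whose
sources emit exactly one edge; finite sets of edges outside `D` contain no cycle (there is a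
height function `h`). -/
structure Cyc (E : Gph) where
  D : Set E.Ed
  y : E.Ed → List E.Ed
  hu : ∀ f ∈ D, ∀ g, E.s g = E.s f → g = f
  hy : ∀ f ∈ D, E.IsP (y f) (E.s f) ∧ E.st (y f) (E.s f) = E.r f
  hyn : ∀ f ∈ D, ∀ g ∈ y f, g ∉ D ∧ ∀ g', E.s g' = E.s g → g' = g
  hac : ∀ S : Finset E.Ed, (∀ g ∈ S, g ∉ D) → ∃ h : E.V → ℕ, ∀ g ∈ S, h (E.r g) < h (E.s g)

namespace Cyc
variable {E : Gph} (K : Cyc E)

/-- the `*`-subalgebra generated by the vertices and the edges outside `D`. -/
noncomputable def A0 : NonUnitalStarSubalgebra ℂ (LA E) :=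
  NonUnitalStarAlgebra.adjoin ℂ (Set.range (vx : E.V → LA E) ∪ ed '' {g | g ∉ K.D})

/-- the cycle based at the source of `f ∈ D`. -/
noncomputable def x (f : E.Ed) : LA E := ed f * pe (K.y f) (E.s f)

/-- the powers of the cycle `x f`. -/
noncomputable def xp (f : E.Ed) : ℤ → LA E
  | Int.ofNat n => (fun z => K.x f * z)^[n] (vx (E.s f))
  | Int.negSucc n => (fun z => star (K.x f) * z)^[n + 1] (vx (E.s f))

/-- evaluation of Laurent polynomials at the cycle `x f`. -/
noncomputable def lm (f : E.Ed) (p : LaurentPolynomial ℂ) : LA E :=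
  p.coeff.sum fun n c => c • K.xp f n

/-- The pair `(S, W)` is admissible: the edges in `S` are not in `D` and have their
endpoints in `W`. -/
def Adm (S : Finset E.Ed) (W : Finset E.V) : Prop :=
  ∀ g ∈ S, g ∉ K.D ∧ E.s g ∈ W ∧ E.r g ∈ W

/-- the algebra generated by the vertices in `W`, the edges in `S`, the cycles `x f`, `f ∈ T`. -/
noncomputable def Bs (S : Finset E.Ed) (W : Finset E.V) (T : Finset E.Ed) :
    NonUnitalStarSubalgebra ℂ (LA E) :=
  NonUnitalStarAlgebra.adjoin ℂ (vx '' (W : Set E.V) ∪ ed '' (S : Set E.Ed) ∪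
    K.x '' (T : Set E.Ed))

end Cyc

/-- the algebra generated by the vertices in `W` and the edges in `S`. -/
noncomputable def Cs {E : Gph} (S : Finset E.Ed) (W : Finset E.V) :
    NonUnitalStarSubalgebra ℂ (LA E) :=
  NonUnitalStarAlgebra.adjoin ℂ (vx '' (W : Set E.V) ∪ ed '' (S : Set E.Ed))

open Classical in
/-- `a - ∑ g g*`, sum over the edges `g ∈ S` with source `a`. -/
noncomputable def qq {E : Gph} (S : Finset E.Ed) (a : E.V) : LA E :=
  vx a - ∑ g ∈ S.filter (fun g => E.s g = a), ed g * star (ed g)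

/-- the span of the elements `P d P'*`: `P`, `P'` paths with edges in `S`, with the same end
`u ∈ W`, and `d = qq S u`, or `u` the source of some `f ∈ T` and `d` a power of `x f`. -/
noncomputable def Cyc.MT {E : Gph} (K : Cyc E) (S : Finset E.Ed) (W : Finset E.V)
    (T : Finset E.Ed) : Submodule ℂ (LA E) :=
  Submodule.span ℂ {x | ∃ u ∈ W, ∃ l l' : List E.Ed, (∀ g ∈ l, g ∈ S) ∧ (∀ g ∈ l', g ∈ S) ∧
    E.IsP l u ∧ E.IsP l' u ∧
    ∃ d : LA E, (d = qq S u ∨ ∃ f ∈ T, u = E.s f ∧ ∃ n : ℤ, d = K.xp f n) ∧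
      x = pe l u * d * star (pe l' u)}

open Classical in
/-- the edges outside `D` with code `< N`. -/
noncomputable def Cyc.SN {E : Gph} (K : Cyc E) (c : E.Ed → ℕ) (hc : Function.Injective c)
    (N : ℕ) : Finset E.Ed :=
  (((Set.finite_Iio N).preimage hc.injOn).subset
    (show {g | g ∉ K.D ∧ c g < N} ⊆ c ⁻¹' Set.Iio N from fun _ hg => hg.2)).toFinset

theorem Cyc.mem_SN {E : Gph} {K : Cyc E} {c : E.Ed → ℕ} {hc : Function.Injective c} {N : ℕ}
    {g : E.Ed} : g ∈ K.SN c hc N ↔ g ∉ K.D ∧ c g < N := by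
  unfold Cyc.SN
  rw [Set.Finite.mem_toFinset]
  rfl

/-- `Φ` is a good approximation of the ring isomorphism `θ`. -/
structure Good {E F : Gph} (K : Cyc E) (K' : Cyc F) (θ : LA E ≃+* LA F)
    (Φ : LA E →⋆ₙₐ[ℂ] LA F) : Prop where
  h1 : ∀ a ∈ K.A0, Φ a ∈ K'.A0
  h2 : ∀ p ∈ K.A0, Pj p → Eqv (θ p) (Φ p)
  h3 : ∀ f ∈ K.D, ∃ f' ∈ K'.D, ∃ w ∈ K'.A0, w * star w = Φ (vx (E.s f)) ∧
    star w * w = vx (F.s f') ∧ w * star w * w = w ∧ Φ (K.x f) = w * K'.x f' * star w

end LPA74
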