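import Mathlib

/-!
# Leavitt path algebras over `ℂ` with their involution

A graph is a pair of types `V`, `Ed` with source and range maps.  `LU E` is the unital
`ℂ`-algebra with generators `v`, `e`, `e*` and the defining relations of the Leavitt path algebra,
`star` on it is the conjugate linear anti-automorphism fixing the vertices and exchanging `e` and
`e*`, and `LA E` is the (non-unital) `*`-subalgebra of `LU E` generated by the vertices and the
edges: the Leavitt path algebra of `E` over `ℂ`.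
-/

namespace LPA74

/-- A (directed) graph: vertices, edges, source and range. -/
structure Gph where
  V : Type
  Ed : Type
  s : Ed → V
  r : Ed → V

/-- The generators: vertices, edges and ghost edges. -/
inductive Gen (E : Gph) : Type
  | v : E.V → Gen E
  | e : E.Ed → Gen E
  | g : E.Ed → Gen E

open Gen in
/-- The defining relations of the Leavitt path algebra. -/
inductive Rel (E : Gph) : FreeAlgebra ℂ (Gen E) → FreeAlgebra ℂ (Gen E) → Prop
  | vv (a : E.V) : Rel E (FreeAlgebra.ι ℂ (v a) * FreeAlgebra.ι ℂ (v a)) (FreeAlgebra.ι ℂ (v a))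
  | vw (a b : E.V) (h : a ≠ b) : Rel E (FreeAlgebra.ι ℂ (v a) * FreeAlgebra.ι ℂ (v b)) 0
  | se (f : E.Ed) : Rel E (FreeAlgebra.ι ℂ (v (E.s f)) * FreeAlgebra.ι ℂ (e f))
      (FreeAlgebra.ι ℂ (e f))
  | er (f : E.Ed) : Rel E (FreeAlgebra.ι ℂ (e f) * FreeAlgebra.ι ℂ (v (E.r f)))
      (FreeAlgebra.ι ℂ (e f))
  | rg (f : E.Ed) : Rel E (FreeAlgebra.ι ℂ (v (E.r f)) * FreeAlgebra.ι ℂ (g f))
      (FreeAlgebra.ι ℂ (g f))
  | gs (f : E.Ed) : Rel E (FreeAlgebra.ι ℂ (g f) * FreeAlgebra.ι ℂ (v (E.s f)))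
      (FreeAlgebra.ι ℂ (g f))
  | ck1 (f : E.Ed) : Rel E (FreeAlgebra.ι ℂ (g f) * FreeAlgebra.ι ℂ (e f))
      (FreeAlgebra.ι ℂ (v (E.r f)))
  | ck1' (f f' : E.Ed) (h : f ≠ f') : Rel E (FreeAlgebra.ι ℂ (g f) * FreeAlgebra.ι ℂ (e f')) 0
  | ck2 (a : E.V) (S : Finset E.Ed) (h0 : S.Nonempty) (h : ∀ f, f ∈ S ↔ E.s f = a) :
      Rel E (FreeAlgebra.ι ℂ (v a)) (∑ f ∈ S, FreeAlgebra.ι ℂ (e f) * FreeAlgebra.ι ℂ (g f))

/-- The unital algebra presented by the generators and relations of the Leavitt path algebra. -/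
abbrev LU (E : Gph) : Type := RingQuot (Rel E)

/-- The class of a generator. -/
noncomputable def LU.gen {E : Gph} (x : Gen E) : LU E :=
  RingQuot.mkAlgHom ℂ (Rel E) (FreeAlgebra.ι ℂ x)

/-- The image of a generator under the involution. -/
def Gen.st {E : Gph} : Gen E → Gen E
  | .v a => .v a
  | .e f => .g f
  | .g f => .e f

/-- universal property of `LU E`, existence. -/
theorem LU.lift {E : Gph} {B : Type} [Ring B] [Algebra ℂ B] (φ : Gen E → B)
    (vv : ∀ a, φ (.v a) * φ (.v a) = φ (.v a))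
    (vw : ∀ a b, a ≠ b → φ (.v a) * φ (.v b) = 0)
    (se : ∀ f, φ (.v (E.s f)) * φ (.e f) = φ (.e f))
    (er : ∀ f, φ (.e f) * φ (.v (E.r f)) = φ (.e f))
    (rg : ∀ f, φ (.v (E.r f)) * φ (.g f) = φ (.g f))
    (gs : ∀ f, φ (.g f) * φ (.v (E.s f)) = φ (.g f))
    (ck1 : ∀ f, φ (.g f) * φ (.e f) = φ (.v (E.r f)))
    (ck1' : ∀ f f', f ≠ f' → φ (.g f) * φ (.e f') = 0)
    (ck2 : ∀ (a : E.V) (S : Finset E.Ed), S.Nonempty → (∀ f, f ∈ S ↔ E.s f = a) →
      φ (.v a) = ∑ f ∈ S, φ (.e f) * φ (.g f)) :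
    ∃ ψ : LU E →ₐ[ℂ] B, ∀ x, ψ (LU.gen x) = φ x := by
  refine ⟨RingQuot.liftAlgHom ℂ (s := Rel E) ⟨FreeAlgebra.lift ℂ φ, ?_⟩, ?_⟩
  · intro x y h
    induction h with
    | vv a => simpa using vv a
    | vw a b h => simpa using vw a b h
    | se f => simpa using se f
    | er f => simpa using er f
    | rg f => simpa using rg f
    | gs f => simpa using gs f
    | ck1 f => simpa using ck1 f
    | ck1' f f' h => simpa using ck1' f f' h
    | ck2 a S h0 h => simpa using ck2 a S h0 h
  · intro x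
    have := RingQuot.liftAlgHom_mkAlgHom_apply (S := ℂ) (FreeAlgebra.lift ℂ φ) (s := Rel E)
      (by
        intro x y h
        induction h with
        | vv a => simpa using vv a
        | vw a b h => simpa using vw a b h
        | se f => simpa using se f
        | er f => simpa using er f
        | rg f => simpa using rg f
        | gs f => simpa using gs f
        | ck1 f => simpa using ck1 f
        | ck1' f f' h => simpa using ck1' f f' h
        | ck2 a S h0 h => simpa using ck2 a S h0 h) (FreeAlgebra.ι ℂ x)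
    rw [FreeAlgebra.lift_ι_apply] at this
    exact this

/-- universal property of `LU E`, uniqueness. -/
theorem LU.ext {E : Gph} {B : Type} [Ring B] [Algebra ℂ B] (φ ψ : LU E →ₐ[ℂ] B)
    (h : ∀ x, φ (LU.gen x) = ψ (LU.gen x)) : φ = ψ := by
  refine RingQuot.ringQuot_ext' (S := ℂ) (s := Rel E) φ ψ ?_
  refine FreeAlgebra.hom_ext ?_
  funext x
  exact h x

section rels
variable {E : Gph}

theorem LU.vv (a : E.V) : (LU.gen (.v a) : LU E) * LU.gen (.v a) = LU.gen (.v a) := by
  have := RingQuot.mkAlgHom_rel ℂ (Rel.vv (E := E) a)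
  rw [map_mul] at this
  exact this

theorem LU.vw (a b : E.V) (h : a ≠ b) : (LU.gen (.v a) : LU E) * LU.gen (.v b) = 0 := by
  have := RingQuot.mkAlgHom_rel ℂ (Rel.vw (E := E) a b h)
  rw [map_mul, map_zero] at this
  exact this

theorem LU.se (f : E.Ed) : (LU.gen (.v (E.s f)) : LU E) * LU.gen (.e f) = LU.gen (.e f) := by
  have := RingQuot.mkAlgHom_rel ℂ (Rel.se (E := E) f)
  rw [map_mul] at this
  exact this

theorem LU.er (f : E.Ed) : (LU.gen (.e f) : LU E) * LU.gen (.v (E.r f)) = LU.gen (.e f) := by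
  have := RingQuot.mkAlgHom_rel ℂ (Rel.er (E := E) f)
  rw [map_mul] at this
  exact this

theorem LU.rg (f : E.Ed) : (LU.gen (.v (E.r f)) : LU E) * LU.gen (.g f) = LU.gen (.g f) := by
  have := RingQuot.mkAlgHom_rel ℂ (Rel.rg (E := E) f)
  rw [map_mul] at this
  exact this

theorem LU.gs (f : E.Ed) : (LU.gen (.g f) : LU E) * LU.gen (.v (E.s f)) = LU.gen (.g f) := by
  have := RingQuot.mkAlgHom_rel ℂ (Rel.gs (E := E) f)
  rw [map_mul] at this
  exact this

theorem LU.ck1 (f : E.Ed) : (LU.gen (.g f) : LU E) * LU.gen (.e f) = LU.gen (.v (E.r f)) := by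
  have := RingQuot.mkAlgHom_rel ℂ (Rel.ck1 (E := E) f)
  rw [map_mul] at this
  exact this

theorem LU.ck1' (f f' : E.Ed) (h : f ≠ f') :
    (LU.gen (.g f) : LU E) * LU.gen (.e f') = 0 := by
  have := RingQuot.mkAlgHom_rel ℂ (Rel.ck1' (E := E) f f' h)
  rw [map_mul, map_zero] at this
  exact this

theorem LU.ck2 (a : E.V) (S : Finset E.Ed) (h0 : S.Nonempty) (h : ∀ f, f ∈ S ↔ E.s f = a) :
    (LU.gen (.v a) : LU E) = ∑ f ∈ S, LU.gen (.e f) * LU.gen (.g f) := by
  have := RingQuot.mkAlgHom_rel ℂ (Rel.ck2 (E := E) a S h0 h)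
  rw [map_sum] at this
  simp only [map_mul] at this
  exact this

end rels

/-- The ring homomorphism from the free algebra to the opposite of `LU E` which is conjugate
linear and maps a generator `x` to the class of `x.st`. -/
noncomputable def LU.preStar (E : Gph) : FreeAlgebra ℂ (Gen E) →+* (LU E)ᵐᵒᵖ :=
  letI : Algebra ℂ (LU E)ᵐᵒᵖ := Algebra.compHom (LU E)ᵐᵒᵖ (starRingEnd ℂ)
  (FreeAlgebra.lift ℂ fun x : Gen E => (MulOpposite.op (LU.gen x.st) : (LU E)ᵐᵒᵖ)).toRingHom

theorem LU.preStar_ι {E : Gph} (x : Gen E) :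
    LU.preStar E (FreeAlgebra.ι ℂ x) = MulOpposite.op (LU.gen x.st) := by
  letI : Algebra ℂ (LU E)ᵐᵒᵖ := Algebra.compHom (LU E)ᵐᵒᵖ (starRingEnd ℂ)
  exact FreeAlgebra.lift_ι_apply (R := ℂ) (A := (LU E)ᵐᵒᵖ)
    (fun x : Gen E => MulOpposite.op (LU.gen x.st)) x

theorem LU.preStar_algebraMap {E : Gph} (c : ℂ) :
    LU.preStar E (algebraMap ℂ (FreeAlgebra ℂ (Gen E)) c) =
      algebraMap ℂ (LU E)ᵐᵒᵖ (starRingEnd ℂ c) := by
  letI : Algebra ℂ (LU E)ᵐᵒᵖ := Algebra.compHom (LU E)ᵐᵒᵖ (starRingEnd ℂ)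
  exact AlgHom.commutes (FreeAlgebra.lift ℂ
    (fun x : Gen E => (MulOpposite.op (LU.gen x.st) : (LU E)ᵐᵒᵖ))) c

theorem LU.preStar_rel {E : Gph} ⦃x y : FreeAlgebra ℂ (Gen E)⦄ (h : Rel E x y) :
    LU.preStar E x = LU.preStar E y := by
  induction h with
  | vv a => simpa [LU.preStar_ι, Gen.st] using congrArg MulOpposite.op (LU.vv a)
  | vw a b h => simpa [LU.preStar_ι, Gen.st] using congrArg MulOpposite.op (LU.vw b a h.symm)
  | se f => simpa [LU.preStar_ι, Gen.st] using congrArg MulOpposite.op (LU.gs f)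
  | er f => simpa [LU.preStar_ι, Gen.st] using congrArg MulOpposite.op (LU.rg f)
  | rg f => simpa [LU.preStar_ι, Gen.st] using congrArg MulOpposite.op (LU.er f)
  | gs f => simpa [LU.preStar_ι, Gen.st] using congrArg MulOpposite.op (LU.se f)
  | ck1 f => simpa [LU.preStar_ι, Gen.st] using congrArg MulOpposite.op (LU.ck1 f)
  | ck1' f f' h => simpa [LU.preStar_ι, Gen.st] using congrArg MulOpposite.op (LU.ck1' f' f h.symm)
  | ck2 a S h0 h =>
    have h1 := congrArg (MulOpposite.op) (LU.ck2 a S h0 h)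
    rw [Finset.op_sum] at h1
    simpa [LU.preStar_ι, map_sum, Gen.st] using h1

/-- The involution of `LU E` as a ring homomorphism to the opposite ring. -/
noncomputable def LU.starHom (E : Gph) : LU E →+* (LU E)ᵐᵒᵖ :=
  RingQuot.lift ⟨LU.preStar E, LU.preStar_rel⟩

theorem LU.starHom_mk {E : Gph} (x : FreeAlgebra ℂ (Gen E)) :
    LU.starHom E (RingQuot.mkAlgHom ℂ (Rel E) x) = LU.preStar E x := by
  have h := RingQuot.lift_mkRingHom_apply (LU.preStar E) (r := Rel E) LU.preStar_rel x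
  rw [← RingQuot.mkAlgHom_coe ℂ (Rel E)] at h
  exact h

theorem LU.starHom_gen {E : Gph} (x : Gen E) :
    LU.starHom E (LU.gen x) = MulOpposite.op (LU.gen x.st) := by
  rw [LU.gen, LU.starHom_mk, LU.preStar_ι]

/-- The involution of `LU E`: conjugate linear, antimultiplicative, fixing the vertices and
exchanging `e` and `e*`. -/
noncomputable instance (E : Gph) : Star (LU E) := ⟨fun x => (LU.starHom E x).unop⟩

theorem LU.star_def' {E : Gph} (x : LU E) : star x = (LU.starHom E x).unop := rfl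

theorem LU.star_gen {E : Gph} (x : Gen E) : star (LU.gen x) = LU.gen x.st := by
  rw [LU.star_def', LU.starHom_gen, MulOpposite.unop_op]

theorem LU.star_mul' {E : Gph} (x y : LU E) : star (x * y) = star y * star x := by
  rw [LU.star_def', map_mul, MulOpposite.unop_mul]
  rfl

theorem LU.star_add' {E : Gph} (x y : LU E) : star (x + y) = star x + star y := by
  rw [LU.star_def', map_add, MulOpposite.unop_add]
  rfl

theorem LU.star_algebraMap {E : Gph} (c : ℂ) :
    star (algebraMap ℂ (LU E) c) = algebraMap ℂ (LU E) (starRingEnd ℂ c) := by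
  have h : algebraMap ℂ (LU E) c =
      RingQuot.mkAlgHom ℂ (Rel E) (algebraMap ℂ (FreeAlgebra ℂ (Gen E)) c) :=
    (AlgHom.commutes (RingQuot.mkAlgHom ℂ (Rel E)) c).symm
  rw [LU.star_def', h, LU.starHom_mk, LU.preStar_algebraMap]
  rfl

theorem LU.star_smul' {E : Gph} (c : ℂ) (x : LU E) :
    star (c • x) = (starRingEnd ℂ c) • star x := by
  rw [Algebra.smul_def, LU.star_mul', LU.star_algebraMap, Algebra.smul_def,
    Algebra.commutes]

theorem LU.star_one' {E : Gph} : star (1 : LU E) = 1 := by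
  rw [LU.star_def', map_one, MulOpposite.unop_one]

theorem LU.star_zero' {E : Gph} : star (0 : LU E) = 0 := by
  rw [LU.star_def', map_zero, MulOpposite.unop_zero]

/-- `star ∘ star` as an algebra map. -/
noncomputable def LU.starstar (E : Gph) : LU E →ₐ[ℂ] LU E where
  toFun x := star (star x)
  map_one' := by rw [LU.star_one', LU.star_one']
  map_mul' x y := by rw [LU.star_mul', LU.star_mul']
  map_zero' := by rw [LU.star_zero', LU.star_zero']
  map_add' x y := by rw [LU.star_add', LU.star_add']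
  commutes' c := by
    rw [LU.star_algebraMap, LU.star_algebraMap, Complex.conj_conj]

theorem LU.star_star' {E : Gph} (x : LU E) : star (star x) = x := by
  have h : LU.starstar E = AlgHom.id ℂ (LU E) := by
    refine LU.ext _ _ ?_
    intro x
    change star (star (LU.gen x)) = LU.gen x
    rw [LU.star_gen, LU.star_gen]
    cases x <;> rfl
  exact congrArg (fun φ : LU E →ₐ[ℂ] LU E => φ x) h

noncomputable instance (E : Gph) : StarRing (LU E) where
  star_involutive := LU.star_star'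
  star_mul := LU.star_mul'
  star_add := LU.star_add'

instance (E : Gph) : StarModule ℂ (LU E) where
  star_smul c x := LU.star_smul' c x

/-- The Leavitt path algebra as a `*`-subalgebra of `LU E`. -/
noncomputable def lpa (E : Gph) : NonUnitalStarSubalgebra ℂ (LU E) :=
  NonUnitalStarAlgebra.adjoin ℂ
    (Set.range (fun a : E.V => LU.gen (.v a)) ∪ Set.range (fun f : E.Ed => LU.gen (.e f)))

/-- The Leavitt path algebra of `E` over `ℂ`. -/
def LA (E : Gph) : Type := ↥(lpa E)

noncomputable instance (E : Gph) : NonUnitalRing (LA E) :=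
  NonUnitalStarSubalgebra.toNonUnitalRing (lpa E)

noncomputable instance (E : Gph) : StarRing (LA E) := StarMemClass.instStarRing (lpa E)

noncomputable instance (E : Gph) : Module ℂ (LA E) :=
  NonUnitalStarSubalgebra.instModule (S := lpa E)

instance (E : Gph) : IsScalarTower ℂ (LA E) (LA E) :=
  inferInstanceAs (IsScalarTower ℂ ↥(lpa E) ↥(lpa E))

instance (E : Gph) : SMulCommClass ℂ (LA E) (LA E) :=
  inferInstanceAs (SMulCommClass ℂ ↥(lpa E) ↥(lpa E))

instance (E : Gph) : StarModule ℂ (LA E) := inferInstanceAs (StarModule ℂ ↥(lpa E))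

/-- The vertex `a` in the Leavitt path algebra. -/
noncomputable def vx {E : Gph} (a : E.V) : LA E :=
  ⟨LU.gen (.v a), NonUnitalStarAlgebra.subset_adjoin ℂ _ (Or.inl ⟨a, rfl⟩)⟩

/-- The edge `f` in the Leavitt path algebra. -/
noncomputable def ed {E : Gph} (f : E.Ed) : LA E :=
  ⟨LU.gen (.e f), NonUnitalStarAlgebra.subset_adjoin ℂ _ (Or.inr ⟨f, rfl⟩)⟩

/-- No cycle of `E` has an exit: if `c 0, …, c n` is a cycle (the range of each edge is the source
of the next one, cyclically, and the sources are distinct), then `c i` is the only edge out of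
its source. -/
def Gph.NoExit (E : Gph) : Prop :=
  ∀ (n : ℕ) (c : Fin (n + 1) → E.Ed), (∀ i, E.r (c i) = E.s (c (i + 1))) →
    (Function.Injective fun i => E.s (c i)) → ∀ i f, E.s f = E.s (c i) → f = c i

end LPA74
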