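import Pool.Agent.LibLPA74.Cyc

/-!
[LP G2] Height function on a finite set of edges without cycles:
`h a = Set.ncard {b | TransGen R a b}`, `R a b ↔ ∃ g ∈ S, s g = a ∧ r g = b`; this set is
contained in the finite set `r '' S`.  For `g ∈ S` from `a` to `b`: the set of `b` is contained in
the set of `a`, and `b` is in the latter, not in the former.
-/

namespace LPA74

theorem exists_height {V Ed : Type} (s r : Ed → V) (S : Finset Ed)
    (h : ∀ v, ¬ Relation.TransGen (fun a b => ∃ g ∈ S, s g = a ∧ r g = b) v v) :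
    ∃ h : V → ℕ, ∀ g ∈ S, h (r g) < h (s g) := by
  have hfin : ∀ a, {b | Relation.TransGen (fun a b => ∃ g ∈ S, s g = a ∧ r g = b) a b}.Finite := by
    intro a
    refine (S.finite_toSet.image r).subset ?_
    intro b hb
    have hb' : Relation.TransGen (fun a b => ∃ g ∈ S, s g = a ∧ r g = b) a b := hb
    rcases Relation.TransGen.tail'_iff.1 hb' with ⟨c, _, g, hg, _, h2⟩
    exact ⟨g, hg, h2⟩
  refine ⟨fun a => Set.ncard {b | Relation.TransGen (fun a b => ∃ g ∈ S, s g = a ∧ r g = b) a b},
    fun g hg => ?_⟩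
  have h1 : (fun a b => ∃ g ∈ S, s g = a ∧ r g = b) (s g) (r g) := ⟨g, hg, rfl, rfl⟩
  apply Set.ncard_lt_ncard _ (hfin _)
  constructor
  · intro x hx
    exact Relation.TransGen.head h1 hx
  · intro hsub
    exact h (r g) (hsub (Relation.TransGen.single h1))

end LPA74
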