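import Pool.Agent.LibLPA74.LS

/-!
[LP GS] Gram–Schmidt for a sequence of orthogonal idempotents.
`G N = ∑_{n<N} f n` is an idempotent of `A0`, `G (n+1) = G n + f n`.  Let `R N` be its range
projection (`LSpl.range`; it is unique: if `f p = p, p f = f, f p' = p', p' f = f` then
`p' p = p' f p = f p = p`, so `p = p* = p p'`, and symmetrically `p p' = p'`); `R 0 = 0`.
`R (n+1) R n = R n` (`R n = G n R n = G (n+1) G n R n` and `R (n+1) G (n+1) = G (n+1)`), so also
`R n R (n+1) = R n`.  `P n = R (n+1) - R n`: projections, orthogonal (for `m < n`: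
`R (m+1) R n = R (m+1)` by induction, so `P m P n = 0`), `∑_{n<N} P n = R N` (telescoping).
`EqvIn A0 (P n) (f n)` by `x = P n f n`, `y = f n P n` (use `EqvIn.mk'`):
`P n f n P n = P n`: `P n G (n+1) P n = P n` since `G (n+1) R (n+1) = R (n+1)`, and
`P n G n P n = 0` since `P n G n = P n R n G n = 0`;
`f n P n f n = f n R (n+1) f n - f n R n f n = f n - 0` since `R (n+1) f n = f n`
(`f n = G (n+1) f n`), `f n R n = f n G n R n = 0`.
-/

namespace LPA74

variable {A : Type} [NonUnitalRing A] [StarRing A] [Module ℂ A] [IsScalarTower ℂ A A]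
  [SMulCommClass ℂ A A] [StarModule ℂ A]

variable {A0 : NonUnitalStarSubalgebra ℂ A}

theorem LSpl.gs (h : LSpl A0) (f : ℕ → A) (hf : ∀ n, f n ∈ A0) (hff : ∀ n, f n * f n = f n)
    (ho : ∀ m n, m ≠ n → f m * f n = 0) :
    ∃ P : ℕ → A, (∀ n, P n ∈ A0 ∧ Pj (P n) ∧ EqvIn A0 (P n) (f n)) ∧
      (∀ m n, m ≠ n → P m * P n = 0) ∧
      ∀ N, (∑ n ∈ Finset.range N, f n) * (∑ n ∈ Finset.range N, P n) =
          ∑ n ∈ Finset.range N, P n ∧
        (∑ n ∈ Finset.range N, P n) * (∑ n ∈ Finset.range N, f n) =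
          ∑ n ∈ Finset.range N, f n := by
  classical
  obtain ⟨G, hG⟩ : ∃ G : ℕ → A, ∀ N, G N = ∑ n ∈ Finset.range N, f n := ⟨_, fun _ => rfl⟩
  have hG0 : G 0 = 0 := by rw [hG]; simp
  have hGs : ∀ n, G (n + 1) = G n + f n := fun n => by
    rw [hG, hG, Finset.sum_range_succ]
  have hGA : ∀ n, G n ∈ A0 := fun n => by
    rw [hG]
    exact sum_mem fun i _ => hf i
  have hGf : ∀ N n, N ≤ n → G N * f n = 0 ∧ f n * G N = 0 := by
    intro N n hn
    rw [hG, Finset.sum_mul, Finset.mul_sum]
    constructor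
    · exact Finset.sum_eq_zero fun i hi => ho i n (by
        have := Finset.mem_range.1 hi
        omega)
    · exact Finset.sum_eq_zero fun i hi => ho n i (by
        have := Finset.mem_range.1 hi
        omega)
  have hGG : ∀ n, G n * G n = G n := by
    intro n
    induction n with
    | zero => rw [hG0, mul_zero]
    | succ n ih =>
      rw [hGs, mul_add, add_mul, add_mul, ih, (hGf n n le_rfl).1, (hGf n n le_rfl).2, hff n,
        add_zero, zero_add]
  have hG1 : ∀ n, G (n + 1) * G n = G n := fun n => by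
    rw [hGs, add_mul, hGG, (hGf n n le_rfl).2, add_zero]
  have hGf1 : ∀ n, G (n + 1) * f n = f n := fun n => by
    rw [hGs, add_mul, hff, (hGf n n le_rfl).1, zero_add]
  choose R hRA hRP hGR hRG using fun n => h.range (hGA n) (hGG n)
  have hR0 : R 0 = 0 := by
    rw [← hGR 0, hG0, zero_mul]
  have hRR : ∀ n, R (n + 1) * R n = R n := by
    intro n
    have h1 : G (n + 1) * R n = R n := by
      calc G (n + 1) * R n = G (n + 1) * (G n * R n) := by rw [hGR]
        _ = R n := by rw [← mul_assoc, hG1, hGR]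
    calc R (n + 1) * R n = R (n + 1) * (G (n + 1) * R n) := by rw [h1]
      _ = R n := by rw [← mul_assoc, hRG, h1]
  have hRm : ∀ m k, R (m + k) * R m = R m := by
    intro m k
    induction k with
    | zero => exact (hRP m).1
    | succ k ih =>
      calc R (m + (k + 1)) * R m = R (m + k + 1) * (R (m + k) * R m) := by rw [ih]; rfl
        _ = R m := by rw [← mul_assoc, hRR, ih]
  have hRle : ∀ m n, m ≤ n → R n * R m = R m ∧ R m * R n = R m := by
    intro m n hmn
    obtain ⟨k, rfl⟩ := Nat.exists_eq_add_of_le hmn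
    refine ⟨hRm m k, ?_⟩
    have h1 := congrArg star (hRm m k)
    rwa [star_mul, (hRP m).2, (hRP (m + k)).2] at h1
  have hPP : ∀ n, (R (n + 1) - R n) * (R (n + 1) - R n) = R (n + 1) - R n := by
    intro n
    obtain ⟨h1, h2⟩ := hRle n (n + 1) (Nat.le_succ n)
    rw [mul_sub, sub_mul, sub_mul, h1, h2, (hRP (n + 1)).1, (hRP n).1]
    abel
  have hPs : ∀ n, star (R (n + 1) - R n) = R (n + 1) - R n := fun n => by
    rw [star_sub, (hRP (n + 1)).2, (hRP n).2]
  have hlt : ∀ m n, m < n → (R (m + 1) - R m) * (R (n + 1) - R n) = 0 := by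
    intro m n hmn
    rw [mul_sub, sub_mul, sub_mul, (hRle (m + 1) (n + 1) (by omega)).2,
      (hRle m (n + 1) (by omega)).2, (hRle (m + 1) n (by omega)).2, (hRle m n (by omega)).2]
    abel
  have hfn : ∀ n, f n = G (n + 1) - G n := fun n => by rw [hGs]; abel
  have hPfP : ∀ n, (R (n + 1) - R n) * f n * (R (n + 1) - R n) = R (n + 1) - R n := by
    intro n
    obtain ⟨h1, h2⟩ := hRle n (n + 1) (Nat.le_succ n)
    have h3 : G (n + 1) * (R (n + 1) - R n) = R (n + 1) - R n := by
      have h4 : R (n + 1) * (R (n + 1) - R n) = R (n + 1) - R n := by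
        rw [mul_sub, (hRP (n + 1)).1, h1]
      calc G (n + 1) * (R (n + 1) - R n) = G (n + 1) * (R (n + 1) * (R (n + 1) - R n)) := by
            rw [h4]
        _ = R (n + 1) - R n := by rw [← mul_assoc, hGR, h4]
    have h5 : (R (n + 1) - R n) * G n = 0 := by
      calc (R (n + 1) - R n) * G n = (R (n + 1) - R n) * (R n * G n) := by rw [hRG]
        _ = 0 := by rw [← mul_assoc, sub_mul, h1, (hRP n).1, sub_self, zero_mul]
    calc (R (n + 1) - R n) * f n * (R (n + 1) - R n)
        = (R (n + 1) - R n) * (G (n + 1) * (R (n + 1) - R n))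
          - (R (n + 1) - R n) * G n * (R (n + 1) - R n) := by
          rw [hfn n, mul_sub (R (n + 1) - R n) (G (n + 1)) (G n),
            sub_mul ((R (n + 1) - R n) * G (n + 1)), mul_assoc (R (n + 1) - R n) (G (n + 1))]
      _ = R (n + 1) - R n := by rw [h3, h5, zero_mul, sub_zero, hPP]
  have hfPf : ∀ n, f n * (R (n + 1) - R n) * f n = f n := by
    intro n
    have h1 : R (n + 1) * f n = f n := by
      calc R (n + 1) * f n = R (n + 1) * (G (n + 1) * f n) := by rw [hGf1]
        _ = f n := by rw [← mul_assoc, hRG, hGf1]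
    have h2 : f n * R n = 0 := by
      calc f n * R n = f n * (G n * R n) := by rw [hGR]
        _ = 0 := by rw [← mul_assoc, (hGf n n le_rfl).2, zero_mul]
    rw [mul_sub, h2, sub_zero, mul_assoc, h1, hff]
  have hsum : ∀ N, ∑ n ∈ Finset.range N, (R (n + 1) - R n) = R N := fun N => by
    rw [Finset.sum_range_sub, hR0, sub_zero]
  refine ⟨fun n => R (n + 1) - R n, ?_, ?_, ?_⟩
  · intro n
    have hPA : R (n + 1) - R n ∈ A0 := sub_mem (hRA _) (hRA _)
    refine ⟨hPA, ⟨hPP n, hPs n⟩, (R (n + 1) - R n) * f n, mul_mem hPA (hf n),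
      f n * (R (n + 1) - R n), mul_mem (hf n) hPA, ?_, ?_, ?_, ?_⟩
    · calc (R (n + 1) - R n) * f n * (f n * (R (n + 1) - R n))
          = (R (n + 1) - R n) * (f n * f n) * (R (n + 1) - R n) := by
            simp only [mul_assoc]
        _ = R (n + 1) - R n := by rw [hff, hPfP]
    · calc f n * (R (n + 1) - R n) * ((R (n + 1) - R n) * f n)
          = f n * ((R (n + 1) - R n) * (R (n + 1) - R n)) * f n := by
            simp only [mul_assoc]
        _ = f n := by rw [hPP, hfPf]
    · calc (R (n + 1) - R n) * f n * (f n * (R (n + 1) - R n)) * ((R (n + 1) - R n) * f n)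
          = (R (n + 1) - R n) * (f n * f n) * ((R (n + 1) - R n) * (R (n + 1) - R n)) * f n := by
            simp only [mul_assoc]
        _ = (R (n + 1) - R n) * f n := by rw [hff, hPP, hPfP]
    · calc f n * (R (n + 1) - R n) * ((R (n + 1) - R n) * f n) * (f n * (R (n + 1) - R n))
          = f n * ((R (n + 1) - R n) * (R (n + 1) - R n)) * (f n * f n) * (R (n + 1) - R n) := by
            simp only [mul_assoc]
        _ = f n * (R (n + 1) - R n) := by rw [hff, hPP, hfPf]
  · intro m n hmn
    rcases lt_or_gt_of_ne hmn with h1 | h1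
    · exact hlt m n h1
    · have h2 := congrArg star (hlt n m h1)
      rwa [star_mul, hPs, hPs, star_zero] at h2
  · intro N
    rw [hsum, ← hG]
    exact ⟨hGR N, hRG N⟩

end LPA74
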