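import Pool.Agent.LibLPA74.Pj

/-!
[LP PM] Idempotent matrices over a principal ideal domain.
The range `P` of `G.toLin'` in `ι → R` is a submodule of a free module of finite
rank over a PID, so free of finite rank: basis `b : Fin r → P` (`Submodule.basisOfPid` or
`Module.Free` + `Module.Finite`).  Let `M : Matrix ι (Fin r) R` have columns `b j`, and let
`N : Matrix (Fin r) ι R` be the matrix of `G` with values in its range: `M N = G`; and
`N M = 1` since `G b_j = b_j` (`G` is the identity on its range) and `M` is injective.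
Then `G.map ε = ε(M) ε(N)`, `ε(N) ε(M) = 1`.  Take `M1 = M ε(N)`, `M2 = ε(M) N`:
`M1 M2 = M ε(N) ε(M) N = M N = G`, `M2 M1 = ε(M) N M ε(N) = ε(M) ε(N) = G.map ε`.
-/

namespace LPA74

theorem idem_matrix {R : Type} [CommRing R] [IsDomain R] [IsPrincipalIdealRing R] (ε : R →+* R)
    {ι : Type} [Fintype ι] [DecidableEq ι] (G : Matrix ι ι R) (hG : G * G = G) :
    ∃ M1 M2 : Matrix ι ι R, M1 * M2 = G ∧ M2 * M1 = G.map ε := by
  obtain ⟨n, b⟩ := Submodule.basisOfPid (Pi.basisFun R ι) (LinearMap.range G.mulVecLin)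
  have hmem : ∀ v : ι → R, G.mulVec v ∈ LinearMap.range G.mulVecLin := fun v => ⟨v, rfl⟩
  -- `G` is the identity on its range
  have hid : ∀ v : ι → R, v ∈ LinearMap.range G.mulVecLin → G.mulVec v = v := by
    rintro _ ⟨u, rfl⟩
    rw [Matrix.mulVecLin_apply, Matrix.mulVec_mulVec, hG]
  let M : Matrix ι (Fin n) R := Matrix.of fun i j => (b j : ι → R) i
  let N : Matrix (Fin n) ι R := Matrix.of fun j k =>
    b.repr ⟨G.mulVec (Pi.single k 1), hmem _⟩ j
  have hMN : M * N = G := by
    ext i k
    rw [Matrix.mul_apply]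
    have h1 := b.sum_repr ⟨G.mulVec (Pi.single k 1), hmem _⟩
    have h2 := congrArg (fun v : LinearMap.range G.mulVecLin => (v : ι → R) i) h1
    simp only [Submodule.coe_sum, Submodule.coe_smul, Finset.sum_apply, Pi.smul_apply,
      smul_eq_mul] at h2
    have h3 : G.mulVec (Pi.single k 1) i = G i k := by
      rw [Matrix.mulVec_single_one]
      rfl
    rw [← h3, ← h2]
    refine Finset.sum_congr rfl fun j _ => ?_
    simp only [M, N, Matrix.of_apply]
    rw [mul_comm]
  have hNM : N * M = 1 := by
    ext j k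
    rw [Matrix.mul_apply]
    have h1 : (b k) = ∑ i, (b k : ι → R) i • (⟨G.mulVec (Pi.single i 1), hmem _⟩ :
        LinearMap.range G.mulVecLin) := by
      apply Subtype.ext
      rw [Submodule.coe_sum]
      simp only [Submodule.coe_smul]
      have h2 := hid _ (b k).2
      conv_lhs => rw [← h2]
      have h3 : (b k : ι → R) = ∑ i, (b k : ι → R) i • (Pi.single i 1 : ι → R) := by
        funext i
        simp [Finset.sum_apply, Pi.single_apply]
      conv_lhs => rw [h3]
      rw [Matrix.mulVec_sum]
      refine Finset.sum_congr rfl fun i _ => ?_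
      rw [Matrix.mulVec_smul]
    have h4 : b.repr (b k) j = ∑ i, (b k : ι → R) i *
        b.repr ⟨G.mulVec (Pi.single i 1), hmem _⟩ j := by
      conv_lhs => rw [h1]
      rw [map_sum, Finsupp.finsetSum_apply]
      refine Finset.sum_congr rfl fun i _ => ?_
      rw [map_smul, Finsupp.smul_apply, smul_eq_mul]
    rw [b.repr_self, Finsupp.single_apply] at h4
    rw [Matrix.one_apply]
    have h5 : (if j = k then (1 : R) else 0) = if k = j then 1 else 0 := by
      by_cases h : j = k
      · rw [if_pos h, if_pos h.symm]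
      · rw [if_neg h, if_neg (fun h' => h h'.symm)]
    rw [h5, h4]
    refine Finset.sum_congr rfl fun i _ => ?_
    simp only [M, N, Matrix.of_apply]
    rw [mul_comm]
  refine ⟨M * N.map ε, M.map ε * N, ?_, ?_⟩
  · rw [Matrix.mul_assoc, ← Matrix.mul_assoc (N.map ε), ← Matrix.map_mul, hNM, Matrix.map_one ε
      (map_zero ε) (map_one ε), Matrix.one_mul, hMN]
  · rw [Matrix.mul_assoc, ← Matrix.mul_assoc N, hNM, Matrix.one_mul, ← Matrix.map_mul, hMN]

end LPA74
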