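import Pool.Agent.LibLPA74.EQ
import Pool.Agent.LibLPA74.PM

/-!
[LP P1] (abstract part of the PID row).  Notation: `z t = ∑_i η t i * star (η t i)`; these are
projections with `z t * z s = 0` for `s ≠ t`, `z t * η t i = η t i`.
`G t` is idempotent: `L t ((G t * G t) i j) = ∑_k L (G_ik) L (G_kj) =
∑_k η_i* f η_k η_k* f η_j = η_i* f z_t f η_j = η_i* z_t f f η_j = η_i* f η_j = L t (G t i j)`, and
`L t` is injective.  `idem_matrix ε (G t)` gives `M1`, `M2`.
`X t = ∑_{i,j} η t i * L t (M1 i j) * star (η t j)`, `Y t` the same with `M2`.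
`X t * Y t = ∑ η_i L (G_ik) η_k* = z_t f z_t = z_t f`;
`Y t * X t = ∑ η_i L (ε G_ik) η_k* = φ (z_t f)`.
`f0 = f - ∑_t z_t f`: `f0 z_t = z_t f0 = 0`, `f0 f0 = f0`, `φ f0 = f0`.
`X = f0 + ∑ X t`, `Y = f0 + ∑ Y t`: `X Y = f0 + ∑ z_t f = f`, `Y X = f0 + ∑ φ (z_t f) = φ f`
(`X t Y s = 0` for `s ≠ t`, `f0 X t = 0` as `X t = z_t X t`).  `Eqv.mk'`.
-/

namespace LPA74

variable {A : Type} [NonUnitalRing A] [StarRing A] [Module ℂ A] [IsScalarTower ℂ A A]
  [SMulCommClass ℂ A A] [StarModule ℂ A]

private theorem p1_mul {A I : Type} [NonUnitalRing A] [Fintype I] [DecidableEq I] (w w' : A)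
    (T T' : I → A) (h1 : ∀ g, w' * T g = 0) (h2 : ∀ g, T' g * w = 0)
    (h3 : ∀ g g', g ≠ g' → T' g * T g' = 0) :
    (w' + ∑ g, T' g) * (w + ∑ g, T g) = w' * w + ∑ g, T' g * T g := by
  rw [add_mul, mul_add, mul_add, Finset.mul_sum, Finset.sum_eq_zero fun g _ => h1 g, add_zero,
    Finset.sum_mul, Finset.sum_eq_zero fun g _ => h2 g, zero_add, Finset.sum_mul_sum]
  congr 1
  refine Finset.sum_congr rfl fun g _ => ?_
  refine Finset.sum_eq_single g (fun g' _ hne => h3 g g' hne.symm) ?_
  intro h
  exact absurd (Finset.mem_univ g) h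

/-- the element of the algebra given by a matrix. -/
private noncomputable def p1_E {R : Type} {ι : Type} [Fintype ι] (η : ι → A) (L : R → A)
    (M : Matrix ι ι R) : A := ∑ i, ∑ j, η i * L (M i j) * star (η j)

theorem pid_abstract {R : Type} [CommRing R] [IsDomain R] [IsPrincipalIdealRing R] (ε : R →+* R)
    {T : Type} [Fintype T] [DecidableEq T] (ι : T → Type) [∀ t, Fintype (ι t)]
    [∀ t, DecidableEq (ι t)] (η : ∀ t, ι t → A) (v : T → A) (L : T → R → A)
    (hL1 : ∀ t, L t 1 = v t) (hLa : ∀ t p q, L t (p + q) = L t p + L t q)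
    (hLm : ∀ t p q, L t (p * q) = L t p * L t q) (hLi : ∀ t p, L t p = 0 → p = 0)
    (hη : ∀ t i, η t i * v t = η t i)
    (hη1 : ∀ t i j, star (η t i) * η t j = if i = j then v t else 0)
    (hη2 : ∀ t s i j, t ≠ s → star (η t i) * η s j = 0)
    (f : A) (hf : f * f = f) (G : ∀ t, Matrix (ι t) (ι t) R)
    (hG : ∀ t i j, star (η t i) * f * η t j = L t (G t i j))
    (hz : ∀ t, (∑ i, η t i * star (η t i)) * f = f * ∑ i, η t i * star (η t i))
    (φ : A →⋆ₙₐ[ℂ] A) (hφη : ∀ t i, φ (η t i) = η t i) (hφL : ∀ t p, φ (L t p) = L t (ε p))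
    (hφ : φ (f - ∑ t, (∑ i, η t i * star (η t i)) * f) =
      f - ∑ t, (∑ i, η t i * star (η t i)) * f) :
    Eqv f (φ f) := by
  -- additive hom
  have hL0 : ∀ t, L t 0 = 0 := by
    intro t
    have := hLa t 0 0
    rw [add_zero] at this
    exact (left_eq_add.1 this)
  let La : ∀ t, R →+ A := fun t => { toFun := L t, map_zero' := hL0 t, map_add' := hLa t }
  have hLs : ∀ t {I : Type} (s : Finset I) (p : I → R), L t (∑ k ∈ s, p k) = ∑ k ∈ s, L t (p k) :=
    fun t {I} s p => map_sum (La t) p s
  set z : T → A := fun t => ∑ i, η t i * star (η t i) with hzdef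
  have hz' : ∀ t, z t * f = f * z t := hz
  have zη : ∀ t i, z t * η t i = η t i := by
    intro t i
    rw [hzdef]
    simp only
    rw [Finset.sum_mul, Finset.sum_eq_single i]
    · rw [mul_assoc, hη1, if_pos rfl, hη]
    · intro j _ hj
      rw [mul_assoc, hη1, if_neg hj, mul_zero]
    · intro h
      exact absurd (Finset.mem_univ i) h
  have zη0 : ∀ t s i, t ≠ s → z t * η s i = 0 := by
    intro t s i hts
    rw [hzdef]
    simp only
    rw [Finset.sum_mul]
    refine Finset.sum_eq_zero fun j _ => ?_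
    rw [mul_assoc, hη2 t s j i hts, mul_zero]
  have zstar : ∀ t, star (z t) = z t := by
    intro t
    rw [hzdef]
    simp only
    rw [← starAddEquiv_apply, map_sum]
    refine Finset.sum_congr rfl fun i _ => ?_
    rw [starAddEquiv_apply, star_mul, star_star]
  have ηz : ∀ t i, star (η t i) * z t = star (η t i) := by
    intro t i
    have := congrArg star (zη t i)
    rwa [star_mul, zstar] at this
  have ηz0 : ∀ t s i, t ≠ s → star (η s i) * z t = 0 := by
    intro t s i hts
    have := congrArg star (zη0 t s i hts)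
    rwa [star_mul, zstar, star_zero] at this
  have zz : ∀ t, z t * z t = z t := by
    intro t
    conv_lhs => rw [hzdef]
    simp only
    rw [Finset.mul_sum]
    refine Finset.sum_congr rfl fun i _ => ?_
    rw [← mul_assoc]
    congr 1
    exact zη t i
  have zz0 : ∀ t s, t ≠ s → z t * z s = 0 := by
    intro t s hts
    conv_lhs => rw [hzdef]
    simp only
    rw [Finset.mul_sum]
    refine Finset.sum_eq_zero fun i _ => ?_
    rw [← mul_assoc]
    have := zη0 t s i hts
    rw [hzdef] at this
    simp only at this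
    rw [this, zero_mul]
  -- the matrix units
  let Em : ∀ t, Matrix (ι t) (ι t) R → A := fun t M => p1_E (η t) (L t) M
  have hEm : ∀ t M, Em t M = ∑ i, ∑ j, η t i * L t (M i j) * star (η t j) := fun t M => rfl
  have vL : ∀ t p, v t * L t p = L t p := by
    intro t p
    rw [← hL1, ← hLm, one_mul]
  have Emul : ∀ t M N, Em t M * Em t N = Em t (M * N) := by
    intro t M N
    rw [hEm, hEm, hEm, Finset.sum_mul]
    refine Finset.sum_congr rfl fun i _ => ?_
    rw [Finset.sum_mul]
    have h1 : ∀ j, η t i * L t (M i j) * star (η t j) *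
        (∑ k, ∑ l, η t k * L t (N k l) * star (η t l)) =
        ∑ l, η t i * (L t (M i j) * L t (N j l)) * star (η t l) := by
      intro j
      rw [Finset.mul_sum, Finset.sum_eq_single j]
      · rw [Finset.mul_sum]
        refine Finset.sum_congr rfl fun l _ => ?_
        rw [← mul_assoc, ← mul_assoc, mul_assoc _ (star (η t j)) (η t j), hη1, if_pos rfl,
          mul_assoc _ (v t) (L t (N j l)), vL, mul_assoc (η t i)]
      · intro k _ hk
        rw [Finset.mul_sum]
        refine Finset.sum_eq_zero fun l _ => ?_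
        rw [← mul_assoc, ← mul_assoc, mul_assoc _ (star (η t j)) (η t k), hη1, if_neg hk.symm,
          mul_zero, zero_mul, zero_mul]
      · intro h
        exact absurd (Finset.mem_univ j) h
    rw [Finset.sum_congr rfl fun j _ => h1 j, Finset.sum_comm]
    refine Finset.sum_congr rfl fun l _ => ?_
    rw [Matrix.mul_apply, hLs, Finset.mul_sum, Finset.sum_mul]
    refine Finset.sum_congr rfl fun j _ => ?_
    rw [hLm]
  have Emul0 : ∀ t s M N, t ≠ s → Em t M * Em s N = 0 := by
    intro t s M N hts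
    rw [hEm, hEm, Finset.sum_mul]
    refine Finset.sum_eq_zero fun i _ => ?_
    rw [Finset.sum_mul]
    refine Finset.sum_eq_zero fun j _ => ?_
    rw [Finset.mul_sum]
    refine Finset.sum_eq_zero fun k _ => ?_
    rw [Finset.mul_sum]
    refine Finset.sum_eq_zero fun l _ => ?_
    rw [← mul_assoc, ← mul_assoc, mul_assoc _ (star (η t j)) (η s k), hη2 t s j k hts, mul_zero,
      zero_mul, zero_mul]
  have zE : ∀ t M, z t * Em t M = Em t M := by
    intro t M
    rw [hEm, Finset.mul_sum]
    refine Finset.sum_congr rfl fun i _ => ?_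
    rw [Finset.mul_sum]
    refine Finset.sum_congr rfl fun j _ => ?_
    rw [← mul_assoc, ← mul_assoc, zη]
  have Ez : ∀ t M, Em t M * z t = Em t M := by
    intro t M
    rw [hEm, Finset.sum_mul]
    refine Finset.sum_congr rfl fun i _ => ?_
    rw [Finset.sum_mul]
    refine Finset.sum_congr rfl fun j _ => ?_
    rw [mul_assoc, ηz]
  have EG : ∀ t, Em t (G t) = z t * f := by
    intro t
    have h1 : z t * f = z t * f * z t := by rw [hz', mul_assoc, zz]
    rw [h1, hEm]
    conv_rhs => rw [hzdef]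
    simp only
    rw [Finset.sum_mul, Finset.sum_mul]
    refine Finset.sum_congr rfl fun i _ => ?_
    rw [Finset.mul_sum]
    refine Finset.sum_congr rfl fun j _ => ?_
    rw [← hG]
    simp only [mul_assoc]
  have Ephi : ∀ t M, φ (Em t M) = Em t (M.map ε) := by
    intro t M
    rw [hEm, hEm, map_sum]
    refine Finset.sum_congr rfl fun i _ => ?_
    rw [map_sum]
    refine Finset.sum_congr rfl fun j _ => ?_
    rw [map_mul, map_mul, map_star, hφη, hφη, hφL, Matrix.map_apply]
  -- `G t` is idempotent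
  have hGG : ∀ t, G t * G t = G t := by
    intro t
    ext i j
    rw [← sub_eq_zero]
    apply hLi t
    have h1 : L t ((G t * G t) i j) = L t (G t i j) := by
      rw [Matrix.mul_apply, hLs]
      have h2 : ∀ k, L t (G t i k * G t k j) =
          star (η t i) * f * (η t k * star (η t k)) * (f * η t j) := by
        intro k
        rw [hLm, ← hG, ← hG]
        simp only [mul_assoc]
      rw [Finset.sum_congr rfl fun k _ => h2 k, ← Finset.sum_mul, ← Finset.mul_sum]
      change star (η t i) * f * z t * (f * η t j) = _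
      rw [mul_assoc (star (η t i)) f (z t), ← hz', ← mul_assoc (star (η t i)) (z t) f, ηz,
        ← mul_assoc, mul_assoc (star (η t i)) f f, hf, hG]
    have h3 : L t ((G t * G t) i j - G t i j) + L t (G t i j) = L t ((G t * G t) i j) := by
      rw [← hLa, sub_add_cancel]
    rw [h1] at h3
    exact left_eq_add.1 (by rw [add_comm] at h3; exact h3.symm)
  choose M1 M2 hM1 hM2 using fun t => idem_matrix ε (G t) (hGG t)
  set f0 : A := f - ∑ t, z t * f with hf0
  have hφ' : φ f0 = f0 := hφ
  have f0z : ∀ s, f0 * z s = 0 := by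
    intro s
    rw [hf0, sub_mul, Finset.sum_mul, Finset.sum_eq_single s]
    · rw [hz' s, mul_assoc, zz, sub_self]
    · intro t _ hts
      rw [mul_assoc, ← hz' s, ← mul_assoc, zz0 t s hts, zero_mul]
    · intro h
      exact absurd (Finset.mem_univ s) h
  have zf0 : ∀ s, z s * f0 = 0 := by
    intro s
    rw [hf0, mul_sub, Finset.mul_sum, Finset.sum_eq_single s]
    · rw [← mul_assoc, zz, sub_self]
    · intro t _ hts
      rw [← mul_assoc, zz0 s t hts.symm, zero_mul]
    · intro h
      exact absurd (Finset.mem_univ s) h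
  have f0f : f0 * f = f0 := by
    rw [hf0, sub_mul, hf, Finset.sum_mul]
    congr 1
    refine Finset.sum_congr rfl fun t _ => ?_
    rw [mul_assoc, hf]
  have f0f0 : f0 * f0 = f0 := by
    conv_lhs => rw [hf0, mul_sub, ← hf0, f0f, Finset.mul_sum]
    rw [Finset.sum_eq_zero, sub_zero]
    intro t _
    rw [← mul_assoc, f0z, zero_mul]
  have f0E : ∀ t M, f0 * Em t M = 0 := by
    intro t M
    rw [← zE, ← mul_assoc, f0z, zero_mul]
  have Ef0 : ∀ t M, Em t M * f0 = 0 := by
    intro t M
    rw [← Ez, mul_assoc, zf0, mul_zero]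
  refine Eqv.mk' (x := f0 + ∑ t, Em t (M1 t)) (y := f0 + ∑ t, Em t (M2 t)) ?_ ?_ hf ?_
  · rw [p1_mul _ _ _ _ (fun t => f0E t _) (fun t => Ef0 t _) (fun t s hts => Emul0 t s _ _ hts),
      f0f0]
    have : ∀ t, Em t (M1 t) * Em t (M2 t) = z t * f := by
      intro t
      rw [Emul, hM1, EG]
    rw [Finset.sum_congr rfl fun t _ => this t, hf0, sub_add_cancel]
  · rw [p1_mul _ _ _ _ (fun t => f0E t _) (fun t => Ef0 t _) (fun t s hts => Emul0 t s _ _ hts),
      f0f0]
    have : ∀ t, Em t (M2 t) * Em t (M1 t) = φ (z t * f) := by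
      intro t
      rw [Emul, hM2, ← EG, Ephi]
    rw [Finset.sum_congr rfl fun t _ => this t]
    conv_lhs => rw [← hφ']
    rw [← map_sum, ← map_add, hf0, sub_add_cancel]
  · rw [← map_mul, hf]

end LPA74
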