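import Pool.Agent.LibLPA74.B6
import Pool.Agent.LibLPA74.B3
import Pool.Agent.LibLPA74.B4

/-!
[LP P2] Central projections.  `Z f = ∑ η η*` over the (finitely many) paths `l` with edges in
`S` ending at `s f`, `η_l = pe l (s f)`; note `qq S (s f) = vx (s f)` for `f ∈ D` (`qq_eq_vx`,
no edge of `S` starts at `s f` by `K.hu`), so row `B3` applies to the `η_l = pe l (s f) * qq S (s f)`.
For a spanning element `m = pe l u * d * star (pe l' u)` of `MT`:
`u = s f`: `Z m = m = m Z` (`Z * η_l = η_l`); `u ≠ s f`: `η_k* * pe l u * d = 0` (`d = qq S u * d`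
if `d = qq S u`, or `d = xp f' n` with `u = s f'`, `qq S u = vx u`: row `B3`), so `Z m = 0 = m Z`.
So `Z b = b Z` for `b ∈ Bs`.
`resid`: for a spanning element, `m - ∑_{f ∈ T} Z f * m` is `m - m = 0` if `u = s f` for some
`f ∈ T` (unique by `K.hu`), and otherwise `m` with `d = qq S u`, which is in `A0`.
-/

namespace LPA74

variable {E : Gph} (K : Cyc E) {S : Finset E.Ed} {W : Finset E.V} {T : Finset E.Ed}

/-- the paths with edges in `S` ending at `u`. -/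
def PS (S : Finset E.Ed) (u : E.V) : Set (List E.Ed) := {l | (∀ g ∈ l, g ∈ S) ∧ E.IsP l u}

theorem Cyc.PS_finite (hS : K.Adm S W) (u : E.V) : (PS S u).Finite := by
  classical
  have h1 := finite_paths S {u} (K.hac S fun g hg => (hS g hg).1)
  refine (h1.image Prod.fst).subset ?_
  rintro l ⟨h2, h3⟩
  exact ⟨(l, u), ⟨Finset.mem_singleton_self u, h2, h3⟩, rfl⟩

theorem P2_qq (hS : K.Adm S W) {f : E.Ed} (hf : f ∈ K.D) : (qq S (E.s f) : LA E) = vx (E.s f) := by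
  refine qq_eq_vx fun g hg h => ?_
  have h1 := K.hu f hf g h
  rw [h1] at hg
  exact (hS f hg).1 hf

theorem Cyc.PS_orth (hS : K.Adm S W) {f f' : E.Ed} (hf : f ∈ K.D) (hf' : f' ∈ K.D)
    {l l' : List E.Ed} (hl : l ∈ PS S (E.s f)) (hl' : l' ∈ PS S (E.s f')) :
    (f = f' → l = l' → star (pe l (E.s f)) * pe l' (E.s f') = vx (E.s f)) ∧
    (f = f' → l ≠ l' → star (pe l (E.s f)) * pe l' (E.s f') = 0) ∧
    (f ≠ f' → star (pe l (E.s f)) * pe l' (E.s f') = 0) := by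
  have h1 : pe l (E.s f) * qq S (E.s f) = pe l (E.s f) := by
    rw [P2_qq K hS hf, pe_mul_vx]
  have h2 : pe l' (E.s f') * qq S (E.s f') = pe l' (E.s f') := by
    rw [P2_qq K hS hf', pe_mul_vx]
  have key : ¬ (l = l' ∧ E.s f = E.s f') → star (pe l (E.s f)) * pe l' (E.s f') = 0 := by
    intro h
    have h3 := eta_ne hl.1 hl'.1 hl.2 hl'.2 h
    rwa [h1, h2] at h3
  refine ⟨?_, ?_, ?_⟩
  · rintro rfl rfl
    exact star_pe_mul_pe hl.2
  · rintro rfl h
    exact key fun h3 => h h3.1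
  · intro h
    exact key fun h3 => h (K.hu f' hf' f h3.2)

theorem P2_Z_mul (hS : K.Adm S W) {f : E.Ed} (hf : f ∈ K.D) [Fintype (PS S (E.s f))]
    {l : List E.Ed} (hl : l ∈ PS S (E.s f)) :
    (∑ k : PS S (E.s f), pe k.1 (E.s f) * star (pe k.1 (E.s f))) * pe l (E.s f) =
      pe l (E.s f) := by
  classical
  rw [Finset.sum_mul, Finset.sum_eq_single (⟨l, hl⟩ : PS S (E.s f))]
  · rw [mul_assoc, (K.PS_orth hS hf hf hl hl).1 rfl rfl, pe_mul_vx]
  · intro k _ hk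
    have h1 : k.1 ≠ l := fun h => hk (Subtype.ext h)
    rw [mul_assoc, (K.PS_orth hS hf hf k.2 hl).2.1 rfl h1, mul_zero]
  · intro h
    exact absurd (Finset.mem_univ _) h

theorem P2_Z_star (f : E.Ed) [Fintype (PS S (E.s f))] :
    star (∑ k : PS S (E.s f), pe k.1 (E.s f) * star (pe k.1 (E.s f)) : LA E) =
      ∑ k : PS S (E.s f), pe k.1 (E.s f) * star (pe k.1 (E.s f)) := by
  rw [star_sum]
  refine Finset.sum_congr rfl fun k _ => ?_
  rw [star_mul, star_star]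

theorem P2_star_mul_Z (hS : K.Adm S W) {f : E.Ed} (hf : f ∈ K.D) [Fintype (PS S (E.s f))]
    {l : List E.Ed} (hl : l ∈ PS S (E.s f)) :
    star (pe l (E.s f)) * (∑ k : PS S (E.s f), pe k.1 (E.s f) * star (pe k.1 (E.s f))) =
      star (pe l (E.s f)) := by
  have h1 := congrArg star (P2_Z_mul K hS hf hl)
  rwa [star_mul, P2_Z_star] at h1

/-- `Z f * pe l u * qq S u = 0` for `u ≠ s f`. -/
theorem P2_Z_mul_ne (hS : K.Adm S W) {f : E.Ed} (hf : f ∈ K.D) [Fintype (PS S (E.s f))]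
    {l : List E.Ed} {u : E.V} (hl : ∀ g ∈ l, g ∈ S) (hl' : E.IsP l u) (hu : u ≠ E.s f) :
    (∑ k : PS S (E.s f), pe k.1 (E.s f) * star (pe k.1 (E.s f))) * (pe l u * qq S u) = 0 := by
  rw [Finset.sum_mul]
  refine Finset.sum_eq_zero fun k _ => ?_
  have h1 : pe k.1 (E.s f) * qq S (E.s f) = pe k.1 (E.s f) := by
    rw [P2_qq K hS hf, pe_mul_vx]
  have h2 := eta_ne k.2.1 hl k.2.2 hl' (fun h => hu h.2.symm)
  rw [h1] at h2
  rw [mul_assoc, h2, mul_zero]

/-- the middle factors `d` are fixed by `qq S u`. -/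
theorem P2_d (hS : K.Adm S W) (hT : ∀ f ∈ T, f ∈ K.D ∧ E.s f ∈ W) {u : E.V} {d : LA E}
    (hd : d = qq S u ∨ ∃ f ∈ T, u = E.s f ∧ ∃ n : ℤ, d = K.xp f n) :
    qq S u * d = d ∧ d * qq S u = d := by
  rcases hd with rfl | ⟨f, hf, rfl, n, rfl⟩
  · exact ⟨(pj_qq S u).1, (pj_qq S u).1⟩
  · rw [P2_qq K hS (hT f hf).1]
    exact ⟨K.vx_mul_xp n, K.xp_mul_vx n⟩

theorem P2_Zm (hS : K.Adm S W) (hT : ∀ f ∈ T, f ∈ K.D ∧ E.s f ∈ W) {f : E.Ed} (hf : f ∈ K.D)
    [Fintype (PS S (E.s f))] {u : E.V} {l l' : List E.Ed} {d : LA E}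
    (h1 : ∀ g ∈ l, g ∈ S) (h2 : ∀ g ∈ l', g ∈ S) (h3 : E.IsP l u) (h4 : E.IsP l' u)
    (hd : d = qq S u ∨ ∃ f ∈ T, u = E.s f ∧ ∃ n : ℤ, d = K.xp f n) :
    (u = E.s f → (∑ k : PS S (E.s f), pe k.1 (E.s f) * star (pe k.1 (E.s f))) *
        (pe l u * d * star (pe l' u)) = pe l u * d * star (pe l' u) ∧
      (pe l u * d * star (pe l' u)) * (∑ k : PS S (E.s f), pe k.1 (E.s f) * star (pe k.1 (E.s f)))
        = pe l u * d * star (pe l' u)) ∧
    (u ≠ E.s f → (∑ k : PS S (E.s f), pe k.1 (E.s f) * star (pe k.1 (E.s f))) *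
        (pe l u * d * star (pe l' u)) = 0 ∧
      (pe l u * d * star (pe l' u)) * (∑ k : PS S (E.s f), pe k.1 (E.s f) * star (pe k.1 (E.s f)))
        = 0) := by
  obtain ⟨hd1, hd2⟩ := P2_d K hS hT hd
  constructor
  · rintro rfl
    constructor
    · rw [← mul_assoc, ← mul_assoc, P2_Z_mul K hS hf ⟨h1, h3⟩]
    · rw [mul_assoc, P2_star_mul_Z K hS hf ⟨h2, h4⟩]
  · intro hu
    constructor
    · rw [← hd1, ← mul_assoc (pe l u), mul_assoc (pe l u * qq S u), ← mul_assoc _ (pe l u * qq S u),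
        P2_Z_mul_ne K hS hf h1 h3 hu, zero_mul]
    · have h5 := congrArg star (P2_Z_mul_ne K hS hf h2 h4 hu)
      rw [star_mul, star_mul, P2_Z_star, star_zero, (pj_qq S u).2] at h5
      rw [← hd2, ← mul_assoc (pe l u), mul_assoc _ (qq S u), mul_assoc (pe l u * d), h5, mul_zero]

theorem Cyc.Z_comm (hS : K.Adm S W) (hT : ∀ f ∈ T, f ∈ K.D ∧ E.s f ∈ W) {b : LA E}
    (hb : b ∈ K.Bs S W T) {f : E.Ed} (hf : f ∈ T) [Fintype (PS S (E.s f))] :
    (∑ l : PS S (E.s f), pe l.1 (E.s f) * star (pe l.1 (E.s f))) * b =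
      b * ∑ l : PS S (E.s f), pe l.1 (E.s f) * star (pe l.1 (E.s f)) := by
  have hb' := K.Bs_le_MT hS hT hb
  clear hb
  unfold Cyc.MT at hb'
  induction hb' using Submodule.span_induction with
  | mem x hx =>
    obtain ⟨u, _, l, l', h1, h2, h3, h4, d, hd, rfl⟩ := hx
    have h5 := P2_Zm K hS hT (hT f hf).1 h1 h2 h3 h4 hd
    by_cases hu : u = E.s f
    · rw [(h5.1 hu).1, (h5.1 hu).2]
    · rw [(h5.2 hu).1, (h5.2 hu).2]
  | zero => rw [mul_zero, zero_mul]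
  | add x y _ _ hx hy => rw [mul_add, add_mul, hx, hy]
  | smul c x _ hx => rw [mul_smul_comm, smul_mul_assoc, hx]

theorem Cyc.resid (hS : K.Adm S W) (hT : ∀ f ∈ T, f ∈ K.D ∧ E.s f ∈ W) {b : LA E}
    (hb : b ∈ K.Bs S W T) [∀ u, Fintype (PS S u)] :
    b - ∑ f ∈ T, (∑ l : PS S (E.s f), pe l.1 (E.s f) * star (pe l.1 (E.s f))) * b ∈ K.A0 := by
  have hb' := K.Bs_le_MT hS hT hb
  clear hb
  unfold Cyc.MT at hb'
  induction hb' using Submodule.span_induction with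
  | mem x hx =>
    obtain ⟨u, _, l, l', h1, h2, h3, h4, d, hd, rfl⟩ := hx
    by_cases hu : ∃ f ∈ T, u = E.s f
    · obtain ⟨f, hf, huf⟩ := hu
      rw [Finset.sum_eq_single_of_mem f hf]
      · rw [((P2_Zm K hS hT (hT f hf).1 h1 h2 h3 h4 hd).1 huf).1, sub_self]
        exact zero_mem _
      · intro f' hf' hne
        refine ((P2_Zm K hS hT (hT f' hf').1 h1 h2 h3 h4 hd).2 fun h5 => ?_).1
        exact hne (K.hu f (hT f hf).1 f' (h5.symm.trans huf))
    · rw [Finset.sum_eq_zero, sub_zero]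
      · have hd' : d = qq S u := by
          rcases hd with h5 | ⟨f, hf, h6, _⟩
          · exact h5
          · exact absurd ⟨f, hf, h6⟩ hu
        rw [hd']
        have hmem : ∀ k : List E.Ed, (∀ g ∈ k, g ∈ S) → pe k u ∈ K.A0 := fun k hk =>
          pe_mem (fun g hg => K.ed_mem (hS g (hk g hg)).1) (K.vx_mem u)
        exact mul_mem (mul_mem (hmem l h1) (qq_mem (K.vx_mem u) fun g hg => K.ed_mem (hS g hg).1))
          (star_mem (hmem l' h2))
      · intro f hf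
        exact ((P2_Zm K hS hT (hT f hf).1 h1 h2 h3 h4 hd).2 fun h5 => hu ⟨f, hf, h5⟩).1
  | zero =>
    simp only [mul_zero, Finset.sum_const_zero, sub_zero]
    exact zero_mem _
  | add x y _ _ hx hy =>
    have h1 : x + y - ∑ f ∈ T, (∑ l : PS S (E.s f), pe l.1 (E.s f) * star (pe l.1 (E.s f))) * (x + y)
        = (x - ∑ f ∈ T, (∑ l : PS S (E.s f), pe l.1 (E.s f) * star (pe l.1 (E.s f))) * x) +
          (y - ∑ f ∈ T, (∑ l : PS S (E.s f), pe l.1 (E.s f) * star (pe l.1 (E.s f))) * y) := by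
      simp only [mul_add, Finset.sum_add_distrib]
      abel
    rw [h1]
    exact add_mem hx hy
  | smul c x _ hx =>
    have h1 : c • x - ∑ f ∈ T, (∑ l : PS S (E.s f), pe l.1 (E.s f) * star (pe l.1 (E.s f))) * (c • x)
        = c • (x - ∑ f ∈ T, (∑ l : PS S (E.s f), pe l.1 (E.s f) * star (pe l.1 (E.s f))) * x) := by
      simp only [mul_smul_comm, smul_sub, Finset.smul_sum]
    rw [h1]
    exact SMulMemClass.smul_mem c hx

end LPA74
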