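import Pool.Agent.LibLPA74.P1
import Pool.Agent.LibLPA74.P2
import Pool.Agent.LibLPA74.V5

/-!
[LP P3] Every idempotent `f` of the Leavitt path algebra is equivalent to `ev f`.
Code the edges; `exhaust` for `{f}`, `exists_adm`: `f ∈ Bs S W T` with `(S, W)` admissible.
Apply `pid_abstract` with index type `T` (subtype of the finset), `ι t = PS S (s t)`,
`η t l = pe l (s t)`, `v t = vx (s t)`, `L t = K.lm t`, `ε` from `ev_lm`, `φ = K.ev`.
`G t i j`: `η_i* f η_j = vx (s t) * (η_i* f η_j) * vx (s t) = lm t _` by `corner_lm`.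
`φ η = η` as `η ∈ A0`; `hz`: `Z_comm`; `hφ`: `resid` and `ev_of_mem`; `hη1`, `hη2`: `PS_orth`.
(`∑ t : T` over the subtype versus `∑ f ∈ T`: `Finset.sum_coe_sort`.)
-/

namespace LPA74

theorem Cyc.pid {E : Gph} (K : Cyc E) [Countable E.Ed] {f : LA E} (hf : f * f = f) :
    Eqv f (K.ev f) := by
  classical
  obtain ⟨c, hc⟩ := exists_injective_nat E.Ed
  obtain ⟨N0, W0, T, hT, hex⟩ := K.exhaust c hc {f}
  obtain ⟨W, hW0, hS⟩ := K.exists_adm c hc N0 W0
  have hT' : ∀ g ∈ T, g ∈ K.D ∧ E.s g ∈ W := fun g hg => ⟨(hT g hg).1, hW0 (hT g hg).2⟩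
  have hfB := hex N0 le_rfl W hW0 f (Finset.mem_singleton_self f)
  obtain ⟨S, hSd⟩ : ∃ S, S = K.SN c hc N0 := ⟨_, rfl⟩
  rw [← hSd] at hS hfB
  have hFin : ∀ u, Fintype (PS S u) := fun u => (K.PS_finite hS u).fintype
  have := laurent_domain
  have := laurent_pid
  obtain ⟨ε, hε⟩ := K.ev_lm
  have hvs : ∀ (l : List E.Ed) (u : E.V), vx u * star (pe l u) = star (pe l u) := by
    intro l u
    have h1 := congrArg star (pe_mul_vx l u)
    rw [star_mul, star_vx] at h1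
    exact h1
  have hG : ∀ (t : {g // g ∈ T}) (i j : PS S (E.s t.1)), ∃ p : LaurentPolynomial ℂ,
      star (pe i.1 (E.s t.1)) * f * pe j.1 (E.s t.1) = K.lm t.1 p := by
    intro t i j
    obtain ⟨p, hp⟩ := K.corner_lm (hT t.1 t.2).1 (star (pe i.1 (E.s t.1)) * f * pe j.1 (E.s t.1))
    refine ⟨p, ?_⟩
    rw [← hp]
    have h1 : vx (E.s t.1) * (star (pe i.1 (E.s t.1)) * f * pe j.1 (E.s t.1)) * vx (E.s t.1) =
        (vx (E.s t.1) * star (pe i.1 (E.s t.1))) * f * (pe j.1 (E.s t.1) * vx (E.s t.1)) := by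
      simp only [mul_assoc]
    rw [h1, hvs, pe_mul_vx]
  choose G hG using hG
  refine pid_abstract ε (T := {g // g ∈ T}) (fun t => PS S (E.s t.1))
    (fun t l => pe l.1 (E.s t.1)) (fun t => vx (E.s t.1)) (fun t => K.lm t.1)
    (fun t => K.lm_one) (fun t p q => K.lm_add p q)
    (fun t p q => K.lm_mul (hT t.1 t.2).1 p q) (fun t p h => K.lm_inj (hT t.1 t.2).1 h)
    (fun t i => pe_mul_vx _ _) ?_ ?_ f hf (fun t => Matrix.of (fun i j => G t i j))
    (fun t i j => hG t i j) (fun t => K.Z_comm hS hT' hfB t.2) K.ev ?_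
    (fun t p => hε t.1 (hT t.1 t.2).1 p) ?_
  · intro t i j
    have h1 := K.PS_orth hS (hT t.1 t.2).1 (hT t.1 t.2).1 i.2 j.2
    by_cases hij : i = j
    · subst hij
      rw [if_pos rfl]
      exact h1.1 rfl rfl
    · rw [if_neg hij]
      exact h1.2.1 rfl fun h => hij (Subtype.ext h)
  · intro t s i j hts
    have h1 := K.PS_orth hS (hT t.1 t.2).1 (hT s.1 s.2).1 i.2 j.2
    exact h1.2.2 fun h => hts (Subtype.ext h)
  · intro t i
    refine K.ev_of_mem (pe_mem (fun g hg => ?_) (K.vx_mem _))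
    exact K.ed_mem (hS g (i.2.1 g hg)).1
  · refine K.ev_of_mem ?_
    have h1 := K.resid hS hT' hfB
    rw [← Finset.sum_coe_sort T (fun g => (∑ l : PS S (E.s g), pe l.1 (E.s g) *
      star (pe l.1 (E.s g))) * f)] at h1
    exact h1

end LPA74
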