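import Pool.Agent.LibLPA74.SEQ

/-!
[LP S1] First consequences of `Spl C e W q`.  `e = ∑ η_i η_i* ∈ C`, `star e = e`,
`c e = (e c*)* = c`; `e e = e` as `e ∈ C`.
`expand`: `c = e c e = ∑_{i,j} η_i (η_i* c η_j) η_j*`, and
`η_i* c η_j = q (c i) η_i* c η_j q (c j)` is `0` if `c i ≠ c j` (q_orth with the element
`η_i* c η_j ∈ C`) and a multiple of `q (c i)` if `c i = c j` (q_sand); `η_i q (c i) = η_i`.
`span`: so `C` is the span of the finite set of the `η_i η_j*` with `c i = c j`.
-/

namespace LPA74

variable {A : Type} [NonUnitalRing A] [StarRing A] [Module ℂ A] [IsScalarTower ℂ A A]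
  [SMulCommClass ℂ A A] [StarModule ℂ A]

variable {C : NonUnitalStarSubalgebra ℂ A} {e : A} {U : Type} {W : Finset U} {q : U → A}

theorem Spl.e_mem (h : Spl C e W q) : e ∈ C := by
  obtain ⟨ι, _, _, η, c, hη, hst, he⟩ := h.res
  rw [he]
  exact sum_mem fun i _ => mul_mem (hη i).2.1 (star_mem (hη i).2.1)

theorem Spl.star_e (h : Spl C e W q) : star e = e := by
  obtain ⟨ι, _, _, η, c, hη, hst, he⟩ := h.res
  rw [he, star_sum]
  refine Finset.sum_congr rfl fun i _ => ?_
  rw [star_mul, star_star]

theorem Spl.e_idem (h : Spl C e W q) : e * e = e := h.e_mul e h.e_mem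

theorem Spl.mul_e (h : Spl C e W q) {c : A} (hc : c ∈ C) : c * e = c := by
  have h1 : star (c * e) = star c := by
    rw [star_mul, h.star_e]
    exact h.e_mul _ (star_mem hc)
  have h2 := congrArg star h1
  rw [star_star, star_star] at h2
  exact h2

/-- there are finitely many elements of `C` spanning `C`. -/
theorem Spl.span (h : Spl C e W q) : ∃ s : Finset A, (∀ x ∈ s, x ∈ C) ∧
    ∀ c ∈ C, c ∈ Submodule.span ℂ (s : Set A) := by
  classical
  obtain ⟨ι, _, _, η, c, hη, hst, he⟩ := h.res
  refine ⟨(Finset.univ : Finset (ι × ι)).image (fun p => η p.1 * star (η p.2)), ?_, ?_⟩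
  · intro x hx
    obtain ⟨p, -, rfl⟩ := Finset.mem_image.1 hx
    exact mul_mem (hη p.1).2.1 (star_mem (hη p.2).2.1)
  · intro x hx
    have hsq : ∀ i, q (c i) * star (η i) = star (η i) := by
      intro i
      have h1 := congrArg star (hη i).2.2
      rw [star_mul, (h.q_pj _ (hη i).1).2] at h1
      exact h1
    have key : ∀ i j, ∃ z : ℂ, η i * (star (η i) * x * η j) * star (η j) =
        z • (η i * star (η j)) := by
      intro i j
      obtain ⟨m, hm⟩ : ∃ m : A, m = star (η i) * x * η j := ⟨_, rfl⟩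
      have hmC : m ∈ C := by
        rw [hm]
        exact mul_mem (mul_mem (star_mem (hη i).2.1) hx) (hη j).2.1
      have hmq : q (c i) * m * q (c j) = m := by
        have h1 : q (c i) * m * q (c j) = (q (c i) * star (η i)) * x * (η j * q (c j)) := by
          rw [hm]
          simp only [mul_assoc]
        rw [h1, hsq, (hη j).2.2, hm]
      rw [← hm]
      by_cases hcc : c i = c j
      · obtain ⟨z, hz⟩ := h.q_sand (c i) (hη i).1 m hmC
        refine ⟨z, ?_⟩
        rw [← hcc, hz] at hmq
        rw [← hmq, mul_smul_comm, (hη i).2.2, smul_mul_assoc]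
      · refine ⟨0, ?_⟩
        rw [h.q_orth (c i) (hη i).1 (c j) (hη j).1 hcc m hmC] at hmq
        rw [← hmq, mul_zero, zero_mul, zero_smul]
    have hexp : x = ∑ i, ∑ j, η i * (star (η i) * x * η j) * star (η j) := by
      have h1 : x = e * x * e := by
        rw [h.e_mul x hx, h.mul_e hx]
      conv_lhs => rw [h1, he]
      rw [Finset.sum_mul, Finset.sum_mul]
      refine Finset.sum_congr rfl fun i _ => ?_
      rw [Finset.mul_sum]
      refine Finset.sum_congr rfl fun j _ => ?_
      simp only [mul_assoc]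
    rw [hexp]
    refine Submodule.sum_mem _ fun i _ => Submodule.sum_mem _ fun j _ => ?_
    obtain ⟨z, hz⟩ := key i j
    rw [hz]
    refine Submodule.smul_mem _ _ (Submodule.subset_span ?_)
    rw [Finset.mem_coe]
    exact Finset.mem_image.2 ⟨(i, j), Finset.mem_univ _, rfl⟩

theorem Spl.fd (h : Spl C e W q) : FiniteDimensional ℂ C := by
  obtain ⟨s, -, hs⟩ := h.span
  have hfin : FiniteDimensional ℂ (Submodule.span ℂ (s : Set A)) :=
    FiniteDimensional.span_finset ℂ s
  let f : C →ₗ[ℂ] Submodule.span ℂ (s : Set A) :=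
    { toFun := fun x => ⟨x.1, hs x.1 x.2⟩
      map_add' := fun _ _ => rfl
      map_smul' := fun _ _ => rfl }
  have hf : Function.Injective f := by
    intro x y hxy
    have h1 := congrArg (fun z : Submodule.span ℂ (s : Set A) => (z : A)) hxy
    exact Subtype.ext h1
  exact FiniteDimensional.of_injective f hf

end LPA74
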