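import Pool.Agent.LibLPA74.S1

/-!
[LP S2] Positivity in a split subalgebra.
`pos`: take the resolution `η, c` of `e`.  For `b = x q_u` (`x ∈ C`, `u ∈ W`):
`b = e b = ∑_i η_i (η_i* b)`, where `η_i* b = q (c i) (η_i* x) q u` (because
`η_i = η_i q (c i)`, `star (q _) = q _`) is `0` if `c i ≠ u` and `z_i • q u` if `c i = u`.  Hence
`b* b = ∑_i (η_i* b)* (η_i* b)`  (since `e = ∑ η_i η_i*`) `= (∑_{c i = u} |z_i|²) • q u`, and if
the sum of squares is `0`, all `z_i = 0` and `b = 0`.
`proper`: suppose `a ≠ 0`.  `a = a e = ∑ a η_i η_i*`, so `a η_i = a η_i q (c i) ≠ 0` for some `i`;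
multiply `a* a + b* b = 0` by `η_i*` and `η_i`: with `pos` for `a η_i`, `b η_i` we get
`(l + m) • q (c i) = 0` with `l, m ≥ 0`, `l ≠ 0` (as `a η_i ≠ 0`), so `q (c i) = 0`, so
`a η_i = 0`, contradiction.
-/

namespace LPA74

variable {A : Type} [NonUnitalRing A] [StarRing A] [Module ℂ A] [IsScalarTower ℂ A A]
  [SMulCommClass ℂ A A] [StarModule ℂ A]

variable {C : NonUnitalStarSubalgebra ℂ A} {e : A} {U : Type} {W : Finset U} {q : U → A}

theorem Spl.pos (h : Spl C e W q) {u : U} (hu : u ∈ W) {x : A} (hx : x ∈ C) :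
    ∃ l : ℝ, 0 ≤ l ∧ star (x * q u) * (x * q u) = (l : ℂ) • q u ∧ (l = 0 → x * q u = 0) := by
  obtain ⟨ι, hf, hd, η, c, h1, h2, h3⟩ := h.res
  have hqu := h.q_pj u hu
  have hz : ∀ i, ∃ z : ℂ, star (η i) * (x * q u) = z • q u := by
    intro i
    have h4 : star (η i) = q (c i) * star (η i) := by
      have h5 := congrArg star (h1 i).2.2
      rw [star_mul, (h.q_pj (c i) (h1 i).1).2] at h5
      exact h5.symm
    have h6 : star (η i) * x ∈ C := mul_mem (star_mem (h1 i).2.1) hx
    have h7 : star (η i) * (x * q u) = q (c i) * (star (η i) * x) * q u := by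
      calc star (η i) * (x * q u) = (q (c i) * star (η i)) * (x * q u) := by rw [← h4]
        _ = q (c i) * (star (η i) * x) * q u := by simp only [mul_assoc]
    rw [h7]
    by_cases hc : c i = u
    · rw [hc]
      exact h.q_sand u hu _ h6
    · refine ⟨0, ?_⟩
      rw [zero_smul]
      exact h.q_orth (c i) (h1 i).1 u hu hc _ h6
  choose z hz using hz
  have hb : x * q u ∈ C := mul_mem hx (h.q_mem u hu)
  have heb := h.e_mul _ hb
  refine ⟨∑ i, ‖z i‖ ^ 2, Finset.sum_nonneg fun i _ => sq_nonneg _, ?_, ?_⟩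
  · have h8 : star (x * q u) * (x * q u) =
        ∑ i, star (star (η i) * (x * q u)) * (star (η i) * (x * q u)) := by
      calc star (x * q u) * (x * q u) = star (x * q u) * (e * (x * q u)) := by rw [heb]
        _ = ∑ i, star (x * q u) * ((η i * star (η i)) * (x * q u)) := by
            rw [h3, Finset.sum_mul, Finset.mul_sum]
        _ = ∑ i, star (star (η i) * (x * q u)) * (star (η i) * (x * q u)) := by
            apply Finset.sum_congr rfl
            intro i _
            rw [star_mul (star (η i)) (x * q u), star_star]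
            simp only [mul_assoc]
    rw [h8]
    have h9 : ∀ i, star (star (η i) * (x * q u)) * (star (η i) * (x * q u)) =
        ((‖z i‖ ^ 2 : ℝ) : ℂ) • q u := by
      intro i
      rw [hz i, star_smul, hqu.2, smul_mul_smul_comm, hqu.1]
      congr 1
      rw [Complex.star_def, ← Complex.normSq_eq_conj_mul_self, Complex.normSq_eq_norm_sq]
    simp only [h9]
    rw [← Finset.sum_smul, Complex.ofReal_sum]
  · intro hl
    have h10 : ∀ i, z i = 0 := by
      intro i
      have h11 := (Finset.sum_eq_zero_iff_of_nonneg (fun i _ => sq_nonneg ‖z i‖)).1 hl i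
        (Finset.mem_univ i)
      have h12 : ‖z i‖ = 0 := by
        exact pow_eq_zero_iff (two_ne_zero) |>.1 h11
      exact norm_eq_zero.1 h12
    rw [← heb, h3, Finset.sum_mul]
    apply Finset.sum_eq_zero
    intro i _
    rw [mul_assoc, hz i, h10 i, zero_smul, mul_zero]

theorem Spl.proper (h : Spl C e W q) {a b : A} (ha : a ∈ C) (hb : b ∈ C)
    (hab : star a * a + star b * b = 0) : a = 0 := by
  obtain ⟨ι, hf, hd, η, c, h1, h2, h3⟩ := h.res
  have key : ∀ i, a * η i = 0 := by
    intro i
    have hηC := (h1 i).2.1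
    have hηq := (h1 i).2.2
    have hqc := h.q_pj (c i) (h1 i).1
    obtain ⟨l, hl0, hl1, hl2⟩ := h.pos (h1 i).1 (mul_mem ha hηC)
    obtain ⟨m, hm0, hm1, hm2⟩ := h.pos (h1 i).1 (mul_mem hb hηC)
    have ea : a * η i * q (c i) = a * η i := by rw [mul_assoc, hηq]
    have eb : b * η i * q (c i) = b * η i := by rw [mul_assoc, hηq]
    rw [ea] at hl1 hl2
    rw [eb] at hm1 hm2
    have h4 : star (a * η i) * (a * η i) + star (b * η i) * (b * η i) = 0 := by
      calc star (a * η i) * (a * η i) + star (b * η i) * (b * η i)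
          = star (η i) * ((star a * a + star b * b) * η i) := by
            rw [star_mul, star_mul, add_mul, mul_add]
            simp only [mul_assoc]
        _ = 0 := by rw [hab, zero_mul, mul_zero]
    rw [hl1, hm1, ← add_smul] at h4
    by_contra hne
    have hlne : l ≠ 0 := fun h5 => hne (hl2 h5)
    have hlm : ((l : ℂ) + (m : ℂ)) ≠ 0 := by
      rw [← Complex.ofReal_add]
      have h6 : 0 < l := lt_of_le_of_ne hl0 (Ne.symm hlne)
      have h7 : 0 < l + m := by linarith
      exact_mod_cast h7.ne'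
    have hq0 : q (c i) = 0 := (smul_eq_zero.1 h4).resolve_left hlm
    apply hne
    rw [← ea, hq0, mul_zero]
  rw [← h.mul_e ha, h3, Finset.mul_sum]
  apply Finset.sum_eq_zero
  intro i _
  rw [← mul_assoc, key i, zero_mul]

end LPA74
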