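import Pool.Agent.LibLPA74.S2

/-!
[LP S3] `inv`: left multiplication by `z` is an injective linear map of the finite dimensional
space `C` (Spl.fd) to itself, so surjective: `z z' = e`; then `z (z' z - e) = 0`, so `z' z = e`.
`range`: `f ∈ C` idempotent.  `z = e - (f - f*)^2 = e - f - f* + f f* + f* f`, where
`(f - f*)* = -(f - f*)`, so `z = e + (f - f*)* (f - f*)`.  If `z a = 0` (`a ∈ C`) then
`0 = a* z a = a* a + b* b` with `b = (f - f*) a`, so `a = 0` by `Spl.proper`.  So `z z' = z' z = e`.
`f z = f f* f = z f`, `f* z = f* f f* = z f*`; so `z'` commutes with `f`, `f*`; `star z = z`,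
`star z' = z'`.  `p = f f* z'`:
`p p = f f* f f* z' z' = f z f* z' z' = f f* z' = p`, `star p = z' f f* = p`, `f p = p`,
`p f = z' f f* f = z' z f = f`.
`df` (direct finiteness): `x, y ∈ C`, `x y = e1`, `y x = f`, with `e1 f = f = f e1`; on the finite
dimensional space `{c ∈ C | e1 c = c}` left multiplication by `y' = f y`... simplest: the map
`c ↦ y c` from `{c ∈ C | e1 c = c}` to `{c ∈ C | f c = c}` is a linear isomorphism (inverse
`c ↦ x c`), and the latter is a subspace of the former, so they are equal, and `e1` is in the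
former, so `f e1 = e1`.
-/

namespace LPA74

variable {A : Type} [NonUnitalRing A] [StarRing A] [Module ℂ A] [IsScalarTower ℂ A A]
  [SMulCommClass ℂ A A] [StarModule ℂ A]

variable {C : NonUnitalStarSubalgebra ℂ A} {e : A} {U : Type} {W : Finset U} {q : U → A}

theorem Spl.inv (h : Spl C e W q) {z : A} (hz : z ∈ C) (hinj : ∀ a ∈ C, z * a = 0 → a = 0) :
    ∃ z' ∈ C, z * z' = e ∧ z' * z = e := by
  haveI := h.fd
  let T : C →ₗ[ℂ] C :=
    { toFun := fun a => ⟨z * a, mul_mem hz a.2⟩
      map_add' := fun a b => Subtype.ext (by simp [mul_add])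
      map_smul' := fun c a => Subtype.ext (by simp [mul_smul_comm]) }
  have hT : Function.Injective T := by
    rw [← LinearMap.ker_eq_bot, LinearMap.ker_eq_bot']
    intro a ha
    exact Subtype.ext (hinj a a.2 (congrArg Subtype.val ha))
  obtain ⟨⟨z', hz'⟩, h1⟩ := (LinearMap.injective_iff_surjective.1 hT) ⟨e, h.e_mem⟩
  have h2 : z * z' = e := congrArg Subtype.val h1
  refine ⟨z', hz', h2, ?_⟩
  have h3 : z * (z' * z - e) = 0 := by
    rw [mul_sub, ← mul_assoc, h2, h.e_mul z hz, h.mul_e hz, sub_self]
  exact sub_eq_zero.1 (hinj _ (sub_mem (mul_mem hz' hz) h.e_mem) h3)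

theorem Spl.range (h : Spl C e W q) {f : A} (hf : f ∈ C) (hff : f * f = f) :
    ∃ p ∈ C, Pj p ∧ f * p = p ∧ p * f = f := by
  have hg : star f ∈ C := star_mem hf
  have hgg : star f * star f = star f := by
    rw [← star_mul, hff]
  have hef := h.e_mul f hf
  have hfe := h.mul_e hf
  have heg := h.e_mul _ hg
  have hge := h.mul_e hg
  obtain ⟨g, hgdef⟩ : ∃ g, g = star f := ⟨_, rfl⟩
  have hsg : star g = f := by rw [hgdef, star_star]
  rw [← hgdef] at hg hgg heg hge
  obtain ⟨z, hzdef⟩ : ∃ z, z = e - f - g + f * g + g * f := ⟨_, rfl⟩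
  have hzC : z ∈ C := by
    rw [hzdef]
    exact add_mem (add_mem (sub_mem (sub_mem h.e_mem hf) hg) (mul_mem hf hg)) (mul_mem hg hf)
  have hfz : f * z = f * g * f := by
    have h1 : f * z = f * e - f * f - f * g + (f * f) * g + f * g * f := by
      rw [hzdef]
      simp only [mul_add, mul_sub, mul_assoc]
    rw [h1, hfe, hff]
    abel
  have hzf : z * f = f * g * f := by
    have h1 : z * f = e * f - f * f - g * f + f * g * f + g * (f * f) := by
      rw [hzdef]
      simp only [add_mul, sub_mul, mul_assoc]
    rw [h1, hef, hff]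
    abel
  have hgz : g * z = g * f * g := by
    have h1 : g * z = g * e - g * f - g * g + g * f * g + (g * g) * f := by
      rw [hzdef]
      simp only [mul_add, mul_sub, mul_assoc]
    rw [h1, hge, hgg]
    abel
  have hzg : z * g = g * f * g := by
    have h1 : z * g = e * g - f * g - g * g + f * (g * g) + g * f * g := by
      rw [hzdef]
      simp only [add_mul, sub_mul, mul_assoc]
    rw [h1, heg, hgg]
    abel
  have hstar : star z = z := by
    rw [hzdef]
    simp only [star_add, star_sub, star_mul, hsg, ← hgdef, h.star_e]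
    abel
  have hinj : ∀ a ∈ C, z * a = 0 → a = 0 := by
    intro a ha hza
    refine h.proper (b := (f - g) * a) ha (mul_mem (sub_mem hf hg) ha) ?_
    have h1 : star a * a + star ((f - g) * a) * ((f - g) * a) = star a * (z * a) := by
      have h2 : star ((f - g) * a) = star a * (g - f) := by
        rw [star_mul, star_sub, hsg, ← hgdef]
      rw [h2]
      have h3 : star a * (g - f) * ((f - g) * a) =
          star a * ((g * f - g * g - f * f + f * g) * a) := by
        simp only [sub_mul, mul_sub, add_mul, mul_add, mul_assoc]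
        abel
      rw [h3, hgg, hff, ← mul_add]
      congr 1
      have h4 : a = e * a := (h.e_mul a ha).symm
      calc a + (g * f - g - f + f * g) * a = e * a + (g * f - g - f + f * g) * a := by
            rw [← h4]
        _ = z * a := by
            rw [← add_mul, hzdef]
            congr 1
            abel
    rw [h1, hza, mul_zero]
  obtain ⟨z', hz', h1, h2⟩ := h.inv hzC hinj
  have hez' := h.e_mul z' hz'
  have hz'e := h.mul_e hz'
  have hcf : f * z' = z' * f := by
    calc f * z' = e * f * z' := by rw [hef]
      _ = z' * (z * f) * z' := by rw [← h2]; simp only [mul_assoc]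
      _ = z' * (f * z) * z' := by rw [hzf, hfz]
      _ = z' * f * (z * z') := by simp only [mul_assoc]
      _ = z' * f := by rw [h1, mul_assoc, hfe]
  have hcg : g * z' = z' * g := by
    calc g * z' = e * g * z' := by rw [heg]
      _ = z' * (z * g) * z' := by rw [← h2]; simp only [mul_assoc]
      _ = z' * (g * z) * z' := by rw [hzg, hgz]
      _ = z' * g * (z * z') := by simp only [mul_assoc]
      _ = z' * g := by rw [h1, mul_assoc, hge]
  have hsz' : star z' = z' := by
    have h3 : star z' * z = e := by
      have h4 := congrArg star h1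
      rw [star_mul, hstar, h.star_e] at h4
      exact h4
    calc star z' = star z' * e := (h.mul_e (star_mem hz')).symm
      _ = star z' * z * z' := by rw [← h1, mul_assoc]
      _ = z' := by rw [h3, hez']
  have hpf : f * g * z' * f = f := by
    calc f * g * z' * f = f * g * (f * z') := by rw [hcf, ← mul_assoc]
      _ = f * g * f * z' := by rw [← mul_assoc]
      _ = f * z * z' := by rw [hfz]
      _ = f := by rw [mul_assoc, h1, hfe]
  have hfp : f * (f * g * z') = f * g * z' := by
    rw [← mul_assoc, ← mul_assoc, hff]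
  refine ⟨f * g * z', mul_mem (mul_mem hf hg) hz', ⟨?_, ?_⟩, hfp, hpf⟩
  · calc f * g * z' * (f * g * z') = f * g * z' * f * (g * z') := by
          simp only [mul_assoc]
      _ = f * g * z' := by rw [hpf, ← mul_assoc]
  · rw [star_mul, star_mul, hsg, ← hgdef, hsz']
    calc z' * (f * g) = z' * f * g := by rw [mul_assoc]
      _ = f * (z' * g) := by rw [← hcf, mul_assoc]
      _ = f * g * z' := by rw [← hcg, mul_assoc]

theorem Spl.df (h : Spl C e W q) {e1 f : A} (hef : EqvIn C e1 f) (h1 : e1 * f = f)
    (h2 : f * e1 = f) : f = e1 := by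
  obtain ⟨x, hx, y, hy, hxy, hyx, hxyx, hyxy⟩ := hef
  haveI := h.fd
  let S : Submodule ℂ C :=
    { carrier := {c | e1 * (c : A) = c}
      zero_mem' := by simp
      add_mem' := by
        intro a b ha hb
        change e1 * ((a : A) + b) = a + b
        change e1 * (a : A) = a at ha
        change e1 * (b : A) = b at hb
        rw [mul_add, ha, hb]
      smul_mem' := by
        intro c a ha
        change e1 * (c • (a : A)) = c • (a : A)
        change e1 * (a : A) = a at ha
        rw [mul_smul_comm, ha] }
  have hmemS : ∀ c : C, c ∈ S ↔ e1 * (c : A) = c := fun c => Iff.rfl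
  have hyS : ∀ c : C, e1 * (y * (c : A)) = y * c := by
    intro c
    have h3 : y * (c : A) = f * (y * c) := by
      rw [← mul_assoc, ← hyx, hyxy]
    rw [h3, ← mul_assoc, h1]
  let T : S →ₗ[ℂ] S :=
    { toFun := fun c => ⟨⟨y * ((c : C) : A), mul_mem hy c.1.2⟩, (hmemS _).2 (hyS c.1)⟩
      map_add' := fun a b => Subtype.ext (Subtype.ext (by simp [mul_add]))
      map_smul' := fun c a => Subtype.ext (Subtype.ext (by simp [mul_smul_comm])) }
  have hT : Function.Injective T := by
    rw [← LinearMap.ker_eq_bot, LinearMap.ker_eq_bot']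
    intro a ha
    have h3 : y * ((a : C) : A) = 0 := congrArg (fun t : S => ((t : C) : A)) ha
    have h4 : e1 * ((a : C) : A) = (a : C) := (hmemS _).1 a.2
    have h5 : ((a : C) : A) = 0 := by
      rw [← h4, ← hxy, mul_assoc, h3, mul_zero]
    exact Subtype.ext (Subtype.ext h5)
  have he1C : e1 ∈ C := by
    rw [← hxy]
    exact mul_mem hx hy
  have he1 : e1 * e1 = e1 := by
    calc e1 * e1 = x * y * x * y := by rw [← hxy, mul_assoc (x * y)]
      _ = e1 := by rw [hxyx, hxy]
  obtain ⟨c, hc⟩ := (LinearMap.injective_iff_surjective.1 hT) ⟨⟨e1, he1C⟩, (hmemS _).2 he1⟩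
  have h3 : y * ((c : C) : A) = e1 := congrArg (fun t : S => ((t : C) : A)) hc
  calc f = f * e1 := h2.symm
    _ = f * (y * ((c : C) : A)) := by rw [h3]
    _ = y * ((c : C) : A) := by rw [← mul_assoc, ← hyx, hyxy]
    _ = e1 := h3

end LPA74
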