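import Pool.Agent.LibLPA74.B1

/-!
[LP V1] First facts on the cycle `x f = ed f * pe (y f) (s f)`, `f ∈ D`.
`pe (y f) (s f)` has `pe* pe = vx (s f)`, `pe pe* = vx (r f)` (`K.hy`, `K.hyn`, rows of `B1`);
`ed f * star (ed f) = vx (s f)` by `vx_eq_sum` with `S = {f}` (`K.hu`).
-/

namespace LPA74

variable {E : Gph} (K : Cyc E) {f : E.Ed}

theorem Cyc.py_star (hf : f ∈ K.D) :
    pe (K.y f) (E.s f) * star (pe (K.y f) (E.s f)) = vx (E.r f) := by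
  rw [pe_mul_star_pe (K.hy f hf).1 (fun g hg => (K.hyn f hf g hg).2), (K.hy f hf).2]

theorem Cyc.star_py (hf : f ∈ K.D) :
    star (pe (K.y f) (E.s f)) * pe (K.y f) (E.s f) = vx (E.s f) :=
  star_pe_mul_pe (K.hy f hf).1

theorem Cyc.vx_py (hf : f ∈ K.D) :
    vx (E.r f) * pe (K.y f) (E.s f) = pe (K.y f) (E.s f) := by
  have h := vx_mul_pe (K.y f) (E.s f)
  rwa [(K.hy f hf).2] at h

theorem Cyc.py_mem (hf : f ∈ K.D) : pe (K.y f) (E.s f) ∈ K.A0 :=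
  pe_mem (fun g hg => NonUnitalStarAlgebra.subset_adjoin ℂ _
    (Or.inr ⟨g, (K.hyn f hf g hg).1, rfl⟩))
    (NonUnitalStarAlgebra.subset_adjoin ℂ _ (Or.inl ⟨_, rfl⟩))

theorem Cyc.vx_mem (a : E.V) : vx a ∈ K.A0 :=
  NonUnitalStarAlgebra.subset_adjoin ℂ _ (Or.inl ⟨_, rfl⟩)

theorem Cyc.ed_mem {g : E.Ed} (hg : g ∉ K.D) : ed g ∈ K.A0 :=
  NonUnitalStarAlgebra.subset_adjoin ℂ _ (Or.inr ⟨g, hg, rfl⟩)

theorem Cyc.x_mul_star (hf : f ∈ K.D) : K.x f * star (K.x f) = vx (E.s f) := by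
  have h1 : (vx (E.s f) : LA E) = ed f * star (ed f) := by
    rw [vx_eq_sum (E.s f) {f} (Finset.singleton_nonempty f), Finset.sum_singleton]
    intro g
    rw [Finset.mem_singleton]
    constructor
    · rintro rfl
      rfl
    · intro h
      exact K.hu f hf g h
  rw [Cyc.x, star_mul, mul_assoc, ← mul_assoc (pe (K.y f) (E.s f)), K.py_star hf, ← mul_assoc,
    ed_mul_vx, h1]

theorem Cyc.star_mul_x (hf : f ∈ K.D) : star (K.x f) * K.x f = vx (E.s f) := by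
  rw [Cyc.x, star_mul, mul_assoc, ← mul_assoc (star (ed f)), star_ed_mul_ed, K.vx_py hf,
    K.star_py hf]

theorem Cyc.vx_mul_x (f : E.Ed) : vx (E.s f) * K.x f = K.x f := by
  rw [Cyc.x, ← mul_assoc, vx_mul_ed]

theorem Cyc.x_mul_vx (f : E.Ed) : K.x f * vx (E.s f) = K.x f := by
  rw [Cyc.x, mul_assoc, pe_mul_vx]

theorem Cyc.ed_eq (hf : f ∈ K.D) : ed f = K.x f * star (pe (K.y f) (E.s f)) := by
  rw [Cyc.x, mul_assoc, K.py_star hf, ed_mul_vx]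

end LPA74
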