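import Pool.Agent.LibLPA74.V1

/-!
[LP V2] Powers of the cycle.  First `x f * xp f n = xp f (n+1)` and
`star (x f) * xp f n = xp f (n-1)` for all `n : ℤ` (cases on `Int.ofNat`, `Int.negSucc`, with
`Function.iterate_succ'`, `V1`), `vx * xp = xp = xp * vx`; then `xp f (m+n) = xp f m * xp f n` by
`Int.induction_on m`; `star (xp f n) * xp f n`...; `star_xp`: uniqueness of the inverse in the
corner, or induction.
-/

namespace LPA74

variable {E : Gph} (K : Cyc E) {f : E.Ed}

private theorem v2_ofNat_succ (f : E.Ed) (n : ℕ) :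
    K.xp f ((n + 1 : ℕ) : ℤ) = K.x f * K.xp f (n : ℤ) := by
  change (fun z => K.x f * z)^[n + 1] (vx (E.s f)) = K.x f * (fun z => K.x f * z)^[n] (vx (E.s f))
  rw [Function.iterate_succ_apply']

private theorem v2_negSucc_succ (f : E.Ed) (n : ℕ) :
    K.xp f (Int.negSucc (n + 1)) = star (K.x f) * K.xp f (Int.negSucc n) := by
  change (fun z => star (K.x f) * z)^[n + 1 + 1] (vx (E.s f)) =
    star (K.x f) * (fun z => star (K.x f) * z)^[n + 1] (vx (E.s f))
  rw [Function.iterate_succ_apply' _ (n + 1)]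

private theorem v2_vx_star_x (f : E.Ed) : vx (E.s f) * star (K.x f) = star (K.x f) := by
  have h := congrArg star (K.x_mul_vx f)
  rwa [star_mul, star_vx] at h

private theorem v2_star_x_vx (f : E.Ed) : star (K.x f) * vx (E.s f) = star (K.x f) := by
  have h := congrArg star (K.vx_mul_x f)
  rwa [star_mul, star_vx] at h

theorem Cyc.xp_zero (f : E.Ed) : K.xp f 0 = vx (E.s f) := rfl

private theorem v2_neg_one (f : E.Ed) : K.xp f (Int.negSucc 0) = star (K.x f) := by
  change star (K.x f) * vx (E.s f) = star (K.x f)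
  exact v2_star_x_vx K f

theorem Cyc.xp_one (f : E.Ed) : K.xp f 1 = K.x f := by
  change K.x f * vx (E.s f) = K.x f
  exact K.x_mul_vx f

theorem Cyc.vx_mul_xp (n : ℤ) : vx (E.s f) * K.xp f n = K.xp f n := by
  rcases n with n | n
  · rcases n with _ | n
    · change vx (E.s f) * vx (E.s f) = vx (E.s f)
      exact vx_mul_self _
    · have h := v2_ofNat_succ K f n
      change K.xp f (Int.ofNat (n + 1)) = _ at h
      rw [h, ← mul_assoc, K.vx_mul_x]
  · rcases n with _ | n
    · rw [v2_neg_one, v2_vx_star_x]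
    · rw [v2_negSucc_succ, ← mul_assoc, v2_vx_star_x]

theorem Cyc.xp_mul_vx (n : ℤ) : K.xp f n * vx (E.s f) = K.xp f n := by
  rcases n with n | n
  · induction n with
    | zero =>
      change vx (E.s f) * vx (E.s f) = vx (E.s f)
      exact vx_mul_self _
    | succ n ih =>
      have h := v2_ofNat_succ K f n
      change K.xp f (Int.ofNat (n + 1)) = K.x f * K.xp f (Int.ofNat n) at h
      rw [h, mul_assoc, ih]
  · induction n with
    | zero => rw [v2_neg_one, v2_star_x_vx]
    | succ n ih => rw [v2_negSucc_succ, mul_assoc, ih]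

theorem Cyc.x_mul_xp (hf : f ∈ K.D) (n : ℤ) : K.x f * K.xp f n = K.xp f (n + 1) := by
  rcases n with n | n
  · exact (v2_ofNat_succ K f n).symm
  · rcases n with _ | n
    · rw [v2_neg_one, K.x_mul_star hf]
      rfl
    · rw [v2_negSucc_succ, ← mul_assoc, K.x_mul_star hf, K.vx_mul_xp]
      rfl

theorem Cyc.star_x_mul_xp (hf : f ∈ K.D) (n : ℤ) :
    star (K.x f) * K.xp f n = K.xp f (n - 1) := by
  have h := K.x_mul_xp hf (n - 1)
  rw [sub_add_cancel] at h
  rw [← h, ← mul_assoc, K.star_mul_x hf, K.vx_mul_xp]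

theorem Cyc.xp_add (hf : f ∈ K.D) (m n : ℤ) : K.xp f (m + n) = K.xp f m * K.xp f n := by
  induction m using Int.induction_on with
  | zero => rw [zero_add, K.xp_zero, K.vx_mul_xp]
  | succ m ih =>
    have h1 : (m : ℤ) + 1 + n = (m + n) + 1 := by ring
    rw [h1, ← K.x_mul_xp hf, ih, ← K.x_mul_xp hf, mul_assoc]
  | pred m ih =>
    have h1 : -(m : ℤ) - 1 + n = (-m + n) - 1 := by ring
    rw [h1, ← K.star_x_mul_xp hf, ih, ← K.star_x_mul_xp hf, mul_assoc]

theorem Cyc.star_xp (hf : f ∈ K.D) (n : ℤ) : star (K.xp f n) = K.xp f (-n) := by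
  have hneg : K.xp f (-1) = star (K.x f) := v2_neg_one K f
  induction n using Int.induction_on with
  | zero => rw [neg_zero, K.xp_zero, star_vx]
  | succ m ih =>
    have h1 : -((m : ℤ) + 1) = -m + -1 := by ring
    rw [h1, K.xp_add hf (-m) (-1), hneg, ← ih, ← star_mul, K.x_mul_xp hf]
  | pred m ih =>
    have h1 : -(-(m : ℤ) - 1) = - -(m : ℤ) + 1 := by ring
    rw [h1, K.xp_add hf _ 1, K.xp_one, ← ih, ← K.star_x_mul_xp hf, star_mul, star_star]

theorem Cyc.xp_mem {C : NonUnitalStarSubalgebra ℂ (LA E)} (h1 : K.x f ∈ C)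
    (h2 : vx (E.s f) ∈ C) (n : ℤ) : K.xp f n ∈ C := by
  rcases n with n | n
  · induction n with
    | zero => exact h2
    | succ n ih =>
      have h := v2_ofNat_succ K f n
      change K.xp f (Int.ofNat (n + 1)) = K.x f * K.xp f (Int.ofNat n) at h
      rw [h]
      exact mul_mem h1 ih
  · induction n with
    | zero =>
      rw [v2_neg_one]
      exact star_mem h1
    | succ n ih =>
      rw [v2_negSucc_succ]
      exact mul_mem (star_mem h1) ih

end LPA74
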