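import Pool.Agent.LibLPA74.V2
import Pool.Agent.LibLPA74.EQ

/-!
[LP V3] The evaluations `x f ↦ z`, `|z| = 1`: by `LA.lift` for the family `P = vx`,
`Sg g = ed g` if `g ∉ D`, `Sg f = z • star (pe (y f) (s f))` if `f ∈ D` (classical `if`).
CK relations for `f ∈ D` from `V1` (`py_star`, `star_py`, `vx_py`, `K.hu`): `star (Sg f) * Sg f
= (conj z * z) • pe pe* = vx (r f)`, `Sg f * star (Sg f) = pe* pe = vx (s f)`; `ck1'` for
`f ∈ D`, `g ≠ f`: `s g ≠ s f` by `K.hu`, so `Sg f` and `Sg g` have orthogonal sources;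
`ck2`: if `f ∈ D` and `s f = a` then `S = {f}`; otherwise all edges of `S` are outside `D`.
Membership in `A0`: `LA.induction`; identity on `A0`: `NonUnitalStarAlgebra.adjoin_induction`.
`K.ev` is the case `z = 1`.
-/

namespace LPA74

variable {E : Gph} (K : Cyc E) {f : E.Ed}

theorem Cyc.exists_ev (z : ℂ) (hz : ‖z‖ = 1) : ∃ φ : LA E →⋆ₙₐ[ℂ] LA E,
    (∀ x, φ x ∈ K.A0) ∧ (∀ x ∈ K.A0, φ x = x) ∧ ∀ f ∈ K.D, φ (K.x f) = z • vx (E.s f) := by
  classical
  have hzz : star z * z = 1 := by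
    have h1 : starRingEnd ℂ z * z = 1 := by
      rw [mul_comm, Complex.mul_conj, Complex.normSq_eq_norm_sq, hz]
      simp
    exact h1
  have hzz' : z * star z = 1 := by rw [mul_comm, hzz]
  obtain ⟨Sg, hSD, hSN⟩ : ∃ Sg : E.Ed → LA E,
      (∀ g ∈ K.D, Sg g = z • star (pe (K.y g) (E.s g))) ∧ ∀ g, g ∉ K.D → Sg g = ed g :=
    ⟨fun g => if g ∈ K.D then z • star (pe (K.y g) (E.s g)) else ed g,
      fun g hg => if_pos hg, fun g hg => if_neg hg⟩
  have hse : ∀ g, vx (E.s g) * Sg g = Sg g := by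
    intro g
    by_cases hg : g ∈ K.D
    · have h := congrArg star (pe_mul_vx (K.y g) (E.s g))
      rw [star_mul, star_vx] at h
      rw [hSD g hg, mul_smul_comm, h]
    · rw [hSN g hg, vx_mul_ed]
  have her : ∀ g, Sg g * vx (E.r g) = Sg g := by
    intro g
    by_cases hg : g ∈ K.D
    · have h := congrArg star (K.vx_py hg)
      rw [star_mul, star_vx] at h
      rw [hSD g hg, smul_mul_assoc, h]
    · rw [hSN g hg, ed_mul_vx]
  have hck1 : ∀ g, star (Sg g) * Sg g = vx (E.r g) := by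
    intro g
    by_cases hg : g ∈ K.D
    · rw [hSD g hg, star_smul, star_star, smul_mul_smul_comm, hzz, one_smul, K.py_star hg]
    · rw [hSN g hg, star_ed_mul_ed]
  have hss : ∀ g ∈ K.D, Sg g * star (Sg g) = vx (E.s g) := by
    intro g hg
    rw [hSD g hg, star_smul, star_star, smul_mul_smul_comm, hzz', one_smul, K.star_py hg]
  have horth0 : ∀ g g', E.s g ≠ E.s g' → star (Sg g) * Sg g' = 0 := by
    intro g g' h
    have h1 := congrArg star (hse g)
    rw [star_mul, star_vx] at h1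
    rw [← h1, ← hse g', mul_assoc, ← mul_assoc (vx (E.s g)), vx_mul_ne h, zero_mul, mul_zero]
  have horth : ∀ g g', g ≠ g' → star (Sg g) * Sg g' = 0 := by
    intro g g' h
    by_cases hg : g ∈ K.D
    · refine horth0 g g' fun h1 => h ?_
      exact (K.hu g hg g' h1.symm).symm
    · by_cases hg' : g' ∈ K.D
      · refine horth0 g g' fun h1 => h ?_
        exact K.hu g' hg' g h1
      · rw [hSN g hg, hSN g' hg', star_ed_mul_ed_ne h]
  have hck2 : ∀ (a : E.V) (S : Finset E.Ed), S.Nonempty → (∀ f, f ∈ S ↔ E.s f = a) →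
      vx a = ∑ f ∈ S, Sg f * star (Sg f) := by
    intro a S h0 hS
    by_cases hD : ∃ g ∈ S, g ∈ K.D
    · obtain ⟨g, hgS, hgD⟩ := hD
      have h1 : E.s g = a := (hS g).1 hgS
      have h2 : S = {g} := by
        ext g'
        rw [Finset.mem_singleton]
        constructor
        · intro h3
          exact K.hu g hgD g' (((hS g').1 h3).trans h1.symm)
        · rintro rfl
          exact hgS
      rw [h2, Finset.sum_singleton, hss g hgD, h1]
    · rw [vx_eq_sum a S h0 hS]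
      refine Finset.sum_congr rfl fun g hg => ?_
      rw [hSN g fun h1 => hD ⟨g, hg, h1⟩]
  obtain ⟨φ, hφv, hφe⟩ := LA.lift (E := E) (B := LA E) (P := vx) (Sg := Sg)
    ⟨vx_mul_self, star_vx, fun _ _ h => vx_mul_ne h, hse, her, hck1, horth, hck2⟩
  have hmem : ∀ x, φ x ∈ K.A0 := by
    refine LA.induction ?_ ?_ ?_ ?_ ?_ ?_ ?_
    · intro a
      rw [hφv]
      exact K.vx_mem a
    · intro g
      rw [hφe]
      by_cases hg : g ∈ K.D
      · rw [hSD g hg]
        exact SMulMemClass.smul_mem z (star_mem (K.py_mem hg))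
      · rw [hSN g hg]
        exact K.ed_mem hg
    · rw [map_zero]
      exact zero_mem _
    · intro x y hx hy
      rw [map_add]
      exact add_mem hx hy
    · intro x y hx hy
      rw [map_mul]
      exact mul_mem hx hy
    · intro c x hx
      rw [map_smul]
      exact SMulMemClass.smul_mem c hx
    · intro x hx
      rw [map_star]
      exact star_mem hx
  have hid : ∀ x ∈ K.A0, φ x = x := by
    intro x hx
    refine NonUnitalStarAlgebra.adjoin_induction (R := ℂ)
      (p := fun z (_ : z ∈ K.A0) => φ z = z) ?_ ?_ ?_ ?_ ?_ ?_ hx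
    · rintro w (⟨a, rfl⟩ | ⟨g, hg, rfl⟩)
      · exact hφv a
      · rw [hφe, hSN g hg]
    · intro x y _ _ h1 h2
      rw [map_add, h1, h2]
    · exact map_zero φ
    · intro x y _ _ h1 h2
      rw [map_mul, h1, h2]
    · intro c x _ h1
      rw [map_smul, h1]
    · intro x _ h1
      rw [map_star, h1]
  refine ⟨φ, hmem, hid, ?_⟩
  intro f hf
  rw [Cyc.x, map_mul, hφe, hSD f hf, hid _ (K.py_mem hf), smul_mul_assoc, K.star_py hf]

/-- consequence for the powers, from the three properties only. -/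
theorem Cyc.ev_xp_of {z : ℂ} (hz : ‖z‖ = 1) {φ : LA E →⋆ₙₐ[ℂ] LA E}
    (h2 : ∀ x ∈ K.A0, φ x = x) (h3 : ∀ f ∈ K.D, φ (K.x f) = z • vx (E.s f)) (hf : f ∈ K.D)
    (n : ℤ) : φ (K.xp f n) = z ^ n • vx (E.s f) := by
  have hz0 : z ≠ 0 := by
    rintro rfl
    rw [norm_zero] at hz
    exact zero_ne_one hz
  have hst : star z = z⁻¹ := by
    have h1 : starRingEnd ℂ z * z = 1 := by
      rw [mul_comm, Complex.mul_conj, Complex.normSq_eq_norm_sq, hz]
      simp
    exact eq_inv_of_mul_eq_one_left h1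
  induction n using Int.induction_on with
  | zero => rw [K.xp_zero, h2 _ (K.vx_mem _), zpow_zero, one_smul]
  | succ n ih =>
    rw [← K.x_mul_xp hf, map_mul, ih, h3 f hf, smul_mul_smul_comm, vx_mul_self,
      zpow_add_one₀ hz0, mul_comm]
  | pred n ih =>
    rw [← K.star_x_mul_xp hf, map_mul, ih, map_star, h3 f hf, star_smul, star_vx,
      smul_mul_smul_comm, vx_mul_self, zpow_sub_one₀ hz0, hst, mul_comm]

/-- evaluation at `1`. -/
noncomputable def Cyc.ev : LA E →⋆ₙₐ[ℂ] LA E := (K.exists_ev 1 norm_one).choose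

theorem Cyc.ev_mem (x : LA E) : K.ev x ∈ K.A0 := (K.exists_ev 1 norm_one).choose_spec.1 x

theorem Cyc.ev_of_mem {x : LA E} (hx : x ∈ K.A0) : K.ev x = x :=
  (K.exists_ev 1 norm_one).choose_spec.2.1 x hx

theorem Cyc.ev_xp (hf : f ∈ K.D) (n : ℤ) : K.ev (K.xp f n) = vx (E.s f) := by
  have h := K.ev_xp_of norm_one (φ := K.ev) (fun x hx => K.ev_of_mem hx)
    (K.exists_ev 1 norm_one).choose_spec.2.2 hf n
  rwa [one_zpow, one_smul] at h

theorem Cyc.eqvIn_ev {p q : LA E} (h : Eqv p q) : EqvIn K.A0 (K.ev p) (K.ev q) := by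
  obtain ⟨x, y, h1, h2, h3, h4⟩ := h
  refine ⟨K.ev x, K.ev_mem x, K.ev y, K.ev_mem y, ?_, ?_, ?_, ?_⟩
  · rw [← map_mul, h1]
  · rw [← map_mul, h2]
  · rw [← map_mul, ← map_mul, h3]
  · rw [← map_mul, ← map_mul, h4]

theorem Cyc.eqvIn_of_eqv {p q : LA E} (hp : p ∈ K.A0) (hq : q ∈ K.A0) (h : Eqv p q) :
    EqvIn K.A0 p q := by
  have h1 := K.eqvIn_ev h
  rwa [K.ev_of_mem hp, K.ev_of_mem hq] at h1

end LPA74
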